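import Mathlib

/-! one-variable and two-variable trigonometric inequalities -/

open Real

namespace Pool.Agent.H443CC

/-- `sin u * cos u ≤ u` for `u ≥ 0`. -/
lemma sin_mul_cos_le {u : ℝ} (hu : 0 ≤ u) : sin u * cos u ≤ u := by
  have h := Real.sin_le (by linarith : 0 ≤ 2 * u)
  rw [Real.sin_two_mul] at h
  linarith

/-- `u cos u ≤ sin u` on `[0, π/2]`. -/
lemma mul_cos_le_sin {u : ℝ} (hu : 0 ≤ u) (hu' : u ≤ π / 2) : u * cos u ≤ sin u := by
  rcases eq_or_lt_of_le hu' with h | h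
  · rw [h]; simp
  · rcases eq_or_lt_of_le hu with h0 | h0
    · rw [← h0]; simp
    · have hc : 0 < cos u := Real.cos_pos_of_mem_Ioo ⟨by linarith, h⟩
      have ht := Real.lt_tan h0 h
      rw [Real.tan_eq_sin_div_cos, lt_div_iff₀ hc] at ht
      exact ht.le

/-- Cusa–Huygens in the form `3 sin u cos u ≤ u (1 + 2 cos² u)`, `0 ≤ u ≤ π/2`. -/
lemma cusa {u : ℝ} (hu : 0 ≤ u) (hu' : u ≤ π / 2) :
    3 * (sin u * cos u) ≤ u * (1 + 2 * cos u ^ 2) := by
  set f : ℝ → ℝ := fun w => w * (1 + 2 * cos w ^ 2) - 3 * (sin w * cos w) with hf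
  have hmono : MonotoneOn f (Set.Icc 0 (π / 2)) := by
    apply monotoneOn_of_deriv_nonneg (convex_Icc _ _)
    · apply Continuous.continuousOn; fun_prop
    · intro w _; apply DifferentiableAt.differentiableWithinAt; fun_prop
    · intro w hw
      rw [interior_Icc] at hw
      have hd : HasDerivAt f (1 * (1 + 2 * cos w ^ 2) + w * (2 * (2 * cos w ^ 1 * (-sin w)))
          - 3 * (cos w * cos w + sin w * (-sin w))) w := by
        have h1 := (hasDerivAt_id w).mul (((Real.hasDerivAt_cos w).pow 2).const_mul 2 |>.const_add 1)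
        have h2 := ((Real.hasDerivAt_sin w).mul (Real.hasDerivAt_cos w)).const_mul 3
        convert! h1.sub h2 using 1
      rw [hd.deriv]
      have h1 := mul_cos_le_sin hw.1.le hw.2.le
      have hs : 0 ≤ sin w := Real.sin_nonneg_of_nonneg_of_le_pi hw.1.le (by linarith [hw.2, Real.pi_pos])
      have h2 := Real.sin_sq_add_cos_sq w
      nlinarith [mul_le_mul_of_nonneg_right h1 hs]
  have h0 : f 0 ≤ f u := hmono ⟨le_refl _, by positivity⟩ ⟨hu, hu'⟩ hu
  simp only [hf] at h0
  simp at h0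
  linarith

lemma aux_t {t : ℝ} (ht0 : 0 ≤ t) (ht1 : t ≤ π / 2) :
    0 ≤ π / 2 * (1 - cos t) - t + sin t * cos t := by
  set f : ℝ → ℝ := fun w => π / 2 * (1 - cos w) - w + sin w * cos w with hf
  have hder : ∀ w, HasDerivAt f (sin w * (π / 2 - 2 * sin w)) w := by
    intro w
    have h1 := ((Real.hasDerivAt_cos w).const_sub 1).const_mul (π / 2)
    have h2 := (Real.hasDerivAt_sin w).mul (Real.hasDerivAt_cos w)
    have h3 := (h1.sub (hasDerivAt_id w)).add h2
    convert! h3 using 1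
    have h4 := Real.sin_sq_add_cos_sq w
    linear_combination -h4
  have hpi4 : π / 4 < 1 := by linarith [Real.pi_lt_four]
  set t0 := arcsin (π / 4) with ht0d
  have hs0 : sin t0 = π / 4 := Real.sin_arcsin (by linarith [Real.pi_pos]) hpi4.le
  have ht00 : 0 ≤ t0 := Real.arcsin_nonneg.2 (by linarith [Real.pi_pos])
  have ht02 : t0 ≤ π / 2 := Real.arcsin_le_pi_div_two _
  have hpi := Real.pi_pos
  rcases le_total t t0 with h5 | h5
  · have hm : MonotoneOn f (Set.Icc 0 t0) := by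
      apply monotoneOn_of_deriv_nonneg (convex_Icc _ _)
      · apply Continuous.continuousOn; fun_prop
      · intro w _; exact (hder w).differentiableAt.differentiableWithinAt
      · intro w hw
        rw [interior_Icc] at hw
        rw [(hder w).deriv]
        have hs1 : 0 ≤ sin w := Real.sin_nonneg_of_nonneg_of_le_pi hw.1.le (by linarith [hw.2])
        have hs2 : sin w ≤ sin t0 := Real.sin_le_sin_of_le_of_le_pi_div_two (by linarith [hw.1]) ht02 hw.2.le
        rw [hs0] at hs2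
        exact mul_nonneg hs1 (by linarith)
    have h0 := hm ⟨le_refl _, ht00⟩ ⟨ht0, h5⟩ ht0
    have : f 0 = 0 := by simp [hf]
    change 0 ≤ f t
    linarith
  · have hm : AntitoneOn f (Set.Icc t0 (π / 2)) := by
      apply antitoneOn_of_deriv_nonpos (convex_Icc _ _)
      · apply Continuous.continuousOn; fun_prop
      · intro w _; exact (hder w).differentiableAt.differentiableWithinAt
      · intro w hw
        rw [interior_Icc] at hw
        rw [(hder w).deriv]
        have hs1 : 0 ≤ sin w := Real.sin_nonneg_of_nonneg_of_le_pi (by linarith [hw.1]) (by linarith [hw.2])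
        have hs2 : sin t0 ≤ sin w := Real.sin_le_sin_of_le_of_le_pi_div_two (by linarith) hw.2.le hw.1.le
        rw [hs0] at hs2
        exact mul_nonpos_of_nonneg_of_nonpos hs1 (by linarith)
    have h0 := hm ⟨h5, ht1⟩ ⟨ht02, le_refl _⟩ ht1
    have : f (π / 2) = 0 := by simp [hf]
    change 0 ≤ f t
    linarith

/-- `x + sin x cos x ≥ (π/2) sin x` on `[0, π]`. -/
lemma add_sin_cos_ge {x : ℝ} (hx : 0 ≤ x) (hx' : x ≤ π) : π / 2 * sin x ≤ x + sin x * cos x := by
  by_cases h : π / 2 ≤ x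
  · have ht : 0 ≤ x - π / 2 := by linarith
    have h1 := sin_mul_cos_le ht
    rw [Real.sin_sub_pi_div_two, Real.cos_sub_pi_div_two] at h1
    have h2 := Real.sin_le_one x
    have hpi := Real.pi_pos
    nlinarith
  · push Not at h
    have := aux_t (t := π / 2 - x) (by linarith) (by linarith)
    rw [Real.sin_pi_div_two_sub, Real.cos_pi_div_two_sub] at this
    linarith

/-- the algebraic core -/
lemma poly_core {C y : ℝ} (hC1 : C ≤ 1) (hy0 : 0 ≤ y) (hy1 : y ≤ 1) :
    (1 + 2 * C) * (1 + y) * (1 - C + y ^ 2 * C) ≤ 3 * (1 - C + y ^ 2 * C + y ^ 2) := by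
  have key : 3 * (1 - C + y ^ 2 * C + y ^ 2) - (1 + 2 * C) * (1 + y) * (1 - C + y ^ 2 * C)
      = (1 - y) * (2 * ((1 + y) * (1 - C) - y) ^ 2 + y ^ 2) + y * ((1 + y) * (1 - C)) * (1 + y) := by
    ring
  have h1 : 0 ≤ (1 - y) * (2 * ((1 + y) * (1 - C) - y) ^ 2 + y ^ 2) :=
    mul_nonneg (by linarith) (by positivity)
  have h2 : 0 ≤ y * ((1 + y) * (1 - C)) * (1 + y) :=
    mul_nonneg (mul_nonneg hy0 (mul_nonneg (by linarith) (by linarith))) (by linarith)
  linarith

/-- two-angle inequality for `0 ≤ u < v < π/2` -/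
lemma uv_core {u v : ℝ} (hu : 0 ≤ u) (huv : u ≤ v) (hv : v < π / 2) :
    sin u * cos u ^ 2 * (sin v * cos u + cos v * sin u) ≤ u * sin v * (cos u ^ 2 + cos v ^ 2) := by
  rcases eq_or_lt_of_le hu with h0 | h0
  · rw [← h0]; simp
  have hpi := Real.pi_pos
  have hs : 0 < sin u := Real.sin_pos_of_pos_of_lt_pi h0 (by linarith)
  have hc : 0 < cos u := Real.cos_pos_of_mem_Ioo ⟨by linarith, by linarith⟩
  have hS : 0 < sin v := Real.sin_pos_of_pos_of_lt_pi (by linarith) (by linarith)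
  have hK : 0 < cos v := Real.cos_pos_of_mem_Ioo ⟨by linarith, hv⟩
  have hsS : sin u ≤ sin v := Real.sin_le_sin_of_le_of_le_pi_div_two (by linarith) hv.le huv
  have hKc : cos v ≤ cos u := Real.cos_le_cos_of_nonneg_of_le_pi hu (by linarith) huv
  have hcusa := cusa hu (by linarith : u ≤ π / 2)
  set s := sin u
  set c := cos u
  set S := sin v
  set K := cos v
  have e1 : s ^ 2 + c ^ 2 = 1 := Real.sin_sq_add_cos_sq u
  have e2 : S ^ 2 + K ^ 2 = 1 := Real.sin_sq_add_cos_sq v
  set y := s * K / (c * S) with hy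
  have hy0 : 0 ≤ y := by positivity
  have hy1 : y ≤ 1 := by
    rw [hy, div_le_one (by positivity)]
    nlinarith
  have hC1 : c ^ 2 ≤ 1 := by nlinarith
  have hp := poly_core (C := c ^ 2) hC1 hy0 hy1
  -- K = S * y * c / s
  have hK2 : K * s = S * y * c := by rw [hy]; field_simp
  have hP : 0 < s ^ 2 + y ^ 2 * c ^ 2 := by positivity
  -- S² (s² + y² c²) = s²
  have hS2 : S ^ 2 * (s ^ 2 + y ^ 2 * c ^ 2) = s ^ 2 := by
    have : (K * s) ^ 2 = (S * y * c) ^ 2 := by rw [hK2]
    nlinarith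
  -- main polynomial inequality
  have hmain : c * (c * S + s * K) * (1 + 2 * c ^ 2) ≤ 3 * S * (c ^ 2 + K ^ 2) := by
    -- multiply by s² / S ...
    have h1 : s * K = c * S * y := by rw [hy]; field_simp
    have h2 : 1 - c ^ 2 = s ^ 2 := by linarith
    have hp' : (1 + 2 * c ^ 2) * (1 + y) * (s ^ 2 + y ^ 2 * c ^ 2) ≤ 3 * (s ^ 2 + y ^ 2 * c ^ 2 + y ^ 2) := by
      rw [← h2]; exact hp
    -- K² (s² + y² c²) = y² c²
    have hK3 : K ^ 2 * (s ^ 2 + y ^ 2 * c ^ 2) = y ^ 2 * c ^ 2 := by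
      have : K ^ 2 = 1 - S ^ 2 := by linarith
      rw [this]; linarith
    have h3 : c * (c * S + s * K) * (1 + 2 * c ^ 2) * (s ^ 2 + y ^ 2 * c ^ 2)
        ≤ 3 * S * (c ^ 2 + K ^ 2) * (s ^ 2 + y ^ 2 * c ^ 2) := by
      have h4 : c * (c * S + s * K) * (1 + 2 * c ^ 2) * (s ^ 2 + y ^ 2 * c ^ 2)
          = c ^ 2 * S * ((1 + 2 * c ^ 2) * (1 + y) * (s ^ 2 + y ^ 2 * c ^ 2)) := by
        rw [h1]; ring
      have h5 : 3 * S * (c ^ 2 + K ^ 2) * (s ^ 2 + y ^ 2 * c ^ 2)
          = c ^ 2 * S * (3 * (s ^ 2 + y ^ 2 * c ^ 2 + y ^ 2)) := by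
        have : 3 * S * (c ^ 2 + K ^ 2) * (s ^ 2 + y ^ 2 * c ^ 2)
          = 3 * S * (c ^ 2 * (s ^ 2 + y ^ 2 * c ^ 2) + K ^ 2 * (s ^ 2 + y ^ 2 * c ^ 2)) := by ring
        rw [this, hK3]; ring
      rw [h4, h5]
      exact mul_le_mul_of_nonneg_left hp' (by positivity)
    exact le_of_mul_le_mul_right h3 hP
  -- combine with Cusa
  have h6 : s * c ^ 2 * (S * c + K * s) * (1 + 2 * c ^ 2) ≤ u * S * (c ^ 2 + K ^ 2) * (1 + 2 * c ^ 2) := by
    calc s * c ^ 2 * (S * c + K * s) * (1 + 2 * c ^ 2)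
        = s * c * (c * (c * S + s * K) * (1 + 2 * c ^ 2)) := by ring
      _ ≤ s * c * (3 * S * (c ^ 2 + K ^ 2)) := mul_le_mul_of_nonneg_left hmain (by positivity)
      _ = S * (c ^ 2 + K ^ 2) * (3 * (s * c)) := by ring
      _ ≤ S * (c ^ 2 + K ^ 2) * (u * (1 + 2 * c ^ 2)) := mul_le_mul_of_nonneg_left hcusa (by positivity)
      _ = _ := by ring
  exact le_of_mul_le_mul_right h6 (by positivity)

/-- inequality (ii): `sin x sin²(x-α) ≤ (x-α)(cos α - cos x)(1 + cos α cos x)` -/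
lemma two_angle {x α : ℝ} (hx0 : 0 < x) (hx1 : x < π) (hα0 : 0 < α) (hα1 : α ≤ π / 2) :
    sin x * sin (x - α) ^ 2 ≤ (x - α) * (cos α - cos x) * (1 + cos α * cos x) := by
  set u := (x - α) / 2 with hu
  set v := (x + α) / 2 with hv
  have hx : x = v + u := by rw [hu, hv]; ring
  have hα : α = v - u := by rw [hu, hv]; ring
  have e1 : sin (x - α) = 2 * sin u * cos u := by
    have : x - α = 2 * u := by rw [hu]; ring
    rw [this, Real.sin_two_mul]
  have e2 : cos α - cos x = 2 * sin v * sin u := by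
    rw [hx, hα, Real.cos_add, Real.cos_sub]; ring
  have e3 : 1 + cos α * cos x = cos u ^ 2 + cos v ^ 2 := by
    rw [hx, hα, Real.cos_add, Real.cos_sub]
    have h1 := Real.sin_sq_add_cos_sq u
    have h2 := Real.sin_sq_add_cos_sq v
    have h1' : sin u ^ 2 = 1 - cos u ^ 2 := by linarith
    have h2' : sin v ^ 2 = 1 - cos v ^ 2 := by linarith
    have : (cos v * cos u + sin v * sin u) * (cos v * cos u - sin v * sin u)
        = cos v ^ 2 * cos u ^ 2 - sin v ^ 2 * sin u ^ 2 := by ring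
    rw [this, h1', h2']; ring
  have e4 : sin x = sin v * cos u + cos v * sin u := by rw [hx, Real.sin_add]
  have e5 : x - α = 2 * u := by rw [hu]; ring
  have hpi := Real.pi_pos
  have hv0 : 0 < v := by rw [hv]; linarith
  have hv1 : v < 3 * π / 4 := by rw [hv]; linarith
  have hSv : 0 < sin v := Real.sin_pos_of_pos_of_lt_pi hv0 (by linarith)
  rw [e1, e2, e3, e4, e5]
  have red : ∀ w : ℝ, 0 ≤ w → w < π / 2 → ∀ K' : ℝ,
      sin w * cos w ^ 2 * (sin v * cos w + K' * sin w) ≤ w * sin v * (cos w ^ 2 + cos v ^ 2) →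
      (sin v * cos w + K' * sin w) * (2 * sin w * cos w) ^ 2
        ≤ 2 * w * (2 * sin v * sin w) * (cos w ^ 2 + cos v ^ 2) := by
    intro w hw0 hw1 K' h
    have hs : 0 ≤ sin w := Real.sin_nonneg_of_nonneg_of_le_pi hw0 (by linarith)
    have := mul_le_mul_of_nonneg_left h (by positivity : 0 ≤ 4 * sin w)
    calc (sin v * cos w + K' * sin w) * (2 * sin w * cos w) ^ 2
        = 4 * sin w * (sin w * cos w ^ 2 * (sin v * cos w + K' * sin w)) := by ring
      _ ≤ _ := this
      _ = _ := by ring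
  -- easy bound when the cross term is nonpositive
  have easy : ∀ w : ℝ, 0 ≤ w → w < π / 2 → ∀ K' : ℝ, K' ≤ 0 →
      sin w * cos w ^ 2 * (sin v * cos w + K' * sin w) ≤ w * sin v * (cos w ^ 2 + cos v ^ 2) := by
    intro w hw0 hw1 K' hK'
    have hs : 0 ≤ sin w := Real.sin_nonneg_of_nonneg_of_le_pi hw0 (by linarith)
    have hc : 0 ≤ cos w := Real.cos_nonneg_of_mem_Icc ⟨by linarith, hw1.le⟩
    have hsw : sin w ≤ w := Real.sin_le hw0
    have hcw : cos w ≤ 1 := Real.cos_le_one w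
    calc sin w * cos w ^ 2 * (sin v * cos w + K' * sin w)
        ≤ sin w * cos w ^ 2 * (sin v * 1) := by
          apply mul_le_mul_of_nonneg_left _ (by positivity)
          nlinarith [mul_nonneg hs (neg_nonneg.2 hK')]
      _ ≤ w * cos w ^ 2 * (sin v * 1) := by gcongr
      _ ≤ w * sin v * (cos w ^ 2 + cos v ^ 2) := by nlinarith [mul_nonneg (mul_nonneg hw0 hSv.le) (sq_nonneg (cos v))]
  rcases le_total 0 u with hu0 | hu0
  · have hu1 : u < π / 2 := by rw [hu]; linarith
    apply red u hu0 hu1 (cos v)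
    rcases lt_or_ge v (π / 2) with hv2 | hv2
    · exact uv_core hu0 (by rw [hu, hv]; linarith) hv2
    · exact easy u hu0 hu1 _ (Real.cos_nonpos_of_pi_div_two_le_of_le hv2 (by linarith))
  · -- u ≤ 0
    have hw0 : 0 ≤ -u := by linarith
    have hw1 : -u < π / 2 := by rw [hu]; linarith
    have hv2 : v ≤ π / 2 := by rw [hv]; linarith [show x ≤ α by linarith [hu]]
    have h := red (-u) hw0 hw1 (-cos v) (easy (-u) hw0 hw1 _ (by
      have := Real.cos_nonneg_of_mem_Icc ⟨by linarith, hv2⟩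
      linarith))
    rw [Real.sin_neg, Real.cos_neg] at h
    calc (sin v * cos u + cos v * sin u) * (2 * sin u * cos u) ^ 2
        = (sin v * cos u + -cos v * -sin u) * (2 * -sin u * cos u) ^ 2 := by ring
      _ ≤ _ := h
      _ = _ := by ring


/-! ### the force function on the circle -/

/-- `F(x) = cos(x/2) / (4 sin²(x/2))` -/
noncomputable def F (x : ℝ) : ℝ := cos (x / 2) / (4 * sin (x / 2) ^ 2)

lemma F_reflect (x : ℝ) : F (2 * π - x) = -F x := by
  unfold F
  have : (2 * π - x) / 2 = π - x / 2 := by ring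
  rw [this, Real.cos_pi_sub, Real.sin_pi_sub]
  ring

lemma F_sub {α x : ℝ} (hα : sin α ≠ 0) (hx : sin x ≠ 0) :
    F (2 * α) - F (2 * x)
      = (cos α - cos x) * (1 + cos α * cos x) / (4 * (sin α ^ 2 * sin x ^ 2)) := by
  unfold F
  have e1 : 2 * α / 2 = α := by ring
  have e2 : 2 * x / 2 = x := by ring
  rw [e1, e2]
  have h1 := Real.sin_sq_add_cos_sq α
  have h2 := Real.sin_sq_add_cos_sq x
  field_simp
  have h1' : sin α ^ 2 = 1 - cos α ^ 2 := by linarith
  have h2' : sin x ^ 2 = 1 - cos x ^ 2 := by linarith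
  rw [h1', h2']
  ring

lemma F_strictAnti : StrictAntiOn F (Set.Ioo 0 (2 * π)) := by
  intro a ha b hb hab
  have ea : a = 2 * (a / 2) := by ring
  have eb : b = 2 * (b / 2) := by ring
  have hsa : 0 < sin (a / 2) := Real.sin_pos_of_pos_of_lt_pi (by linarith [ha.1]) (by linarith [ha.2])
  have hsb : 0 < sin (b / 2) := Real.sin_pos_of_pos_of_lt_pi (by linarith [hb.1]) (by linarith [hb.2])
  have h := F_sub hsa.ne' hsb.ne'
  rw [← ea, ← eb] at h
  have hc : cos (b / 2) < cos (a / 2) :=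
    Real.cos_lt_cos_of_nonneg_of_le_pi (by linarith [ha.1]) (by linarith [hb.2]) (by linarith)
  have h1 : -1 < cos (a / 2) * cos (b / 2) := by
    have q1 := Real.sin_sq_add_cos_sq (a / 2)
    have q2 := Real.sin_sq_add_cos_sq (b / 2)
    nlinarith [sq_nonneg (cos (a / 2) + cos (b / 2)), sq_pos_of_pos hsa, sq_pos_of_pos hsb]
  have h2 : 0 < F a - F b := by
    rw [h]
    apply div_pos (mul_pos (by linarith) (by linarith)) (by positivity)
  linarith

/-! ### sums of periodic sequences -/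

lemma sum_shift {N : ℕ} (f : ℕ → ℝ) (hf : ∀ i, f (i + N) = f i) (k : ℕ) :
    ∑ i ∈ Finset.range N, f (i + k) = ∑ i ∈ Finset.range N, f i := by
  induction k with
  | zero => simp
  | succ k ih =>
    rw [← ih]
    have h1 := Finset.sum_range_succ (fun i => f (i + k)) N
    have h2 := Finset.sum_range_succ' (fun i => f (i + k)) N
    have h3 : f (N + k) = f (0 + k) := by rw [add_comm N k, hf k, zero_add]
    have h4 : ∑ i ∈ Finset.range N, f (i + (k + 1)) = ∑ i ∈ Finset.range N, f (i + 1 + k) := by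
      refine Finset.sum_congr rfl fun i _ => ?_
      congr 1; ring
    rw [h4]
    linarith

lemma sum_reindex {N : ℕ} (G : ℕ → ℕ → ℝ) (hG : ∀ i k, G (i + N) k = G i k) :
    ∑ k ∈ Finset.Ico 1 N, ∑ i ∈ Finset.range N, G (i + k) (N - k)
      = ∑ k ∈ Finset.Ico 1 N, ∑ i ∈ Finset.range N, G i k := by
  have h1 : ∀ k, ∑ i ∈ Finset.range N, G (i + k) (N - k) = ∑ i ∈ Finset.range N, G i (N - k) :=
    fun k => sum_shift (fun i => G i (N - k)) (fun i => hG i (N - k)) k
  rw [Finset.sum_congr rfl fun k _ => h1 k]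
  refine Finset.sum_nbij' (fun k => N - k) (fun k => N - k) ?_ ?_ ?_ ?_ ?_
  · intro k hk; rw [Finset.mem_Ico] at hk ⊢; omega
  · intro k hk; rw [Finset.mem_Ico] at hk ⊢; omega
  · intro k hk; rw [Finset.mem_Ico] at hk; omega
  · intro k hk; rw [Finset.mem_Ico] at hk; omega
  · intro k hk; rfl

section Main

variable {N : ℕ} {θ : ℕ → ℝ}

/-- the difference `θ_{i+k} - θ_i` -/
def dd (θ : ℕ → ℝ) (i k : ℕ) : ℝ := θ (i + k) - θ i

/-- `(sin θ_{i+k} - sin θ_i)/2` -/
noncomputable def pp (θ : ℕ → ℝ) (i k : ℕ) : ℝ := (sin (θ (i + k)) - sin (θ i)) / 2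

/-- deviation from equidistribution -/
noncomputable def ph (N : ℕ) (θ : ℕ → ℝ) (i : ℕ) : ℝ := θ i - 2 * π * i / N

lemma theta_add_mul (hper : ∀ i, θ (i + N) = θ i + 2 * π) (i : ℕ) :
    dd θ i N = 2 * π := by unfold dd; rw [hper]; ring

lemma dd_per (hper : ∀ i, θ (i + N) = θ i + 2 * π) (i k : ℕ) : dd θ (i + N) k = dd θ i k := by
  unfold dd
  have : i + N + k = (i + k) + N := by ring
  rw [this, hper, hper]; ring

lemma pp_per (hper : ∀ i, θ (i + N) = θ i + 2 * π) (i k : ℕ) : pp θ (i + N) k = pp θ i k := by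
  unfold pp
  have : i + N + k = (i + k) + N := by ring
  rw [this, hper, hper, Real.sin_add_two_pi, Real.sin_add_two_pi]

lemma ph_per (hN : 0 < N) (hper : ∀ i, θ (i + N) = θ i + 2 * π) (i : ℕ) : ph N θ (i + N) = ph N θ i := by
  unfold ph
  have hN' : (N : ℝ) ≠ 0 := by exact_mod_cast hN.ne'
  rw [hper]; push_cast; field_simp; ring

lemma dd_reflect (hper : ∀ i, θ (i + N) = θ i + 2 * π) {k : ℕ} (hk : k ≤ N) (i : ℕ) :
    dd θ (i + k) (N - k) = 2 * π - dd θ i k := by
  unfold dd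
  have : i + k + (N - k) = i + N := by omega
  rw [this, hper]; ring

lemma dd_mem (hmono : StrictMono θ) (hper : ∀ i, θ (i + N) = θ i + 2 * π) {k : ℕ} (hk : k ∈ Finset.Ico 1 N)
    (i : ℕ) : dd θ i k ∈ Set.Ioo 0 (2 * π) := by
  rw [Finset.mem_Ico] at hk
  constructor
  · unfold dd; have := hmono (show i < i + k by omega); linarith
  · have h1 := hmono (show i + k < i + N by omega)
    rw [hper] at h1
    unfold dd; linarith

lemma dd_eq (hN : 0 < N) (i k : ℕ) :
    dd θ i k = 2 * π * k / N + (ph N θ (i + k) - ph N θ i) := by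
  unfold dd ph
  have hN' : (N : ℝ) ≠ 0 := by exact_mod_cast hN.ne'
  push_cast; field_simp; ring

lemma sum_pp (hper : ∀ i, θ (i + N) = θ i + 2 * π) (k : ℕ) :
    ∑ i ∈ Finset.range N, pp θ i k = 0 := by
  unfold pp
  rw [← Finset.sum_div, Finset.sum_sub_distrib,
    sum_shift (fun i => sin (θ i)) (fun i => by rw [hper, Real.sin_add_two_pi]) k]
  simp

lemma sum_dd (hN : 0 < N) (hper : ∀ i, θ (i + N) = θ i + 2 * π) (k : ℕ) :
    ∑ i ∈ Finset.range N, dd θ i k = 2 * π * k := by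
  have hN' : (N : ℝ) ≠ 0 := by exact_mod_cast hN.ne'
  simp_rw [dd_eq hN]
  rw [Finset.sum_add_distrib, Finset.sum_sub_distrib, sum_shift (ph N θ) (ph_per hN hper) k]
  simp
  field_simp

/-- the energy-type sum at level `k` -/
noncomputable def aa (N : ℕ) (θ : ℕ → ℝ) (i k : ℕ) : ℝ :=
  (F (2 * π * k / N) - F (dd θ i k)) * (dd θ i k - 2 * π * k / N)

lemma D_mem {k : ℕ} (hk : k ∈ Finset.Ico 1 N) : (2 * π * k / N : ℝ) ∈ Set.Ioo 0 (2 * π) := by
  rw [Finset.mem_Ico] at hk
  have hN' : (0 : ℝ) < N := by exact_mod_cast (by omega : 0 < N)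
  have hk' : (0 : ℝ) < k := by exact_mod_cast (by omega : 0 < k)
  have hkN : (k : ℝ) < N := by exact_mod_cast hk.2
  have hpi := Real.pi_pos
  constructor
  · positivity
  · rw [div_lt_iff₀ hN']; nlinarith

lemma aa_nonneg (hmono : StrictMono θ) (hper : ∀ i, θ (i + N) = θ i + 2 * π) {k : ℕ}
    (hk : k ∈ Finset.Ico 1 N) (i : ℕ) : 0 ≤ aa N θ i k := by
  unfold aa
  have h1 := dd_mem hmono hper hk i
  have h2 := D_mem hk
  rcases le_total (dd θ i k) (2 * π * k / N) with h | h
  · have := F_strictAnti.antitoneOn h1 h2 h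
    exact mul_nonneg_of_nonpos_of_nonpos (by linarith) (by linarith)
  · have := F_strictAnti.antitoneOn h2 h1 h
    exact mul_nonneg (by linarith) (by linarith)

/-- F1: virial identity -/
lemma virial (hN : 0 < N) (hper : ∀ i, θ (i + N) = θ i + 2 * π) {r : ℝ}
    (heq : ∀ i, ∑ k ∈ Finset.Ico 1 N, F (dd θ i k) = -r * sin (θ i)) :
    ∑ k ∈ Finset.Ico 1 N, ∑ i ∈ Finset.range N, aa N θ i k
      = 2 * r * (-∑ i ∈ Finset.range N, ph N θ i * sin (θ i)) := by
  have hT : ∀ i, ∀ k ∈ Finset.Ico 1 N, F (dd θ (i + k) (N - k)) = -F (dd θ i k) := by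
    intro i k hk
    rw [Finset.mem_Ico] at hk
    rw [dd_reflect hper (by omega), F_reflect]
  have h1 : ∀ k, ∑ i ∈ Finset.range N, aa N θ i k
      = -(∑ i ∈ Finset.range N, F (dd θ i k) * ph N θ (i + k))
        + ∑ i ∈ Finset.range N, F (dd θ i k) * ph N θ i := by
    intro k
    have e : ∀ i, aa N θ i k = F (2 * π * k / N) * ph N θ (i + k) - F (2 * π * k / N) * ph N θ i
        - F (dd θ i k) * ph N θ (i + k) + F (dd θ i k) * ph N θ i := by
      intro i
      unfold aa
      have := dd_eq (θ := θ) hN i k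
      have h2 : dd θ i k - 2 * π * k / N = ph N θ (i + k) - ph N θ i := by linarith
      rw [h2]; ring
    simp_rw [e]
    rw [Finset.sum_add_distrib, Finset.sum_sub_distrib, Finset.sum_sub_distrib, ← Finset.mul_sum,
      ← Finset.mul_sum, sum_shift (ph N θ) (ph_per hN hper) k]
    ring
  have h2 : ∑ k ∈ Finset.Ico 1 N, ∑ i ∈ Finset.range N, F (dd θ i k) * ph N θ (i + k)
      = -∑ k ∈ Finset.Ico 1 N, ∑ i ∈ Finset.range N, F (dd θ i k) * ph N θ i := by
    rw [← sum_reindex (fun i k => F (dd θ i k) * ph N θ i)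
      (fun i k => by rw [dd_per hper, ph_per hN hper]), ← Finset.sum_neg_distrib]
    refine Finset.sum_congr rfl fun k hk => ?_
    rw [← Finset.sum_neg_distrib]
    refine Finset.sum_congr rfl fun i _ => ?_
    rw [hT i k hk]; ring
  simp_rw [h1]
  rw [Finset.sum_add_distrib, Finset.sum_neg_distrib, h2, Finset.sum_comm]
  have h3 : ∑ i ∈ Finset.range N, ∑ k ∈ Finset.Ico 1 N, F (dd θ i k) * ph N θ i
      = ∑ i ∈ Finset.range N, -r * (ph N θ i * sin (θ i)) := by
    refine Finset.sum_congr rfl fun i _ => ?_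
    rw [← Finset.sum_mul, heq i]; ring
  rw [h3, ← Finset.mul_sum]
  ring

/-- `N X = ∑ X_k` -/
lemma X_sum (hN : 0 < N) (hper : ∀ i, θ (i + N) = θ i + 2 * π)
    (hsin : ∑ i ∈ Finset.range N, sin (θ i) = 0) :
    ∑ k ∈ Finset.Ico 1 N, -∑ i ∈ Finset.range N, dd θ i k * pp θ i k
      = N * (-∑ i ∈ Finset.range N, ph N θ i * sin (θ i)) := by
  set Y := ∑ i ∈ Finset.range N, ph N θ i * sin (θ i) with hY
  have hsper : ∀ i, sin (θ (i + N)) = sin (θ i) := fun i => by rw [hper, Real.sin_add_two_pi]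
  have hphper := ph_per hN hper
  have h1 : ∀ k, ∑ i ∈ Finset.range N, dd θ i k * pp θ i k
      = Y - (∑ i ∈ Finset.range N, ph N θ (i + k) * sin (θ i)) / 2
        - (∑ i ∈ Finset.range N, ph N θ i * sin (θ (i + k))) / 2 := by
    intro k
    have e : ∀ i, dd θ i k * pp θ i k = 2 * π * k / N * pp θ i k
        + (ph N θ (i + k) * sin (θ (i + k))) / 2 + (ph N θ i * sin (θ i)) / 2
        - (ph N θ (i + k) * sin (θ i)) / 2 - (ph N θ i * sin (θ (i + k))) / 2 := by
      intro i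
      rw [dd_eq (θ := θ) hN i k]; unfold pp; ring
    simp_rw [e]
    rw [Finset.sum_sub_distrib, Finset.sum_sub_distrib, Finset.sum_add_distrib, Finset.sum_add_distrib,
      ← Finset.mul_sum, sum_pp hper, ← Finset.sum_div, ← Finset.sum_div, ← Finset.sum_div, ← Finset.sum_div,
      sum_shift (fun i => ph N θ i * sin (θ i)) (fun i => by rw [hphper, hsper]) k, ← hY]
    ring
  -- full sums over `range N`
  have hA : ∑ k ∈ Finset.range N, ∑ i ∈ Finset.range N, ph N θ i * sin (θ (i + k)) = 0 := by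
    rw [Finset.sum_comm]
    refine Finset.sum_eq_zero fun i _ => ?_
    rw [← Finset.mul_sum]
    have : ∑ k ∈ Finset.range N, sin (θ (i + k)) = 0 := by
      have h := sum_shift (fun i => sin (θ i)) hsper i
      rw [← hsin, ← h]
      exact Finset.sum_congr rfl fun k _ => by rw [add_comm]
    rw [this, mul_zero]
  have hB : ∑ k ∈ Finset.range N, ∑ i ∈ Finset.range N, ph N θ (i + k) * sin (θ i) = 0 := by
    rw [Finset.sum_comm]
    have : ∀ i, ∑ k ∈ Finset.range N, ph N θ (i + k) * sin (θ i)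
        = (∑ k ∈ Finset.range N, ph N θ k) * sin (θ i) := by
      intro i
      rw [← Finset.sum_mul]
      congr 1
      have h := sum_shift (ph N θ) hphper i
      rw [← h]
      exact Finset.sum_congr rfl fun k _ => by rw [add_comm]
    simp_rw [this]
    rw [← Finset.mul_sum, hsin, mul_zero]
  have hsplit : ∀ g : ℕ → ℝ, ∑ k ∈ Finset.range N, g k = g 0 + ∑ k ∈ Finset.Ico 1 N, g k := by
    intro g
    rw [Finset.range_eq_Ico, Finset.sum_eq_sum_Ico_succ_bot hN]
  rw [hsplit] at hA hB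
  simp only [add_zero] at hA hB
  rw [← hY] at hA hB
  simp_rw [h1]
  rw [Finset.sum_neg_distrib, Finset.sum_sub_distrib, Finset.sum_sub_distrib, ← Finset.sum_div,
    ← Finset.sum_div, Finset.sum_const, Nat.card_Ico, nsmul_eq_mul, Nat.cast_sub (by omega)]
  push_cast
  linarith

/-- F3: comparison principle -/
lemma comparison (hmono : StrictMono θ) (hper : ∀ i, θ (i + N) = θ i + 2 * π) {r : ℝ}
    (heq : ∀ i, ∑ k ∈ Finset.Ico 1 N, F (dd θ i k) = -r * sin (θ i))
    {ψ : ℝ → ℝ} (hψ : MonotoneOn ψ (Set.Ioo 0 (2 * π))) {k : ℕ} (hk : k ∈ Finset.Ico 1 N) :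
    r * ∑ i ∈ Finset.range N, ψ (dd θ i k) * pp θ i k ≤ 0 := by
  have hT : ∀ i, ∀ l ∈ Finset.Ico 1 N, F (dd θ (i + l) (N - l)) = -F (dd θ i l) := by
    intro i l hl
    rw [Finset.mem_Ico] at hl
    rw [dd_reflect hper (by omega), F_reflect]
  set G : ℕ → ℕ → ℝ := fun i l => ψ (dd θ i k) * (F (dd θ i l) - F (dd θ (i + k) l)) with hG
  have hGper : ∀ i l, G (i + N) l = G i l := by
    intro i l
    simp only [hG]
    have : i + N + k = (i + k) + N := by ring
    rw [dd_per hper, dd_per hper, this, dd_per hper]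
  have e1 : 2 * (r * ∑ i ∈ Finset.range N, ψ (dd θ i k) * pp θ i k)
      = ∑ l ∈ Finset.Ico 1 N, ∑ i ∈ Finset.range N, G i l := by
    rw [Finset.sum_comm, Finset.mul_sum, Finset.mul_sum]
    refine Finset.sum_congr rfl fun i _ => ?_
    simp only [hG]
    rw [← Finset.mul_sum, Finset.sum_sub_distrib, heq i, heq (i + k)]
    unfold pp; ring
  have e2 := sum_reindex G hGper
  have e3 : 2 * ∑ l ∈ Finset.Ico 1 N, ∑ i ∈ Finset.range N, G i l
      = ∑ l ∈ Finset.Ico 1 N, ∑ i ∈ Finset.range N, (G i l + G (i + l) (N - l)) := by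
    simp_rw [Finset.sum_add_distrib]
    rw [e2]; ring
  have e4 : ∑ l ∈ Finset.Ico 1 N, ∑ i ∈ Finset.range N, (G i l + G (i + l) (N - l)) ≤ 0 := by
    refine Finset.sum_nonpos fun l hl => Finset.sum_nonpos fun i _ => ?_
    have h1 : G (i + l) (N - l) = -(ψ (dd θ (i + l) k) * (F (dd θ i l) - F (dd θ (i + k) l))) := by
      simp only [hG]
      have : i + l + k = (i + k) + l := by ring
      rw [this, hT i l hl, hT (i + k) l hl]; ring
    have h2 : G i l + G (i + l) (N - l)
        = (ψ (dd θ i k) - ψ (dd θ (i + l) k)) * (F (dd θ i l) - F (dd θ (i + k) l)) := by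
      rw [h1]; simp only [hG]; ring
    rw [h2]
    have hA := dd_mem hmono hper hk i
    have hB := dd_mem hmono hper hk (i + l)
    have hC := dd_mem hmono hper hl i
    have hD := dd_mem hmono hper hl (i + k)
    have hrel : dd θ (i + l) k - dd θ i k = dd θ (i + k) l - dd θ i l := by
      unfold dd
      have : i + l + k = i + k + l := by ring
      rw [this]; ring
    rcases le_total (dd θ i k) (dd θ (i + l) k) with h | h
    · have q1 := hψ hA hB h
      have q2 := F_strictAnti.antitoneOn hC hD (by linarith)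
      exact mul_nonpos_of_nonpos_of_nonneg (by linarith) (by linarith)
    · have q1 := hψ hB hA h
      have q2 := F_strictAnti.antitoneOn hD hC (by linarith)
      exact mul_nonpos_of_nonneg_of_nonpos (by linarith) (by linarith)
  linarith

end Main



/-! ### the cotangent identities -/

lemma psi_mono : MonotoneOn (fun x : ℝ => -(2 * (cos (x / 2) / sin (x / 2)) + x)) (Set.Ioo 0 (2 * π)) := by
  have hder : ∀ x ∈ Set.Ioo 0 (2 * π), HasDerivAt (fun x : ℝ => -(2 * (cos (x / 2) / sin (x / 2)) + x))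
      (1 / sin (x / 2) ^ 2 - 1) x := by
    intro x hx
    have hs : sin (x / 2) ≠ 0 :=
      (Real.sin_pos_of_pos_of_lt_pi (by linarith [hx.1]) (by linarith [hx.2])).ne'
    have hx2 : HasDerivAt (fun x : ℝ => x / 2) (1 / 2) x := (hasDerivAt_id x).div_const 2
    have h1 := (Real.hasDerivAt_cos (x / 2)).comp x hx2
    have h2 := (Real.hasDerivAt_sin (x / 2)).comp x hx2
    have h3 := (((h1.div h2 hs).const_mul 2).add (hasDerivAt_id x)).neg
    refine h3.congr_deriv ?_
    have h4 := Real.sin_sq_add_cos_sq (x / 2)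
    have h4' : cos (x / 2) ^ 2 = 1 - sin (x / 2) ^ 2 := by linarith
    simp only [Function.comp]
    field_simp
    linear_combination h4'
  apply monotoneOn_of_deriv_nonneg (convex_Ioo _ _)
  · intro x hx; exact (hder x hx).continuousAt.continuousWithinAt
  · intro x hx; rw [interior_Ioo] at hx; exact (hder x hx).differentiableAt.differentiableWithinAt
  · intro x hx
    rw [interior_Ioo] at hx
    rw [(hder x hx).deriv]
    have hs : 0 < sin (x / 2) := Real.sin_pos_of_pos_of_lt_pi (by linarith [hx.1]) (by linarith [hx.2])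
    have h1 : sin (x / 2) ^ 2 ≤ 1 := by nlinarith [Real.sin_le_one (x / 2)]
    have : 1 ≤ 1 / sin (x / 2) ^ 2 := by rw [le_div_iff₀ (by positivity)]; linarith
    linarith

lemma cot_identity {a b : ℝ} (h : sin ((b - a) / 2) ≠ 0) :
    cos ((b - a) / 2) / sin ((b - a) / 2) * ((sin b - sin a) / 2) = (cos a + cos b) / 2 := by
  have hb : b = (a + b) / 2 + (b - a) / 2 := by ring
  have ha : a = (a + b) / 2 - (b - a) / 2 := by ring
  have e1 : sin b - sin a = 2 * cos ((a + b) / 2) * sin ((b - a) / 2) := by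
    conv_lhs => rw [hb]
    conv_lhs => rw [show sin a = sin ((a + b) / 2 - (b - a) / 2) by rw [← ha]]
    rw [Real.sin_add, Real.sin_sub]; ring
  have e2 : cos a + cos b = 2 * cos ((a + b) / 2) * cos ((b - a) / 2) := by
    have : cos b = cos ((a + b) / 2 + (b - a) / 2) := by rw [← hb]
    rw [this]
    have : cos a = cos ((a + b) / 2 - (b - a) / 2) := by rw [← ha]
    rw [this, Real.cos_add, Real.cos_sub]; ring
  rw [e1, e2]
  field_simp

section Main2

variable {N : ℕ} {θ : ℕ → ℝ}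

/-- `r = ∑ p cot(d/2)` -/
lemma sum_cot (hmono : StrictMono θ) (hper : ∀ i, θ (i + N) = θ i + 2 * π) {r : ℝ}
    (hcos : ∑ i ∈ Finset.range N, cos (θ i) = r) {k : ℕ} (hk : k ∈ Finset.Ico 1 N) :
    ∑ i ∈ Finset.range N, cos (dd θ i k / 2) / sin (dd θ i k / 2) * pp θ i k = r := by
  have h1 : ∀ i, cos (dd θ i k / 2) / sin (dd θ i k / 2) * pp θ i k = (cos (θ i) + cos (θ (i + k))) / 2 := by
    intro i
    have hd := dd_mem hmono hper hk i
    have hs : sin (dd θ i k / 2) ≠ 0 :=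
      (Real.sin_pos_of_pos_of_lt_pi (by linarith [hd.1]) (by linarith [hd.2])).ne'
    unfold dd at hs ⊢
    unfold pp
    exact cot_identity hs
  simp_rw [h1]
  rw [← Finset.sum_div, Finset.sum_add_distrib,
    sum_shift (fun i => cos (θ i)) (fun i => by rw [hper, Real.cos_add_two_pi]) k, hcos]
  ring

/-- `X_k ≤ 2 r` -/
lemma Xk_le (hmono : StrictMono θ) (hper : ∀ i, θ (i + N) = θ i + 2 * π) {r : ℝ} (hr : 0 < r)
    (hcos : ∑ i ∈ Finset.range N, cos (θ i) = r)
    (heq : ∀ i, ∑ k ∈ Finset.Ico 1 N, F (dd θ i k) = -r * sin (θ i))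
    {k : ℕ} (hk : k ∈ Finset.Ico 1 N) :
    -∑ i ∈ Finset.range N, dd θ i k * pp θ i k ≤ 2 * r := by
  have h := comparison hmono hper heq psi_mono hk
  have h1 := sum_cot hmono hper hcos hk
  have h2 : ∑ i ∈ Finset.range N, -(2 * (cos (dd θ i k / 2) / sin (dd θ i k / 2)) + dd θ i k) * pp θ i k
      = -2 * r - ∑ i ∈ Finset.range N, dd θ i k * pp θ i k := by
    rw [← h1, Finset.mul_sum, ← Finset.sum_sub_distrib]
    refine Finset.sum_congr rfl fun i _ => ?_
    ring
  rw [h2] at h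
  have h3 := nonpos_of_mul_nonpos_right h hr
  linarith

/-- `S < 4 r²` -/
lemma S_lt (hN : 2 ≤ N) (hmono : StrictMono θ) (hper : ∀ i, θ (i + N) = θ i + 2 * π) {r : ℝ}
    (hr : 0 < r) (hsin : ∑ i ∈ Finset.range N, sin (θ i) = 0)
    (hcos : ∑ i ∈ Finset.range N, cos (θ i) = r)
    (heq : ∀ i, ∑ k ∈ Finset.Ico 1 N, F (dd θ i k) = -r * sin (θ i)) :
    ∑ k ∈ Finset.Ico 1 N, ∑ i ∈ Finset.range N, aa N θ i k < 4 * r ^ 2 := by
  have hN0 : (0 : ℝ) < N := by exact_mod_cast (by omega : 0 < N)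
  rw [virial (by omega) hper heq]
  have h1 := X_sum (by omega) hper hsin
  have h2 : ∑ k ∈ Finset.Ico 1 N, -∑ i ∈ Finset.range N, dd θ i k * pp θ i k
      ≤ ∑ k ∈ Finset.Ico 1 N, 2 * r :=
    Finset.sum_le_sum fun k hk => Xk_le hmono hper hr hcos heq hk
  rw [h1, Finset.sum_const, Nat.card_Ico, nsmul_eq_mul, Nat.cast_sub (by omega)] at h2
  push_cast at h2
  have h3 : -∑ i ∈ Finset.range N, ph N θ i * sin (θ i) < 2 * r := by
    by_contra hcon
    push Not at hcon
    have := mul_le_mul_of_nonneg_left hcon hN0.le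
    nlinarith
  nlinarith

/-- `J = ∫_{θ_i}^{θ_{i+k}} cos²` in closed form -/
noncomputable def JJ (θ : ℕ → ℝ) (i k : ℕ) : ℝ :=
  dd θ i k / 2 + (sin (2 * θ (i + k)) - sin (2 * θ i)) / 4

lemma sum_JJ (hN : 0 < N) (hper : ∀ i, θ (i + N) = θ i + 2 * π) (k : ℕ) :
    ∑ i ∈ Finset.range N, JJ θ i k = π * k := by
  unfold JJ
  rw [Finset.sum_add_distrib, ← Finset.sum_div, ← Finset.sum_div, Finset.sum_sub_distrib,
    sum_dd hN hper, sum_shift (fun i => sin (2 * θ i)) (fun i => by
      rw [hper]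
      have : 2 * (θ i + 2 * π) = 2 * θ i + 2 * π + 2 * π := by ring
      rw [this, Real.sin_add_two_pi, Real.sin_add_two_pi]) k]
  ring

/-- pointwise estimate -/
lemma pointwise4 {a b α : ℝ} (h0 : 0 < b - a) (h1 : b - a < 2 * π) (hα0 : 0 < α) (hα1 : α ≤ π / 2) :
    ((cos ((b - a) / 2) / sin ((b - a) / 2) - cos α / sin α) * ((sin b - sin a) / 2)) ^ 2
      ≤ (4 / π) * ((F (2 * α) - F (b - a)) * ((b - a) - 2 * α))
        * ((b - a) / 2 + (sin (2 * b) - sin (2 * a)) / 4) := by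
  have hpi := Real.pi_pos
  set x := (b - a) / 2 with hx
  set m := (a + b) / 2 with hm
  have hba : b - a = 2 * x := by rw [hx]; ring
  have hb : b = m + x := by rw [hm, hx]; ring
  have ha : a = m - x := by rw [hm, hx]; ring
  have hx0 : 0 < x := by rw [hx]; linarith
  have hx1 : x < π := by rw [hx]; linarith
  have hsx : 0 < sin x := Real.sin_pos_of_pos_of_lt_pi hx0 hx1
  have hsα : 0 < sin α := Real.sin_pos_of_pos_of_lt_pi hα0 (by linarith)
  have e1 : (sin b - sin a) / 2 = cos m * sin x := by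
    rw [hb, ha, Real.sin_add, Real.sin_sub]; ring
  have hsc := Real.sin_sq_add_cos_sq m
  have hsc2 := Real.sin_sq_add_cos_sq x
  have e2 : (sin (2 * b) - sin (2 * a)) / 4 = (2 * cos m ^ 2 - 1) * (sin x * cos x) := by
    rw [Real.sin_two_mul, Real.sin_two_mul, hb, ha, Real.sin_add, Real.sin_sub, Real.cos_add, Real.cos_sub]
    have h3 : sin m ^ 2 = 1 - cos m ^ 2 := by linarith
    ring_nf
    rw [h3]
    have h4 : cos x * sin x ^ 3 = cos x * sin x * (1 - cos x ^ 2) := by
      rw [← show sin x ^ 2 = 1 - cos x ^ 2 by linarith]; ring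
    nlinarith
  have e3 : cos x / sin x - cos α / sin α = -(sin (x - α)) / (sin x * sin α) := by
    rw [Real.sin_sub]; field_simp; ring
  rw [hba, F_sub hsα.ne' hsx.ne', e1, e2, e3]
  set Y := (x - α) * (cos α - cos x) * (1 + cos α * cos x) with hY
  have htwo := two_angle hx0 hx1 hα0 hα1
  rw [← hY] at htwo
  have hY0 : 0 ≤ Y := le_trans (mul_nonneg hsx.le (sq_nonneg _)) htwo
  have hadd := add_sin_cos_ge hx0.le hx1.le
  -- sin²x sin²(x-α) ≤ (2/π)(x + sin x cos x) Y
  have k1 : sin x ^ 2 * sin (x - α) ^ 2 ≤ 2 / π * (x + sin x * cos x) * Y := by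
    calc sin x ^ 2 * sin (x - α) ^ 2 = sin x * (sin x * sin (x - α) ^ 2) := by ring
      _ ≤ sin x * Y := mul_le_mul_of_nonneg_left htwo hsx.le
      _ = 2 / π * (π / 2 * sin x) * Y := by field_simp
      _ ≤ 2 / π * (x + sin x * cos x) * Y := by gcongr
  have k2 : cos m ^ 2 * (x + sin x * cos x) ≤ x + (2 * cos m ^ 2 - 1) * (sin x * cos x) := by
    have h5 := sin_mul_cos_le hx0.le
    have h6 : 0 ≤ 1 - cos m ^ 2 := by nlinarith [sq_nonneg (sin m)]
    nlinarith [mul_nonneg h6 (by linarith : 0 ≤ x - sin x * cos x)]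
  have k3 : cos m ^ 2 * (sin x ^ 2 * sin (x - α) ^ 2)
      ≤ 2 / π * Y * (x + (2 * cos m ^ 2 - 1) * (sin x * cos x)) := by
    calc cos m ^ 2 * (sin x ^ 2 * sin (x - α) ^ 2)
        ≤ cos m ^ 2 * (2 / π * (x + sin x * cos x) * Y) := by gcongr
      _ = 2 / π * Y * (cos m ^ 2 * (x + sin x * cos x)) := by ring
      _ ≤ _ := by gcongr
  have k4 := div_le_div_of_nonneg_right k3 (by positivity : 0 ≤ sin x ^ 2 * sin α ^ 2)
  calc (-(sin (x - α)) / (sin x * sin α) * (cos m * sin x)) ^ 2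
      = cos m ^ 2 * (sin x ^ 2 * sin (x - α) ^ 2) / (sin x ^ 2 * sin α ^ 2) := by
        field_simp
    _ ≤ _ := k4
    _ = _ := by
        rw [hY]
        field_simp

/-- F4 -/
lemma level_bound (hN : 0 < N) (hmono : StrictMono θ) (hper : ∀ i, θ (i + N) = θ i + 2 * π) {r : ℝ}
    (hcos : ∑ i ∈ Finset.range N, cos (θ i) = r) {k : ℕ} (hk : k ∈ Finset.Ico 1 N) (hk2 : 2 * k ≤ N) :
    r ^ 2 ≤ 4 * k * ∑ i ∈ Finset.range N, aa N θ i k := by
  have hpi := Real.pi_pos
  have hN' : (0 : ℝ) < N := by exact_mod_cast hN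
  set α : ℝ := π * k / N with hα
  have hkp : (0 : ℝ) < k := by rw [Finset.mem_Ico] at hk; exact_mod_cast (by omega : 0 < k)
  have hα0 : 0 < α := by positivity
  have hα1 : α ≤ π / 2 := by
    rw [hα, div_le_div_iff₀ hN' two_pos]
    have : (2 : ℝ) * k ≤ N := by exact_mod_cast hk2
    nlinarith
  have h2α : 2 * π * k / N = 2 * α := by rw [hα]; ring
  have h1 := sum_cot hmono hper hcos hk
  have h2 : r = ∑ i ∈ Finset.range N,
      (cos (dd θ i k / 2) / sin (dd θ i k / 2) - cos α / sin α) * pp θ i k := by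
    have : ∀ i, (cos (dd θ i k / 2) / sin (dd θ i k / 2) - cos α / sin α) * pp θ i k
        = cos (dd θ i k / 2) / sin (dd θ i k / 2) * pp θ i k - cos α / sin α * pp θ i k := by
      intro i; ring
    simp_rw [this]
    rw [Finset.sum_sub_distrib, ← Finset.mul_sum, sum_pp hper, h1]
    ring
  have hJ0 : ∀ i, 0 ≤ JJ θ i k := by
    intro i
    have hd := dd_mem hmono hper hk i
    unfold JJ
    have e : dd θ i k = θ (i + k) - θ i := rfl
    set x := dd θ i k / 2 with hx
    set mm := (θ i + θ (i + k)) / 2 with hmm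
    have hb : θ (i + k) = mm + x := by rw [hmm, hx, e]; ring
    have ha : θ i = mm - x := by rw [hmm, hx, e]; ring
    have e2 : (sin (2 * θ (i + k)) - sin (2 * θ i)) / 4 = cos (2 * mm) * (sin x * cos x) := by
      rw [hb, ha]
      have q1 : 2 * (mm + x) = 2 * mm + 2 * x := by ring
      have q2 : 2 * (mm - x) = 2 * mm - 2 * x := by ring
      rw [q1, q2, Real.sin_add, Real.sin_sub, Real.sin_two_mul x]; ring
    rw [e2]
    have hx0 : 0 ≤ x := by rw [hx]; linarith [hd.1]
    have h5 := sin_mul_cos_le hx0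
    have hs : 0 ≤ sin x := Real.sin_nonneg_of_nonneg_of_le_pi hx0 (by rw [hx]; linarith [hd.2])
    have h5' : -(sin x * cos x) ≤ x := by
      have := Real.sin_le hx0
      nlinarith [Real.neg_one_le_cos x]
    have h6 := Real.neg_one_le_cos (2 * mm)
    have h7 := Real.cos_le_one (2 * mm)
    rcases le_total 0 (sin x * cos x) with h8 | h8
    · nlinarith
    · nlinarith
  have hpt : ∀ i, ((cos (dd θ i k / 2) / sin (dd θ i k / 2) - cos α / sin α) * pp θ i k) ^ 2
      ≤ (4 / π * aa N θ i k) * JJ θ i k := by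
    intro i
    have hd := dd_mem hmono hper hk i
    have := pointwise4 (a := θ i) (b := θ (i + k)) (α := α) hd.1 hd.2 hα0 hα1
    unfold aa JJ
    rw [h2α]
    exact this
  have hCS : r ^ 2 ≤ (∑ i ∈ Finset.range N, 4 / π * aa N θ i k) * ∑ i ∈ Finset.range N, JJ θ i k := by
    rw [h2]
    have q : ∀ i ∈ Finset.range N, |(cos (dd θ i k / 2) / sin (dd θ i k / 2) - cos α / sin α) * pp θ i k|
        ≤ √(4 / π * aa N θ i k) * √(JJ θ i k) := by
      intro i _
      rw [← Real.sqrt_mul (mul_nonneg (by positivity) (aa_nonneg hmono hper hk i))]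
      exact Real.abs_le_sqrt (hpt i)
    calc (∑ i ∈ Finset.range N, (cos (dd θ i k / 2) / sin (dd θ i k / 2) - cos α / sin α) * pp θ i k) ^ 2
        = |∑ i ∈ Finset.range N, (cos (dd θ i k / 2) / sin (dd θ i k / 2) - cos α / sin α) * pp θ i k| ^ 2 := by
          rw [sq_abs]
      _ ≤ (∑ i ∈ Finset.range N, √(4 / π * aa N θ i k) * √(JJ θ i k)) ^ 2 := by
          apply pow_le_pow_left₀ (abs_nonneg _)
          exact (Finset.abs_sum_le_sum_abs _ _).trans (Finset.sum_le_sum q)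
      _ ≤ (∑ i ∈ Finset.range N, √(4 / π * aa N θ i k) ^ 2) * ∑ i ∈ Finset.range N, √(JJ θ i k) ^ 2 :=
          Finset.sum_mul_sq_le_sq_mul_sq _ _ _
      _ = _ := by
          congr 1
          · refine Finset.sum_congr rfl fun i _ => ?_
            rw [Real.sq_sqrt (mul_nonneg (by positivity) (aa_nonneg hmono hper hk i))]
          · refine Finset.sum_congr rfl fun i _ => ?_
            rw [Real.sq_sqrt (hJ0 i)]
  rw [sum_JJ hN hper, ← Finset.mul_sum] at hCS
  calc r ^ 2 ≤ 4 / π * (∑ i ∈ Finset.range N, aa N θ i k) * (π * k) := hCS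
    _ = _ := by field_simp

/-- symmetry of the levels -/
lemma level_symm (hN : 0 < N) (hper : ∀ i, θ (i + N) = θ i + 2 * π) {k : ℕ} (hk : k ∈ Finset.Ico 1 N) :
    ∑ i ∈ Finset.range N, aa N θ i (N - k) = ∑ i ∈ Finset.range N, aa N θ i k := by
  have hN' : (N : ℝ) ≠ 0 := by exact_mod_cast hN.ne'
  rw [Finset.mem_Ico] at hk
  rw [← sum_shift (fun i => aa N θ i (N - k)) (fun i => by unfold aa; rw [dd_per hper]) k]
  refine Finset.sum_congr rfl fun i _ => ?_
  unfold aa
  rw [dd_reflect hper (by omega), F_reflect]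
  have : 2 * π * ((N - k : ℕ) : ℝ) / N = 2 * π - 2 * π * k / N := by
    rw [Nat.cast_sub (by omega)]; field_simp
  rw [this, F_reflect]
  ring

/-- If the resultant is nonzero then the harmonic number is small. -/
lemma harmonic_lt (hN : 2 ≤ N) (hmono : StrictMono θ) (hper : ∀ i, θ (i + N) = θ i + 2 * π) {r : ℝ}
    (hr : 0 < r) (hsin : ∑ i ∈ Finset.range N, sin (θ i) = 0)
    (hcos : ∑ i ∈ Finset.range N, cos (θ i) = r)
    (heq : ∀ i, ∑ k ∈ Finset.Ico 1 N, F (dd θ i k) = -r * sin (θ i)) :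
    ((harmonic ((N - 1) / 2) : ℚ) : ℝ) < 8 := by
  have hS := S_lt hN hmono hper hr hsin hcos heq
  set A : ℕ → ℝ := fun k => ∑ i ∈ Finset.range N, aa N θ i k with hA
  set n := (N - 1) / 2 with hn
  have hA0 : ∀ k ∈ Finset.Ico 1 N, 0 ≤ A k := fun k hk =>
    Finset.sum_nonneg fun i _ => aa_nonneg hmono hper hk i
  -- two disjoint copies of `Icc 1 n`
  have hsub : 2 * ∑ k ∈ Finset.Icc 1 n, A k ≤ ∑ k ∈ Finset.Ico 1 N, A k := by
    have h1 : ∑ k ∈ Finset.Icc 1 n, A k = ∑ k ∈ (Finset.Icc 1 n).image (fun k => N - k), A k := by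
      rw [Finset.sum_image]
      · refine Finset.sum_congr rfl fun k hk => ?_
        rw [Finset.mem_Icc] at hk
        exact (level_symm (by omega) hper (Finset.mem_Ico.2 ⟨by omega, by omega⟩)).symm
      · intro a ha b hb hab
        have ha' := Finset.mem_Icc.1 (Finset.mem_coe.1 ha)
        have hb' := Finset.mem_Icc.1 (Finset.mem_coe.1 hb)
        simp only at hab
        omega
    have hdisj : Disjoint (Finset.Icc 1 n) ((Finset.Icc 1 n).image (fun k => N - k)) := by
      rw [Finset.disjoint_left]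
      intro a ha hb
      rw [Finset.mem_image] at hb
      obtain ⟨b, hb, hab⟩ := hb
      rw [Finset.mem_Icc] at ha hb
      omega
    calc 2 * ∑ k ∈ Finset.Icc 1 n, A k
        = ∑ k ∈ Finset.Icc 1 n, A k + ∑ k ∈ (Finset.Icc 1 n).image (fun k => N - k), A k := by
          rw [← h1]; ring
      _ = ∑ k ∈ (Finset.Icc 1 n) ∪ (Finset.Icc 1 n).image (fun k => N - k), A k :=
          (Finset.sum_union hdisj).symm
      _ ≤ _ := by
          apply Finset.sum_le_sum_of_subset_of_nonneg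
          · intro k hk
            rw [Finset.mem_union, Finset.mem_image] at hk
            rw [Finset.mem_Ico]
            rcases hk with hk | ⟨b, hb, hab⟩
            · rw [Finset.mem_Icc] at hk; omega
            · rw [Finset.mem_Icc] at hb; omega
          · exact fun k hk _ => hA0 k hk
  have hlow : r ^ 2 / 4 * ((harmonic n : ℚ) : ℝ) ≤ ∑ k ∈ Finset.Icc 1 n, A k := by
    rw [harmonic_eq_sum_Icc]
    push_cast
    rw [Finset.mul_sum]
    refine Finset.sum_le_sum fun k hk => ?_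
    rw [Finset.mem_Icc] at hk
    have hkp : (0 : ℝ) < k := by exact_mod_cast (by omega : 0 < k)
    have := level_bound (by omega) hmono hper hcos (k := k) (Finset.mem_Ico.2 ⟨by omega, by omega⟩) (by omega)
    have h3 : r ^ 2 / 4 * (k : ℝ)⁻¹ = r ^ 2 / (4 * k) := by field_simp
    rw [h3, div_le_iff₀ (by positivity)]
    linarith
  have hr2 : 0 < r ^ 2 := by positivity
  nlinarith

/-- main theorem on the circle -/
theorem circle_main (hN : 3617 ≤ N) (hmono : StrictMono θ) (hper : ∀ i, θ (i + N) = θ i + 2 * π)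
    {r : ℝ} (hr : 0 ≤ r) (hsin : ∑ i ∈ Finset.range N, sin (θ i) = 0)
    (hcos : ∑ i ∈ Finset.range N, cos (θ i) = r)
    (heq : ∀ i, ∑ k ∈ Finset.Ico 1 N, F (dd θ i k) = -r * sin (θ i)) (i : ℕ) :
    θ (i + 1) - θ i = 2 * π / N := by
  have hr0 : r = 0 := by
    by_contra hne
    have hrp : 0 < r := lt_of_le_of_ne hr (Ne.symm hne)
    have h := harmonic_lt (by omega) hmono hper hrp hsin hcos heq
    have h1 : (1808 : ℕ) ≤ (N - 1) / 2 := by omega
    have h2 : ((harmonic 1808 : ℚ) : ℝ) ≤ ((harmonic ((N - 1) / 2) : ℚ) : ℝ) := by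
      rw [harmonic_eq_sum_Icc, harmonic_eq_sum_Icc]
      push_cast
      apply Finset.sum_le_sum_of_subset_of_nonneg
      · exact Finset.Icc_subset_Icc_right h1
      · intro k _ _; positivity
    have h3 : (1 / 2 : ℝ) < Real.eulerMascheroniSeq 1808 := by
      have := Real.one_half_lt_eulerMascheroniSeq_six
      exact this.trans_le (Real.strictMono_eulerMascheroniSeq.monotone (by norm_num))
    rw [Real.eulerMascheroniSeq] at h3
    have h4 : (15 / 2 : ℝ) ≤ Real.log 1809 := by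
      rw [Real.le_log_iff_exp_le (by norm_num)]
      have h5 : Real.exp (15 / 2) ^ 2 = Real.exp 1 ^ 15 := by
        rw [← Real.exp_nat_mul, ← Real.exp_nat_mul]; norm_num
      have h6 : Real.exp 1 ^ 15 ≤ 2.7182818286 ^ 15 :=
        pow_le_pow_left₀ (Real.exp_pos _).le Real.exp_one_lt_d9.le 15
      have h7 : (2.7182818286 : ℝ) ^ 15 ≤ 1809 ^ 2 := by norm_num
      have h8 : Real.exp (15 / 2) ^ 2 ≤ 1809 ^ 2 := by rw [h5]; exact h6.trans h7
      exact (abs_le_of_sq_le_sq' h8 (by norm_num)).2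
    have h9 : (((1808 : ℕ) : ℝ) + 1) = 1809 := by norm_num
    rw [h9] at h3
    have h10 : ((harmonic 1808 : ℚ) : ℝ) < 8 := lt_of_le_of_lt h2 h
    linarith [h3, h4, h10]
  -- now r = 0
  have hN0 : 0 < N := by omega
  have hS := virial hN0 hper heq
  rw [hr0] at hS
  simp only [mul_zero, zero_mul] at hS
  have h1 : (1 : ℕ) ∈ Finset.Ico 1 N := Finset.mem_Ico.2 ⟨le_refl _, by omega⟩
  have h2 := (Finset.sum_eq_zero_iff_of_nonneg (fun k hk =>
    Finset.sum_nonneg fun i _ => aa_nonneg hmono hper hk i)).1 hS 1 h1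
  have h3 : ∀ i ∈ Finset.range N, aa N θ i 1 = 0 :=
    (Finset.sum_eq_zero_iff_of_nonneg (fun i _ => aa_nonneg hmono hper h1 i)).1 h2
  -- reduce the index mod N
  have h4 : ∀ i, aa N θ i 1 = 0 := by
    intro i
    have hp : Function.Periodic (fun i => aa N θ i 1) N := fun i => by
      simp only [aa]; rw [dd_per hper]
    have := hp.map_mod_nat i
    rw [← this]
    exact h3 _ (Finset.mem_range.2 (Nat.mod_lt _ hN0))
  have h5 := h4 i
  unfold aa at h5
  have hd := dd_mem hmono hper h1 i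
  have hD := D_mem h1
  have h6 : dd θ i 1 = 2 * π * (1 : ℕ) / N := by
    rcases mul_eq_zero.1 h5 with h | h
    · by_contra hne
      rcases lt_or_gt_of_ne hne with hlt | hlt
      · have := F_strictAnti hd hD hlt; linarith
      · have := F_strictAnti hD hd hlt; linarith
    · linarith
  have : θ (i + 1) - θ i = dd θ i 1 := rfl
  rw [this, h6]
  simp

end Main2


end Pool.Agent.H443CC
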