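import Mathlib

/-! elementary inequalities for the improved circle theorem -/

open Real

namespace Pool.Agent.H443CC

/-- algebraic core of the pointwise inequality -/
lemma PI_core {s c S C V : ℝ} (h1 : s ^ 2 + c ^ 2 = 1) (h2 : S ^ 2 + C ^ 2 = 1) (hs : 0 ≤ s)
    (hS : 0 ≤ S) (hV : 0 ≤ V) (hV2 : 2 * V ^ 2 = 1 - c * C + s * S)
    (hw1 : s * S ≤ 1 + c * C) (hw2 : s * S ≤ 1 - c * C) :
    S * |c + C + c * s * S| ≤ 2 * V * (1 + c * C) := by
  have hw0 : 0 ≤ s * S := mul_nonneg hs hS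
  have hg : 0 ≤ 1 + c * C := hw0.trans hw1
  have e : S ^ 2 * (c + C + c * s * S) ^ 2
      = S ^ 2 * ((1 + c * C) * (1 + c * C + 2 * (s * S))) - (s * S) ^ 3 * (2 + s * S) := by
    linear_combination (S ^ 2 * (1 + s * S) ^ 2 - S ^ 2 * C ^ 2) * h1 + (S ^ 2 * s ^ 2) * h2
  have hT : S ^ 2 ≤ 1 - (c * C) ^ 2 := by
    have : 1 - (c * C) ^ 2 - S ^ 2 = s ^ 2 * C ^ 2 := by
      linear_combination (-C ^ 2) * h1 - h2
    nlinarith [mul_nonneg (sq_nonneg s) (sq_nonneg C)]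
  set g := c * C with hgd
  set w := s * S with hwd
  have hw3 : 0 ≤ w ^ 3 * (2 + w) := by positivity
  have hb : 0 ≤ (1 - g) ^ 2 + 2 * w * g := by
    rcases le_or_gt 0 g with hg0 | hg0
    · positivity
    · nlinarith
  have hprod : S ^ 2 * ((1 + g) * (1 + g + 2 * w)) ≤ (1 - g ^ 2) * ((1 + g) * (1 + g + 2 * w)) :=
    mul_le_mul_of_nonneg_right hT (mul_nonneg hg (by linarith))
  have hfin : S ^ 2 * (c + C + c * s * S) ^ 2 ≤ 4 * V ^ 2 * (1 + g) ^ 2 := by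
    rw [e]
    have h5 : 4 * V ^ 2 * (1 + g) ^ 2 = 2 * (1 - g + w) * (1 + g) ^ 2 := by
      rw [← hV2]; ring
    rw [h5]
    have h6 : 2 * (1 - g + w) * (1 + g) ^ 2 - (1 - g ^ 2) * ((1 + g) * (1 + g + 2 * w))
        = (1 + g) ^ 2 * ((1 - g) ^ 2 + 2 * w * g) := by ring
    nlinarith [mul_nonneg (sq_nonneg (1 + g)) hb]
  have h7 : (S * |c + C + c * s * S|) ^ 2 ≤ (2 * V * (1 + g)) ^ 2 := by
    rw [mul_pow, sq_abs]; nlinarith
  exact le_of_sq_le_sq h7 (by positivity)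

/-- `sin x ≤ x - x³/6 + x⁵/120` for `x ≥ 0` -/
lemma sin_le_quintic {x : ℝ} (hx : 0 ≤ x) : sin x ≤ x - x ^ 3 / 6 + x ^ 5 / 120 := by
  have key : ∀ (f f' : ℝ → ℝ), (∀ y, HasDerivAt f (f' y) y) → f 0 = 0 → (∀ y, 0 ≤ y → 0 ≤ f' y) →
      ∀ y, 0 ≤ y → 0 ≤ f y := by
    intro f f' hd h0 hf' y hy
    have hm : MonotoneOn f (Set.Ici 0) := by
      apply monotoneOn_of_deriv_nonneg (convex_Ici 0)
      · exact fun z _ => (hd z).continuousAt.continuousWithinAt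
      · exact fun z _ => (hd z).differentiableAt.differentiableWithinAt
      · intro z hz
        rw [interior_Ici] at hz
        rw [(hd z).deriv]; exact hf' z (le_of_lt hz)
    have := hm (Set.mem_Ici.2 le_rfl) (Set.mem_Ici.2 hy) hy
    rwa [h0] at this
  have h1 : ∀ y : ℝ, 0 ≤ y → 0 ≤ y - sin y := fun y hy => by linarith [Real.sin_le hy]
  have h2 : ∀ y : ℝ, 0 ≤ y → 0 ≤ cos y - 1 + y ^ 2 / 2 := by
    apply key _ (fun y => -sin y - 0 + 2 * y / 2)
    · intro y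
      have := ((Real.hasDerivAt_cos y).sub_const 1).add (((hasDerivAt_pow 2 y).div_const 2))
      convert! this using 1
      simp
    · simp
    · intro y hy; have := h1 y hy; linarith
  have h3 : ∀ y : ℝ, 0 ≤ y → 0 ≤ sin y - y + y ^ 3 / 6 := by
    apply key _ (fun y => cos y - 1 + 3 * y ^ 2 / 6)
    · intro y
      have := ((Real.hasDerivAt_sin y).sub (hasDerivAt_id y)).add (((hasDerivAt_pow 3 y).div_const 6))
      convert! this using 1
    · simp
    · intro y hy; have := h2 y hy; linarith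
  have h4 : ∀ y : ℝ, 0 ≤ y → 0 ≤ 1 - y ^ 2 / 2 + y ^ 4 / 24 - cos y := by
    apply key _ (fun y => 0 - 2 * y ^ 1 / 2 + 4 * y ^ 3 / 24 - (-sin y))
    · intro y
      have := ((((hasDerivAt_const y (1:ℝ)).sub ((hasDerivAt_pow 2 y).div_const 2))).add
        ((hasDerivAt_pow 4 y).div_const 24)).sub (Real.hasDerivAt_cos y)
      convert! this using 1
    · simp
    · intro y hy; have := h3 y hy; linarith
  have h5 : ∀ y : ℝ, 0 ≤ y → 0 ≤ y - y ^ 3 / 6 + y ^ 5 / 120 - sin y := by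
    apply key _ (fun y => 1 - 3 * y ^ 2 / 6 + 5 * y ^ 4 / 120 - cos y)
    · intro y
      have := ((((hasDerivAt_id y).sub ((hasDerivAt_pow 3 y).div_const 6))).add
        ((hasDerivAt_pow 5 y).div_const 120)).sub (Real.hasDerivAt_sin y)
      convert! this using 1
    · simp
    · intro y hy; have := h4 y hy; linarith
  have := h5 x hx; linarith

/-- the level constant -/
noncomputable def ell (x : ℝ) : ℝ := (1 + cos x ^ 2) / (4 * sin x)

lemma ell_lower {x : ℝ} (hx : 0 < x) (hx2 : x ≤ π / 2) :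
    1 / (2 * x) - x / 6 + x ^ 3 / 25 ≤ ell x := by
  have hpi := Real.pi_lt_d4
  have hs : 0 < sin x := Real.sin_pos_of_pos_of_lt_pi hx (by linarith [Real.pi_pos])
  have hP := sin_le_quintic hx.le
  set P := x - x ^ 3 / 6 + x ^ 5 / 120 with hPd
  have hx3 : x < 1.5708 := by linarith
  have hy : x ^ 2 < 2.4675 := by nlinarith
  set R := 1 / (2 * x) - x / 6 + x ^ 3 / 25 with hR
  have hRx : x * R = 1 / 2 - x ^ 2 / 6 + x ^ 4 / 25 := by rw [hR]; field_simp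
  have hR0 : 0 < R := by
    have : 0 < x * R := by rw [hRx]; nlinarith [sq_nonneg (x ^ 2)]
    exact (mul_pos_iff_of_pos_left hx).1 this
  unfold ell
  rw [le_div_iff₀ (by positivity)]
  have hcs := Real.sin_sq_add_cos_sq x
  have h1 : 1 + cos x ^ 2 = 2 - sin x ^ 2 := by linarith
  rw [h1]
  have h2 : R * (4 * sin x) ≤ R * (4 * P) := by gcongr
  have h3 : sin x ^ 2 ≤ P ^ 2 := by
    apply pow_le_pow_left₀ hs.le hP
  have hPx : P = x * (1 - x ^ 2 / 6 + x ^ 4 / 120) := by rw [hPd]; ring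
  have h4 : R * (4 * P) = 4 * (1 - x ^ 2 / 6 + x ^ 4 / 120) * (1 / 2 - x ^ 2 / 6 + x ^ 4 / 25) := by
    rw [hPx, ← hRx]; ring
  have h5 : P ^ 2 = x ^ 2 * (1 - x ^ 2 / 6 + x ^ 4 / 120) ^ 2 := by rw [hPx]; ring
  rw [h4] at h2
  rw [h5] at h3
  set y := x ^ 2 with hyd
  have hx4 : x ^ 4 = y ^ 2 := by rw [hyd]; ring
  rw [hx4] at h2 h3
  have hy0 : 0 < y := by positivity
  have hpoly : 0 ≤ 2 - y * (1 - y / 6 + y ^ 2 / 120) ^ 2
      - 4 * (1 - y / 6 + y ^ 2 / 120) * (1 / 2 - y / 6 + y ^ 2 / 25) := by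
    have e : 2 - y * (1 - y / 6 + y ^ 2 / 120) ^ 2
      - 4 * (1 - y / 6 + y ^ 2 / 120) * (1 / 2 - y / 6 + y ^ 2 / 25)
      = y ^ 2 * (41 / 900 - 11 / 900 * y + 13 / 9000 * y ^ 2 - y ^ 3 / 14400) := by ring
    rw [e]
    apply mul_nonneg (by positivity)
    nlinarith [mul_pos hy0 hy0, mul_pos (mul_pos hy0 hy0) hy0]
  linarith

/-- the polynomial inequality behind `phi_core` -/
lemma poly_y {y : ℝ} (h0 : 0 ≤ y) (h1 : y ≤ 81 / 100) :
    0 ≤ 0.224 * ((1 - y ^ 2 / 2 + 5 / 96 * y ^ 4) * (1.5707 - y - (1 - y ^ 2 / 2 + 5 / 96 * y ^ 4)))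
      - ((1 - y ^ 2 / 2 + 5 / 96 * y ^ 4) - 0.7) ^ 2 := by
  rcases le_total y (2 / 5) with h | h
  · obtain ⟨z, hz⟩ : ∃ z, z = 2 / 5 - y := ⟨_, rfl⟩
    have hz0 : 0 ≤ z := by linarith
    have e : 0.224 * ((1 - y ^ 2 / 2 + 5 / 96 * y ^ 4) * (1.5707 - y - (1 - y ^ 2 / 2 + 5 / 96 * y ^ 4)))
      - ((1 - y ^ 2 / 2 + 5 / 96 * y ^ 4) - 0.7) ^ 2
      = 3695/64 * y^0 * z^8 + 10405/32 * y^1 * z^7 + 1905951/2560 * y^2 * z^6 + 1130053/1280 * y^3 * z^5 + 29300783/51200 * y^4 * z^4 + 7806749/38400 * y^5 * z^3 + 1259299/25600 * y^6 * z^2 + 207213/12800 * y^7 * z^1 + 580199/153600 * y^8 * z^0 := by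
      rw [hz]; ring
    rw [e]; positivity
  · obtain ⟨z, hz⟩ : ∃ z, z = 81 / 100 - y := ⟨_, rfl⟩
    have hz0 : 0 ≤ z := by linarith
    obtain ⟨w, hw⟩ : ∃ w, w = y - 2 / 5 := ⟨_, rfl⟩
    have hw0 : 0 ≤ w := by linarith
    have e : 0.224 * ((1 - y ^ 2 / 2 + 5 / 96 * y ^ 4) * (1.5707 - y - (1 - y ^ 2 / 2 + 5 / 96 * y ^ 4)))
      - ((1 - y ^ 2 / 2 + 5 / 96 * y ^ 4) - 0.7) ^ 2
      = 74265472000000/23954775687363 * w^0 * z^8 + 292288166400000/7984925229121 * w^1 * z^7 + 1639560540640000/7984925229121 * w^2 * z^6 + 14482300013032000/23954775687363 * w^3 * z^5 + 7979228690503150/7984925229121 * w^4 * z^4 + 7604990838988700/7984925229121 * w^5 * z^3 + 16271017374539955/31939700916484 * w^6 * z^2 + 17431434483527663/127758803665936 * w^7 * z^1 + 526600979087310703/40882817173099520 * w^8 * z^0 := by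
      rw [hz, hw]; ring
    rw [e]; positivity

/-- `(sin t - 0.7)² ≤ 0.224 sin t (t - sin t)` when `sin t > 0.7` -/
lemma phi_core {t : ℝ} (ht0 : 0 ≤ t) (hs : 0.7 < sin t) :
    (sin t - 0.7) ^ 2 ≤ 0.224 * (sin t * (t - sin t)) := by
  have hpi := Real.pi_gt_d4
  have hs1 := Real.sin_le_one t
  rcases le_total (π / 2) t with h | h
  · have h1 : 0.57 ≤ t - sin t := by linarith
    have h2 : sin t * 0.57 ≤ sin t * (t - sin t) := by
      apply mul_le_mul_of_nonneg_left h1; linarith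
    nlinarith
  · obtain ⟨y, hy⟩ : ∃ y, y = π / 2 - t := ⟨_, rfl⟩
    have hst : sin t = cos y := by rw [hy, Real.cos_pi_div_two_sub]
    have hy0 : 0 ≤ y := by linarith
    have hcb : ∀ x : ℝ, 0 ≤ x → x ≤ 1 → cos x ≤ 1 - x ^ 2 / 2 + 5 / 96 * x ^ 4 := by
      intro x hx0 hx1
      have := Real.cos_bound (x := x) (by rw [abs_of_nonneg hx0]; exact hx1)
      rw [abs_of_nonneg hx0] at this
      have h2 := (abs_le.1 this).2
      linarith
    have hy1 : y ≤ 81 / 100 := by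
      by_contra hcon
      push Not at hcon
      have h3 : cos y ≤ cos (81 / 100) :=
        Real.cos_le_cos_of_nonneg_of_le_pi (by norm_num) (by linarith) hcon.le
      have h4 := hcb (81 / 100) (by norm_num) (by norm_num)
      rw [hst] at hs
      norm_num at h4 hs h3
      linarith
    have h5 := hcb y hy0 (by linarith)
    rw [← hst] at h5
    have h6 := poly_y hy0 hy1
    obtain ⟨q, hq⟩ : ∃ q, q = 1 - y ^ 2 / 2 + 5 / 96 * y ^ 4 := ⟨_, rfl⟩
    rw [← hq] at h5 h6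
    have ht : t = π / 2 - y := by linarith
    obtain ⟨s, hsd⟩ : ∃ s, s = sin t := ⟨_, rfl⟩
    rw [← hsd] at h5 hs hs1 ⊢
    have hq7 : 0 < q - 0.7 := by linarith
    have h7 : 0 ≤ 0.224 * (q * (t - q)) - (q - 0.7) ^ 2 := by
      have : q * (1.5707 - y - q) ≤ q * (t - q) := by
        apply mul_le_mul_of_nonneg_left _ (by linarith)
        rw [ht]; linarith
      linarith
    have h8 : 0 ≤ t - 0.7 := by linarith
    have key : (q - 0.7) * (0.224 * (s * (t - s)) - (s - 0.7) ^ 2)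
        = (0.224 * 0.7 * (t - 0.7)) * (q - s) + (0.224 * (q * (t - q)) - (q - 0.7) ^ 2) * (s - 0.7)
          + 1.224 * ((s - 0.7) * (q - s) * (q - 0.7)) := by ring
    have h9 : 0 ≤ (q - 0.7) * (0.224 * (s * (t - s)) - (s - 0.7) ^ 2) := by
      rw [key]
      have a1 : 0 ≤ q - s := by linarith
      have a2 : 0 ≤ s - 0.7 := by linarith
      positivity
    have := nonneg_of_mul_nonneg_right h9 hq7
    linarith

lemma phi_bound_aux {t τ : ℝ} (ht : 0 ≤ t) (ht' : t ≤ π) :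
    sin t ^ 2 + (τ - t) * sin t ≤ 0.7 * |τ| + 0.056 * τ ^ 2 := by
  have hs0 : 0 ≤ sin t := Real.sin_nonneg_of_nonneg_of_le_pi ht ht'
  have hst : sin t ≤ t := Real.sin_le ht
  have h1 : τ ≤ |τ| := le_abs_self τ
  have h2 : 0 ≤ |τ| := abs_nonneg τ
  have h3 : τ ^ 2 = |τ| ^ 2 := (sq_abs τ).symm
  rw [h3]
  set w := |τ|
  rcases le_or_gt (sin t) 0.7 with h | h
  · nlinarith [mul_nonneg hs0 (sub_nonneg.2 hst), mul_nonneg hs0 (sub_nonneg.2 h1), mul_nonneg (sub_nonneg.2 h) h2, sq_nonneg w]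
  · have h4 := phi_core ht h
    nlinarith [mul_nonneg hs0 (sub_nonneg.2 h1), sq_nonneg (0.112 * w - (sin t - 0.7))]

/-- the pointwise bound used with the equidistributed phases -/
lemma phi_bound {t τ : ℝ} (ht : -π ≤ t) (ht' : t ≤ π) :
    sin t ^ 2 + (τ - t) * sin t ≤ 0.7 * |τ| + 0.056 * τ ^ 2 := by
  rcases le_total 0 t with h | h
  · exact phi_bound_aux h ht'
  · have := phi_bound_aux (t := -t) (τ := -τ) (by linarith) (by linarith)
    rw [Real.sin_neg, abs_neg] at this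
    nlinarith

end Pool.Agent.H443CC
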