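import Pool.Agent.H443CC.Circle
import Pool.Agent.H443CC.Ineq

/-!
# The improved theorem on the circle (`N ≥ 85`)
-/

namespace Pool.Agent.H443CC

open Real

/-- the pointwise inequality -/
lemma PI {d D p : ℝ} (hd : d ∈ Set.Ioo 0 (2 * π)) (hD : D ∈ Set.Ioo 0 (2 * π))
    (hp : |p| ≤ sin (d / 2)) :
    -((F D - F d) * (d - D) / 2)
      ≤ p * (F d - F D - ell (D / 2) * (cos (d / 2) / sin (d / 2) - cos (D / 2) / sin (D / 2))) := by
  obtain ⟨x, hx⟩ : ∃ x, x = d / 2 := ⟨_, rfl⟩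
  obtain ⟨α, hα⟩ : ∃ α, α = D / 2 := ⟨_, rfl⟩
  have hd2 : d = 2 * x := by rw [hx]; ring
  have hD2 : D = 2 * α := by rw [hα]; ring
  have hx0 : 0 < x := by rw [hx]; linarith [hd.1]
  have hx1 : x < π := by rw [hx]; linarith [hd.2]
  have hα0 : 0 < α := by rw [hα]; linarith [hD.1]
  have hα1 : α < π := by rw [hα]; linarith [hD.2]
  have hS : 0 < sin x := Real.sin_pos_of_pos_of_lt_pi hx0 hx1
  have hs : 0 < sin α := Real.sin_pos_of_pos_of_lt_pi hα0 hα1
  rw [← hx, ← hα, hd2, hD2, F_sub hs.ne' hS.ne']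
  rw [← hx] at hp
  have h1 := Real.sin_sq_add_cos_sq α
  have h2 := Real.sin_sq_add_cos_sq x
  obtain ⟨u, hu⟩ : ∃ u, u = (x - α) / 2 := ⟨_, rfl⟩
  obtain ⟨v, hv⟩ : ∃ v, v = (x + α) / 2 := ⟨_, rfl⟩
  have hxuv : x = v + u := by rw [hu, hv]; ring
  have hαuv : α = v - u := by rw [hu, hv]; ring
  have hv0 : 0 < sin v := Real.sin_pos_of_pos_of_lt_pi (by rw [hv]; linarith) (by rw [hv]; linarith)
  have eu := Real.sin_sq_add_cos_sq u
  have ev := Real.sin_sq_add_cos_sq v
  have f1 : 1 - cos α * cos x - sin α * sin x = 2 * sin u ^ 2 := by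
    have : cos (x - α) = 1 - 2 * sin u ^ 2 := by
      have : x - α = 2 * u := by rw [hu]; ring
      rw [this, Real.cos_two_mul]; linarith
    rw [Real.cos_sub] at this; linarith
  have f2 : 2 * sin v ^ 2 = 1 - cos α * cos x + sin α * sin x := by
    have : cos (x + α) = 1 - 2 * sin v ^ 2 := by
      have : x + α = 2 * v := by rw [hv]; ring
      rw [this, Real.cos_two_mul]; linarith
    rw [Real.cos_add] at this; linarith
  have f3 : cos α - cos x = 2 * sin v * sin u := by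
    rw [hxuv, hαuv, Real.cos_add, Real.cos_sub]; ring
  have w1 : sin α * sin x ≤ 1 + cos α * cos x := by
    have := Real.neg_one_le_cos (x + α)
    rw [Real.cos_add] at this; linarith
  have w2 : sin α * sin x ≤ 1 - cos α * cos x := by
    have := Real.cos_le_one (x - α)
    rw [Real.cos_sub] at this; linarith
  have hcore := PI_core (s := sin α) (c := cos α) (S := sin x) (C := cos x) (V := sin v)
    h1 h2 hs.le hS.le hv0.le f2 w1 w2
  -- `sin² u ≤ u sin u`
  have hus : sin u ^ 2 ≤ u * sin u := by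
    rcases le_total 0 u with h | h
    · have a := Real.sin_le h
      have b := Real.sin_nonneg_of_nonneg_of_le_pi h (by rw [hu]; linarith)
      nlinarith
    · have a := Real.sin_le (neg_nonneg.2 h)
      have b := Real.sin_nonneg_of_nonneg_of_le_pi (neg_nonneg.2 h) (by rw [hu]; linarith)
      rw [Real.sin_neg] at a b
      nlinarith
  -- the error in closed form
  have hE : F (2 * x) - F (2 * α) - ell α * (cos x / sin x - cos α / sin α)
      = 2 * sin u ^ 2 * (cos α + cos x + cos α * sin α * sin x) / (4 * (sin α ^ 2 * sin x ^ 2)) := by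
    have g := F_sub hs.ne' hS.ne'
    have g' : F (2 * x) - F (2 * α) = -((cos α - cos x) * (1 + cos α * cos x) / (4 * (sin α ^ 2 * sin x ^ 2))) := by
      rw [← g]; ring
    rw [g', ← f1]
    unfold ell
    field_simp
    linear_combination (cos α * sin x ^ 2) * h1 + 2 * cos α * h2
  rw [hE]
  have hg : 0 ≤ 1 + cos α * cos x := (mul_nonneg hs.le hS.le).trans w1
  have hmain : |p| * (2 * sin u ^ 2 * |cos α + cos x + cos α * sin α * sin x|)
      ≤ (cos α - cos x) * (1 + cos α * cos x) * (2 * u) := by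
    calc |p| * (2 * sin u ^ 2 * |cos α + cos x + cos α * sin α * sin x|)
        ≤ sin x * (2 * sin u ^ 2 * |cos α + cos x + cos α * sin α * sin x|) := by gcongr
      _ = 2 * sin u ^ 2 * (sin x * |cos α + cos x + cos α * sin α * sin x|) := by ring
      _ ≤ 2 * sin u ^ 2 * (2 * sin v * (1 + cos α * cos x)) := by gcongr
      _ ≤ 2 * (u * sin u) * (2 * sin v * (1 + cos α * cos x)) := by gcongr
      _ = _ := by rw [f3]; ring
  have hden : 0 < 4 * (sin α ^ 2 * sin x ^ 2) := by positivity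
  have hlow : -(|p| * (2 * sin u ^ 2 * |cos α + cos x + cos α * sin α * sin x|))
      ≤ p * (2 * sin u ^ 2 * (cos α + cos x + cos α * sin α * sin x)) := by
    have := neg_abs_le (p * (2 * sin u ^ 2 * (cos α + cos x + cos α * sin α * sin x)))
    rw [abs_mul, abs_mul, abs_of_nonneg (by positivity : 0 ≤ 2 * sin u ^ 2)] at this
    exact this
  have e1 : -((cos α - cos x) * (1 + cos α * cos x) / (4 * (sin α ^ 2 * sin x ^ 2)) * (2 * x - 2 * α) / 2)
      = -((cos α - cos x) * (1 + cos α * cos x) * (2 * u)) / (4 * (sin α ^ 2 * sin x ^ 2)) := by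
    rw [hu]; ring
  have e2 : p * (2 * sin u ^ 2 * (cos α + cos x + cos α * sin α * sin x) / (4 * (sin α ^ 2 * sin x ^ 2)))
      = p * (2 * sin u ^ 2 * (cos α + cos x + cos α * sin α * sin x)) / (4 * (sin α ^ 2 * sin x ^ 2)) := by
    ring
  rw [e1, e2]
  apply div_le_div_of_nonneg_right _ hden.le
  linarith

section Main3

variable {N : ℕ} {θ : ℕ → ℝ}

lemma abs_pp_le (hmono : StrictMono θ) (hper : ∀ i, θ (i + N) = θ i + 2 * π) {k : ℕ}
    (hk : k ∈ Finset.Ico 1 N) (i : ℕ) : |pp θ i k| ≤ sin (dd θ i k / 2) := by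
  have hd := dd_mem hmono hper hk i
  have hs : 0 < sin (dd θ i k / 2) :=
    Real.sin_pos_of_pos_of_lt_pi (by linarith [hd.1]) (by linarith [hd.2])
  have e : pp θ i k = cos ((θ i + θ (i + k)) / 2) * sin (dd θ i k / 2) := by
    have a : θ (i + k) = (θ i + θ (i + k)) / 2 + dd θ i k / 2 := by unfold dd; ring
    have b : θ i = (θ i + θ (i + k)) / 2 - dd θ i k / 2 := by unfold dd; ring
    unfold pp
    rw [show sin (θ (i + k)) = sin ((θ i + θ (i + k)) / 2 + dd θ i k / 2) by rw [← a],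
      show sin (θ i) = sin ((θ i + θ (i + k)) / 2 - dd θ i k / 2) by rw [← b],
      Real.sin_add, Real.sin_sub]
    ring
  rw [e, abs_mul, abs_of_pos hs]
  have := Real.abs_cos_le_one ((θ i + θ (i + k)) / 2)
  nlinarith

/-- I1 -/
lemma ident_sin (hper : ∀ i, θ (i + N) = θ i + 2 * π) {r : ℝ}
    (heq : ∀ i, ∑ k ∈ Finset.Ico 1 N, F (dd θ i k) = -r * sin (θ i)) :
    ∑ k ∈ Finset.Ico 1 N, ∑ i ∈ Finset.range N, pp θ i k * F (dd θ i k)
      = r * ∑ i ∈ Finset.range N, sin (θ i) ^ 2 := by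
  have hT : ∀ i, ∀ k ∈ Finset.Ico 1 N, F (dd θ (i + k) (N - k)) = -F (dd θ i k) := by
    intro i k hk
    rw [Finset.mem_Ico] at hk
    rw [dd_reflect hper (by omega), F_reflect]
  have h2 : ∑ k ∈ Finset.Ico 1 N, ∑ i ∈ Finset.range N, F (dd θ i k) * sin (θ (i + k))
      = -∑ k ∈ Finset.Ico 1 N, ∑ i ∈ Finset.range N, F (dd θ i k) * sin (θ i) := by
    rw [← sum_reindex (fun i k => F (dd θ i k) * sin (θ i))
      (fun i k => by rw [dd_per hper, hper, Real.sin_add_two_pi]), ← Finset.sum_neg_distrib]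
    refine Finset.sum_congr rfl fun k hk => ?_
    rw [← Finset.sum_neg_distrib]
    refine Finset.sum_congr rfl fun i _ => ?_
    rw [hT i k hk]; ring
  have h3 : ∑ k ∈ Finset.Ico 1 N, ∑ i ∈ Finset.range N, F (dd θ i k) * sin (θ i)
      = -(r * ∑ i ∈ Finset.range N, sin (θ i) ^ 2) := by
    rw [Finset.sum_comm, Finset.mul_sum, ← Finset.sum_neg_distrib]
    refine Finset.sum_congr rfl fun i _ => ?_
    rw [← Finset.sum_mul, heq i]; ring
  have h4 : ∀ k, ∑ i ∈ Finset.range N, pp θ i k * F (dd θ i k)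
      = ((∑ i ∈ Finset.range N, F (dd θ i k) * sin (θ (i + k)))
        - ∑ i ∈ Finset.range N, F (dd θ i k) * sin (θ i)) / 2 := by
    intro k
    rw [← Finset.sum_sub_distrib, Finset.sum_div]
    refine Finset.sum_congr rfl fun i _ => ?_
    unfold pp; ring
  simp_rw [h4]
  rw [← Finset.sum_div, Finset.sum_sub_distrib, h2, h3]
  ring

/-- the level sum is small when the resultant is nonzero -/
lemma lam_sum_le (hN : 0 < N) (hmono : StrictMono θ) (hper : ∀ i, θ (i + N) = θ i + 2 * π) {r : ℝ}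
    (hr : 0 < r) (hcos : ∑ i ∈ Finset.range N, cos (θ i) = r)
    (heq : ∀ i, ∑ k ∈ Finset.Ico 1 N, F (dd θ i k) = -r * sin (θ i)) :
    ∑ k ∈ Finset.Ico 1 N, ell (π * k / N)
      ≤ ∑ i ∈ Finset.range N, (sin (θ i) ^ 2 - ph N θ i * sin (θ i)) := by
  have hvir := virial hN hper heq
  have hI := ident_sin hper heq
  have hk : ∀ k ∈ Finset.Ico 1 N, -(∑ i ∈ Finset.range N, aa N θ i k) / 2
      ≤ ∑ i ∈ Finset.range N, pp θ i k * F (dd θ i k) - ell (π * k / N) * r := by
    intro k hk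
    have hsc := sum_cot hmono hper hcos hk
    have hspp := sum_pp (θ := θ) hper k
    have hD := D_mem hk
    have hDe : 2 * π * k / N / 2 = π * k / N := by ring
    have e : ∑ i ∈ Finset.range N, pp θ i k * F (dd θ i k) - ell (π * k / N) * r
        = ∑ i ∈ Finset.range N, pp θ i k * (F (dd θ i k) - F (2 * π * k / N)
          - ell (2 * π * k / N / 2) * (cos (dd θ i k / 2) / sin (dd θ i k / 2)
            - cos (2 * π * k / N / 2) / sin (2 * π * k / N / 2))) := by
      have : ∀ i, pp θ i k * (F (dd θ i k) - F (2 * π * k / N)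
          - ell (2 * π * k / N / 2) * (cos (dd θ i k / 2) / sin (dd θ i k / 2)
            - cos (2 * π * k / N / 2) / sin (2 * π * k / N / 2)))
          = pp θ i k * F (dd θ i k) - F (2 * π * k / N) * pp θ i k
            - ell (2 * π * k / N / 2) * (cos (dd θ i k / 2) / sin (dd θ i k / 2) * pp θ i k)
            + ell (2 * π * k / N / 2) * (cos (2 * π * k / N / 2) / sin (2 * π * k / N / 2)) * pp θ i k := by
        intro i; ring
      simp_rw [this]
      rw [Finset.sum_add_distrib, Finset.sum_sub_distrib, Finset.sum_sub_distrib, ← Finset.mul_sum,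
        ← Finset.mul_sum, ← Finset.mul_sum, hspp, hsc, hDe]
      ring
    rw [e, neg_div, Finset.sum_div, ← Finset.sum_neg_distrib]
    refine Finset.sum_le_sum fun i _ => ?_
    have := PI (dd_mem hmono hper hk i) hD (abs_pp_le hmono hper hk i)
    unfold aa
    linarith
  have hsum := Finset.sum_le_sum hk
  rw [Finset.sum_sub_distrib, hI, ← Finset.sum_mul, ← Finset.sum_div, Finset.sum_neg_distrib, hvir] at hsum
  have h1 : r * ∑ k ∈ Finset.Ico 1 N, ell (π * k / N)
      ≤ r * ∑ i ∈ Finset.range N, (sin (θ i) ^ 2 - ph N θ i * sin (θ i)) := by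
    rw [Finset.sum_sub_distrib, mul_sub]
    linarith
  exact le_of_mul_le_mul_left h1 hr

/-! ### the window -/

lemma sum_abs_arith : ∀ n : ℕ, ∑ i ∈ Finset.range n, |(2 * (i : ℝ) + 1 - n)| ≤ (n : ℝ) ^ 2 / 2 := by
  intro n
  induction n using Nat.twoStepInduction with
  | zero => simp
  | one => simp
  | more n ih _ =>
    rw [Finset.sum_range_succ, Finset.sum_range_succ']
    have e : ∑ k ∈ Finset.range n, |(2 * ((k + 1 : ℕ) : ℝ) + 1 - ((n + 2 : ℕ) : ℝ))|
        = ∑ i ∈ Finset.range n, |(2 * (i : ℝ) + 1 - n)| := by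
      refine Finset.sum_congr rfl fun i _ => ?_
      congr 1; push_cast; ring
    rw [e]
    have a1 : |(2 * ((0 : ℕ) : ℝ) + 1 - ((n + 2 : ℕ) : ℝ))| = n + 1 := by
      push_cast
      rw [abs_of_nonpos (by have : (0 : ℝ) ≤ n := Nat.cast_nonneg n; linarith)]; ring
    have a2 : |(2 * ((n + 1 : ℕ) : ℝ) + 1 - ((n + 2 : ℕ) : ℝ))| = n + 1 := by
      push_cast
      rw [abs_of_nonneg (by have : (0 : ℝ) ≤ n := Nat.cast_nonneg n; linarith)]; ring
    rw [a1, a2]
    push_cast
    linarith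

lemma sum_sq_arith (n : ℕ) : ∑ i ∈ Finset.range n, (2 * (i : ℝ) + 1 - n) ^ 2 ≤ (n : ℝ) ^ 3 / 3 := by
  have h : ∀ (c : ℝ) (m : ℕ), ∑ i ∈ Finset.range m, (2 * (i : ℝ) + 1 - c) ^ 2
      = m * (4 * (m : ℝ) ^ 2 - 1) / 3 - 2 * c * (m : ℝ) ^ 2 + c ^ 2 * m := by
    intro c m
    induction m with
    | zero => simp
    | succ m ih => rw [Finset.sum_range_succ, ih]; push_cast; ring
  rw [h]
  have : (0 : ℝ) ≤ n := Nat.cast_nonneg n
  nlinarith

/-- centred equidistributed phases -/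
noncomputable def tau (N i : ℕ) : ℝ := π / N * (2 * i + 1 - N)

lemma sum_phi_tau (hN : 0 < N) :
    ∑ i ∈ Finset.range N, (0.7 * |tau N i| + 0.056 * tau N i ^ 2)
      ≤ N * (0.35 * π + 0.056 * π ^ 2 / 3) := by
  have hN' : (0 : ℝ) < N := by exact_mod_cast hN
  have hpi := Real.pi_pos
  have e : ∀ i, 0.7 * |tau N i| + 0.056 * tau N i ^ 2
      = 0.7 * (π / N) * |2 * (i : ℝ) + 1 - N| + 0.056 * (π / N) ^ 2 * (2 * (i : ℝ) + 1 - N) ^ 2 := by
    intro i
    unfold tau
    rw [abs_mul, abs_of_pos (by positivity : 0 < π / N)]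
    ring
  simp_rw [e]
  rw [Finset.sum_add_distrib, ← Finset.mul_sum, ← Finset.mul_sum]
  have h1 := mul_le_mul_of_nonneg_left (sum_abs_arith N) (by positivity : 0 ≤ 0.7 * (π / N))
  have h2 := mul_le_mul_of_nonneg_left (sum_sq_arith N) (by positivity : 0 ≤ 0.056 * (π / N) ^ 2)
  have e1 : 0.7 * (π / N) * ((N : ℝ) ^ 2 / 2) = N * (0.35 * π) := by
    have : 0.7 * (π / N) * ((N : ℝ) ^ 2 / 2) = 0.35 * π * (N ^ 2 / N) := by ring
    rw [this]; field_simp
  have e2 : 0.056 * (π / N) ^ 2 * ((N : ℝ) ^ 3 / 3) = N * (0.056 * π ^ 2 / 3) := by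
    field_simp
  rw [e1] at h1
  rw [e2] at h2
  linarith

/-- comparison with equidistributed phases -/
lemma window (hN : 0 < N) (hmono : StrictMono θ) (hper : ∀ i, θ (i + N) = θ i + 2 * π)
    (hsin : ∑ i ∈ Finset.range N, sin (θ i) = 0) :
    ∑ i ∈ Finset.range N, (sin (θ i) ^ 2 - ph N θ i * sin (θ i))
      ≤ N * (0.35 * π + 0.056 * π ^ 2 / 3) := by
  have hN' : (0 : ℝ) < N := by exact_mod_cast hN
  have hpi := Real.pi_pos
  have hsper : ∀ i, sin (θ (i + N)) = sin (θ i) := fun i => by rw [hper, Real.sin_add_two_pi]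
  -- choose `M` with `θ 0 < 2πM + π`
  obtain ⟨M, hM⟩ := exists_nat_gt ((θ 0) / (2 * π))
  have hM' : θ 0 < 2 * π * M + π := by
    rw [div_lt_iff₀ (by positivity)] at hM; linarith
  -- the sequence is unbounded
  have hlin : ∀ q : ℕ, θ (q * N) = θ 0 + 2 * π * q := by
    intro q
    induction q with
    | zero => simp
    | succ q ih =>
      have : (q + 1) * N = q * N + N := by ring
      rw [this, hper, ih]; push_cast; ring
  have hex : ∃ m, 2 * π * M + π ≤ θ m := by
    obtain ⟨q, hq⟩ := exists_nat_gt ((2 * π * M + π - θ 0) / (2 * π))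
    refine ⟨q * N, ?_⟩
    rw [div_lt_iff₀ (by positivity)] at hq
    rw [hlin q]; linarith
  classical
  set m := Nat.find hex with hm
  have hm1 : 2 * π * M + π ≤ θ m := Nat.find_spec hex
  have hm0 : m ≠ 0 := by
    intro h
    rw [h] at hm1; linarith
  have hm2 : θ (m - 1) < 2 * π * M + π := by
    have := Nat.find_min hex (show m - 1 < Nat.find hex by omega)
    push Not at this; exact this
  set t : ℕ → ℝ := fun i => θ (i + m) - 2 * π * (M + 1) with ht
  have ht1 : ∀ i, -π ≤ t i := by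
    intro i
    have := hmono.monotone (show m ≤ i + m by omega)
    simp only [ht]; linarith
  have ht2 : ∀ i ∈ Finset.range N, t i ≤ π := by
    intro i hi
    rw [Finset.mem_range] at hi
    have := hmono.monotone (show i + m ≤ (m - 1) + N by omega)
    rw [hper] at this
    simp only [ht]; linarith
  have hsint : ∀ i, sin (t i) = sin (θ (i + m)) := by
    intro i
    have e : θ (i + m) = t i + ((M + 1 : ℕ) : ℝ) * (2 * π) := by simp only [ht]; push_cast; ring
    rw [e, Real.sin_add_nat_mul_two_pi]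
  set c : ℝ := t 0 + 0 with hc
  have hW := sum_shift (fun i => sin (θ i) ^ 2 - ph N θ i * sin (θ i))
    (fun i => by
      change sin (θ (i + N)) ^ 2 - ph N θ (i + N) * sin (θ (i + N)) = _
      rw [hsper, ph_per hN hper]) m
  have hS := sum_shift (fun i => sin (θ i)) hsper m
  rw [hsin] at hS
  rw [← hW]
  set K : ℝ := 2 * π * (M + 1) - 2 * π * m / N + π / N - π with hK
  have e : ∀ i ∈ Finset.range N, sin (θ (i + m)) ^ 2 - ph N θ (i + m) * sin (θ (i + m))
      = (sin (t i) ^ 2 + (tau N i - t i) * sin (t i)) - K * sin (θ (i + m)) := by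
    intro i _
    rw [hsint]
    have : ph N θ (i + m) = t i - tau N i + K := by
      simp only [ht, hK]
      unfold ph tau
      push_cast
      field_simp
      ring
    rw [this]; ring
  rw [Finset.sum_congr rfl e, Finset.sum_sub_distrib, ← Finset.mul_sum, hS, mul_zero, sub_zero]
  refine le_trans (Finset.sum_le_sum fun i hi => phi_bound (ht1 i) (ht2 i hi)) (sum_phi_tau hN)

/-! ### lower bound for the level sum -/

lemma ell_symm {k : ℕ} (hN : 0 < N) (hk : k ≤ N) :
    ell (π * ((N - k : ℕ) : ℝ) / N) = ell (π * k / N) := by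
  have hN' : (N : ℝ) ≠ 0 := by exact_mod_cast hN.ne'
  have : π * ((N - k : ℕ) : ℝ) / N = π - π * k / N := by
    rw [Nat.cast_sub hk]; field_simp
  rw [this]
  unfold ell
  rw [Real.cos_pi_sub, Real.sin_pi_sub]; ring

lemma ell_nonneg {x : ℝ} (h0 : 0 ≤ x) (h1 : x ≤ π) : 0 ≤ ell x := by
  unfold ell
  have := Real.sin_nonneg_of_nonneg_of_le_pi h0 h1
  positivity

lemma sum_id_real (n : ℕ) : ∑ k ∈ Finset.Icc 1 n, (k : ℝ) = n * (n + 1) / 2 := by
  induction n with
  | zero => simp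
  | succ n ih => rw [Finset.sum_Icc_succ_top (by omega), ih]; push_cast; ring

lemma sum_cube_real (n : ℕ) : ∑ k ∈ Finset.Icc 1 n, (k : ℝ) ^ 3 = (n * (n + 1)) ^ 2 / 4 := by
  induction n with
  | zero => simp
  | succ n ih => rw [Finset.sum_Icc_succ_top (by omega), ih]; push_cast; ring

lemma lam_lower (hN : 2 ≤ N) :
    N * (((harmonic ((N - 1) / 2) : ℚ) : ℝ) / π - π / 24 + π ^ 3 / 800)
      ≤ ∑ k ∈ Finset.Ico 1 N, ell (π * k / N) := by
  have hN' : (0 : ℝ) < N := by exact_mod_cast (by omega : 0 < N)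
  have hpi := Real.pi_pos
  set A : ℕ → ℝ := fun k => ell (π * k / N) with hA
  set n := (N - 1) / 2 with hn
  have hA0 : ∀ k ∈ Finset.Ico 1 N, 0 ≤ A k := by
    intro k hk
    have := D_mem hk
    exact ell_nonneg (by positivity) (by
      have h2 := this.2
      have : (2 * π * k / N : ℝ) = 2 * (π * k / N) := by ring
      linarith)
  have hsub : 2 * ∑ k ∈ Finset.Icc 1 n, A k ≤ ∑ k ∈ Finset.Ico 1 N, A k := by
    have h1 : ∑ k ∈ Finset.Icc 1 n, A k = ∑ k ∈ (Finset.Icc 1 n).image (fun k => N - k), A k := by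
      rw [Finset.sum_image]
      · refine Finset.sum_congr rfl fun k hk => ?_
        rw [Finset.mem_Icc] at hk
        exact (ell_symm (by omega) (by omega)).symm
      · intro a ha b hb hab
        have ha' := Finset.mem_Icc.1 (Finset.mem_coe.1 ha)
        have hb' := Finset.mem_Icc.1 (Finset.mem_coe.1 hb)
        simp only at hab
        omega
    have hdisj : Disjoint (Finset.Icc 1 n) ((Finset.Icc 1 n).image (fun k => N - k)) := by
      rw [Finset.disjoint_left]
      intro a ha hb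
      rw [Finset.mem_image] at hb
      obtain ⟨b, hb, hab⟩ := hb
      rw [Finset.mem_Icc] at ha hb
      omega
    calc 2 * ∑ k ∈ Finset.Icc 1 n, A k
        = ∑ k ∈ Finset.Icc 1 n, A k + ∑ k ∈ (Finset.Icc 1 n).image (fun k => N - k), A k := by
          rw [← h1]; ring
      _ = ∑ k ∈ (Finset.Icc 1 n) ∪ (Finset.Icc 1 n).image (fun k => N - k), A k :=
          (Finset.sum_union hdisj).symm
      _ ≤ _ := by
          apply Finset.sum_le_sum_of_subset_of_nonneg
          · intro k hk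
            rw [Finset.mem_union, Finset.mem_image] at hk
            rw [Finset.mem_Ico]
            rcases hk with hk | ⟨b, hb, hab⟩
            · rw [Finset.mem_Icc] at hk; omega
            · rw [Finset.mem_Icc] at hb; omega
          · exact fun k hk _ => hA0 k hk
  have hlow : ∑ k ∈ Finset.Icc 1 n, ((N : ℝ) / (2 * π) * ((k : ℝ)⁻¹) - π / (6 * N) * k
      + π ^ 3 / (25 * N ^ 3) * (k : ℝ) ^ 3) ≤ ∑ k ∈ Finset.Icc 1 n, A k := by
    refine Finset.sum_le_sum fun k hk => ?_
    rw [Finset.mem_Icc] at hk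
    have hkp : (0 : ℝ) < k := by exact_mod_cast (by omega : 0 < k)
    have hk2 : (2 : ℝ) * k ≤ N := by exact_mod_cast (by omega : 2 * k ≤ N)
    have := ell_lower (x := π * k / N) (by positivity) (by
      rw [div_le_div_iff₀ hN' two_pos]; nlinarith)
    refine le_trans (le_of_eq ?_) this
    field_simp
  rw [Finset.sum_add_distrib, Finset.sum_sub_distrib, ← Finset.mul_sum, ← Finset.mul_sum,
    ← Finset.mul_sum, sum_id_real, sum_cube_real] at hlow
  have hharm : ∑ k ∈ Finset.Icc 1 n, ((k : ℝ)⁻¹) = ((harmonic n : ℚ) : ℝ) := by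
    rw [harmonic_eq_sum_Icc]; push_cast; rfl
  rw [hharm] at hlow
  set H : ℝ := ((harmonic n : ℚ) : ℝ) with hH
  -- `M = n (n+1) ≤ N²/4`
  obtain ⟨M, hM⟩ : ∃ M : ℝ, M = (n : ℝ) * (n + 1) := ⟨_, rfl⟩
  rw [← hM] at hlow
  have hM1 : M ≤ (N : ℝ) ^ 2 / 4 := by
    have h3 : (2 * n + 1 : ℝ) ≤ N := by exact_mod_cast (by omega : 2 * n + 1 ≤ N)
    have h4 : (0 : ℝ) ≤ n := Nat.cast_nonneg n
    rw [hM]; nlinarith
  have hM0 : 0 ≤ M := by rw [hM]; positivity
  have hkey : N * (π / 24 - π ^ 3 / 800) ≥ π / (6 * N) * M - π ^ 3 / (50 * N ^ 3) * M ^ 2 := by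
    obtain ⟨m, hm⟩ : ∃ m : ℝ, m = M / (N : ℝ) ^ 2 := ⟨_, rfl⟩
    have hMm : M = m * (N : ℝ) ^ 2 := by rw [hm]; field_simp
    have hm1 : m ≤ 1 / 4 := by rw [hm, div_le_iff₀ (by positivity)]; linarith
    have hm0 : 0 ≤ m := by rw [hm]; positivity
    have e : π / (6 * N) * M - π ^ 3 / (50 * N ^ 3) * M ^ 2 = N * (π / 6 * m - π ^ 3 / 50 * m ^ 2) := by
      rw [hMm]; field_simp
    rw [e]
    apply mul_le_mul_of_nonneg_left _ hN'.le
    have e2 : π / 24 - π ^ 3 / 800 - (π / 6 * m - π ^ 3 / 50 * m ^ 2)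
        = π * (1 / 4 - m) * (1 / 6 - π ^ 2 / 50 * (1 / 4 + m)) := by ring
    have h5 : π ^ 2 < 10 := by nlinarith [Real.pi_lt_d2]
    have h6 : 0 ≤ 1 / 6 - π ^ 2 / 50 * (1 / 4 + m) := by nlinarith
    have : 0 ≤ π * (1 / 4 - m) * (1 / 6 - π ^ 2 / 50 * (1 / 4 + m)) :=
      mul_nonneg (mul_nonneg hpi.le (by linarith)) h6
    linarith
  have e3 : 2 * ((N : ℝ) / (2 * π) * H - π / (6 * N) * (M / 2) + π ^ 3 / (25 * N ^ 3) * (M ^ 2 / 4))
      = N * (H / π) - (π / (6 * N) * M - π ^ 3 / (50 * N ^ 3) * M ^ 2) := by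
    field_simp
    ring
  have e4 : N * (H / π - π / 24 + π ^ 3 / 800) = N * (H / π) - N * (π / 24 - π ^ 3 / 800) := by ring
  rw [e4]
  linarith

/-- If the resultant is nonzero then the harmonic number is small. -/
lemma harmonic_lt2 (hN : 2 ≤ N) (hmono : StrictMono θ) (hper : ∀ i, θ (i + N) = θ i + 2 * π) {r : ℝ}
    (hr : 0 < r) (hsin : ∑ i ∈ Finset.range N, sin (θ i) = 0)
    (hcos : ∑ i ∈ Finset.range N, cos (θ i) = r)
    (heq : ∀ i, ∑ k ∈ Finset.Ico 1 N, F (dd θ i k) = -r * sin (θ i)) :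
    ((harmonic ((N - 1) / 2) : ℚ) : ℝ) ≤ 4.3228 := by
  have hN' : (0 : ℝ) < N := by exact_mod_cast (by omega : 0 < N)
  have hpi := Real.pi_pos
  have h1 := lam_lower hN
  have h2 := lam_sum_le (by omega) hmono hper hr hcos heq
  have h3 := window (by omega) hmono hper hsin
  have h4 := le_of_mul_le_mul_left (h1.trans (h2.trans h3)) hN'
  set H : ℝ := ((harmonic ((N - 1) / 2) : ℚ) : ℝ)
  have h5 : H / π ≤ 0.35 * π + 0.056 * π ^ 2 / 3 + π / 24 - π ^ 3 / 800 := by linarith
  rw [div_le_iff₀ hpi] at h5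
  have hl := Real.pi_gt_d4
  have hu := Real.pi_lt_d4
  have p2 : π ^ 2 ≤ 9.86966 := by nlinarith
  have p2' : 9.869 ≤ π ^ 2 := by nlinarith
  have p3 : π ^ 3 ≤ 31.00654 := by
    have : π ^ 3 = π ^ 2 * π := by ring
    rw [this]; nlinarith
  have p4 : 97.397 ≤ π ^ 4 := by
    have : π ^ 4 = π ^ 2 * π ^ 2 := by ring
    rw [this]; nlinarith
  nlinarith

/-- main theorem on the circle -/
theorem circle_main2 (hN : 85 ≤ N) (hmono : StrictMono θ) (hper : ∀ i, θ (i + N) = θ i + 2 * π)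
    {r : ℝ} (hr : 0 ≤ r) (hsin : ∑ i ∈ Finset.range N, sin (θ i) = 0)
    (hcos : ∑ i ∈ Finset.range N, cos (θ i) = r)
    (heq : ∀ i, ∑ k ∈ Finset.Ico 1 N, F (dd θ i k) = -r * sin (θ i)) (i : ℕ) :
    θ (i + 1) - θ i = 2 * π / N := by
  have hr0 : r = 0 := by
    by_contra hne
    have hrp : 0 < r := lt_of_le_of_ne hr (Ne.symm hne)
    have h := harmonic_lt2 (by omega) hmono hper hrp hsin hcos heq
    have h1 : (42 : ℕ) ≤ (N - 1) / 2 := by omega
    have h2 : ((harmonic 42 : ℚ) : ℝ) ≤ ((harmonic ((N - 1) / 2) : ℚ) : ℝ) := by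
      rw [harmonic_eq_sum_Icc, harmonic_eq_sum_Icc]
      push_cast
      apply Finset.sum_le_sum_of_subset_of_nonneg
      · exact Finset.Icc_subset_Icc_right h1
      · intro k _ _; positivity
    have h3 : (4.326 : ℚ) < harmonic 42 := by
      simp only [harmonic, Finset.sum_range_succ, Finset.sum_range_zero]
      norm_num
    have h3' : (4.326 : ℝ) < ((harmonic 42 : ℚ) : ℝ) := by
      have : ((4.326 : ℚ) : ℝ) < ((harmonic 42 : ℚ) : ℝ) := Rat.cast_lt.2 h3
      norm_num at this ⊢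
    linarith
  -- now r = 0
  have hN0 : 0 < N := by omega
  have hS := virial hN0 hper heq
  rw [hr0] at hS
  simp only [mul_zero, zero_mul] at hS
  have h1 : (1 : ℕ) ∈ Finset.Ico 1 N := Finset.mem_Ico.2 ⟨le_refl _, by omega⟩
  have h2 := (Finset.sum_eq_zero_iff_of_nonneg (fun k hk =>
    Finset.sum_nonneg fun i _ => aa_nonneg hmono hper hk i)).1 hS 1 h1
  have h3 : ∀ i ∈ Finset.range N, aa N θ i 1 = 0 :=
    (Finset.sum_eq_zero_iff_of_nonneg (fun i _ => aa_nonneg hmono hper h1 i)).1 h2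
  have h4 : ∀ i, aa N θ i 1 = 0 := by
    intro i
    have hp : Function.Periodic (fun i => aa N θ i 1) N := fun i => by
      simp only [aa]; rw [dd_per hper]
    have := hp.map_mod_nat i
    rw [← this]
    exact h3 _ (Finset.mem_range.2 (Nat.mod_lt _ hN0))
  have h5 := h4 i
  unfold aa at h5
  have hd := dd_mem hmono hper h1 i
  have hD := D_mem h1
  have h6 : dd θ i 1 = 2 * π * (1 : ℕ) / N := by
    rcases mul_eq_zero.1 h5 with h | h
    · by_contra hne
      rcases lt_or_gt_of_ne hne with hlt | hlt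
      · have := F_strictAnti hd hD hlt; linarith
      · have := F_strictAnti hD hd hlt; linarith
    · linarith
  have : θ (i + 1) - θ i = dd θ i 1 := rfl
  rw [this, h6]
  simp

end Main3

end Pool.Agent.H443CC
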