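import Pool.Agent.H443CC.Tab1Data

namespace Pool.Agent.H443CC

set_option maxRecDepth 1000000 in
theorem tabC_ok : tabC CH1 = true := by decide +kernel

end Pool.Agent.H443CC
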