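import Pool.Agent.H443CC.Tab1Sound
import Pool.Agent.H443CC.Tab1F
import Pool.Agent.H443CC.Tab1S
import Pool.Agent.H443CC.Tab1C

namespace Pool.Agent.H443CC

theorem tab1_ok : Tab T1 SN1 CH1 := tab_sound tabF_ok tabS_ok tabC_ok

end Pool.Agent.H443CC
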