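import Pool.Agent.H443CC.Window
import Pool.Agent.H443CC.Tab1Ok
import Pool.Agent.H443CC.E1D0
import Pool.Agent.H443CC.E1D1
import Pool.Agent.H443CC.E1D2
import Pool.Agent.H443CC.E1D3
import Pool.Agent.H443CC.E1D4
import Pool.Agent.H443CC.E1D5
import Pool.Agent.H443CC.E1D6
import Pool.Agent.H443CC.E1D7
import Pool.Agent.H443CC.E1D8
import Pool.Agent.H443CC.E1D9
import Pool.Agent.H443CC.E1D10
import Pool.Agent.H443CC.E1D11
import Pool.Agent.H443CC.E1D12
import Pool.Agent.H443CC.E1D13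
import Pool.Agent.H443CC.E1D14
import Pool.Agent.H443CC.E1D15
import Pool.Agent.H443CC.E1D16
import Pool.Agent.H443CC.E1D17
import Pool.Agent.H443CC.E1D18
import Pool.Agent.H443CC.E1D19
import Pool.Agent.H443CC.E1D20
import Pool.Agent.H443CC.E1D21
import Pool.Agent.H443CC.E1D22
import Pool.Agent.H443CC.E1D23
import Pool.Agent.H443CC.E1D24
import Pool.Agent.H443CC.E1D25
import Pool.Agent.H443CC.E1D26
import Pool.Agent.H443CC.E1D27

/-!
# The sweep engine applied to `9 ≤ N ≤ 12`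
-/

open Real

namespace Pool.Agent.H443CC

lemma sw9 {r : ℝ} {xs : List ℝ} (hlen : xs.length = 9) (hS : Sol r xs)
    (hs : ∀ (s : ℝ), xs.getLast? = some s → ∀ x ∈ xs, |x| ≤ s)
    (h1 : ((914 : ℕ) : ℝ) / 1024 ≤ r) (h2 : r ≤ ((9216 : ℕ) : ℝ) / 1024) : False := by
  rcases le_total r (((958 : ℕ) : ℝ) / 1024) with h | h1
  · exact treeOk_top tab1_ok (by norm_num) (by norm_num) tr9_0 914 958 trk9_0 r xs hlen hS h1 h hs
  rcases le_total r (((1001 : ℕ) : ℝ) / 1024) with h | h1
  · exact treeOk_top tab1_ok (by norm_num) (by norm_num) tr9_1 958 1001 trk9_1 r xs hlen hS h1 h hs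
  rcases le_total r (((1047 : ℕ) : ℝ) / 1024) with h | h1
  · exact treeOk_top tab1_ok (by norm_num) (by norm_num) tr9_2 1001 1047 trk9_2 r xs hlen hS h1 h hs
  rcases le_total r (((1097 : ℕ) : ℝ) / 1024) with h | h1
  · exact treeOk_top tab1_ok (by norm_num) (by norm_num) tr9_3 1047 1097 trk9_3 r xs hlen hS h1 h hs
  rcases le_total r (((1151 : ℕ) : ℝ) / 1024) with h | h1
  · exact treeOk_top tab1_ok (by norm_num) (by norm_num) tr9_4 1097 1151 trk9_4 r xs hlen hS h1 h hs
  rcases le_total r (((1212 : ℕ) : ℝ) / 1024) with h | h1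
  · exact treeOk_top tab1_ok (by norm_num) (by norm_num) tr9_5 1151 1212 trk9_5 r xs hlen hS h1 h hs
  rcases le_total r (((1280 : ℕ) : ℝ) / 1024) with h | h1
  · exact treeOk_top tab1_ok (by norm_num) (by norm_num) tr9_6 1212 1280 trk9_6 r xs hlen hS h1 h hs
  rcases le_total r (((1354 : ℕ) : ℝ) / 1024) with h | h1
  · exact treeOk_top tab1_ok (by norm_num) (by norm_num) tr9_7 1280 1354 trk9_7 r xs hlen hS h1 h hs
  rcases le_total r (((1435 : ℕ) : ℝ) / 1024) with h | h1
  · exact treeOk_top tab1_ok (by norm_num) (by norm_num) tr9_8 1354 1435 trk9_8 r xs hlen hS h1 h hs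
  rcases le_total r (((1522 : ℕ) : ℝ) / 1024) with h | h1
  · exact treeOk_top tab1_ok (by norm_num) (by norm_num) tr9_9 1435 1522 trk9_9 r xs hlen hS h1 h hs
  rcases le_total r (((1614 : ℕ) : ℝ) / 1024) with h | h1
  · exact treeOk_top tab1_ok (by norm_num) (by norm_num) tr9_10 1522 1614 trk9_10 r xs hlen hS h1 h hs
  rcases le_total r (((1712 : ℕ) : ℝ) / 1024) with h | h1
  · exact treeOk_top tab1_ok (by norm_num) (by norm_num) tr9_11 1614 1712 trk9_11 r xs hlen hS h1 h hs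
  rcases le_total r (((1816 : ℕ) : ℝ) / 1024) with h | h1
  · exact treeOk_top tab1_ok (by norm_num) (by norm_num) tr9_12 1712 1816 trk9_12 r xs hlen hS h1 h hs
  rcases le_total r (((1929 : ℕ) : ℝ) / 1024) with h | h1
  · exact treeOk_top tab1_ok (by norm_num) (by norm_num) tr9_13 1816 1929 trk9_13 r xs hlen hS h1 h hs
  rcases le_total r (((2055 : ℕ) : ℝ) / 1024) with h | h1
  · exact treeOk_top tab1_ok (by norm_num) (by norm_num) tr9_14 1929 2055 trk9_14 r xs hlen hS h1 h hs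
  rcases le_total r (((2191 : ℕ) : ℝ) / 1024) with h | h1
  · exact treeOk_top tab1_ok (by norm_num) (by norm_num) tr9_15 2055 2191 trk9_15 r xs hlen hS h1 h hs
  rcases le_total r (((2331 : ℕ) : ℝ) / 1024) with h | h1
  · exact treeOk_top tab1_ok (by norm_num) (by norm_num) tr9_16 2191 2331 trk9_16 r xs hlen hS h1 h hs
  rcases le_total r (((2481 : ℕ) : ℝ) / 1024) with h | h1
  · exact treeOk_top tab1_ok (by norm_num) (by norm_num) tr9_17 2331 2481 trk9_17 r xs hlen hS h1 h hs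
  rcases le_total r (((2638 : ℕ) : ℝ) / 1024) with h | h1
  · exact treeOk_top tab1_ok (by norm_num) (by norm_num) tr9_18 2481 2638 trk9_18 r xs hlen hS h1 h hs
  rcases le_total r (((2804 : ℕ) : ℝ) / 1024) with h | h1
  · exact treeOk_top tab1_ok (by norm_num) (by norm_num) tr9_19 2638 2804 trk9_19 r xs hlen hS h1 h hs
  rcases le_total r (((2963 : ℕ) : ℝ) / 1024) with h | h1
  · exact treeOk_top tab1_ok (by norm_num) (by norm_num) tr9_20 2804 2963 trk9_20 r xs hlen hS h1 h hs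
  rcases le_total r (((3135 : ℕ) : ℝ) / 1024) with h | h1
  · exact treeOk_top tab1_ok (by norm_num) (by norm_num) tr9_21 2963 3135 trk9_21 r xs hlen hS h1 h hs
  rcases le_total r (((3318 : ℕ) : ℝ) / 1024) with h | h1
  · exact treeOk_top tab1_ok (by norm_num) (by norm_num) tr9_22 3135 3318 trk9_22 r xs hlen hS h1 h hs
  rcases le_total r (((3497 : ℕ) : ℝ) / 1024) with h | h1
  · exact treeOk_top tab1_ok (by norm_num) (by norm_num) tr9_23 3318 3497 trk9_23 r xs hlen hS h1 h hs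
  rcases le_total r (((3680 : ℕ) : ℝ) / 1024) with h | h1
  · exact treeOk_top tab1_ok (by norm_num) (by norm_num) tr9_24 3497 3680 trk9_24 r xs hlen hS h1 h hs
  rcases le_total r (((3864 : ℕ) : ℝ) / 1024) with h | h1
  · exact treeOk_top tab1_ok (by norm_num) (by norm_num) tr9_25 3680 3864 trk9_25 r xs hlen hS h1 h hs
  rcases le_total r (((4112 : ℕ) : ℝ) / 1024) with h | h1
  · exact treeOk_top tab1_ok (by norm_num) (by norm_num) tr9_26 3864 4112 trk9_26 r xs hlen hS h1 h hs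
  rcases le_total r (((4495 : ℕ) : ℝ) / 1024) with h | h1
  · exact treeOk_top tab1_ok (by norm_num) (by norm_num) tr9_27 4112 4495 trk9_27 r xs hlen hS h1 h hs
  rcases le_total r (((5234 : ℕ) : ℝ) / 1024) with h | h1
  · exact treeOk_top tab1_ok (by norm_num) (by norm_num) tr9_28 4495 5234 trk9_28 r xs hlen hS h1 h hs
  rcases le_total r (((7033 : ℕ) : ℝ) / 1024) with h | h1
  · exact treeOk_top tab1_ok (by norm_num) (by norm_num) tr9_29 5234 7033 trk9_29 r xs hlen hS h1 h hs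
  exact treeOk_top tab1_ok (by norm_num) (by norm_num) tr9_30 7033 9216 trk9_30 r xs hlen hS h1 h2 hs

lemma sw10 {r : ℝ} {xs : List ℝ} (hlen : xs.length = 10) (hS : Sol r xs)
    (hs : ∀ (s : ℝ), xs.getLast? = some s → ∀ x ∈ xs, |x| ≤ s)
    (h1 : ((1474 : ℕ) : ℝ) / 1024 ≤ r) (h2 : r ≤ ((10240 : ℕ) : ℝ) / 1024) : False := by
  rcases le_total r (((1606 : ℕ) : ℝ) / 1024) with h | h1
  · exact treeOk_top tab1_ok (by norm_num) (by norm_num) tr10_0 1474 1606 trk10_0 r xs hlen hS h1 h hs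
  rcases le_total r (((1736 : ℕ) : ℝ) / 1024) with h | h1
  · exact treeOk_top tab1_ok (by norm_num) (by norm_num) tr10_1 1606 1736 trk10_1 r xs hlen hS h1 h hs
  rcases le_total r (((1884 : ℕ) : ℝ) / 1024) with h | h1
  · exact treeOk_top tab1_ok (by norm_num) (by norm_num) tr10_2 1736 1884 trk10_2 r xs hlen hS h1 h hs
  rcases le_total r (((2058 : ℕ) : ℝ) / 1024) with h | h1
  · exact treeOk_top tab1_ok (by norm_num) (by norm_num) tr10_3 1884 2058 trk10_3 r xs hlen hS h1 h hs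
  rcases le_total r (((2248 : ℕ) : ℝ) / 1024) with h | h1
  · exact treeOk_top tab1_ok (by norm_num) (by norm_num) tr10_4 2058 2248 trk10_4 r xs hlen hS h1 h hs
  rcases le_total r (((2451 : ℕ) : ℝ) / 1024) with h | h1
  · exact treeOk_top tab1_ok (by norm_num) (by norm_num) tr10_5 2248 2451 trk10_5 r xs hlen hS h1 h hs
  rcases le_total r (((2676 : ℕ) : ℝ) / 1024) with h | h1
  · exact treeOk_top tab1_ok (by norm_num) (by norm_num) tr10_6 2451 2676 trk10_6 r xs hlen hS h1 h hs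
  rcases le_total r (((2935 : ℕ) : ℝ) / 1024) with h | h1
  · exact treeOk_top tab1_ok (by norm_num) (by norm_num) tr10_7 2676 2935 trk10_7 r xs hlen hS h1 h hs
  rcases le_total r (((3221 : ℕ) : ℝ) / 1024) with h | h1
  · exact treeOk_top tab1_ok (by norm_num) (by norm_num) tr10_8 2935 3221 trk10_8 r xs hlen hS h1 h hs
  rcases le_total r (((3543 : ℕ) : ℝ) / 1024) with h | h1
  · exact treeOk_top tab1_ok (by norm_num) (by norm_num) tr10_9 3221 3543 trk10_9 r xs hlen hS h1 h hs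
  rcases le_total r (((3904 : ℕ) : ℝ) / 1024) with h | h1
  · exact treeOk_top tab1_ok (by norm_num) (by norm_num) tr10_10 3543 3904 trk10_10 r xs hlen hS h1 h hs
  rcases le_total r (((4338 : ℕ) : ℝ) / 1024) with h | h1
  · exact treeOk_top tab1_ok (by norm_num) (by norm_num) tr10_11 3904 4338 trk10_11 r xs hlen hS h1 h hs
  rcases le_total r (((4876 : ℕ) : ℝ) / 1024) with h | h1
  · exact treeOk_top tab1_ok (by norm_num) (by norm_num) tr10_12 4338 4876 trk10_12 r xs hlen hS h1 h hs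
  rcases le_total r (((5695 : ℕ) : ℝ) / 1024) with h | h1
  · exact treeOk_top tab1_ok (by norm_num) (by norm_num) tr10_13 4876 5695 trk10_13 r xs hlen hS h1 h hs
  rcases le_total r (((7560 : ℕ) : ℝ) / 1024) with h | h1
  · exact treeOk_top tab1_ok (by norm_num) (by norm_num) tr10_14 5695 7560 trk10_14 r xs hlen hS h1 h hs
  exact treeOk_top tab1_ok (by norm_num) (by norm_num) tr10_15 7560 10240 trk10_15 r xs hlen hS h1 h2 hs

lemma sw11 {r : ℝ} {xs : List ℝ} (hlen : xs.length = 11) (hS : Sol r xs)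
    (hs : ∀ (s : ℝ), xs.getLast? = some s → ∀ x ∈ xs, |x| ≤ s)
    (h1 : ((2406 : ℕ) : ℝ) / 1024 ≤ r) (h2 : r ≤ ((11264 : ℕ) : ℝ) / 1024) : False := by
  rcases le_total r (((2680 : ℕ) : ℝ) / 1024) with h | h1
  · exact treeOk_top tab1_ok (by norm_num) (by norm_num) tr11_0 2406 2680 trk11_0 r xs hlen hS h1 h hs
  rcases le_total r (((2963 : ℕ) : ℝ) / 1024) with h | h1
  · exact treeOk_top tab1_ok (by norm_num) (by norm_num) tr11_1 2680 2963 trk11_1 r xs hlen hS h1 h hs
  rcases le_total r (((3290 : ℕ) : ℝ) / 1024) with h | h1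
  · exact treeOk_top tab1_ok (by norm_num) (by norm_num) tr11_2 2963 3290 trk11_2 r xs hlen hS h1 h hs
  rcases le_total r (((3646 : ℕ) : ℝ) / 1024) with h | h1
  · exact treeOk_top tab1_ok (by norm_num) (by norm_num) tr11_3 3290 3646 trk11_3 r xs hlen hS h1 h hs
  rcases le_total r (((4065 : ℕ) : ℝ) / 1024) with h | h1
  · exact treeOk_top tab1_ok (by norm_num) (by norm_num) tr11_4 3646 4065 trk11_4 r xs hlen hS h1 h hs
  rcases le_total r (((4552 : ℕ) : ℝ) / 1024) with h | h1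
  · exact treeOk_top tab1_ok (by norm_num) (by norm_num) tr11_5 4065 4552 trk11_5 r xs hlen hS h1 h hs
  rcases le_total r (((5175 : ℕ) : ℝ) / 1024) with h | h1
  · exact treeOk_top tab1_ok (by norm_num) (by norm_num) tr11_6 4552 5175 trk11_6 r xs hlen hS h1 h hs
  rcases le_total r (((6004 : ℕ) : ℝ) / 1024) with h | h1
  · exact treeOk_top tab1_ok (by norm_num) (by norm_num) tr11_7 5175 6004 trk11_7 r xs hlen hS h1 h hs
  rcases le_total r (((7360 : ℕ) : ℝ) / 1024) with h | h1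
  · exact treeOk_top tab1_ok (by norm_num) (by norm_num) tr11_8 6004 7360 trk11_8 r xs hlen hS h1 h hs
  rcases le_total r (((10745 : ℕ) : ℝ) / 1024) with h | h1
  · exact treeOk_top tab1_ok (by norm_num) (by norm_num) tr11_9 7360 10745 trk11_9 r xs hlen hS h1 h hs
  exact treeOk_top tab1_ok (by norm_num) (by norm_num) tr11_10 10745 11264 trk11_10 r xs hlen hS h1 h2 hs

lemma sw12 {r : ℝ} {xs : List ℝ} (hlen : xs.length = 12) (hS : Sol r xs)
    (hs : ∀ (s : ℝ), xs.getLast? = some s → ∀ x ∈ xs, |x| ≤ s)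
    (h1 : ((3750 : ℕ) : ℝ) / 1024 ≤ r) (h2 : r ≤ ((12288 : ℕ) : ℝ) / 1024) : False := by
  rcases le_total r (((4274 : ℕ) : ℝ) / 1024) with h | h1
  · exact treeOk_top tab1_ok (by norm_num) (by norm_num) tr12_0 3750 4274 trk12_0 r xs hlen hS h1 h hs
  rcases le_total r (((4808 : ℕ) : ℝ) / 1024) with h | h1
  · exact treeOk_top tab1_ok (by norm_num) (by norm_num) tr12_1 4274 4808 trk12_1 r xs hlen hS h1 h hs
  rcases le_total r (((5403 : ℕ) : ℝ) / 1024) with h | h1
  · exact treeOk_top tab1_ok (by norm_num) (by norm_num) tr12_2 4808 5403 trk12_2 r xs hlen hS h1 h hs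
  rcases le_total r (((6283 : ℕ) : ℝ) / 1024) with h | h1
  · exact treeOk_top tab1_ok (by norm_num) (by norm_num) tr12_3 5403 6283 trk12_3 r xs hlen hS h1 h hs
  rcases le_total r (((7599 : ℕ) : ℝ) / 1024) with h | h1
  · exact treeOk_top tab1_ok (by norm_num) (by norm_num) tr12_4 6283 7599 trk12_4 r xs hlen hS h1 h hs
  rcases le_total r (((10209 : ℕ) : ℝ) / 1024) with h | h1
  · exact treeOk_top tab1_ok (by norm_num) (by norm_num) tr12_5 7599 10209 trk12_5 r xs hlen hS h1 h hs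
  exact treeOk_top tab1_ok (by norm_num) (by norm_num) tr12_6 10209 12288 trk12_6 r xs hlen hS h1 h2 hs

end Pool.Agent.H443CC
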