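import Pool.Agent.H443CC.LPFinal
import Pool.Agent.H443CC.SweepFinal

/-!
# The theorem on the circle for every `N ≥ 9`
-/

open Real

namespace Pool.Agent.H443CC

/-- sweeps, transferred to quasi-periodic sequences: no solution with `a / 1024 ≤ r ≤ N` -/
lemma sweep_contra {N : ℕ} (hN : 2 ≤ N) {a b : ℕ} (hb : N * 1024 ≤ b)
    (hsw : ∀ (r : ℝ) (xs : List ℝ), xs.length = N → Sol r xs →
      (∀ (s : ℝ), xs.getLast? = some s → ∀ x ∈ xs, |x| ≤ s) →
      (a : ℝ) / 1024 ≤ r → r ≤ (b : ℝ) / 1024 → False)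
    {θ : ℕ → ℝ} (hmono : StrictMono θ) (hper : ∀ i, θ (i + N) = θ i + 2 * π) {r : ℝ}
    (hcos : ∑ i ∈ Finset.range N, cos (θ i) = r)
    (heq : ∀ i, ∑ k ∈ Finset.Ico 1 N, F (dd θ i k) = -r * sin (θ i))
    (h1 : (a : ℝ) / 1024 ≤ r) : False := by
  obtain ⟨xs, hlen, hS, hs⟩ := exists_sol hN hmono hper hcos heq
  refine hsw r xs hlen hS hs h1 ?_
  have h2 := r_le (N := N) (by omega) hcos
  have h3 : ((N * 1024 : ℕ) : ℝ) ≤ b := by exact_mod_cast hb
  push_cast at h3
  rw [le_div_iff₀ (by norm_num)]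
  linarith

/-- no nonzero resultant for `9 ≤ N ≤ 84` -/
theorem no_r_9_84 {N : ℕ} (h9 : 9 ≤ N) (h84 : N ≤ 84) {θ : ℕ → ℝ} (hmono : StrictMono θ)
    (hper : ∀ i, θ (i + N) = θ i + 2 * π) {r : ℝ} (hr : 0 < r)
    (hsin : ∑ i ∈ Finset.range N, sin (θ i) = 0) (hcos : ∑ i ∈ Finset.range N, cos (θ i) = r)
    (heq : ∀ i, ∑ k ∈ Finset.Ico 1 N, F (dd θ i k) = -r * sin (θ i)) : False := by
  rcases Nat.lt_or_ge N 13 with h13 | h13
  swap
  · exact no_r_13_84 h13 h84 hmono hper hr hsin hcos heq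
  have hcase : N = 9 ∨ N = 10 ∨ N = 11 ∨ N = 12 := by omega
  rcases hcase with rfl | rfl | rfl | rfl
  · rcases le_total (r / (9 : ℕ)) (((6500 : ℕ) : ℝ) / 2 ^ 16) with h | h
    · exact lp9 hmono hper hr hsin hcos heq h
    · refine sweep_contra (N := 9) (a := 914) (b := 9216) (by norm_num) (by norm_num)
        (fun r xs hlen hS hs h1 h2 => sw9 hlen hS hs h1 h2) hmono hper hcos heq ?_
      push_cast at h ⊢
      linarith
  · rcases le_total (r / (10 : ℕ)) (((9437 : ℕ) : ℝ) / 2 ^ 16) with h | h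
    · exact lp10 hmono hper hr hsin hcos heq h
    · refine sweep_contra (N := 10) (a := 1474) (b := 10240) (by norm_num) (by norm_num)
        (fun r xs hlen hS hs h1 h2 => sw10 hlen hS hs h1 h2) hmono hper hcos heq ?_
      push_cast at h ⊢
      linarith
  · rcases le_total (r / (11 : ℕ)) (((14000 : ℕ) : ℝ) / 2 ^ 16) with h | h
    · exact lp11 hmono hper hr hsin hcos heq h
    · refine sweep_contra (N := 11) (a := 2406) (b := 11264) (by norm_num) (by norm_num)
        (fun r xs hlen hS hs h1 h2 => sw11 hlen hS hs h1 h2) hmono hper hcos heq ?_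
      push_cast at h ⊢
      linarith
  · rcases le_total (r / (12 : ℕ)) (((20000 : ℕ) : ℝ) / 2 ^ 16) with h | h
    · exact lp12 hmono hper hr hsin hcos heq h
    · refine sweep_contra (N := 12) (a := 3750) (b := 12288) (by norm_num) (by norm_num)
        (fun r xs hlen hS hs h1 h2 => sw12 hlen hS hs h1 h2) hmono hper hcos heq ?_
      push_cast at h ⊢
      linarith

/-- zero resultant forces equal gaps -/
theorem gaps_of_r_zero {N : ℕ} {θ : ℕ → ℝ} (hN : 2 ≤ N) (hmono : StrictMono θ)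
    (hper : ∀ i, θ (i + N) = θ i + 2 * π)
    (heq : ∀ i, ∑ k ∈ Finset.Ico 1 N, F (dd θ i k) = -0 * sin (θ i)) (i : ℕ) :
    θ (i + 1) - θ i = 2 * π / N := by
  have hN0 : 0 < N := by omega
  have hS := virial hN0 hper heq
  simp only [mul_zero, zero_mul] at hS
  have h1 : (1 : ℕ) ∈ Finset.Ico 1 N := Finset.mem_Ico.2 ⟨le_refl _, by omega⟩
  have h2 := (Finset.sum_eq_zero_iff_of_nonneg (fun k hk =>
    Finset.sum_nonneg fun i _ => aa_nonneg hmono hper hk i)).1 hS 1 h1
  have h3 : ∀ i ∈ Finset.range N, aa N θ i 1 = 0 :=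
    (Finset.sum_eq_zero_iff_of_nonneg (fun i _ => aa_nonneg hmono hper h1 i)).1 h2
  have h4 : ∀ i, aa N θ i 1 = 0 := by
    intro i
    have hp : Function.Periodic (fun i => aa N θ i 1) N := fun i => by
      simp only [aa]; rw [dd_per hper]
    have := hp.map_mod_nat i
    rw [← this]
    exact h3 _ (Finset.mem_range.2 (Nat.mod_lt _ hN0))
  have h5 := h4 i
  unfold aa at h5
  have hd := dd_mem hmono hper h1 i
  have hD := D_mem h1
  have h6 : dd θ i 1 = 2 * π * (1 : ℕ) / N := by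
    rcases mul_eq_zero.1 h5 with h | h
    · by_contra hne
      rcases lt_or_gt_of_ne hne with hlt | hlt
      · have := F_strictAnti hd hD hlt; linarith
      · have := F_strictAnti hD hd hlt; linarith
    · linarith
  have : θ (i + 1) - θ i = dd θ i 1 := rfl
  rw [this, h6]
  simp

/-- main theorem on the circle, for every `N ≥ 9` -/
theorem circle_main3 {N : ℕ} {θ : ℕ → ℝ} (hN : 9 ≤ N) (hmono : StrictMono θ)
    (hper : ∀ i, θ (i + N) = θ i + 2 * π)
    {r : ℝ} (hr : 0 ≤ r) (hsin : ∑ i ∈ Finset.range N, sin (θ i) = 0)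
    (hcos : ∑ i ∈ Finset.range N, cos (θ i) = r)
    (heq : ∀ i, ∑ k ∈ Finset.Ico 1 N, F (dd θ i k) = -r * sin (θ i)) (i : ℕ) :
    θ (i + 1) - θ i = 2 * π / N := by
  rcases Nat.lt_or_ge N 85 with h85 | h85
  swap
  · exact circle_main2 h85 hmono hper hr hsin hcos heq i
  have hr0 : r = 0 := by
    by_contra hne
    exact no_r_9_84 hN (by omega) hmono hper (lt_of_le_of_ne hr (Ne.symm hne)) hsin hcos heq
  subst hr0
  exact gaps_of_r_zero (by omega) hmono hper heq i

end Pool.Agent.H443CC
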