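import Mathlib

/-!
# Limiting central configurations of the planar `1+N` body problem: definitions

The plane is `ℂ`.  Body `0 : Fin (N+1)` has mass `1`, the bodies `i.succ` (`i : Fin N`) have
mass `ε`.
-/

namespace Pool.Agent.H443CC

open Filter Topology

/-- The masses `(1, ε, …, ε)` of the `1+N` body problem. -/
def masses (N : ℕ) (ε : ℝ) : Fin (N + 1) → ℝ := Fin.cons 1 (fun _ => ε)

/-- The centre of mass `q_G` of the masses `m` at the points `q`. -/
noncomputable def centerOfMass {n : ℕ} (m : Fin n → ℝ) (q : Fin n → ℂ) : ℂ :=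
  (∑ j, m j)⁻¹ • ∑ j, m j • q j

/-- `q` (pairwise distinct points of the plane `ℂ`) is a central configuration for the masses `m`:
for some real `λ` and all `i`, `λ (q_i - q_G) = ∑_{j ≠ i} m_j ‖q_i - q_j‖⁻³ (q_i - q_j)`. -/
def IsCentralConfiguration {n : ℕ} (m : Fin n → ℝ) (q : Fin n → ℂ) : Prop :=
  Function.Injective q ∧ ∃ lam : ℝ, ∀ i,
    lam • (q i - centerOfMass m q) =
      ∑ j ∈ Finset.univ.erase i, (m j * (‖q i - q j‖ ^ 3)⁻¹) • (q i - q j)

/-- `Q` is a limiting central configuration of the `1+N` body problem: the limit, along a sequence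
`ε_k → 0` of positive numbers, of central configurations for the masses `(1, ε_k, …, ε_k)`.
(Central configurations are invariant under translation, rotation and scaling, so every way of
normalising them is allowed here: `q k` is the normalised configuration.) -/
def IsLimitingCC (N : ℕ) (Q : Fin (N + 1) → ℂ) : Prop :=
  ∃ (ε : ℕ → ℝ) (q : ℕ → Fin (N + 1) → ℂ),
    (∀ k, 0 < ε k) ∧ Tendsto ε atTop (𝓝 0) ∧
    (∀ k, IsCentralConfiguration (masses N (ε k)) (q k)) ∧
    ∀ i, Tendsto (fun k => q k i) atTop (𝓝 (Q i))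

/-- The limit positions of the `N` infinitesimal bodies are pairwise distinct. -/
def NonCoalescent (N : ℕ) (Q : Fin (N + 1) → ℂ) : Prop :=
  ∀ i j : Fin N, i ≠ j → Q i.succ ≠ Q j.succ

/-- The `N` infinitesimal bodies sit, one each, at the vertices of a regular `N`-gon centred at the
unit mass. -/
def IsRegularNGon (N : ℕ) (Q : Fin (N + 1) → ℂ) : Prop :=
  ∃ (a : ℂ) (σ : Equiv.Perm (Fin N)), a ≠ 0 ∧
    ∀ k : Fin N, Q (σ k).succ = Q 0 + a * Complex.exp (2 * Real.pi * Complex.I * k / N)

end Pool.Agent.H443CC
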