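import Pool.Agent.H443CC.SolDefs

/-!
# Soundness of one round of the sweep engine
-/

open Real

namespace Pool.Agent.H443CC

lemma slo_eq (SN y u : ℕ) : slo SN y u = if 4096 ≤ y then (if lk16 SN y ≤ lk16 SN u then lk16 SN y else lk16 SN u)
    else if 2488 ≤ y then lk16 SN y else if u ≤ 2487 then lk16 SN u else 0 := by
  unfold slo mn
  have e : ∀ a b : ℕ, Nat.ble a b = decide (a ≤ b) := by
    intro a b
    by_cases h : a ≤ b
    · rw [decide_eq_true h]; exact Nat.ble_eq_true_of_le h
    · rw [decide_eq_false h]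
      cases hb : Nat.ble a b
      · rfl
      · exact absurd (Nat.le_of_ble_eq_true hb) h
  simp only [e]
  split_ifs with h1 h2 h3 h4
  all_goals simp [*]

/-- TARGET 1 : the sine bound -/
theorem slo_spec {T SN CH : ℕ} (hT : Tab T SN CH) {y u : ℕ} (hu : u ≤ 7313) {x : ℝ} (hx : -π ≤ x) (hx' : x ≤ π)
    (h1 : pos y ≤ x) (h2 : x ≤ pos u) : ((slo SN y u : ℝ) - 2 ^ 14) ≤ 2 ^ 14 * sin x := by
  have hpi1 : (3.14159265 : ℝ) ≤ π := by
    have := Real.pi_gt_d20
    linarith
  have hpi2 : π ≤ 3.14159266 := by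
    have := Real.pi_lt_d20
    linarith
  have hy := hT.sn y
  have huu := hT.sn u
  have hu' : (u : ℝ) ≤ 7313 := by exact_mod_cast hu
  rw [slo_eq]
  have mono : pos y ≤ x → -(π/2) ≤ pos y → x ≤ π/2 → sin (pos y) ≤ sin x := fun h3 h4 h5 =>
    Real.sin_le_sin_of_le_of_le_pi_div_two h4 h5 h3
  split_ifs with g1 g2 g3 g4
  all_goals push_cast
  · -- 4096 ≤ y, lk y ≤ lk u
    have hy' : (4096 : ℝ) ≤ y := by exact_mod_cast g1
    have hp : 0 ≤ pos y := by unfold pos; linarith
    have hpu : pos u ≤ 3.1417 := by unfold pos; linarith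
    have g2' : (lk16 SN y : ℝ) ≤ lk16 SN u := by exact_mod_cast g2
    rcases le_total x (π/2) with h5 | h5
    · have := mono h1 (by linarith) h5
      linarith
    · have : sin (pos u) ≤ sin x := by
        rw [← Real.cos_sub_pi_div_two, ← Real.cos_sub_pi_div_two x]
        apply Real.cos_le_cos_of_nonneg_of_le_pi
        · linarith
        · linarith
        · linarith
      linarith
  · have hy' : (4096 : ℝ) ≤ y := by exact_mod_cast g1
    have hp : 0 ≤ pos y := by unfold pos; linarith
    have hpu : pos u ≤ 3.1417 := by unfold pos; linarith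
    have g2' : (lk16 SN u : ℝ) ≤ lk16 SN y := by
      have := le_of_lt (not_le.1 g2)
      exact_mod_cast this
    rcases le_total x (π/2) with h5 | h5
    · have := mono h1 (by linarith) h5
      linarith
    · have : sin (pos u) ≤ sin x := by
        rw [← Real.cos_sub_pi_div_two, ← Real.cos_sub_pi_div_two x]
        apply Real.cos_le_cos_of_nonneg_of_le_pi
        · linarith
        · linarith
        · linarith
      linarith
  · have hy' : (2488 : ℝ) ≤ y := by exact_mod_cast g3
    have hp : -1.5704 ≤ pos y := by unfold pos; linarith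
    have hy2 : (y : ℝ) ≤ 4096 := by exact_mod_cast (le_of_lt (not_le.1 g1))
    have hp2 : pos y ≤ 0 := by unfold pos; linarith
    rcases le_total x (π/2) with h5 | h5
    · have := mono h1 (by linarith) h5
      linarith
    · have h6 : 0 ≤ sin x := Real.sin_nonneg_of_nonneg_of_le_pi (by linarith) hx'
      have h7 : sin (pos y) ≤ 0 := Real.sin_nonpos_of_nonpos_of_neg_pi_le hp2 (by linarith)
      linarith
  · have hu2 : (u : ℝ) ≤ 2487 := by exact_mod_cast g4
    have hp : pos u ≤ -1.5712 := by unfold pos; linarith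
    have : sin (pos u) ≤ sin x := by
      have e1 : ∀ t : ℝ, sin t = cos (-(t + π/2)) * (-1) := by
        intro t
        rw [Real.cos_neg, Real.cos_add_pi_div_two]; ring
      rw [e1, e1 x]
      have : cos (-(x + π/2)) ≤ cos (-(pos u + π/2)) := by
        apply Real.cos_le_cos_of_nonneg_of_le_pi
        · linarith
        · linarith
        · linarith
      linarith
    linarith
  · have := Real.neg_one_le_sin x
    linarith

lemma preSum_nil (T y acc : ℕ) : preSum T y [] acc = acc := rfl
lemma preSum_cons (T y p : ℕ) (pre : List ℕ) (acc : ℕ) : preSum T y (p :: pre) acc =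
    preSum T y pre (@Nat.rec (fun _ => Nat → Nat) (fun _ => 0)
      (fun k _ a => Nat.add a (Nat.sub 4294967295 (lk32 T k))) (Nat.sub y p) acc) := rfl
lemma postSum_nil (T y acc : ℕ) : postSum T y [] acc = acc := rfl
lemma postSum_cons (T y w : ℕ) (post : List ℕ) (acc : ℕ) : postSum T y (w :: post) acc =
    postSum T y post (@Nat.rec (fun _ => Nat → Nat) (fun _ => 0)
      (fun k _ a => Nat.add a (lk32 T k)) (Nat.sub w y) acc) := rfl

lemma lk32_le (T m : ℕ) : lk32 T m ≤ 4294967295 := by
  unfold lk32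
  exact Nat.and_le_right

lemma postSum_spec {T SN CH : ℕ} (hT : Tab T SN CH) {x : ℝ} {y : ℕ} (hy : 883 ≤ y) (hxy : pos y < x) :
    ∀ (b : List ℝ) (post : List ℕ), List.Forall₂ (fun x u => x ≤ pos u) b post → (∀ z ∈ b, x < z) →
    (∀ w ∈ post, w ≤ 7313) → ∀ acc : ℕ,
    (postSum T y post acc : ℝ) - acc - b.length * 2 ^ 31 ≤ 2 ^ 14 * (b.map (fun z => F (z - x))).sum := by
  intro b post h
  induction h with
  | nil => intro _ _ acc; simp [postSum_nil]
  | @cons z w b post hzw _ ih =>
    intro hb hw acc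
    rw [postSum_cons]
    have hz := hb z (by simp)
    have hw1 : w ≤ 7313 := hw w (by simp)
    have hlt : pos y < pos w := lt_of_lt_of_le (hxy.trans hz) hzw
    have hlt' : y < w := by
      unfold pos at hlt
      have : (y : ℝ) < w := by linarith
      exact_mod_cast this
    obtain ⟨k, hk⟩ : ∃ k, Nat.sub w y = k + 1 := ⟨w - y - 1, by show w - y = _; omega⟩
    have hk' : w = y + (k + 1) := by
      have : w - y = k + 1 := hk
      omega
    rw [hk]
    show (postSum T y post (acc + lk32 T k) : ℝ) - acc - _ ≤ _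
    have := ih (fun z hz => hb z (List.mem_cons_of_mem _ hz)) (fun w hw' => hw w (List.mem_cons_of_mem _ hw'))
      (acc + lk32 T k)
    have h3 := hT.lo (k + 1) (by omega) (by omega) (z - x) (by linarith) (by
      have e : pos w - pos y = ((k + 1 : ℕ) : ℝ) / 1024 := by
        unfold pos
        rw [hk']
        push_cast
        ring
      rw [← e]
      linarith)
    simp only [Nat.add_sub_cancel] at h3
    simp only [List.map_cons, List.sum_cons, List.length_cons]
    push_cast at this ⊢
    linarith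

lemma preSum_spec {T SN CH : ℕ} (hT : Tab T SN CH) {x : ℝ} {y : ℕ} (hxy : pos y < x) :
    ∀ (a : List ℝ) (pre : List ℕ), List.Forall₂ (fun x u => x ≤ pos u) a pre → (∀ z ∈ a, x - z < 2 * π) →
    (∀ p ∈ pre, p + 4 ≤ y) → ∀ acc : ℕ,
    (preSum T y pre acc : ℝ) - acc - a.length * 2 ^ 31 ≤ - (2 ^ 14 * (a.map (fun z => F (x - z))).sum) := by
  intro a pre h
  induction h with
  | nil => intro _ _ acc; simp [preSum_nil]
  | @cons z p a pre hzp _ ih =>
    intro ha hp acc
    rw [preSum_cons]
    have hz := ha z (by simp)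
    have hp1 : p + 4 ≤ y := hp p (by simp)
    obtain ⟨k, hk⟩ : ∃ k, Nat.sub y p = k + 1 := ⟨y - p - 1, by show y - p = _; omega⟩
    have hk' : y = p + (k + 1) := by
      have : y - p = k + 1 := hk
      omega
    rw [hk]
    show (preSum T y pre (acc + (4294967295 - lk32 T k)) : ℝ) - acc - _ ≤ _
    have := ih (fun z hz => ha z (List.mem_cons_of_mem _ hz)) (fun w hw' => hp w (List.mem_cons_of_mem _ hw'))
      (acc + (4294967295 - lk32 T k))
    have h3 := hT.up (k + 1) (by omega) (x - z) (by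
      have e : pos y - pos p = ((k + 1 : ℕ) : ℝ) / 1024 := by
        unfold pos
        rw [hk']
        push_cast
        ring
      rw [← e]
      linarith) hz
    simp only [Nat.add_sub_cancel] at h3
    simp only [List.map_cons, List.sum_cons, List.length_cons]
    have h4 := lk32_le T k
    push_cast [Nat.cast_sub h4] at this ⊢
    linarith

lemma ble_iff_decide (a b : ℕ) : Nat.ble a b = decide (a ≤ b) := by
  by_cases h : a ≤ b
  · rw [decide_eq_true h]; exact Nat.ble_eq_true_of_le h
  · rw [decide_eq_false h]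
    cases hb : Nat.ble a b
    · rfl
    · exact absurd (Nat.le_of_ble_eq_true hb) h

lemma guards_nil (y u : ℕ) : guards y u [] = true ↔ 883 ≤ y ∧ y ≤ u := by
  unfold guards
  simp only [ble_iff_decide]
  by_cases h1 : 883 ≤ y <;> by_cases h2 : y ≤ u <;> simp [h1, h2]

lemma guards_cons (y u p : ℕ) (pre : List ℕ) : guards y u (p :: pre) = true ↔ 883 ≤ y ∧ y ≤ u ∧ p + 4 ≤ y := by
  unfold guards
  simp only [ble_iff_decide]
  by_cases h1 : 883 ≤ y <;> by_cases h2 : y ≤ u <;> by_cases h3 : p + 4 ≤ y <;> simp [h1, h2, h3]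

lemma guards_spec {y u : ℕ} {pre : List ℕ} (hpres : pre.Pairwise (fun p q => q ≤ p)) (h : guards y u pre = true) :
    883 ≤ y ∧ y ≤ u ∧ ∀ p ∈ pre, p + 4 ≤ y := by
  cases pre with
  | nil =>
    rw [guards_nil] at h
    exact ⟨h.1, h.2, by simp⟩
  | cons p pre =>
    rw [guards_cons] at h
    refine ⟨h.1, h.2.1, fun q hq => ?_⟩
    rcases List.mem_cons.1 hq with rfl | hq
    · exact h.2.2
    · have := (List.pairwise_cons.1 hpres).1 q hq
      omega

lemma fin_spec {C hl hh s acc : ℕ} (h : fin C hl hh s acc = true) :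
    (16384 ≤ s ∧ C + 1 ≤ 1024 * acc + hl * (s - 16384)) ∨ (s < 16384 ∧ C + hh * (16384 - s) + 1 ≤ 1024 * acc) := by
  unfold fin at h
  simp only [ble_iff_decide] at h
  by_cases h1 : 16384 ≤ s
  · simp only [h1, decide_true, decide_eq_true_eq] at h
    exact Or.inl ⟨h1, h⟩
  · simp only [h1, decide_false, decide_eq_true_eq] at h
    exact Or.inr ⟨not_le.1 h1, h⟩

/-- TARGET 2 : one step.  `a` = points on the left (in order), `pre` = their upper bounds *reversed*. -/
theorem stepval_spec {T SN CH : ℕ} (hT : Tab T SN CH) {r : ℝ} {xs : List ℝ} (hS : Sol r xs) {C hl hh : ℕ}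
    (hC : C = (xs.length - 1) * 2 ^ 41) (hl' : (hl : ℝ) / 1024 ≤ r) (hh' : r ≤ (hh : ℝ) / 1024)
    {a b : List ℝ} {x : ℝ} (hxs : xs = a ++ x :: b) {pre post : List ℕ} {u : ℕ}
    (hpre : List.Forall₂ (fun x u => x ≤ pos u) a.reverse pre) (hpres : pre.Pairwise (fun p q => q ≤ p))
    (hpost : List.Forall₂ (fun x u => x ≤ pos u) b post) (hposttop : ∀ w ∈ post, w ≤ 7313)
    (hxu : x ≤ pos u) (hu : u ≤ 7313) (y : ℕ) :
    x ≤ pos (stepval T SN C hl hh pre u post y) ∧ stepval T SN C hl hh pre u post y ≤ u ∧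
      (∀ p ∈ pre, p ≤ u → p ≤ stepval T SN C hl hh pre u post y) := by
  have hu0 : stepval T SN C hl hh pre u post y = u → x ≤ pos (stepval T SN C hl hh pre u post y) ∧
      stepval T SN C hl hh pre u post y ≤ u ∧
      (∀ p ∈ pre, p ≤ u → p ≤ stepval T SN C hl hh pre u post y) := by
    intro h
    rw [h]
    exact ⟨hxu, le_rfl, fun p _ h => h⟩
  cases hg : guards y u pre
  · apply hu0
    unfold stepval
    rw [hg]
  cases hf : fin C hl hh (slo SN y u) (preSum T y pre (postSum T y post 0))
  · apply hu0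
    unfold stepval
    rw [hg, hf]
  have hs : stepval T SN C hl hh pre u post y = y := by
    unfold stepval
    rw [hg, hf]
  rw [hs]
  obtain ⟨g1, g2, g3⟩ := guards_spec hpres hg
  refine ⟨?_, g2, fun p hp _ => by have := g3 p hp; omega⟩
  by_contra hcon
  have hxy : pos y < x := not_le.1 hcon
  have hsort := hS.sorted
  have hwid := hS.width
  rw [hxs] at hsort hwid
  rw [List.pairwise_append] at hsort hwid
  have hb : ∀ z ∈ b, x < z := (List.pairwise_cons.1 hsort.2.1).1
  have ha : ∀ z ∈ a.reverse, x - z < 2 * π := by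
    intro z hz
    exact hwid.2.2 z (List.mem_reverse.1 hz) x (by simp)
  have e1 := postSum_spec hT g1 hxy b post hpost hb hposttop 0
  have e2 := preSum_spec hT hxy a.reverse pre hpre ha g3 (postSum T y post 0)
  have e3 := hS.eqs a x b hxs
  have hmem : x ∈ xs := by rw [hxs]; simp
  have hlen : xs.length - 1 = a.length + b.length := by
    rw [hxs]; simp
  have e4 := slo_spec hT hu (hS.range x hmem).1 (hS.range x hmem).2 hxy.le hxu
  have hr0 : 0 ≤ r := le_trans (by positivity) hl'
  rw [List.map_reverse, List.sum_reverse, List.length_reverse] at e2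
  rw [hlen] at hC
  have hC' : (C : ℝ) = (a.length + b.length) * 2 ^ 41 := by
    rw [hC]; push_cast; ring
  push_cast at e1
  set acc := preSum T y pre (postSum T y post 0) with hacc
  set s := slo SN y u with hsdef
  have e5 : (1024 : ℝ) * acc - C ≤ - (2 ^ 24 * (r * sin x)) := by
    rw [hC']
    nlinarith [e1, e2, e3]
  have e6 : 1024 * r * ((s : ℝ) - 2 ^ 14) ≤ 2 ^ 24 * (r * sin x) := by
    have := mul_le_mul_of_nonneg_left e4 (by positivity : (0 : ℝ) ≤ 1024 * r)
    calc 1024 * r * ((s : ℝ) - 2 ^ 14) ≤ 1024 * r * (2 ^ 14 * sin x) := this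
      _ = _ := by ring
  rcases fin_spec hf with ⟨f1, f2⟩ | ⟨f1, f2⟩
  · have f1' : (16384 : ℝ) ≤ s := by exact_mod_cast f1
    have f2' : (C : ℝ) + 1 ≤ 1024 * acc + hl * ((s : ℝ) - 16384) := by
      have : ((C + 1 : ℕ) : ℝ) ≤ ((1024 * acc + hl * (s - 16384) : ℕ) : ℝ) := by exact_mod_cast f2
      push_cast [Nat.cast_sub f1] at this
      linarith
    have : (hl : ℝ) * ((s : ℝ) - 16384) ≤ 1024 * r * ((s : ℝ) - 16384) :=
      mul_le_mul_of_nonneg_right (by linarith) (by linarith)
    norm_num at e6 e5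
    linarith
  · have f1' : (s : ℝ) ≤ 16384 := by exact_mod_cast f1.le
    have f2' : (C : ℝ) + hh * (16384 - (s : ℝ)) + 1 ≤ 1024 * acc := by
      have : ((C + hh * (16384 - s) + 1 : ℕ) : ℝ) ≤ ((1024 * acc : ℕ) : ℝ) := by exact_mod_cast f2
      push_cast [Nat.cast_sub f1.le] at this
      linarith
    have : 1024 * r * (16384 - (s : ℝ)) ≤ (hh : ℝ) * (16384 - (s : ℝ)) :=
      mul_le_mul_of_nonneg_right (by linarith) (by linarith)
    norm_num at e6 e5
    linarith

lemma roundR_nil (T SN C hl hh : ℕ) (pre : List ℕ) (c : ℕ) : roundR T SN C hl hh [] pre c = pre := rfl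
lemma roundR_cons (T SN C hl hh u : ℕ) (post pre : List ℕ) (c : ℕ) : roundR T SN C hl hh (u :: post) pre c =
  roundR T SN C hl hh post (stepval T SN C hl hh pre u post (Nat.land c 8191) :: pre) (Nat.shiftRight c 13) := rfl
lemma rv_eq (l acc : List ℕ) : rv l acc = l.reverse ++ acc := by
  induction l generalizing acc with
  | nil => rfl
  | cons a l ih =>
    show rv l (a :: acc) = _
    rw [ih]; simp

lemma roundR_spec {T SN CH : ℕ} (hT : Tab T SN CH) {r : ℝ} {xs : List ℝ} (hS : Sol r xs) {C hl hh : ℕ}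
    (hC : C = (xs.length - 1) * 2 ^ 41) (hl' : (hl : ℝ) / 1024 ≤ r) (hh' : r ≤ (hh : ℝ) / 1024) :
    ∀ (rest : List ℕ) (a b : List ℝ) (pre : List ℕ) (c : ℕ), xs = a ++ b →
      List.Forall₂ (fun x u => x ≤ pos u) a.reverse pre → pre.Pairwise (fun p q => q ≤ p) →
      (∀ p ∈ pre, p ≤ 7313) → List.Forall₂ (fun x u => x ≤ pos u) b rest →
      rest.Pairwise (· ≤ ·) → (∀ w ∈ rest, w ≤ 7313) → (∀ p ∈ pre, ∀ u ∈ rest, p ≤ u) →
      List.Forall₂ (fun x u => x ≤ pos u) xs.reverse (roundR T SN C hl hh rest pre c) ∧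
      (roundR T SN C hl hh rest pre c).Pairwise (fun p q => q ≤ p) ∧
      ∀ p ∈ roundR T SN C hl hh rest pre c, p ≤ 7313 := by
  intro rest
  induction rest with
  | nil =>
    intro a b pre c hxs h1 h2 h3 h4 _ _ _
    cases h4
    rw [roundR_nil]
    rw [List.append_nil] at hxs
    rw [hxs]
    exact ⟨h1, h2, h3⟩
  | cons u post ih =>
    intro a b pre c hxs h1 h2 h3 h4 h5 h6 h7
    cases h4 with
    | @cons x _ b _ hxu hb =>
      rw [roundR_cons]
      have hu : u ≤ 7313 := h6 u (by simp)
      obtain ⟨s1, s2, s3⟩ := stepval_spec hT hS hC hl' hh' hxs h1 h2 hb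
        (fun w hw => h6 w (List.mem_cons_of_mem _ hw)) hxu hu (Nat.land c 8191)
      set v := stepval T SN C hl hh pre u post (Nat.land c 8191) with hv
      rw [List.pairwise_cons] at h5
      apply ih (a ++ [x]) b (v :: pre) (Nat.shiftRight c 13)
      · rw [hxs]; simp
      · rw [List.reverse_append]
        exact List.Forall₂.cons s1 h1
      · rw [List.pairwise_cons]
        exact ⟨fun q hq => s3 q hq (h7 q hq u (by simp)), h2⟩
      · intro p hp
        rcases List.mem_cons.1 hp with rfl | hp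
        · omega
        · exact h3 p hp
      · exact hb
      · exact h5.2
      · exact fun w hw => h6 w (List.mem_cons_of_mem _ hw)
      · intro p hp w hw
        rcases List.mem_cons.1 hp with rfl | hp
        · exact le_trans s2 (h5.1 w hw)
        · exact h7 p hp w (List.mem_cons_of_mem _ hw)

/-- TARGET 3 : one round -/
theorem round_spec {T SN CH : ℕ} (hT : Tab T SN CH) {r : ℝ} {xs : List ℝ} (hS : Sol r xs) {C hl hh : ℕ}
    (hC : C = (xs.length - 1) * 2 ^ 41) (hl' : (hl : ℝ) / 1024 ≤ r) (hh' : r ≤ (hh : ℝ) / 1024)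
    {U : List ℕ} (hU : Bnd xs U) (c : ℕ) : Bnd xs (round T SN C hl hh U c) := by
  obtain ⟨h1, h2, h3⟩ := roundR_spec hT hS hC hl' hh' U [] xs [] c rfl List.Forall₂.nil List.Pairwise.nil
    (by simp) hU.le hU.sorted hU.top (by simp)
  have e : round T SN C hl hh U c = (roundR T SN C hl hh U [] c).reverse := by
    unfold round
    rw [rv_eq, List.append_nil]
  rw [e]
  constructor
  · have := List.rel_reverse h1
    rwa [List.reverse_reverse] at this
  · rw [List.pairwise_reverse]
    exact h2
  · intro u hu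
    exact h3 u (List.mem_reverse.1 hu)

end Pool.Agent.H443CC
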