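import Pool.Agent.H443CC.Eng1A

/-!
# Soundness of the proof trees of the sweep engine
-/

open Real

namespace Pool.Agent.H443CC

theorem e1b_testL_nil (CH bound : ℕ) (W : List ℕ) (acc : ℕ) :
    testL CH bound [] W acc = Nat.ble (Nat.succ acc) bound := rfl

theorem e1b_testL_cons_nil (CH bound u : ℕ) (U : List ℕ) (acc : ℕ) :
    testL CH bound (u :: U) [] acc = false := rfl

theorem e1b_testL_cons_cons (CH bound u v : ℕ) (U W : List ℕ) (acc : ℕ) :
    testL CH bound (u :: U) (v :: W) acc = (@Bool.rec (fun _ => Bool) (testL CH bound U W (Nat.add acc (chi CH (Nat.sub 8192 v) u))) true (Nat.ble (Nat.succ (Nat.add u v)) 8192)) := rfl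

theorem e1b_cnd_or {b : Bool} {x : Bool} (h : (@Bool.rec (fun _ => Bool) x true b) = true) :
    b = true ∨ (b = false ∧ x = true) := by
  cases b with
  | false => exact Or.inr ⟨rfl, h⟩
  | true => exact Or.inl rfl

theorem e1b_cnd_and {b : Bool} {x : Bool} (h : (@Bool.rec (fun _ => Bool) false x b) = true) :
    b = true ∧ x = true := by
  cases b with
  | false => exact absurd h (by simp)
  | true => exact ⟨rfl, h⟩

theorem e1b_mn (x y : ℕ) : mn x y = min x y := by
  unfold mn
  cases h : Nat.ble x y with
  | false =>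
    show y = min x y
    have h1 : ¬ x ≤ y := by
      intro h2
      rw [Nat.ble_eq_true_of_le h2] at h
      exact absurd h (by simp)
    omega
  | true =>
    show x = min x y
    have h1 : x ≤ y := Nat.le_of_ble_eq_true h
    omega

theorem e1b_capL (m : ℕ) (l : List ℕ) : capL m l = l.map (fun a => min a m) := by
  induction l with
  | nil => rfl
  | cons a l ih =>
    show mn a m :: capL m l = _
    rw [ih, e1b_mn]
    rfl

theorem e1b_capHead (m a : ℕ) (l : List ℕ) : capHead m (a :: l) = min a m :: l := by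
  show mn a m :: l = _
  rw [e1b_mn]

theorem e1b_rv (l acc : List ℕ) : rv l acc = l.reverse ++ acc := by
  induction l generalizing acc with
  | nil => rfl
  | cons a l ih =>
    show rv l (a :: acc) = _
    rw [ih]
    simp

theorem e1b_chi {T SN CH : ℕ} (hT : Tab T SN CH) {x : ℝ} {u v : ℕ} (hx1 : -π ≤ x) (hx2 : x ≤ π)
    (hu : x ≤ pos u) (hv : -x ≤ pos v) (hv2 : v ≤ 7313) :
    2 ^ 14 * cos x + 2 ^ 14 ≤ (chi CH (Nat.sub 8192 v) u : ℝ) := by
  have hL : Nat.sub 8192 v = 8192 - v := rfl
  rw [hL]
  have hLc : ((8192 - v : ℕ) : ℝ) = 8192 - (v : ℝ) := by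
    rw [Nat.cast_sub (by omega)]
    norm_num
  have hLpos : pos (8192 - v) = -pos v := by
    unfold pos
    rw [hLc]
    ring
  unfold chi
  cases h1 : Nat.ble 4096 (8192 - v) with
  | true =>
    show 2 ^ 14 * cos x + 2 ^ 14 ≤ ((lk16 CH (8192 - v) : ℕ) : ℝ)
    have h2 : 4096 ≤ 8192 - v := Nat.le_of_ble_eq_true h1
    have h3 := hT.ch (8192 - v) (by omega)
    have h4 : 0 ≤ pos (8192 - v) := by
      unfold pos
      rw [hLc]
      have : (4096 : ℝ) ≤ ((8192 - v : ℕ) : ℝ) := by exact_mod_cast h2
      rw [hLc] at this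
      linarith
    have h5 : cos x ≤ cos (pos (8192 - v)) :=
      Real.cos_le_cos_of_nonneg_of_le_pi h4 hx2 (by rw [hLpos]; linarith)
    linarith
  | false =>
    cases h2 : Nat.ble u 4096 with
    | true =>
      show 2 ^ 14 * cos x + 2 ^ 14 ≤ ((lk16 CH u : ℕ) : ℝ)
      have h3 : u ≤ 4096 := Nat.le_of_ble_eq_true h2
      have h4 := hT.ch u (by omega)
      have h5 : pos u ≤ 0 := by
        unfold pos
        have : (u : ℝ) ≤ 4096 := by exact_mod_cast h3
        linarith
      have h6 : cos (-x) ≤ cos (-pos u) :=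
        Real.cos_le_cos_of_nonneg_of_le_pi (by linarith) (by linarith) (by linarith)
      rw [Real.cos_neg, Real.cos_neg] at h6
      linarith
    | false =>
      show 2 ^ 14 * cos x + 2 ^ 14 ≤ ((32768 : ℕ) : ℝ)
      have := Real.cos_le_one x
      push_cast
      linarith

theorem e1b_test_aux {T SN CH : ℕ} (hT : Tab T SN CH) (bound : ℕ) (xs : List ℝ) :
    ∀ (U W : List ℕ) (acc : ℕ), (∀ x ∈ xs, -π ≤ x ∧ x ≤ π) →
      List.Forall₂ (fun x u => x ≤ pos u) xs U → List.Forall₂ (fun x v => -x ≤ pos v) xs W →
      (∀ v ∈ W, v ≤ 7313) → testL CH bound U W acc = true →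
      (acc : ℝ) + 2 ^ 14 * (xs.map Real.cos).sum + 2 ^ 14 * (xs.length : ℝ) + 1 ≤ (bound : ℝ) := by
  induction xs with
  | nil =>
    intro U W acc hr hU hW hv h
    cases hU
    rw [e1b_testL_nil] at h
    have h1 : Nat.succ acc ≤ bound := Nat.le_of_ble_eq_true h
    have h2 : ((Nat.succ acc : ℕ) : ℝ) ≤ bound := by exact_mod_cast h1
    push_cast at h2
    simp
    linarith
  | cons x xs ih =>
    intro U W acc hr hU hW hv h
    cases hU with
    | cons hu hU' =>
      rename_i u U'
      cases hW with
      | cons hw hW' =>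
        rename_i v W'
        rw [e1b_testL_cons_cons] at h
        have hx := hr x (by simp)
        have hv2 := hv v (by simp)
        rcases e1b_cnd_or h with h1 | ⟨-, h1⟩
        · exfalso
          have h2 : Nat.succ (Nat.add u v) ≤ 8192 := Nat.le_of_ble_eq_true h1
          have h3 : u + v + 1 ≤ 8192 := h2
          have h4 : (u : ℝ) + v + 1 ≤ 8192 := by exact_mod_cast h3
          unfold pos at hu hw
          linarith
        · have h2 := ih U' W' _ (fun y hy => hr y (by simp [hy])) hU' hW'
            (fun y hy => hv y (by simp [hy])) h1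
          have h3 := e1b_chi hT hx.1 hx.2 hu hw hv2
          have h4 : ((Nat.add acc (chi CH (Nat.sub 8192 v) u) : ℕ) : ℝ) =
              (acc : ℝ) + (chi CH (Nat.sub 8192 v) u : ℝ) := Nat.cast_add _ _
          rw [h4] at h2
          simp only [List.map_cons, List.sum_cons, List.length_cons]
          push_cast
          linarith

/-- TARGET 1 -/
theorem refl_refl (xs : List ℝ) : refl (refl xs) = xs := by
  simp [refl, List.map_reverse, Function.comp_def]

theorem e1b_refl_append (a b : List ℝ) : refl (a ++ b) = refl b ++ refl a := by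
  simp [refl]

theorem e1b_refl_cons (y : ℝ) (b : List ℝ) : refl (y :: b) = refl b ++ [-y] := by
  simp [refl]

theorem e1b_sum_refl (g : ℝ → ℝ) (l : List ℝ) :
    ((refl l).map g).sum = (l.map (fun z => g (-z))).sum := by
  simp [refl, List.map_reverse, List.sum_reverse, Function.comp_def]

theorem e1b_mem_refl {x : ℝ} {l : List ℝ} : x ∈ refl l ↔ -x ∈ l := by
  unfold refl
  rw [List.mem_reverse, List.mem_map]
  constructor
  · rintro ⟨y, hy, rfl⟩
    rwa [neg_neg]
  · intro h
    exact ⟨-x, h, neg_neg x⟩

/-- TARGET 2 -/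
theorem Sol.reflect {r : ℝ} {xs : List ℝ} (hS : Sol r xs) : Sol r (refl xs) := by
  constructor
  · unfold refl
    rw [List.pairwise_reverse, List.pairwise_map]
    exact hS.sorted.imp (fun h => neg_lt_neg h)
  · intro x hx
    have := hS.range (-x) (e1b_mem_refl.1 hx)
    constructor <;> linarith [this.1, this.2]
  · unfold refl
    rw [List.pairwise_reverse, List.pairwise_map]
    exact hS.width.imp (fun h => by linarith)
  · intro a y b hab
    have h1 : xs = refl b ++ (-y) :: refl a := by
      rw [← refl_refl xs, hab, e1b_refl_append, e1b_refl_cons]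
      simp
    have h2 := hS.eqs (refl b) (-y) (refl a) h1
    rw [e1b_sum_refl, e1b_sum_refl, Real.sin_neg] at h2
    have e1 : (fun z => F (-z - -y)) = fun z : ℝ => F (y - z) := by
      funext z
      congr 1
      ring
    have e2 : (fun z => F (-y - -z)) = fun z : ℝ => F (z - y) := by
      funext z
      congr 1
      ring
    rw [e1, e2] at h2
    linarith
  · rw [e1b_sum_refl]
    have : (fun z : ℝ => Real.cos (-z)) = Real.cos := by
      funext z
      exact Real.cos_neg z
    rw [this]
    exact hS.cos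

/-- TARGET 3 : the final test -/
theorem testL_spec {T SN CH : ℕ} (hT : Tab T SN CH) {r : ℝ} {xs : List ℝ} (hS : Sol r xs) {hl : ℕ}
    (hl' : (hl : ℝ) / 1024 ≤ r) {U V : List ℕ} (hU : Bnd xs U) (hV : Bnd (refl xs) V)
    (h : testL CH (Nat.add (Nat.mul 16384 xs.length) (Nat.mul 16 hl)) U (rv V []) 0 = true) : False := by
  rw [e1b_rv, List.append_nil] at h
  have hW : List.Forall₂ (fun x v => -x ≤ pos v) xs V.reverse := by
    have h1 := List.rel_reverse hV.le
    have h2 : (refl xs).reverse = xs.map (fun x => -x) := by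
      unfold refl
      rw [List.reverse_reverse]
    rw [h2, List.forall₂_map_left_iff] at h1
    exact h1
  have h1 := e1b_test_aux hT _ xs U V.reverse 0 hS.range hU.le hW
    (fun v hv => hV.top v (List.mem_reverse.1 hv)) h
  have h2 : ((Nat.add (Nat.mul 16384 xs.length) (Nat.mul 16 hl) : ℕ) : ℝ) =
      16384 * (xs.length : ℝ) + 16 * hl := by
    show ((16384 * xs.length + 16 * hl : ℕ) : ℝ) = _
    push_cast
    ring
  rw [h2, hS.cos] at h1
  push_cast at h1
  rw [div_le_iff₀ (by norm_num)] at hl'
  linarith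

theorem e1b_relax {T SN CH : ℕ} (hT : Tab T SN CH) {r : ℝ} {xs : List ℝ} (hS : Sol r xs)
    {C hl hh w : ℕ} (hC : C = (xs.length - 1) * 2 ^ 41) (hl' : (hl : ℝ) / 1024 ≤ r)
    (hh' : r ≤ (hh : ℝ) / 1024) (k : List ℕ → List ℕ → Bool) (fuel : ℕ) :
    ∀ (c : ℕ) (U V : List ℕ), Bnd xs U → Bnd (refl xs) V →
      relaxK T SN C hl hh w k fuel c U V = true →
      ∃ U' V', Bnd xs U' ∧ Bnd (refl xs) V' ∧ k U' V' = true := by
  induction fuel with
  | zero =>
    intro c U V hU hV h
    exact ⟨U, V, hU, hV, h⟩
  | succ n ih =>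
    intro c U V hU hV h
    have hlen : (refl xs).length = xs.length := by simp [refl]
    have h0 : relaxK T SN C hl hh w k (n + 1) c U V = (@Bool.rec (fun _ => Bool) (@Bool.rec (fun _ => Bool) (relaxK T SN C hl hh w k n (Nat.shiftRight c w) U
          (round T SN C hl hh V (Nat.shiftRight c 2))) (relaxK T SN C hl hh w k n (Nat.shiftRight c w) (round T SN C hl hh U (Nat.shiftRight c 2)) V) (Nat.beq (Nat.land c 3) 1)) (k U V) (Nat.beq (Nat.land c 3) 0)) := rfl
    rw [h0] at h
    cases h1 : Nat.beq (Nat.land c 3) 0 with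
    | true =>
      rw [h1] at h
      exact ⟨U, V, hU, hV, h⟩
    | false =>
      rw [h1] at h
      cases h2 : Nat.beq (Nat.land c 3) 1 with
      | true =>
        rw [h2] at h
        exact ih _ _ _ (round_spec hT hS hC hl' hh' hU _) hV h
      | false =>
        rw [h2] at h
        exact ih _ _ _ hU (round_spec hT hS.reflect (by rw [hlen]; exact hC) hl' hh' hV _) h

theorem e1b_capL_bnd {ys : List ℝ} {U : List ℕ} (hU : Bnd ys U) {m : ℕ}
    (hm : ∀ y ∈ ys, y ≤ pos m) : Bnd ys (capL m U) := by
  rw [e1b_capL]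
  constructor
  · rw [List.forall₂_map_right_iff]
    have h1 := hU.le
    clear hU
    induction h1 with
    | nil => exact List.Forall₂.nil
    | cons hu hU' ih =>
      rename_i x u xs U'
      refine List.Forall₂.cons ?_ (ih (fun y hy => hm y (by simp [hy])))
      rcases le_total u m with h | h
      · rw [min_eq_left h]
        exact hu
      · rw [min_eq_right h]
        exact hm x (by simp)
  · rw [List.pairwise_map]
    exact hU.sorted.imp (fun h => min_le_min_right m h)
  · intro u hu
    obtain ⟨a, ha, rfl⟩ := List.mem_map.1 hu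
    exact (min_le_left _ _).trans (hU.top a ha)

theorem e1b_refl_head {xs : List ℝ} {s : ℝ} (hs : xs.getLast? = some s) :
    ∃ rest, refl xs = (-s) :: rest := by
  obtain ⟨l, hl⟩ := List.getLast?_eq_some_iff.1 hs
  rw [hl, e1b_refl_append]
  exact ⟨refl l, by simp [refl]⟩

theorem e1b_leaf (T SN CH N C w c hl hh : ℕ) (U V : List ℕ) :
    treeOk T SN CH N C w (Tr.leaf c) hl hh U V = relaxK T SN C hl hh w
      (fun U V => testL CH (Nat.add (Nat.mul 16384 N) (Nat.mul 16 hl)) U (rv V []) 0) 400 c U V := rfl

theorem e1b_sh (T SN CH N C w c mid hl hh : ℕ) (l r : Tr) (U V : List ℕ) :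
    treeOk T SN CH N C w (Tr.sh c mid l r) hl hh U V = relaxK T SN C hl hh w
      (fun U V => (@Bool.rec (fun _ => Bool) false (treeOk T SN CH N C w r mid hh U V) (treeOk T SN CH N C w l hl mid U V))) 400 c U V := rfl

theorem e1b_ss (T SN CH N C w c mid hl hh : ℕ) (l r : Tr) (U V : List ℕ) :
    treeOk T SN CH N C w (Tr.ss c mid l r) hl hh U V = relaxK T SN C hl hh w
      (fun U V => (@Bool.rec (fun _ => Bool) false (treeOk T SN CH N C w r hl hh U (capHead (Nat.sub 4096 mid) V)) (treeOk T SN CH N C w l hl hh (capL (Nat.add 4096 mid) U)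
          (capL (Nat.add 4096 mid) V)))) 400 c U V := rfl

/-- TARGET 4 : soundness of the proof trees -/
theorem treeOk_sound {T SN CH : ℕ} (hT : Tab T SN CH) {N C w : ℕ} (hC : C = (N - 1) * 2 ^ 41) (t : Tr) :
    ∀ (hl hh : ℕ) (U V : List ℕ), treeOk T SN CH N C w t hl hh U V = true →
    ∀ (r : ℝ) (xs : List ℝ), xs ≠ [] → xs.length = N → Sol r xs → (hl : ℝ) / 1024 ≤ r → r ≤ (hh : ℝ) / 1024 →
      (∀ (s : ℝ), xs.getLast? = some s → ∀ x ∈ xs, |x| ≤ s) → Bnd xs U → Bnd (refl xs) V → False := by
  induction t with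
  | leaf c =>
    intro hl hh U V h r xs hne hlen hS h1 h2 hs hU hV
    rw [e1b_leaf] at h
    obtain ⟨U', V', hU', hV', h'⟩ := e1b_relax hT hS (by rw [hlen]; exact hC) h1 h2 _ 400 c U V hU hV h
    rw [← hlen] at h'
    exact testL_spec hT hS h1 hU' hV' h'
  | sh c mid l r' ihl ihr =>
    intro hl hh U V h r xs hne hlen hS h1 h2 hs hU hV
    rw [e1b_sh] at h
    obtain ⟨U', V', hU', hV', h'⟩ := e1b_relax hT hS (by rw [hlen]; exact hC) h1 h2 _ 400 c U V hU hV h
    obtain ⟨ha, hb⟩ := e1b_cnd_and h'
    rcases le_total r ((mid : ℝ) / 1024) with h3 | h3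
    · exact ihl hl mid U' V' ha r xs hne hlen hS h1 h3 hs hU' hV'
    · exact ihr mid hh U' V' hb r xs hne hlen hS h3 h2 hs hU' hV'
  | ss c mid l r' ihl ihr =>
    intro hl hh U V h r xs hne hlen hS h1 h2 hs hU hV
    rw [e1b_ss] at h
    obtain ⟨U', V', hU', hV', h'⟩ := e1b_relax hT hS (by rw [hlen]; exact hC) h1 h2 _ 400 c U V hU hV h
    obtain ⟨ha, hb⟩ := e1b_cnd_and h'
    obtain ⟨s, hlast⟩ : ∃ s, xs.getLast? = some s :=
      ⟨xs.getLast hne, List.getLast?_eq_getLast_of_ne_nil hne⟩
    have habs := hs s hlast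
    have hsmem : s ∈ xs := List.mem_of_getLast? hlast
    rcases le_total s ((mid : ℝ) / 1024) with h3 | h3
    · have hp : pos (Nat.add 4096 mid) = (mid : ℝ) / 1024 := by
        show pos (4096 + mid) = _
        unfold pos
        push_cast
        ring
      refine ihl hl hh _ _ ha r xs hne hlen hS h1 h2 hs (e1b_capL_bnd hU' ?_) (e1b_capL_bnd hV' ?_)
      · intro y hy
        rw [hp]
        exact (le_abs_self y).trans ((habs y hy).trans h3)
      · intro y hy
        rw [hp]
        have h4 := habs (-y) (e1b_mem_refl.1 hy)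
        rw [abs_neg] at h4
        exact (le_abs_self y).trans (h4.trans h3)
    · refine ihr hl hh U' _ hb r xs hne hlen hS h1 h2 hs hU' ?_
      have hmid : mid ≤ 4096 := by
        by_contra hcon
        push Not at hcon
        have h4 : (4096 : ℝ) ≤ mid := by exact_mod_cast hcon.le
        have h5 := (hS.range s hsmem).2
        have h6 := Real.pi_lt_four
        have h7 : (4 : ℝ) ≤ (mid : ℝ) / 1024 := by
          rw [le_div_iff₀ (by norm_num)]
          linarith
        linarith
      have hp : pos (Nat.sub 4096 mid) = -((mid : ℝ) / 1024) := by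
        show pos (4096 - mid) = _
        unfold pos
        rw [Nat.cast_sub hmid]
        push_cast
        ring
      obtain ⟨rest, hrest⟩ := e1b_refl_head hlast
      obtain ⟨hle, hsort, htop⟩ := hV'
      rw [hrest] at hle ⊢
      cases hle with
      | cons hv hV'' =>
        rename_i v V''
        rw [e1b_capHead]
        constructor
        · refine List.Forall₂.cons ?_ hV''
          rcases le_total v (Nat.sub 4096 mid) with h4 | h4
          · rw [min_eq_left h4]
            exact hv
          · rw [min_eq_right h4, hp]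
            linarith
        · rw [List.pairwise_cons] at hsort ⊢
          exact ⟨fun a ha => (min_le_left _ _).trans (hsort.1 a ha), hsort.2⟩
        · intro u hu
          rw [List.mem_cons] at hu
          rcases hu with rfl | hu
          · exact (min_le_left _ _).trans (htop v (by simp))
          · exact htop u (by simp [hu])

theorem e1b_forall_replicate (m : ℕ) (l : List ℝ) (h : ∀ x ∈ l, x ≤ pos m) :
    List.Forall₂ (fun x u => x ≤ pos u) l (List.replicate l.length m) := by
  induction l with
  | nil => exact List.Forall₂.nil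
  | cons x l ih =>
    rw [List.length_cons, List.replicate_succ]
    exact List.Forall₂.cons (h x (by simp)) (ih (fun y hy => h y (by simp [hy])))

/-- TARGET 5 : top level form (start from the trivial bounds) -/
theorem treeOk_top {T SN CH : ℕ} (hT : Tab T SN CH) {N C w : ℕ} (hN : 2 ≤ N) (hC : C = (N - 1) * 2 ^ 41) (t : Tr) (hl hh : ℕ)
    (h : treeOk T SN CH N C w t hl hh (List.replicate N 7313) (4096 :: List.replicate (N - 1) 7313) = true)
    (r : ℝ) (xs : List ℝ) (hlen : xs.length = N) (hS : Sol r xs) (h1 : (hl : ℝ) / 1024 ≤ r) (h2 : r ≤ (hh : ℝ) / 1024)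
    (hs : ∀ (s : ℝ), xs.getLast? = some s → ∀ x ∈ xs, |x| ≤ s) : False := by
  have hne : xs ≠ [] := by
    intro h0
    rw [h0] at hlen
    simp at hlen
    omega
  obtain ⟨s, hlast⟩ : ∃ s, xs.getLast? = some s :=
    ⟨xs.getLast hne, List.getLast?_eq_getLast_of_ne_nil hne⟩
  have habs := hs s hlast
  have hsmem : s ∈ xs := List.mem_of_getLast? hlast
  have hpi : π ≤ pos 7313 := by
    unfold pos
    have := Real.pi_lt_d4
    norm_num
    linarith
  refine treeOk_sound hT hC t hl hh _ _ h r xs hne hlen hS h1 h2 hs ?_ ?_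
  · constructor
    · rw [← hlen]
      exact e1b_forall_replicate 7313 xs (fun x hx => (hS.range x hx).2.trans hpi)
    · exact List.pairwise_replicate_of_refl
    · intro u hu
      rw [List.eq_of_mem_replicate hu]
  · obtain ⟨rest, hrest⟩ := e1b_refl_head hlast
    have hrlen : rest.length = N - 1 := by
      have h3 : (refl xs).length = xs.length := by simp [refl]
      rw [hrest, hlen, List.length_cons] at h3
      omega
    constructor
    · rw [hrest]
      refine List.Forall₂.cons ?_ ?_
      · have h4 := (abs_nonneg s).trans (habs s hsmem)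
        have h5 : pos 4096 = 0 := by
          unfold pos
          norm_num
        rw [h5]
        linarith
      · rw [← hrlen]
        apply e1b_forall_replicate
        intro y hy
        have h6 : y ∈ refl xs := by
          rw [hrest]
          simp [hy]
        exact (hS.reflect.range y h6).2.trans hpi
    · rw [List.pairwise_cons]
      refine ⟨?_, List.pairwise_replicate_of_refl⟩
      intro a ha
      rw [List.eq_of_mem_replicate ha]
      norm_num
    · intro u hu
      rw [List.mem_cons] at hu
      rcases hu with rfl | hu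
      · norm_num
      · rw [List.eq_of_mem_replicate hu]

end Pool.Agent.H443CC
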