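import Mathlib

/-!
# Interval sweeps on the circle: kernel computable checker

Positions are natural numbers `p` standing for the real number `p / 1024 - 4`.
-/

namespace Pool.Agent.H443CC

/-- table lookup: 32-bit field `m` of `T` -/
def lk32 (T m : Nat) : Nat := Nat.land (Nat.shiftRight T (Nat.mul 32 m)) 4294967295

/-- table lookup: 16-bit field `m` of `T` -/
def lk16 (T m : Nat) : Nat := Nat.land (Nat.shiftRight T (Nat.mul 16 m)) 65535

noncomputable def mn (x y : Nat) : Nat := (@Bool.rec (fun _ => Nat) y x (Nat.ble x y))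

/-- lower bound (scale `2^14`, offset `2^14`) for `sin` on `[y, u]` (positions) -/
noncomputable def slo (SN y u : Nat) : Nat :=
  (@Bool.rec (fun _ => Nat) (@Bool.rec (fun _ => Nat) (@Bool.rec (fun _ => Nat) 0 (lk16 SN u) (Nat.ble u 2487)) (lk16 SN y) (Nat.ble 2488 y)) (mn (lk16 SN y) (lk16 SN u)) (Nat.ble 4096 y))

/-- final comparison: `1024 * acc + (r sin)-part > C` -/
noncomputable def fin (C hl hh s acc : Nat) : Bool :=
  (@Bool.rec (fun _ => Bool) (Nat.ble (Nat.succ (Nat.add C (Nat.mul hh (Nat.sub 16384 s)))) (Nat.mul 1024 acc)) (Nat.ble (Nat.succ C) (Nat.add (Nat.mul 1024 acc) (Nat.mul hl (Nat.sub s 16384)))) (Nat.ble 16384 s))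

/-- sum over the points on the left of the current one -/
noncomputable def preSum (T y : Nat) (pre : List Nat) : Nat → Nat :=
  @List.rec Nat (fun _ => Nat → Nat) (fun acc => acc)
    (fun p _ ih acc => ih (@Nat.rec (fun _ => Nat → Nat) (fun _ => 0)
      (fun k _ a => Nat.add a (Nat.sub 4294967295 (lk32 T k))) (Nat.sub y p) acc)) pre

/-- sum over the points on the right of the current one -/
noncomputable def postSum (T y : Nat) (post : List Nat) : Nat → Nat :=
  @List.rec Nat (fun _ => Nat → Nat) (fun acc => acc)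
    (fun w _ ih acc => ih (@Nat.rec (fun _ => Nat → Nat) (fun _ => 0)
      (fun k _ a => Nat.add a (lk32 T k)) (Nat.sub w y) acc)) post

/-- `y ≥ 883`, `y ≤ u`, `y ≥ (last left point) + 4` -/
noncomputable def guards (y u : Nat) (pre : List Nat) : Bool :=
  (@Bool.rec (fun _ => Bool) false (@Bool.rec (fun _ => Bool) false (@List.rec Nat (fun _ => Bool) true (fun p _ _ => Nat.ble (Nat.add p 4) y) pre) (Nat.ble y u)) (Nat.ble 883 y))

/-- new upper bound of a point with old upper bound `u` -/
noncomputable def stepval (T SN C hl hh : Nat) (pre : List Nat) (u : Nat) (post : List Nat) (y : Nat) : Nat :=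
  (@Bool.rec (fun _ => Nat) u (@Bool.rec (fun _ => Nat) u y (fin C hl hh (slo SN y u) (preSum T y pre (postSum T y post 0)))) (guards y u pre))

/-- one Gauss-Seidel round; the result is the reversed list -/
noncomputable def roundR (T SN C hl hh : Nat) (l : List Nat) : List Nat → Nat → List Nat :=
  @List.rec Nat (fun _ => List Nat → Nat → List Nat) (fun pre _ => pre)
    (fun u post ih pre c => ih (List.cons (stepval T SN C hl hh pre u post (Nat.land c 8191)) pre) (Nat.shiftRight c 13)) l

/-- reverse -/
noncomputable def rv (l : List Nat) : List Nat → List Nat :=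
  @List.rec Nat (fun _ => List Nat → List Nat) (fun acc => acc) (fun a _ ih acc => ih (List.cons a acc)) l

noncomputable def round (T SN C hl hh : Nat) (l : List Nat) (c : Nat) : List Nat :=
  rv (roundR T SN C hl hh l [] c) []

/-- upper bound (scale `2^14`, offset `2^14`) for `cos` on `[L, u]` -/
noncomputable def chi (CH L u : Nat) : Nat :=
  (@Bool.rec (fun _ => Nat) (@Bool.rec (fun _ => Nat) 32768 (lk16 CH u) (Nat.ble u 4096)) (lk16 CH L) (Nat.ble 4096 L))

/-- test: `U` upper bounds (in order), `W` = upper bounds of the reflected points, reversed -/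
noncomputable def testL (CH bound : Nat) (U : List Nat) : List Nat → Nat → Bool :=
  @List.rec Nat (fun _ => List Nat → Nat → Bool) (fun _ acc => Nat.ble (Nat.succ acc) bound)
    (fun u _ ih W acc => @List.rec Nat (fun _ => Bool) false
      (fun v W' _ => (@Bool.rec (fun _ => Bool) (ih W' (Nat.add acc (chi CH (Nat.sub 8192 v) u))) true (Nat.ble (Nat.succ (Nat.add u v)) 8192))) W) U

noncomputable def capL (m : Nat) (l : List Nat) : List Nat :=
  @List.rec Nat (fun _ => List Nat) [] (fun a _ ih => List.cons (mn a m) ih) l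

noncomputable def capHead (m : Nat) (l : List Nat) : List Nat :=
  @List.rec Nat (fun _ => List Nat) [] (fun a t _ => List.cons (mn a m) t) l

/-- sequence of rounds on `U` (tag 1) and `V` (tag 2), then `k` -/
noncomputable def relaxK (T SN C hl hh w : Nat) (k : List Nat → List Nat → Bool) (fuel : Nat) :
    Nat → List Nat → List Nat → Bool :=
  @Nat.rec (fun _ => Nat → List Nat → List Nat → Bool) (fun _ U V => k U V)
    (fun _ ih c U V => (@Bool.rec (fun _ => Bool) (@Bool.rec (fun _ => Bool) (ih (Nat.shiftRight c w) U (round T SN C hl hh V (Nat.shiftRight c 2))) (ih (Nat.shiftRight c w) (round T SN C hl hh U (Nat.shiftRight c 2)) V) (Nat.beq (Nat.land c 3) 1)) (k U V) (Nat.beq (Nat.land c 3) 0))) fuel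

/-- proof trees -/
inductive Tr
  | leaf (c : Nat)
  | sh (c mid : Nat) (l r : Tr)
  | ss (c mid : Nat) (l r : Tr)

noncomputable def treeOk (T SN CH N C w : Nat) (t : Tr) : Nat → Nat → List Nat → List Nat → Bool :=
  @Tr.rec (fun _ => Nat → Nat → List Nat → List Nat → Bool)
    (fun c hl hh U V => relaxK T SN C hl hh w
      (fun U V => testL CH (Nat.add (Nat.mul 16384 N) (Nat.mul 16 hl)) U (rv V []) 0) 400 c U V)
    (fun c mid _ _ ihl ihr hl hh U V => relaxK T SN C hl hh w
      (fun U V => (@Bool.rec (fun _ => Bool) false (ihr mid hh U V) (ihl hl mid U V))) 400 c U V)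
    (fun c mid _ _ ihl ihr hl hh U V => relaxK T SN C hl hh w
      (fun U V => (@Bool.rec (fun _ => Bool) false (ihr hl hh U (capHead (Nat.sub 4096 mid) V)) (ihl hl hh (capL (Nat.add 4096 mid) U) (capL (Nat.add 4096 mid) V)))) 400 c U V) t

end Pool.Agent.H443CC
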