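import Pool.Agent.H443CC.Circle2

/-!
# Level sums: duality glue
-/

open Real

namespace Pool.Agent.H443CC

variable {N : ℕ} {θ : ℕ → ℝ}

noncomputable def Psi (ρ α lam nu kap A e x c : ℝ) : ℝ :=
  2 * (F (2 * α) - F (2 * x)) * (x - α) + c * (4 * ρ * x * sin x - lam * cos x + nu * sin x)
    + kap * (2 * c ^ 2 - 1) * (sin x * cos x) - 2 * A * (x - α) + e

/-- the level sum -/
noncomputable def TT (N : ℕ) (θ : ℕ → ℝ) (r : ℝ) (k : ℕ) : ℝ :=
  ∑ i ∈ Finset.range N, (aa N θ i k + 2 * (r / N) * (dd θ i k * pp θ i k))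

/-- TARGET 1 -/
lemma TT_total (hN : 0 < N) (hper : ∀ i, θ (i + N) = θ i + 2 * π) {r : ℝ}
    (hsin : ∑ i ∈ Finset.range N, sin (θ i) = 0)
    (heq : ∀ i, ∑ k ∈ Finset.Ico 1 N, F (dd θ i k) = -r * sin (θ i)) :
    ∑ k ∈ Finset.Ico 1 N, TT N θ r k = 0 := by
  have hv := virial hN hper heq
  have hX := X_sum hN hper hsin
  have hN' : (N : ℝ) ≠ 0 := by exact_mod_cast hN.ne'
  have e1 : ∑ k ∈ Finset.Ico 1 N, TT N θ r k =
      ∑ k ∈ Finset.Ico 1 N, ∑ i ∈ Finset.range N, aa N θ i k -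
        2 * (r / N) * ∑ k ∈ Finset.Ico 1 N, -∑ i ∈ Finset.range N, dd θ i k * pp θ i k := by
    rw [Finset.mul_sum, ← Finset.sum_sub_distrib]
    refine Finset.sum_congr rfl fun k _ => ?_
    unfold TT
    rw [Finset.sum_add_distrib, ← Finset.mul_sum]
    ring
  rw [e1, hv, hX]
  field_simp
  ring

/-- TARGET 2 -/
lemma TT_symm (hN : 0 < N) (hper : ∀ i, θ (i + N) = θ i + 2 * π) (r : ℝ) {k : ℕ} (hk : k ∈ Finset.Ico 1 N) :
    TT N θ r (N - k) = TT N θ r k := by
  have hk' := Finset.mem_Ico.mp hk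
  unfold TT
  rw [Finset.sum_add_distrib, Finset.sum_add_distrib, level_symm hN hper hk, ← Finset.mul_sum,
    ← Finset.mul_sum]
  congr 2
  have e1 := sum_shift (N := N) (fun i => dd θ i (N - k) * pp θ i (N - k))
    (fun i => by
      show dd θ (i + N) (N - k) * pp θ (i + N) (N - k) = _
      rw [dd_per hper, pp_per hper]) k
  rw [← e1]
  have e2 : ∀ i ∈ Finset.range N, dd θ (i + k) (N - k) * pp θ (i + k) (N - k) =
      dd θ i k * pp θ i k - 2 * π * pp θ i k := by
    intro i _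
    rw [dd_reflect hper hk'.2.le]
    have e3 : pp θ (i + k) (N - k) = - pp θ i k := by
      unfold pp
      have : i + k + (N - k) = i + N := by omega
      rw [this, hper, Real.sin_add_two_pi]
      ring
    rw [e3]
    ring
  rw [Finset.sum_congr rfl e2, Finset.sum_sub_distrib, ← Finset.mul_sum, sum_pp hper]
  ring

/-- TARGET 3 -/
lemma TT_lower (hmono : StrictMono θ) (hper : ∀ i, θ (i + N) = θ i + 2 * π) {r : ℝ}
    (hcos : ∑ i ∈ Finset.range N, cos (θ i) = r) {k : ℕ} (hk : k ∈ Finset.Ico 1 N)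
    {lam nu kap A e : ℝ}
    (h : ∀ x, 0 < x → x < π → ∀ c, |c| ≤ 1 → 0 ≤ Psi (r / N) (π * k / N) lam nu kap A e x c) :
    N * (lam * (r / N) - e) ≤ TT N θ r k := by
  have hk' := Finset.mem_Ico.mp hk
  have hN : 0 < N := by omega
  have hN' : (N : ℝ) ≠ 0 := by exact_mod_cast hN.ne'
  have key : ∀ i, Psi (r / N) (π * k / N) lam nu kap A e (dd θ i k / 2)
      (cos ((θ i + θ (i + k)) / 2)) =
      (aa N θ i k + 2 * (r / N) * (dd θ i k * pp θ i k)) -
        lam * (cos (dd θ i k / 2) / sin (dd θ i k / 2) * pp θ i k) + nu * pp θ i k +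
        kap / 4 * (sin (2 * θ (i + k)) - sin (2 * θ i)) - A * (dd θ i k - 2 * π * k / N) + e := by
    intro i
    have hd := dd_mem hmono hper hk i
    have hs : 0 < sin (dd θ i k / 2) :=
      Real.sin_pos_of_pos_of_lt_pi (by linarith [hd.1]) (by linarith [hd.2])
    have hp : pp θ i k = cos ((θ i + θ (i + k)) / 2) * sin (dd θ i k / 2) := by
      unfold pp dd
      rw [Real.sin_sub_sin]
      ring_nf
    have hq : (2 * cos ((θ i + θ (i + k)) / 2) ^ 2 - 1) * (sin (dd θ i k / 2) * cos (dd θ i k / 2)) =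
        (sin (2 * θ (i + k)) - sin (2 * θ i)) / 4 := by
      rw [← Real.cos_two_mul, Real.sin_sub_sin]
      have e1 : sin (dd θ i k / 2) * cos (dd θ i k / 2) = sin (dd θ i k) / 2 := by
        have := Real.sin_two_mul (dd θ i k / 2)
        rw [mul_div_cancel₀ _ (two_ne_zero)] at this
        rw [this]; ring
      rw [e1]
      have e2 : (2 * θ (i + k) - 2 * θ i) / 2 = dd θ i k := by unfold dd; ring
      have e3 : (2 * θ (i + k) + 2 * θ i) / 2 = 2 * ((θ i + θ (i + k)) / 2) := by ring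
      rw [e2, e3]
      ring
    have h2x : 2 * (dd θ i k / 2) = dd θ i k := by ring
    have h2a : 2 * (π * k / N) = 2 * π * k / N := by ring
    unfold Psi aa
    rw [h2x, h2a, hp]
    have hc : cos (dd θ i k / 2) / sin (dd θ i k / 2) *
        (cos ((θ i + θ (i + k)) / 2) * sin (dd θ i k / 2)) =
        cos ((θ i + θ (i + k)) / 2) * cos (dd θ i k / 2) := by
      field_simp
    rw [hc]
    linear_combination kap * hq
  have hnn : 0 ≤ ∑ i ∈ Finset.range N, Psi (r / N) (π * k / N) lam nu kap A e (dd θ i k / 2)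
      (cos ((θ i + θ (i + k)) / 2)) := by
    refine Finset.sum_nonneg fun i _ => ?_
    have hd := dd_mem hmono hper hk i
    exact h _ (by linarith [hd.1]) (by linarith [hd.2]) _ (Real.abs_cos_le_one _)
  have hsh : ∑ i ∈ Finset.range N, (sin (2 * θ (i + k)) - sin (2 * θ i)) = 0 := by
    rw [Finset.sum_sub_distrib]
    have := sum_shift (N := N) (fun i => sin (2 * θ i)) (fun i => by
      show sin (2 * θ (i + N)) = sin (2 * θ i)
      rw [hper, show 2 * (θ i + 2 * π) = 2 * θ i + (2 : ℕ) * (2 * π) by push_cast; ring,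
        Real.sin_add_nat_mul_two_pi]) k
    rw [this, sub_self]
  have htot : ∑ i ∈ Finset.range N, Psi (r / N) (π * k / N) lam nu kap A e (dd θ i k / 2)
      (cos ((θ i + θ (i + k)) / 2)) = TT N θ r k - lam * r + N * e := by
    have e1 : ∀ i ∈ Finset.range N, Psi (r / N) (π * k / N) lam nu kap A e (dd θ i k / 2)
        (cos ((θ i + θ (i + k)) / 2)) =
        (((((aa N θ i k + 2 * (r / N) * (dd θ i k * pp θ i k)) -
        lam * (cos (dd θ i k / 2) / sin (dd θ i k / 2) * pp θ i k)) + nu * pp θ i k) +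
        kap / 4 * (sin (2 * θ (i + k)) - sin (2 * θ i))) - A * dd θ i k) +
          (A * (2 * π * k / N) + e) := by
      intro i _
      rw [key i]
      ring
    rw [Finset.sum_congr rfl e1, Finset.sum_add_distrib, Finset.sum_sub_distrib,
      Finset.sum_add_distrib, Finset.sum_add_distrib, Finset.sum_sub_distrib,
      ← Finset.mul_sum (f := fun i => cos (dd θ i k / 2) / sin (dd θ i k / 2) * pp θ i k),
      ← Finset.mul_sum (f := fun i => pp θ i k),
      ← Finset.mul_sum (f := fun i => sin (2 * θ (i + k)) - sin (2 * θ i)),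
      ← Finset.mul_sum (f := fun i => dd θ i k), sum_cot hmono hper hcos hk, sum_pp hper, hsh,
      sum_dd hN hper, Finset.sum_const, Finset.card_range, nsmul_eq_mul]
    have hT : ∑ i ∈ Finset.range N, (aa N θ i k + 2 * (r / N) * (dd θ i k * pp θ i k)) =
      TT N θ r k := rfl
    rw [hT]
    field_simp
    ring
  rw [htot] at hnn
  have e2 : (N : ℝ) * (lam * (r / N) - e) = lam * r - N * e := by
    field_simp
  rw [e2]
  linarith

/-- splitting a symmetric sum -/
lemma split_aux {N : ℕ} (hN : 2 ≤ N) (f : ℕ → ℝ) (hf : ∀ k ∈ Finset.Ico 1 N, f (N - k) = f k) :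
    ∑ k ∈ Finset.Ico 1 N, f k =
      2 * ∑ k ∈ Finset.Icc 1 ((N - 1) / 2), f k + (if N % 2 = 0 then f (N / 2) else 0) := by
  rcases Nat.even_or_odd' N with ⟨m, hm | hm⟩
  · have h1 : (N - 1) / 2 = m - 1 := by omega
    have h2 : N % 2 = 0 := by omega
    have h3 : N / 2 = m := by omega
    have hI : Finset.Icc 1 (m - 1) = Finset.Ico 1 m := by
      ext x; simp only [Finset.mem_Icc, Finset.mem_Ico]; omega
    rw [h1, if_pos h2, h3, hI]
    have hm1 : 1 ≤ m := by omega
    have e1 : ∑ j ∈ Finset.Ico 1 m, f (2 * m - j) = ∑ j ∈ Finset.Ico (2 * m + 1 - m) (2 * m + 1 - 1), f j :=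
      Finset.sum_Ico_reflect f 1 (by omega)
    have e2 : 2 * m + 1 - m = m + 1 := by omega
    have e3 : 2 * m + 1 - 1 = 2 * m := by omega
    rw [e2, e3] at e1
    have e4 : ∑ j ∈ Finset.Ico 1 m, f (2 * m - j) = ∑ j ∈ Finset.Ico 1 m, f j := by
      refine Finset.sum_congr rfl fun j hj => ?_
      rw [Finset.mem_Ico] at hj
      have := hf j (by rw [Finset.mem_Ico]; omega)
      rwa [hm] at this
    have e5 := Finset.sum_Ico_consecutive f (m := 1) (n := m) (k := 2 * m) hm1 (by omega)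
    have e6 : ∑ j ∈ Finset.Ico m (2 * m), f j = f m + ∑ j ∈ Finset.Ico (m + 1) (2 * m), f j :=
      Finset.sum_eq_sum_Ico_succ_bot (by omega) f
    rw [hm, ← e5, e6, ← e1, e4]
    ring
  · have h1 : (N - 1) / 2 = m := by omega
    have h2 : ¬ N % 2 = 0 := by omega
    have hI : Finset.Icc 1 m = Finset.Ico 1 (m + 1) := by
      ext x; simp only [Finset.mem_Icc, Finset.mem_Ico]; omega
    rw [h1, if_neg h2, hI]
    have e1 : ∑ j ∈ Finset.Ico 1 (m + 1), f (2 * m + 1 - j) =
        ∑ j ∈ Finset.Ico (2 * m + 1 + 1 - (m + 1)) (2 * m + 1 + 1 - 1), f j :=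
      Finset.sum_Ico_reflect f 1 (by omega)
    have e2 : 2 * m + 1 + 1 - (m + 1) = m + 1 := by omega
    have e3 : 2 * m + 1 + 1 - 1 = 2 * m + 1 := by omega
    rw [e2, e3] at e1
    have e4 : ∑ j ∈ Finset.Ico 1 (m + 1), f (2 * m + 1 - j) = ∑ j ∈ Finset.Ico 1 (m + 1), f j := by
      refine Finset.sum_congr rfl fun j hj => ?_
      rw [Finset.mem_Ico] at hj
      have := hf j (by rw [Finset.mem_Ico]; omega)
      rwa [hm] at this
    have e5 := Finset.sum_Ico_consecutive f (m := 1) (n := m + 1) (k := 2 * m + 1) (by omega)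
      (by omega)
    rw [hm, ← e5, ← e1, e4]
    ring

/-- TARGET 4 -/
lemma TT_contra (hN : 2 ≤ N) (hper : ∀ i, θ (i + N) = θ i + 2 * π) {r : ℝ}
    (hsin : ∑ i ∈ Finset.range N, sin (θ i) = 0)
    (heq : ∀ i, ∑ k ∈ Finset.Ico 1 N, F (dd θ i k) = -r * sin (θ i))
    (B : ℕ → ℝ) (hB : ∀ k, 1 ≤ k → 2 * k ≤ N → N * B k ≤ TT N θ r k) :
    2 * ∑ k ∈ Finset.Icc 1 ((N - 1) / 2), B k + (if N % 2 = 0 then B (N / 2) else 0) ≤ 0 := by
  have hN0 : 0 < N := by omega
  have hNr : (0 : ℝ) < N := by exact_mod_cast hN0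
  have htot := TT_total hN0 hper hsin heq
  have hsym : ∀ k ∈ Finset.Ico 1 N, TT N θ r (N - k) = TT N θ r k :=
    fun k hk => TT_symm hN0 hper r hk
  have hspl := split_aux hN (TT N θ r) hsym
  rw [hspl] at htot
  have h1 : (N : ℝ) * ∑ k ∈ Finset.Icc 1 ((N - 1) / 2), B k ≤
      ∑ k ∈ Finset.Icc 1 ((N - 1) / 2), TT N θ r k := by
    rw [Finset.mul_sum]
    refine Finset.sum_le_sum fun k hk => ?_
    rw [Finset.mem_Icc] at hk
    exact hB k hk.1 (by omega)
  have h2 : (N : ℝ) * (if N % 2 = 0 then B (N / 2) else 0) ≤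
      (if N % 2 = 0 then TT N θ r (N / 2) else 0) := by
    split_ifs with h
    · exact hB (N / 2) (by omega) (by omega)
    · simp
  by_contra hcon
  push Not at hcon
  have h3 := mul_pos hNr hcon
  nlinarith [h1, h2, h3, htot]

end Pool.Agent.H443CC
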