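import Pool.Agent.H443CC.Eng2Ent
import Pool.Agent.H443CC.Glue

/-!
# Bounds for Psi at grid points
-/

open Real

namespace Pool.Agent.H443CC

theorem ad_cast (x y : ℕ) : ((ad x y : ℕ) : ℝ) = |(x : ℝ) - y| := by
  show (((x - y) + (y - x) : ℕ) : ℝ) = _
  rcases le_total x y with h | h
  · rw [Nat.sub_eq_zero_of_le h, zero_add, Nat.cast_sub h, abs_sub_comm, abs_of_nonneg]
    have : (x : ℝ) ≤ y := by exact_mod_cast h
    linarith
  · rw [Nat.sub_eq_zero_of_le h, add_zero, Nat.cast_sub h, abs_of_nonneg]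
    have : (y : ℝ) ≤ x := by exact_mod_cast h
    linarith

theorem shl_cast (X : ℕ) : ((Nat.shiftLeft X 29 : ℕ) : ℝ) = 2 ^ 40 * ((X : ℝ) / 2048) := by
  show ((X <<< 29 : ℕ) : ℝ) = _
  rw [Nat.shiftLeft_eq]
  push_cast
  ring

theorem shr_le (n k : ℕ) : ((Nat.shiftRight n k : ℕ) : ℝ) ≤ (n : ℝ) / 2 ^ k := by
  show ((n >>> k : ℕ) : ℝ) ≤ _
  rw [Nat.shiftRight_eq_div_pow]
  have := Nat.cast_div_le (α := ℝ) (m := n) (n := 2 ^ k)
  push_cast at this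
  exact this

theorem shr_ge (n k : ℕ) : (n : ℝ) / 2 ^ k ≤ ((Nat.shiftRight n k : ℕ) : ℝ) + 1 := by
  show _ ≤ ((n >>> k : ℕ) : ℝ) + 1
  rw [Nat.shiftRight_eq_div_pow, div_le_iff₀ (by positivity)]
  have := Nat.lt_div_mul_add (a := n) (b := 2 ^ k) (by positivity)
  have h2 : n ≤ (n / 2 ^ k + 1) * 2 ^ k := by
    rw [add_mul, one_mul]
    exact this.le
  exact_mod_cast h2

/-- abstract form of target 1 -/
theorem H_real {A B D u H : ℝ} (hA : D - 2048 ≤ A) (hB : u - 1 ≤ B) (hA0 : 0 ≤ A) (hB0 : 0 ≤ B)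
    (hD0 : 0 ≤ D) (hu0 : 0 ≤ u) (hD : D ≤ 2 ^ 57) (hu : u ≤ 2 ^ 42) (hH : H ≤ D * u / 2 ^ 12) :
    H - 2 ^ 46 ≤ A * B / 2 ^ 12 := by
  have h1 : D * u - 2048 * u - D ≤ A * B := by
    by_cases h1 : 2048 ≤ D
    · by_cases h2 : 1 ≤ u
      · have : (D - 2048) * (u - 1) ≤ A * B :=
          mul_le_mul hA hB (by linarith) hA0
        nlinarith
      · have : D * u ≤ D := by nlinarith
        have := mul_nonneg hA0 hB0
        linarith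
    · have : D * u ≤ 2048 * u := by nlinarith
      have := mul_nonneg hA0 hB0
      linarith
  have h2 : H * 2 ^ 12 ≤ D * u := by
    rwa [le_div_iff₀ (by positivity)] at hH
  rw [le_div_iff₀ (by positivity)]
  norm_num at *
  linarith

/-- TARGET 1 -/
theorem Hv_spec {t a fa : ℕ} (hE : Ent t) {α : ℝ} (hα0 : 0 < α) (hα1 : α < π) (ha : |2 ^ 40 * α - a| ≤ 1)
    (hfa : |2 ^ 40 * F (2 * α) - fa| ≤ 1024) (hfa' : fa ≤ 2 ^ 55) :
    (Hv fa (ffp t) (ffm t) (ad (Nat.shiftLeft (fX t) 29) a) : ℝ) - 2 ^ 46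
      ≤ 2 ^ 67 * (2 * (F (2 * α) - F (2 * ((fX t : ℝ) / 2048))) * ((fX t : ℝ) / 2048 - α)) := by
  obtain ⟨X, hX⟩ : ∃ X, X = fX t := ⟨_, rfl⟩
  obtain ⟨x, hx⟩ : ∃ x : ℝ, x = (X : ℝ) / 2048 := ⟨_, rfl⟩
  have hX1 : (1 : ℝ) ≤ X := by rw [hX]; exact_mod_cast hE.X1
  have hX2 : (X : ℝ) ≤ 6433 := by rw [hX]; exact_mod_cast hE.X2
  have hF := hE.F
  have hfp : ((ffp t : ℕ) : ℝ) ≤ 2 ^ 55 := by exact_mod_cast hE.fp
  have hfm : ((ffm t : ℕ) : ℝ) ≤ 2 ^ 55 := by exact_mod_cast hE.fm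
  have hfaR : ((fa : ℕ) : ℝ) ≤ 2 ^ 55 := by exact_mod_cast hfa'
  rw [← hX] at hF ⊢
  rw [← hx]
  have h2x : (X : ℝ) / 1024 = 2 * x := by rw [hx]; ring
  rw [h2x] at hF
  have hpi := Real.pi_gt_d4
  have hpi2 := Real.pi_lt_d4
  have hx0 : 0 < x := by rw [hx]; positivity
  have hxpi : x < π := by rw [hx]; rw [div_lt_iff₀ (by norm_num)]; linarith
  -- sign
  have hsign : (F (2 * α) - F (2 * x)) * (x - α) = |F (2 * α) - F (2 * x)| * |x - α| := by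
    rw [← abs_mul, abs_of_nonneg]
    rcases lt_trichotomy α x with h | h | h
    · have := F_strictAnti ⟨by linarith, by linarith⟩ ⟨by linarith, by linarith⟩
        (show 2 * α < 2 * x by linarith)
      exact mul_nonneg (by linarith) (by linarith)
    · rw [h]; simp
    · have := F_strictAnti ⟨by linarith, by linarith⟩ ⟨by linarith, by linarith⟩
        (show 2 * x < 2 * α by linarith)
      exact mul_nonneg_of_nonpos_of_nonpos (by linarith) (by linarith)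
  have hu : ((ad (Nat.shiftLeft X 29) a : ℕ) : ℝ) = |2 ^ 40 * x - a| := by
    rw [ad_cast, shl_cast, hx]
  have hD : ((ad (fa + ffm t) (ffp t) : ℕ) : ℝ) = |(fa : ℝ) + ffm t - ffp t| := by
    rw [ad_cast]; push_cast; rfl
  have hH : ((Hv fa (ffp t) (ffm t) (ad (Nat.shiftLeft X 29) a) : ℕ) : ℝ) ≤
      |(fa : ℝ) + ffm t - ffp t| * |2 ^ 40 * x - a| / 2 ^ 12 := by
    refine (shr_le _ 12).trans (le_of_eq ?_)
    rw [← hu, ← hD, ← Nat.cast_mul]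
    rfl
  have e1 : 2 ^ 67 * (2 * (F (2 * α) - F (2 * x)) * (x - α)) =
      |2 ^ 40 * (F (2 * α) - F (2 * x))| * |2 ^ 40 * (x - α)| / 2 ^ 12 := by
    rw [abs_mul, abs_mul, abs_of_pos (by positivity : (0 : ℝ) < 2 ^ 40)]
    have : 2 ^ 67 * (2 * (F (2 * α) - F (2 * x)) * (x - α)) =
      2 ^ 68 * ((F (2 * α) - F (2 * x)) * (x - α)) := by ring
    rw [this, hsign]
    ring
  rw [e1]
  refine H_real (D := |(fa : ℝ) + ffm t - ffp t|) (u := |2 ^ 40 * x - a|) ?_ ?_ (abs_nonneg _)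
    (abs_nonneg _) (abs_nonneg _) (abs_nonneg _) ?_ ?_ hH
  · have h1 : (fa : ℝ) + ffm t - ffp t = 2 ^ 40 * (F (2 * α) - F (2 * x)) +
      (-(2 ^ 40 * F (2 * α) - fa) + (2 ^ 40 * F (2 * x) - (ffp t - ffm t))) := by ring
    have h2 := abs_add_le (2 ^ 40 * (F (2 * α) - F (2 * x)))
      (-(2 ^ 40 * F (2 * α) - fa) + (2 ^ 40 * F (2 * x) - (ffp t - ffm t)))
    have h3 := abs_add_le (-(2 ^ 40 * F (2 * α) - fa)) (2 ^ 40 * F (2 * x) - (ffp t - ffm t))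
    rw [← h1] at h2
    rw [abs_neg] at h3
    linarith
  · have h1 : 2 ^ 40 * x - a = 2 ^ 40 * (x - α) + (2 ^ 40 * α - a) := by ring
    have h2 := abs_add_le (2 ^ 40 * (x - α)) (2 ^ 40 * α - a)
    rw [← h1] at h2
    linarith
  · have h0 : (0 : ℝ) ≤ fa := Nat.cast_nonneg _
    have h1 : (0 : ℝ) ≤ ffm t := Nat.cast_nonneg _
    have h2 : (0 : ℝ) ≤ ffp t := Nat.cast_nonneg _
    clear hH e1 hsign hu hD
    rw [abs_le]
    constructor <;> linarith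
  · have h1 : 2 ^ 40 * x - a = 2 ^ 40 * (x - α) + (2 ^ 40 * α - a) := by ring
    have h2 := abs_add_le (2 ^ 40 * (x - α)) (2 ^ 40 * α - a)
    rw [← h1] at h2
    have h3 : |2 ^ 40 * (x - α)| ≤ 2 ^ 40 * 3.1416 := by
      rw [abs_mul, abs_of_pos (by positivity : (0 : ℝ) < 2 ^ 40)]
      have : |x - α| ≤ 3.1416 := by
        rw [abs_le]
        constructor <;> linarith
      gcongr
    clear hH e1 hsign hu hD
    have n1 : (2 : ℝ) ^ 40 * 3.1416 + 1 ≤ 2 ^ 42 := by norm_num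
    exact h2.trans ((add_le_add h3 ha).trans n1)

theorem ptm_eq (tot neg P K cm : ℕ) : ptm tot neg P K cm =
    if cm = 0 then (if 4 * K ≤ P then (tot + K) - (neg + P)
      else tot - (neg + (K + (P * P / (8 * K) + 1)))) else tot - (neg + (P + K)) := by
  unfold ptm
  cases cm with
  | zero =>
    rw [if_pos rfl]
    show @Bool.rec (fun _ => ℕ) _ _ (Nat.ble (4 * K) P) = _
    by_cases h : 4 * K ≤ P
    · rw [if_pos h, show Nat.ble (4 * K) P = true by rw [Nat.ble_eq]; exact h]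
      rfl
    · rw [if_neg h]
      have : Nat.ble (4 * K) P = false := by
        rw [← Bool.not_eq_true, Nat.ble_eq]
        exact h
      rw [this]
      rfl
  | succ n =>
    rw [if_neg (Nat.succ_ne_zero n)]
    rfl

theorem Pv_cast (R lp lm np nm X s cp cm : ℕ) : ((Pv R lp lm np nm X s cp cm : ℕ) : ℝ) =
    |(4 * (R * X) + 2048 * ((np : ℝ) - nm)) * s - 2048 * ((lp : ℝ) - lm) * ((cp : ℝ) - cm)| := by
  unfold Pv
  rw [ad_cast]
  show |(((4 * (R * X) + 2048 * np) * s + 2048 * (lp * cm + lm * cp) : ℕ) : ℝ) -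
    ((2048 * (nm * s + (lp * cp + lm * cm)) : ℕ) : ℝ)| = _
  push_cast
  congr 1
  ring

/-- abstract minimum over `c` -/
theorem min_real {c Pc K : ℝ} (hc : |c| ≤ 1) (hK : 0 ≤ K) :
    (4 * K ≤ |Pc| → K - |Pc| ≤ c * Pc + K * (2 * c ^ 2 - 1)) ∧
    (|Pc| < 4 * K → -(K + |Pc| * |Pc| / (8 * K)) ≤ c * Pc + K * (2 * c ^ 2 - 1)) ∧
    (-(|Pc| + K) ≤ c * Pc + -K * (2 * c ^ 2 - 1)) := by
  have h1 : -(|c| * |Pc|) ≤ c * Pc := by
    rw [← abs_mul]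
    exact neg_abs_le _
  have h2 : c ^ 2 = |c| ^ 2 := (sq_abs c).symm
  have hc0 := abs_nonneg c
  obtain ⟨P, hP⟩ : ∃ P, P = |Pc| := ⟨_, rfl⟩
  have hP0 : 0 ≤ P := by rw [hP]; exact abs_nonneg _
  rw [h2]
  rw [← hP] at h1 ⊢
  obtain ⟨z, hz⟩ : ∃ z, z = |c| := ⟨_, rfl⟩
  rw [← hz] at h1 hc hc0 ⊢
  refine ⟨fun h => ?_, fun h => ?_, ?_⟩
  · have : 0 ≤ (1 - z) * (P - 2 * K * (1 + z)) := by
      refine mul_nonneg (by linarith) ?_
      nlinarith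
    nlinarith
  · have hK' : 0 < K := by linarith
    have h3 : -(P * P / (8 * K)) ≤ -(z * P) + 2 * K * z ^ 2 := by
      have : -(z * P) + 2 * K * z ^ 2 + P * P / (8 * K) = 2 * K * (z - P / (4 * K)) ^ 2 := by
        field_simp
        ring
      have h4 : 0 ≤ 2 * K * (z - P / (4 * K)) ^ 2 := by positivity
      linarith
    linarith
  · have h3 : z * P ≤ P := by nlinarith
    have h4 : z ^ 2 ≤ 1 := by nlinarith
    nlinarith

/-- abstract error estimate -/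
theorem err_real {S C s cc lam' nu' rx kap A αS a XS c Hr Hn E2 Ks : ℝ}
    (hS : |S - s| ≤ 1) (hC : |C - cc| ≤ 1) (hS1 : |S| ≤ 2 ^ 40) (hC1 : |C| ≤ 2 ^ 40)
    (ha : |αS - a| ≤ 1) (hA : |A| ≤ 2 ^ 32) (hlam : |lam'| ≤ 2 ^ 43) (hnu : |rx + nu'| ≤ 2 ^ 44)
    (hkap : 0 ≤ kap) (hkap2 : kap ≤ 2 ^ 32) (hc : |c| ≤ 1) (hH : Hn - 2 ^ 46 ≤ Hr)
    (hK : |kap * s * cc / 2 ^ 29 - Ks| ≤ 1) :
    Hn + E2 + 4096 * A * (a - XS) - 2 ^ 48 + c * ((rx + nu') * s - lam' * cc) +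
        Ks * (2 * c ^ 2 - 1) ≤
      Hr + E2 + 4096 * A * (αS - XS) + c * ((rx + nu') * S - lam' * C) +
        kap * (2 * c ^ 2 - 1) * (S * C) / 2 ^ 29 := by
  have b1 : |4096 * A * (αS - a)| ≤ 2 ^ 44 := by
    rw [abs_mul, abs_mul, abs_of_pos (by norm_num : (0 : ℝ) < 4096)]
    calc 4096 * |A| * |αS - a| ≤ 4096 * 2 ^ 32 * 1 := by gcongr
      _ = 2 ^ 44 := by norm_num
  have b2 : |c * ((rx + nu') * (S - s))| ≤ 2 ^ 44 := by
    rw [abs_mul, abs_mul]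
    calc |c| * (|rx + nu'| * |S - s|) ≤ 1 * (2 ^ 44 * 1) := by gcongr
      _ = 2 ^ 44 := by norm_num
  have b3 : |c * (lam' * (C - cc))| ≤ 2 ^ 43 := by
    rw [abs_mul, abs_mul]
    calc |c| * (|lam'| * |C - cc|) ≤ 1 * (2 ^ 43 * 1) := by gcongr
      _ = 2 ^ 43 := by norm_num
  have hw : |2 * c ^ 2 - 1| ≤ 1 := by
    have h2 : c ^ 2 = |c| ^ 2 := (sq_abs c).symm
    have hc0 := abs_nonneg c
    rw [h2, abs_le]
    constructor <;> nlinarith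
  have hs1 : |s| ≤ 2 ^ 40 + 1 := by
    have : s = S - (S - s) := by ring
    rw [this]
    refine (abs_sub _ _).trans ?_
    linarith
  have b4 : |S * C - s * cc| ≤ 2 ^ 42 := by
    have : S * C - s * cc = (S - s) * C + s * (C - cc) := by ring
    rw [this]
    refine (abs_add_le _ _).trans ?_
    rw [abs_mul, abs_mul]
    calc |S - s| * |C| + |s| * |C - cc| ≤ 1 * 2 ^ 40 + (2 ^ 40 + 1) * 1 := by gcongr
      _ ≤ 2 ^ 42 := by norm_num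
  have b5 : |kap * (2 * c ^ 2 - 1) * (S * C - s * cc) / 2 ^ 29| ≤ 2 ^ 45 := by
    rw [abs_div, abs_mul, abs_mul, abs_of_nonneg hkap,
      abs_of_pos (by positivity : (0 : ℝ) < 2 ^ 29), div_le_iff₀ (by positivity)]
    calc kap * |2 * c ^ 2 - 1| * |S * C - s * cc| ≤ 2 ^ 32 * 1 * 2 ^ 42 := by gcongr
      _ = 2 ^ 45 * 2 ^ 29 := by norm_num
  have b6 : |(kap * s * cc / 2 ^ 29 - Ks) * (2 * c ^ 2 - 1)| ≤ 1 := by
    rw [abs_mul]
    calc _ ≤ (1 : ℝ) * 1 := by gcongr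
      _ = 1 := by norm_num
  have e : Hr + E2 + 4096 * A * (αS - XS) + c * ((rx + nu') * S - lam' * C) +
        kap * (2 * c ^ 2 - 1) * (S * C) / 2 ^ 29 =
      Hr + E2 + 4096 * A * (a - XS) + c * ((rx + nu') * s - lam' * cc) + Ks * (2 * c ^ 2 - 1) +
      4096 * A * (αS - a) + c * ((rx + nu') * (S - s)) - c * (lam' * (C - cc)) +
      kap * (2 * c ^ 2 - 1) * (S * C - s * cc) / 2 ^ 29 +
      (kap * s * cc / 2 ^ 29 - Ks) * (2 * c ^ 2 - 1) := by ring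
  rw [e]
  have c1 := (abs_le.1 b1).1
  have c2 := (abs_le.1 b2).1
  have c3 := (abs_le.1 b3).2
  have c5 := (abs_le.1 b5).1
  have c6 := (abs_le.1 b6).1
  have n1 : (2 : ℝ) ^ 46 + 2 ^ 44 + 2 ^ 44 + 2 ^ 43 + 2 ^ 45 + 1 ≤ 2 ^ 48 := by norm_num
  linarith

theorem div_bound (P K : ℕ) (hK : 0 < K) :
    (P : ℝ) * P / (8 * K) ≤ ((P * P / (8 * K) : ℕ) : ℝ) + 1 := by
  rw [div_le_iff₀ (by positivity)]
  have h9 := Nat.lt_div_mul_add (a := P * P) (b := 8 * K) (by positivity)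
  have h10 : P * P ≤ (P * P / (8 * K) + 1) * (8 * K) := by
    rw [add_mul, one_mul]
    exact h9.le
  exact_mod_cast h10

theorem tot_cast (Hn e Ap a Am Y : ℕ) (y : ℝ) (hY : (Y : ℝ) = y) :
    ((Nat.add Hn (Nat.add (Nat.mul e 2251799813685248)
      (Nat.mul 4096 (Nat.add (Nat.mul Ap a) (Nat.mul Am Y)))) : ℕ) : ℝ) =
      Hn + ((e : ℝ) * 2 ^ 51 + 4096 * ((Ap : ℝ) * a + Am * y)) := by
  rw [← hY]
  have h : (Nat.add Hn (Nat.add (Nat.mul e 2251799813685248)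
      (Nat.mul 4096 (Nat.add (Nat.mul Ap a) (Nat.mul Am Y))))) =
      Hn + (e * 2251799813685248 + 4096 * (Ap * a + Am * Y)) := rfl
  rw [h, Nat.cast_add, Nat.cast_add, Nat.cast_mul, Nat.cast_mul, Nat.cast_add, Nat.cast_mul,
    Nat.cast_mul]
  norm_num

theorem neg_cast' (Ap a Am Y : ℕ) (y : ℝ) (hY : (Y : ℝ) = y) :
    ((Nat.add 281474976710656 (Nat.mul 4096 (Nat.add
    (Nat.mul Ap Y) (Nat.mul Am a))) : ℕ) : ℝ) =
      2 ^ 48 + 4096 * ((Ap : ℝ) * y + Am * a) := by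
  rw [← hY]
  have h : (Nat.add 281474976710656 (Nat.mul 4096 (Nat.add
    (Nat.mul Ap Y) (Nat.mul Am a)))) =
      281474976710656 + 4096 * (Ap * Y + Am * a) := rfl
  rw [h, Nat.cast_add, Nat.cast_mul, Nat.cast_add, Nat.cast_mul, Nat.cast_mul]
  norm_num

set_option maxHeartbeats 1000000 in
/-- TARGET 2 -/
theorem ptv_spec {t R lp lm np nm kap Ap Am e a fa : ℕ} (hE : Ent t) (hR : R ≤ 65536)
    (hlp : lp < 2 ^ 32) (hlm : lm < 2 ^ 32) (hnp : np < 2 ^ 32) (hnm : nm < 2 ^ 32) (hkap : kap < 2 ^ 32)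
    (hAp : Ap < 2 ^ 32) (hAm : Am < 2 ^ 32) {α : ℝ} (hα0 : 0 < α) (hα1 : α < π) (ha : |2 ^ 40 * α - a| ≤ 1)
    (hfa : |2 ^ 40 * F (2 * α) - fa| ≤ 1024) (hfa' : fa ≤ 2 ^ 55)
    (hm : 0 < ptv R lp lm np nm kap Ap Am e a (fX t) (fs t) (fcp t) (fcm t)
      (Hv fa (ffp t) (ffm t) (ad (Nat.shiftLeft (fX t) 29) a))) {c : ℝ} (hc : |c| ≤ 1) :
    (ptv R lp lm np nm kap Ap Am e a (fX t) (fs t) (fcp t) (fcm t)
      (Hv fa (ffp t) (ffm t) (ad (Nat.shiftLeft (fX t) 29) a)) : ℝ) / 2 ^ 67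
      ≤ Psi ((R : ℝ) / 2 ^ 16) α (((lp : ℝ) - lm) / 2 ^ 16) (((np : ℝ) - nm) / 2 ^ 16) ((kap : ℝ) / 2 ^ 16)
        (((Ap : ℝ) - Am) / 2 ^ 16) ((e : ℝ) / 2 ^ 16) ((fX t : ℝ) / 2048) c := by
  have hHv := Hv_spec hE hα0 hα1 ha hfa hfa'
  obtain ⟨Hn, hHn⟩ : ∃ Hn, Hn = Hv fa (ffp t) (ffm t) (ad (Nat.shiftLeft (fX t) 29) a) :=
    ⟨_, rfl⟩
  rw [← hHn] at hHv hm ⊢
  have hXs := hE.s
  have hXc := hE.c
  have hcz := hE.cz
  have hX1 : (1 : ℝ) ≤ fX t := by exact_mod_cast hE.X1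
  have hX2 : ((fX t : ℕ) : ℝ) ≤ 6433 := by exact_mod_cast hE.X2
  have hRR : (R : ℝ) ≤ 65536 := by exact_mod_cast hR
  have hlpR : (lp : ℝ) ≤ 2 ^ 32 := by exact_mod_cast hlp.le
  have hlmR : (lm : ℝ) ≤ 2 ^ 32 := by exact_mod_cast hlm.le
  have hnpR : (np : ℝ) ≤ 2 ^ 32 := by exact_mod_cast hnp.le
  have hnmR : (nm : ℝ) ≤ 2 ^ 32 := by exact_mod_cast hnm.le
  have hkapR : (kap : ℝ) ≤ 2 ^ 32 := by exact_mod_cast hkap.le
  have hApR : (Ap : ℝ) ≤ 2 ^ 32 := by exact_mod_cast hAp.le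
  have hAmR : (Am : ℝ) ≤ 2 ^ 32 := by exact_mod_cast hAm.le
  generalize fX t = X at *
  generalize fs t = s at *
  generalize fcp t = cp at *
  generalize fcm t = cm at *
  have z1 : (0 : ℝ) ≤ lp := Nat.cast_nonneg _
  have z2 : (0 : ℝ) ≤ lm := Nat.cast_nonneg _
  have z3 : (0 : ℝ) ≤ np := Nat.cast_nonneg _
  have z4 : (0 : ℝ) ≤ nm := Nat.cast_nonneg _
  have z5 : (0 : ℝ) ≤ kap := Nat.cast_nonneg _
  have z6 : (0 : ℝ) ≤ Ap := Nat.cast_nonneg _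
  have z7 : (0 : ℝ) ≤ Am := Nat.cast_nonneg _
  have z8 : (0 : ℝ) ≤ R := Nat.cast_nonneg _
  -- the integer `K`
  obtain ⟨K, hKdef⟩ : ∃ K, K = Nat.shiftRight (Nat.mul kap (Nat.mul s (Nat.add cp cm))) 29 :=
    ⟨_, rfl⟩
  have hK1 := shr_le (Nat.mul kap (Nat.mul s (Nat.add cp cm))) 29
  have hK2 := shr_ge (Nat.mul kap (Nat.mul s (Nat.add cp cm))) 29
  rw [← hKdef] at hK1 hK2
  have hKc : ((Nat.mul kap (Nat.mul s (Nat.add cp cm)) : ℕ) : ℝ) = kap * (s * ((cp : ℝ) + cm)) := by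
    show ((kap * (s * (cp + cm)) : ℕ) : ℝ) = _
    push_cast
    ring
  rw [hKc] at hK1 hK2
  obtain ⟨Ks, hKs⟩ : ∃ Ks : ℝ, Ks = if cm = 0 then (K : ℝ) else -K := ⟨_, rfl⟩
  have hKerr : |(kap : ℝ) * s * ((cp : ℝ) - cm) / 2 ^ 29 - Ks| ≤ 1 := by
    rw [hKs]
    by_cases h0 : cm = 0
    · rw [if_pos h0]
      rw [h0] at hK1 hK2 ⊢
      rw [Nat.cast_zero, add_zero] at hK1 hK2
      rw [Nat.cast_zero, sub_zero, mul_assoc, abs_le]
      constructor <;> linarith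
    · rw [if_neg h0]
      have hcp : cp = 0 := hcz.resolve_right h0
      rw [hcp] at hK1 hK2 ⊢
      rw [Nat.cast_zero, zero_add] at hK1 hK2
      have e1 : (kap : ℝ) * s * (((0 : ℕ) : ℝ) - cm) / 2 ^ 29 = -(kap * (s * (cm : ℝ)) / 2 ^ 29) := by
        rw [Nat.cast_zero]
        ring
      rw [e1, abs_le]
      constructor <;> linarith
  -- the pieces
  obtain ⟨Pc, hPc⟩ : ∃ Pc : ℝ, Pc = (4 * (R * X) + 2048 * ((np : ℝ) - nm)) * s -
    2048 * ((lp : ℝ) - lm) * ((cp : ℝ) - cm) := ⟨_, rfl⟩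
  have key := err_real (S := 2 ^ 40 * sin ((X : ℝ) / 2048)) (C := 2 ^ 40 * cos ((X : ℝ) / 2048))
    (s := s) (cc := (cp : ℝ) - cm) (lam' := 2048 * ((lp : ℝ) - lm)) (nu' := 2048 * ((np : ℝ) - nm))
    (rx := 4 * (R * X)) (kap := kap) (A := (Ap : ℝ) - Am) (αS := 2 ^ 40 * α) (a := a)
    (XS := 2 ^ 40 * ((X : ℝ) / 2048)) (c := c)
    (Hr := 2 ^ 67 * (2 * (F (2 * α) - F (2 * ((X : ℝ) / 2048))) * ((X : ℝ) / 2048 - α)))
    (Hn := Hn) (E2 := (e : ℝ) * 2 ^ 51) (Ks := Ks) hXs hXc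
    (by
      rw [abs_mul, abs_of_pos (by positivity : (0 : ℝ) < 2 ^ 40)]
      have := Real.abs_sin_le_one ((X : ℝ) / 2048)
      calc (2 : ℝ) ^ 40 * |sin ((X : ℝ) / 2048)| ≤ 2 ^ 40 * 1 := by gcongr
        _ = 2 ^ 40 := mul_one _)
    (by
      rw [abs_mul, abs_of_pos (by positivity : (0 : ℝ) < 2 ^ 40)]
      have := Real.abs_cos_le_one ((X : ℝ) / 2048)
      calc (2 : ℝ) ^ 40 * |cos ((X : ℝ) / 2048)| ≤ 2 ^ 40 * 1 := by gcongr
        _ = 2 ^ 40 := mul_one _)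
    ha
    (by rw [abs_le]; constructor <;> linarith)
    (by
      rw [abs_mul, abs_of_pos (by norm_num : (0 : ℝ) < 2048)]
      have : |(lp : ℝ) - lm| ≤ 2 ^ 32 := by rw [abs_le]; constructor <;> linarith
      calc (2048 : ℝ) * |(lp : ℝ) - lm| ≤ 2048 * 2 ^ 32 := by gcongr
        _ = 2 ^ 43 := by norm_num)
    (by
      have h1 : (R : ℝ) * X ≤ 65536 * 6433 := by gcongr
      have h2 : 0 ≤ (R : ℝ) * X := by positivity
      rw [abs_le]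
      constructor <;> linarith)
    z5 hkapR hc hHv hKerr
  rw [← hPc] at key
  have hPsi : 2 ^ 67 * Psi ((R : ℝ) / 2 ^ 16) α (((lp : ℝ) - lm) / 2 ^ 16)
      (((np : ℝ) - nm) / 2 ^ 16) ((kap : ℝ) / 2 ^ 16)
      (((Ap : ℝ) - Am) / 2 ^ 16) ((e : ℝ) / 2 ^ 16) ((X : ℝ) / 2048) c =
      2 ^ 67 * (2 * (F (2 * α) - F (2 * ((X : ℝ) / 2048))) * ((X : ℝ) / 2048 - α)) +
      (e : ℝ) * 2 ^ 51 + 4096 * ((Ap : ℝ) - Am) * (2 ^ 40 * α - 2 ^ 40 * ((X : ℝ) / 2048)) +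
      c * ((4 * (R * X) + 2048 * ((np : ℝ) - nm)) * (2 ^ 40 * sin ((X : ℝ) / 2048)) -
        2048 * ((lp : ℝ) - lm) * (2 ^ 40 * cos ((X : ℝ) / 2048))) +
      kap * (2 * c ^ 2 - 1) * ((2 ^ 40 * sin ((X : ℝ) / 2048)) *
        (2 ^ 40 * cos ((X : ℝ) / 2048))) / 2 ^ 29 := by
    unfold Psi
    ring
  rw [← hPsi] at key
  -- the integer side
  rw [div_le_iff₀ (by positivity), mul_comm (Psi _ _ _ _ _ _ _ _ _)]
  refine le_trans ?_ key
  obtain ⟨tot, htot⟩ : ∃ tot, tot = Nat.add Hn (Nat.add (Nat.mul e 2251799813685248)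
    (Nat.mul 4096 (Nat.add (Nat.mul Ap a) (Nat.mul Am (Nat.shiftLeft X 29))))) := ⟨_, rfl⟩
  obtain ⟨neg, hneg⟩ : ∃ neg, neg = Nat.add 281474976710656 (Nat.mul 4096 (Nat.add
    (Nat.mul Ap (Nat.shiftLeft X 29)) (Nat.mul Am a))) := ⟨_, rfl⟩
  have hptv : ptv R lp lm np nm kap Ap Am e a X s cp cm Hn =
      ptm tot neg (Pv R lp lm np nm X s cp cm) K cm := by
    rw [htot, hneg, hKdef]
    rfl
  have htotR : (tot : ℝ) = Hn + ((e : ℝ) * 2 ^ 51 + 4096 * ((Ap : ℝ) * a +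
      Am * (2 ^ 40 * ((X : ℝ) / 2048)))) := by
    rw [htot]
    exact tot_cast _ _ _ _ _ _ _ (shl_cast X)
  have hnegR : (neg : ℝ) = 2 ^ 48 + 4096 * ((Ap : ℝ) * (2 ^ 40 * ((X : ℝ) / 2048)) + Am * a) := by
    rw [hneg]
    exact neg_cast' _ _ _ _ _ (shl_cast X)
  have hP := Pv_cast R lp lm np nm X s cp cm
  rw [← hPc] at hP
  rw [hptv] at hm ⊢
  generalize Pv R lp lm np nm X s cp cm = P at *
  rw [ptm_eq] at hm ⊢
  have hK0 : (0 : ℝ) ≤ K := Nat.cast_nonneg _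
  obtain ⟨m1, m2, m3⟩ := min_real (Pc := Pc) hc hK0
  have goalform : (Hn : ℝ) + (e : ℝ) * 2 ^ 51 + 4096 * ((Ap : ℝ) - Am) *
      (a - 2 ^ 40 * ((X : ℝ) / 2048)) - 2 ^ 48 + c * Pc + Ks * (2 * c ^ 2 - 1) =
      tot - neg + (c * Pc + Ks * (2 * c ^ 2 - 1)) := by
    rw [htotR, hnegR]
    ring
  rw [goalform]
  by_cases h0 : cm = 0
  · rw [if_pos h0] at hm hKs ⊢
    rw [hKs]
    by_cases h4 : 4 * K ≤ P
    · rw [if_pos h4] at hm ⊢
      have h5 : neg + P ≤ tot + K := by omega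
      rw [Nat.cast_sub h5]
      push_cast
      have h6 : 4 * (K : ℝ) ≤ |Pc| := by rw [← hP]; exact_mod_cast h4
      have := m1 h6
      rw [← hP] at this
      linarith
    · rw [if_neg h4] at hm ⊢
      have h5 : neg + (K + (P * P / (8 * K) + 1)) ≤ tot := by omega
      rw [Nat.cast_sub h5]
      push_cast
      have h6 : |Pc| < 4 * (K : ℝ) := by
        rw [← hP]
        exact_mod_cast not_le.1 h4
      have h7 := m2 h6
      rw [← hP] at h7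
      have hKpos : 0 < K := by omega
      have h8 := div_bound P K hKpos
      linarith
  · rw [if_neg h0] at hm hKs ⊢
    rw [hKs]
    have h5 : neg + (P + K) ≤ tot := by omega
    rw [Nat.cast_sub h5]
    push_cast
    rw [← hP] at m3
    linarith

end Pool.Agent.H443CC
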