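import Pool.Agent.H443CC.Glue

/-!
# Bounds for `Psi` on cells
-/

open Real

namespace Pool.Agent.H443CC

lemma c_abs {c : ℝ} (hc : |c| ≤ 1) : |2 * c ^ 2 - 1| ≤ 1 := by
  have h1 : c ^ 2 ≤ 1 := by
    rw [← sq_abs]; nlinarith [abs_nonneg c]
  rw [abs_le]
  constructor <;> nlinarith [sq_nonneg c]

lemma F_two (x : ℝ) : F (2 * x) = cos x / (4 * sin x ^ 2) := by
  unfold F
  rw [show 2 * x / 2 = x by ring]

lemma mul_ge_neg {a b B : ℝ} (ha : |a| ≤ 1) (hb : |b| ≤ B) : -B ≤ a * b := by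
  have h : |a * b| ≤ B := by
    rw [abs_mul]
    calc |a| * |b| ≤ 1 * |b| := mul_le_mul_of_nonneg_right ha (abs_nonneg _)
      _ = |b| := one_mul _
      _ ≤ B := hb
  exact (abs_le.mp h).1

lemma mul_le_of {a b B : ℝ} (ha : |a| ≤ 1) (hb : |b| ≤ B) : a * b ≤ B := by
  have h : |a * b| ≤ B := by
    rw [abs_mul]
    calc |a| * |b| ≤ 1 * |b| := mul_le_mul_of_nonneg_right ha (abs_nonneg _)
      _ = |b| := one_mul _
      _ ≤ B := hb
  exact (abs_le.mp h).2

/-- TARGET 1: chord bound for one cell `[x0, x1]`. -/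
lemma psi_cell {ρ α lam nu kap A e c x0 x1 dm G3 G4 : ℝ} (hx0 : 0 < x0) (h01 : x0 < x1) (hx1 : x1 < π)
    (hρ0 : 0 ≤ ρ) (hρ1 : ρ ≤ 1) (hkap : 0 ≤ kap) (hc : |c| ≤ 1)
    (hG3a : 2 ≤ G3 * sin x0 ^ 3) (hG3b : 2 ≤ G3 * sin x1 ^ 3)
    (hG4a : 3 ≤ G4 * sin x0 ^ 4) (hG4b : 3 ≤ G4 * sin x1 ^ 4)
    (hd0 : |x0 - α| ≤ dm) (hd1 : |x1 - α| ≤ dm)
    (h0 : (G3 + G4 * dm + 21 * ρ + |nu| + |lam| + 2 * kap) * (x1 - x0) ^ 2 / 8 ≤ Psi ρ α lam nu kap A e x0 c)
    (h1 : (G3 + G4 * dm + 21 * ρ + |nu| + |lam| + 2 * kap) * (x1 - x0) ^ 2 / 8 ≤ Psi ρ α lam nu kap A e x1 c)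
    {x : ℝ} (hx : x ∈ Set.Icc x0 x1) : 0 ≤ Psi ρ α lam nu kap A e x c := by
  have hs0 : 0 < sin x0 := sin_pos_of_pos_of_lt_pi hx0 (by linarith)
  have hs1 : 0 < sin x1 := sin_pos_of_pos_of_lt_pi (by linarith) hx1
  have hG3 : 0 ≤ G3 := by
    by_contra hneg
    push Not at hneg
    have : G3 * sin x0 ^ 3 < 0 := mul_neg_of_neg_of_pos hneg (pow_pos hs0 3)
    linarith
  have hG4 : 0 ≤ G4 := by
    by_contra hneg
    push Not at hneg
    have : G4 * sin x0 ^ 4 < 0 := mul_neg_of_neg_of_pos hneg (pow_pos hs0 4)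
    linarith
  have hdm : 0 ≤ dm := le_trans (abs_nonneg _) hd0
  set M : ℝ := G3 + G4 * dm + 21 * ρ + |nu| + |lam| + 2 * kap with hM
  have hMnn : 0 ≤ M := by
    have := mul_nonneg hG4 hdm
    have := abs_nonneg nu
    have := abs_nonneg lam
    rw [hM]; linarith
  -- pointwise bounds
  have hsinpos : ∀ y ∈ Set.Icc x0 x1, 0 < sin y := fun y hy =>
    sin_pos_of_pos_of_lt_pi (lt_of_lt_of_le hx0 hy.1) (lt_of_le_of_lt hy.2 hx1)
  have hmin : ∀ y ∈ Set.Icc x0 x1, min (sin x0) (sin x1) ≤ sin y := by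
    intro y hy
    have hconc : ConcaveOn ℝ (Set.Icc 0 π) sin := strictConcaveOn_sin_Icc.concaveOn
    exact hconc.min_le_of_mem_Icc ⟨hx0.le, by linarith⟩ ⟨by linarith, hx1.le⟩ hy
  have hb3 : ∀ y ∈ Set.Icc x0 x1, 2 ≤ G3 * sin y ^ 3 := by
    intro y hy
    have h := hmin y hy
    rcases le_total (sin x0) (sin x1) with hh | hh
    · rw [min_eq_left hh] at h
      exact hG3a.trans (mul_le_mul_of_nonneg_left (pow_le_pow_left₀ hs0.le h 3) hG3)
    · rw [min_eq_right hh] at h
      exact hG3b.trans (mul_le_mul_of_nonneg_left (pow_le_pow_left₀ hs1.le h 3) hG3)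
  have hb4 : ∀ y ∈ Set.Icc x0 x1, 3 ≤ G4 * sin y ^ 4 := by
    intro y hy
    have h := hmin y hy
    rcases le_total (sin x0) (sin x1) with hh | hh
    · rw [min_eq_left hh] at h
      exact hG4a.trans (mul_le_mul_of_nonneg_left (pow_le_pow_left₀ hs0.le h 4) hG4)
    · rw [min_eq_right hh] at h
      exact hG4b.trans (mul_le_mul_of_nonneg_left (pow_le_pow_left₀ hs1.le h 4) hG4)
  -- the functions
  let g : ℝ → ℝ := fun y => cos y / (4 * sin y ^ 2)
  let g1 : ℝ → ℝ := fun y => -(1 + cos y ^ 2) / (4 * sin y ^ 3)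
  let g2 : ℝ → ℝ := fun y => cos y * (5 + cos y ^ 2) / (4 * sin y ^ 4)
  let f : ℝ → ℝ := fun y => 2 * (F (2 * α) - g y) * (y - α)
    + c * (4 * ρ * y * sin y - lam * cos y + nu * sin y)
    + kap * (2 * c ^ 2 - 1) * (sin y * cos y) - 2 * A * (y - α) + e - M / 2 * ((y - x0) * (y - x1))
  let f1 : ℝ → ℝ := fun y => 2 * (F (2 * α) - g y) - 2 * g1 y * (y - α)
    + c * (4 * ρ * (sin y + y * cos y) + lam * sin y + nu * cos y)
    + kap * (2 * c ^ 2 - 1) * (cos y ^ 2 - sin y ^ 2) - 2 * A - M / 2 * (2 * y - x0 - x1)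
  let f2 : ℝ → ℝ := fun y => -4 * g1 y - 2 * g2 y * (y - α)
    + c * (4 * ρ * (2 * cos y - y * sin y) + lam * cos y - nu * sin y)
    + kap * (2 * c ^ 2 - 1) * (-4 * (sin y * cos y)) - M
  have hg : ∀ y, 0 < sin y → HasDerivAt g (g1 y) y := by
    intro y hy
    have h1 : HasDerivAt (fun y => 4 * sin y ^ 2) (4 * (2 * sin y ^ 1 * cos y)) y := by
      have := ((hasDerivAt_sin y).pow 2).const_mul (4 : ℝ)
      simpa using this
    have h2 := (hasDerivAt_cos y).div h1 (by positivity)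
    refine h2.congr_deriv ?_
    simp only [g1]
    have hsc : sin y ^ 2 + cos y ^ 2 = 1 := sin_sq_add_cos_sq y
    field_simp
    nlinarith [hsc]
  have hg' : ∀ y, 0 < sin y → HasDerivAt g1 (g2 y) y := by
    intro y hy
    have h1 : HasDerivAt (fun y => 4 * sin y ^ 3) (4 * (3 * sin y ^ 2 * cos y)) y := by
      have := ((hasDerivAt_sin y).pow 3).const_mul (4 : ℝ)
      simpa using this
    have h3 : HasDerivAt (fun y => -(1 + cos y ^ 2)) (-(2 * cos y ^ 1 * (-sin y))) y := by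
      have h4 := (((hasDerivAt_cos y).pow 2).const_add (1 : ℝ)).neg
      refine h4.congr_deriv ?_
      norm_num
    have h2 := h3.div h1 (by positivity)
    refine h2.congr_deriv ?_
    simp only [g2]
    have hsc : sin y ^ 2 = 1 - cos y ^ 2 := by linarith [sin_sq_add_cos_sq y]
    field_simp
    rw [hsc]
    ring
  have hf : ∀ y, 0 < sin y → HasDerivAt f (f1 y) y := by
    intro y hy
    have ha : HasDerivAt (fun y => 2 * (F (2 * α) - g y) * (y - α))
        (2 * (-(g1 y)) * (y - α) + 2 * (F (2 * α) - g y) * 1) y := by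
      have h1 := (((hg y hy).const_sub (F (2 * α))).const_mul (2 : ℝ))
      exact h1.mul ((hasDerivAt_id' y).sub_const α)
    have hb : HasDerivAt (fun y => c * (4 * ρ * y * sin y - lam * cos y + nu * sin y))
        (c * ((4 * ρ * 1 * sin y + 4 * ρ * y * cos y) - lam * (-sin y) + nu * cos y)) y := by
      have h1 := ((hasDerivAt_id' y).const_mul (4 * ρ)).mul (hasDerivAt_sin y)
      have h2 := (hasDerivAt_cos y).const_mul lam
      have h3 := (hasDerivAt_sin y).const_mul nu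
      exact ((h1.sub h2).add h3).const_mul c
    have hc' : HasDerivAt (fun y => kap * (2 * c ^ 2 - 1) * (sin y * cos y))
        (kap * (2 * c ^ 2 - 1) * (cos y * cos y + sin y * (-sin y))) y :=
      ((hasDerivAt_sin y).mul (hasDerivAt_cos y)).const_mul _
    have hd : HasDerivAt (fun y => 2 * A * (y - α)) (2 * A * 1) y :=
      ((hasDerivAt_id' y).sub_const α).const_mul (2 * A)
    have he : HasDerivAt (fun y => M / 2 * ((y - x0) * (y - x1)))
        (M / 2 * (1 * (y - x1) + (y - x0) * 1)) y :=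
      (((hasDerivAt_id' y).sub_const x0).mul ((hasDerivAt_id' y).sub_const x1)).const_mul _
    have := ((((ha.add hb).add hc').sub hd).add_const e).sub he
    refine this.congr_deriv ?_
    simp only [f1]
    ring
  have hf' : ∀ y, 0 < sin y → HasDerivAt f1 (f2 y) y := by
    intro y hy
    have ha0 : HasDerivAt (fun y => 2 * (F (2 * α) - g y)) (2 * (-(g1 y))) y :=
      (((hg y hy).const_sub (F (2 * α))).const_mul (2 : ℝ))
    have ha1 : HasDerivAt (fun y => 2 * g1 y * (y - α))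
        (2 * (g2 y) * (y - α) + 2 * g1 y * 1) y :=
      ((hg' y hy).const_mul (2 : ℝ)).mul ((hasDerivAt_id' y).sub_const α)
    have hb : HasDerivAt (fun y => c * (4 * ρ * (sin y + y * cos y) + lam * sin y + nu * cos y))
        (c * (4 * ρ * (cos y + (1 * cos y + y * (-sin y))) + lam * cos y + nu * (-sin y))) y := by
      have h1 := ((hasDerivAt_sin y).add ((hasDerivAt_id' y).mul (hasDerivAt_cos y))).const_mul (4 * ρ)
      have h2 := (hasDerivAt_sin y).const_mul lam
      have h3 := (hasDerivAt_cos y).const_mul nu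
      exact ((h1.add h2).add h3).const_mul c
    have hc' : HasDerivAt (fun y => kap * (2 * c ^ 2 - 1) * (cos y ^ 2 - sin y ^ 2))
        (kap * (2 * c ^ 2 - 1) * (2 * cos y ^ 1 * (-sin y) - 2 * sin y ^ 1 * cos y)) y := by
      have h1 := (hasDerivAt_cos y).pow 2
      have h2 := (hasDerivAt_sin y).pow 2
      have := (h1.sub h2).const_mul (kap * (2 * c ^ 2 - 1))
      simpa using this
    have he : HasDerivAt (fun y => M / 2 * (2 * y - x0 - x1)) (M / 2 * (2 * 1)) y :=
      ((((hasDerivAt_id' y).const_mul 2).sub_const x0).sub_const x1).const_mul _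
    have := ((((ha0.sub ha1).add hb).add hc').sub_const (2 * A)).sub he
    refine this.congr_deriv ?_
    simp only [f2]
    ring
  have hf2 : ∀ y ∈ Set.Icc x0 x1, f2 y ≤ 0 := by
    intro y hy
    have hs := hsinpos y hy
    have hcos1 : |cos y| ≤ 1 := abs_cos_le_one y
    have hsin1 : |sin y| ≤ 1 := abs_sin_le_one y
    have hcsq : cos y ^ 2 ≤ 1 := cos_sq_le_one y
    have t1 : -4 * g1 y ≤ G3 := by
      have : -4 * g1 y = (1 + cos y ^ 2) / sin y ^ 3 := by
        simp only [g1]; field_simp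
      rw [this, div_le_iff₀ (pow_pos hs 3)]
      linarith [hb3 y hy]
    have hyα : |y - α| ≤ dm := by
      rw [abs_le] at *
      constructor <;> linarith [hy.1, hy.2]
    have t2 : -2 * g2 y * (y - α) ≤ G4 * dm := by
      have hg2 : |2 * g2 y| ≤ G4 := by
        have : 2 * g2 y = (cos y * (5 + cos y ^ 2) / 2) / sin y ^ 4 := by
          simp only [g2]; field_simp; norm_num; ring
        rw [this, abs_div, abs_of_pos (pow_pos hs 4), div_le_iff₀ (pow_pos hs 4)]
        refine le_trans ?_ (hb4 y hy)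
        rw [abs_div, abs_mul, abs_of_pos (by norm_num : (0:ℝ) < 2), abs_of_pos (by positivity : 0 < 5 + cos y ^ 2)]
        have : |cos y| * (5 + cos y ^ 2) ≤ 1 * 6 :=
          mul_le_mul hcos1 (by linarith) (by positivity) (by norm_num)
        linarith
      have : |(-2 * g2 y) * (y - α)| ≤ G4 * dm := by
        rw [abs_mul]
        refine mul_le_mul ?_ hyα (abs_nonneg _) hG4
        rw [show -2 * g2 y = -(2 * g2 y) by ring, abs_neg]
        exact hg2
      exact (abs_le.mp this).2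
    have hπ : π < 3.15 := Real.pi_lt_d2
    have hy0 : 0 < y := lt_of_lt_of_le hx0 hy.1
    have hyπ : y < π := lt_of_le_of_lt hy.2 hx1
    have t3 : c * (4 * ρ * (2 * cos y - y * sin y) + lam * cos y - nu * sin y)
        ≤ 21 * ρ + |lam| + |nu| := by
      apply mul_le_of hc
      have e1 : |4 * ρ * (2 * cos y - y * sin y)| ≤ 21 * ρ := by
        rw [abs_mul, abs_of_nonneg (by positivity : 0 ≤ 4 * ρ)]
        have e2 : |2 * cos y - y * sin y| ≤ 2 + 3.15 := by
          rw [abs_le] at *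
          constructor <;> nlinarith [hcos1.1, hcos1.2, mul_le_mul hyπ.le hsin1.2 hs.le Real.pi_pos.le, mul_pos hy0 hs]
        nlinarith
      have e3 : |lam * cos y| ≤ |lam| := by
        rw [abs_mul]; exact mul_le_of_le_one_right (abs_nonneg _) hcos1
      have e4 : |nu * sin y| ≤ |nu| := by
        rw [abs_mul]; exact mul_le_of_le_one_right (abs_nonneg _) hsin1
      calc |4 * ρ * (2 * cos y - y * sin y) + lam * cos y - nu * sin y|
          ≤ |4 * ρ * (2 * cos y - y * sin y) + lam * cos y| + |nu * sin y| := abs_sub _ _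
        _ ≤ |4 * ρ * (2 * cos y - y * sin y)| + |lam * cos y| + |nu * sin y| := by
            gcongr; exact abs_add_le _ _
        _ ≤ 21 * ρ + |lam| + |nu| := by linarith
    have t4 : kap * (2 * c ^ 2 - 1) * (-4 * (sin y * cos y)) ≤ 2 * kap := by
      have e1 : |2 * (sin y * cos y)| ≤ 1 := by
        rw [show 2 * (sin y * cos y) = sin (2 * y) by rw [sin_two_mul]; ring]
        exact abs_sin_le_one _
      have e2 := c_abs hc
      have e3 : |(2 * c ^ 2 - 1) * (-4 * (sin y * cos y))| ≤ 2 := by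
        rw [show (2 * c ^ 2 - 1) * (-4 * (sin y * cos y)) = -2 * ((2 * c ^ 2 - 1) * (2 * (sin y * cos y))) by ring]
        rw [abs_mul, abs_mul]
        have : |2 * c ^ 2 - 1| * |2 * (sin y * cos y)| ≤ 1 * 1 :=
          mul_le_mul e2 e1 (abs_nonneg _) (by norm_num)
        rw [show |(-2:ℝ)| = 2 by norm_num]
        linarith
      rw [mul_assoc]
      have := (abs_le.mp e3).2
      nlinarith
    have : f2 y = -4 * g1 y + (-2 * g2 y * (y - α))
      + c * (4 * ρ * (2 * cos y - y * sin y) + lam * cos y - nu * sin y)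
      + kap * (2 * c ^ 2 - 1) * (-4 * (sin y * cos y)) - M := by
      simp only [f2]; ring
    rw [this, hM]
    linarith
  have hconc : ConcaveOn ℝ (Set.Icc x0 x1) f := by
    refine concaveOn_of_hasDerivWithinAt2_nonpos (f' := f1) (f'' := f2) (convex_Icc _ _) ?_ ?_ ?_ ?_
    · intro y hy
      exact (hf y (hsinpos y hy)).continuousAt.continuousWithinAt
    · intro y hy
      exact (hf y (hsinpos y (interior_subset hy))).hasDerivWithinAt
    · intro y hy
      exact (hf' y (hsinpos y (interior_subset hy))).hasDerivWithinAt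
    · intro y hy
      exact hf2 y (interior_subset hy)
  have hfPsi : ∀ y, f y = Psi ρ α lam nu kap A e y c - M / 2 * ((y - x0) * (y - x1)) := by
    intro y
    simp only [f, g, Psi, F_two]
  have hmin' := hconc.min_le_of_mem_Icc (Set.left_mem_Icc.mpr h01.le) (Set.right_mem_Icc.mpr h01.le) hx
  rw [hfPsi, hfPsi, hfPsi] at hmin'
  have hkey : -((x1 - x0) ^ 2 / 4) ≤ (x - x0) * (x - x1) := by nlinarith [sq_nonneg (2 * x - x0 - x1)]
  have hkey2 : M / 2 * (-((x1 - x0) ^ 2 / 4)) ≤ M / 2 * ((x - x0) * (x - x1)) :=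
    mul_le_mul_of_nonneg_left hkey (by linarith)
  have h3 : M * (x1 - x0) ^ 2 / 8 ≤ min (Psi ρ α lam nu kap A e x0 c - M / 2 * ((x0 - x0) * (x0 - x1)))
      (Psi ρ α lam nu kap A e x1 c - M / 2 * ((x1 - x0) * (x1 - x1))) := by
    apply le_min
    · simpa using h0
    · simpa using h1
  nlinarith [hmin', h3, hkey2]

/-- TARGET 2: left zone `(0, xa]`, `xa ≤ α`. -/
lemma psi_left {ρ α lam nu kap A e c xa : ℝ} (hxa : 0 < xa) (hxα : xa ≤ α) (hα : α < π)
    (hρ0 : 0 ≤ ρ) (hkap : 0 ≤ kap) (hc : |c| ≤ 1)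
    (h : 4 * ρ * xa ^ 2 + |lam| + |nu| * xa + kap * xa + 2 * |A| * α
      ≤ 2 * (F (2 * xa) - F (2 * α)) * (α - xa) + e)
    {x : ℝ} (hx0 : 0 < x) (hx : x ≤ xa) : 0 ≤ Psi ρ α lam nu kap A e x c := by
  have hanti : AntitoneOn F (Set.Ioo 0 (2 * π)) := F_strictAnti.antitoneOn
  have hF1 : F (2 * xa) ≤ F (2 * x) :=
    hanti ⟨by linarith, by linarith⟩ ⟨by linarith, by linarith⟩ (by linarith)
  have hF2 : F (2 * α) ≤ F (2 * xa) :=
    hanti ⟨by linarith, by linarith⟩ ⟨by linarith, by linarith⟩ (by linarith)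
  have hs0 : 0 < sin x := sin_pos_of_pos_of_lt_pi hx0 (by linarith)
  have hsx : sin x ≤ x := sin_le hx0.le
  have hcos1 : |cos x| ≤ 1 := abs_cos_le_one x
  have t1 : (F (2 * xa) - F (2 * α)) * (α - xa) ≤ (F (2 * x) - F (2 * α)) * (α - x) :=
    mul_le_mul (by linarith) (by linarith) (by linarith) (by linarith)
  have t2 : -(4 * ρ * xa ^ 2 + |lam| + |nu| * xa) ≤ c * (4 * ρ * x * sin x - lam * cos x + nu * sin x) := by
    apply mul_ge_neg hc
    have e1 : |4 * ρ * x * sin x| ≤ 4 * ρ * xa ^ 2 := by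
      rw [abs_of_nonneg (by positivity)]
      have : x * sin x ≤ xa * xa := mul_le_mul hx (hsx.trans hx) hs0.le hxa.le
      nlinarith
    have e2 : |lam * cos x| ≤ |lam| := by
      rw [abs_mul]; exact mul_le_of_le_one_right (abs_nonneg _) hcos1
    have e3 : |nu * sin x| ≤ |nu| * xa := by
      rw [abs_mul, abs_of_pos hs0]
      exact mul_le_mul_of_nonneg_left (hsx.trans hx) (abs_nonneg _)
    calc |4 * ρ * x * sin x - lam * cos x + nu * sin x|
        ≤ |4 * ρ * x * sin x - lam * cos x| + |nu * sin x| := abs_add_le _ _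
      _ ≤ |4 * ρ * x * sin x| + |lam * cos x| + |nu * sin x| := by
          gcongr; exact abs_sub _ _
      _ ≤ _ := by linarith
  have t3 : -(kap * xa) ≤ kap * (2 * c ^ 2 - 1) * (sin x * cos x) := by
    have e1 : |sin x * cos x| ≤ xa := by
      rw [abs_mul, abs_of_pos hs0]
      calc sin x * |cos x| ≤ xa * 1 := mul_le_mul (hsx.trans hx) hcos1 (abs_nonneg _) hxa.le
        _ = xa := mul_one _
    have := mul_ge_neg (c_abs hc) e1
    rw [mul_assoc]
    nlinarith
  have t4 : -(2 * |A| * α) ≤ -(2 * A * (x - α)) := by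
    have h1 : -|A| ≤ A := neg_abs_le A
    have h2 : A ≤ |A| := le_abs_self A
    have h3 : 0 ≤ α - x := by linarith
    nlinarith [mul_le_mul_of_nonneg_right h1 h3, mul_nonneg (abs_nonneg A) hx0.le]
  have : Psi ρ α lam nu kap A e x c = 2 * ((F (2 * x) - F (2 * α)) * (α - x))
      + c * (4 * ρ * x * sin x - lam * cos x + nu * sin x)
      + kap * (2 * c ^ 2 - 1) * (sin x * cos x) + -(2 * A * (x - α)) + e := by
    unfold Psi; ring
  rw [this]
  nlinarith

/-- TARGET 3: right zone `[xb, π)`, `α ≤ xb`. -/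
lemma psi_right {ρ α lam nu kap A e c xb : ℝ} (hα : 0 < α) (hxα : α ≤ xb) (hxb : xb < π)
    (hρ0 : 0 ≤ ρ) (hkap : 0 ≤ kap) (hc : |c| ≤ 1)
    (h : (4 * ρ * π + |nu| + kap) * (π - xb) + |lam| + 2 * |A| * (π - α)
      ≤ 2 * (F (2 * α) - F (2 * xb)) * (xb - α) + e)
    {x : ℝ} (hx0 : xb ≤ x) (hx : x < π) : 0 ≤ Psi ρ α lam nu kap A e x c := by
  have hanti : AntitoneOn F (Set.Ioo 0 (2 * π)) := F_strictAnti.antitoneOn
  have hF1 : F (2 * x) ≤ F (2 * xb) :=
    hanti ⟨by linarith, by linarith⟩ ⟨by linarith, by linarith⟩ (by linarith)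
  have hF2 : F (2 * xb) ≤ F (2 * α) :=
    hanti ⟨by linarith, by linarith⟩ ⟨by linarith, by linarith⟩ (by linarith)
  have hxpos : 0 < x := by linarith
  have hs0 : 0 < sin x := sin_pos_of_pos_of_lt_pi hxpos hx
  have hsx : sin x ≤ π - xb := by
    have : sin (π - x) ≤ π - x := sin_le (by linarith)
    rw [sin_pi_sub] at this
    linarith
  have hcos1 : |cos x| ≤ 1 := abs_cos_le_one x
  have t1 : (F (2 * α) - F (2 * xb)) * (xb - α) ≤ (F (2 * α) - F (2 * x)) * (x - α) :=
    mul_le_mul (by linarith) (by linarith) (by linarith) (by linarith)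
  have t2 : -((4 * ρ * π + |nu|) * (π - xb) + |lam|)
      ≤ c * (4 * ρ * x * sin x - lam * cos x + nu * sin x) := by
    apply mul_ge_neg hc
    have e1 : |4 * ρ * x * sin x| ≤ 4 * ρ * π * (π - xb) := by
      rw [abs_of_nonneg (by positivity)]
      have : x * sin x ≤ π * (π - xb) := mul_le_mul hx.le hsx hs0.le Real.pi_pos.le
      nlinarith
    have e2 : |lam * cos x| ≤ |lam| := by
      rw [abs_mul]; exact mul_le_of_le_one_right (abs_nonneg _) hcos1
    have e3 : |nu * sin x| ≤ |nu| * (π - xb) := by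
      rw [abs_mul, abs_of_pos hs0]
      exact mul_le_mul_of_nonneg_left hsx (abs_nonneg _)
    calc |4 * ρ * x * sin x - lam * cos x + nu * sin x|
        ≤ |4 * ρ * x * sin x - lam * cos x| + |nu * sin x| := abs_add_le _ _
      _ ≤ |4 * ρ * x * sin x| + |lam * cos x| + |nu * sin x| := by
          gcongr; exact abs_sub _ _
      _ ≤ _ := by linarith
  have t3 : -(kap * (π - xb)) ≤ kap * (2 * c ^ 2 - 1) * (sin x * cos x) := by
    have e1 : |sin x * cos x| ≤ π - xb := by
      rw [abs_mul, abs_of_pos hs0]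
      calc sin x * |cos x| ≤ (π - xb) * 1 := mul_le_mul hsx hcos1 (abs_nonneg _) (by linarith)
        _ = π - xb := mul_one _
    have := mul_ge_neg (c_abs hc) e1
    rw [mul_assoc]
    nlinarith
  have t4 : -(2 * |A| * (π - α)) ≤ -(2 * A * (x - α)) := by
    have h1 : -|A| ≤ A := neg_abs_le A
    have h2 : A ≤ |A| := le_abs_self A
    have h3 : 0 ≤ x - α := by linarith
    nlinarith [mul_le_mul_of_nonneg_right h2 h3, mul_nonneg (abs_nonneg A) (by linarith : 0 ≤ π - x)]
  have : Psi ρ α lam nu kap A e x c = 2 * ((F (2 * α) - F (2 * x)) * (x - α))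
      + c * (4 * ρ * x * sin x - lam * cos x + nu * sin x)
      + kap * (2 * c ^ 2 - 1) * (sin x * cos x) + -(2 * A * (x - α)) + e := by
    unfold Psi; ring
  rw [this]
  nlinarith

end Pool.Agent.H443CC
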