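import Pool.Agent.H443CC.Eng2A
import Pool.Agent.H443CC.PsiCell

/-!
# Soundness of one duality certificate
-/

open Real

namespace Pool.Agent.H443CC

lemma h441_and {b x : Bool} (h : @Bool.rec (fun _ => Bool) false x b = true) :
    b = true ∧ x = true := by
  cases b
  · exact absurd h (by simp)
  · exact ⟨rfl, h⟩

lemma h441_rec (b x : Bool) : @Bool.rec (fun _ => Bool) false x b = (b && x) := by
  cases b <;> rfl

lemma h441_shl (a b : ℕ) : Nat.shiftLeft a b = a * 2 ^ b := Nat.shiftLeft_eq a b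

lemma h441_mx_left (x y : ℕ) : x ≤ mxN x y := by
  unfold mxN
  cases h : Nat.ble x y with
  | true => exact Nat.le_of_ble_eq_true h
  | false => exact le_refl _

lemma h441_mx_right (x y : ℕ) : y ≤ mxN x y := by
  unfold mxN
  cases h : Nat.ble x y with
  | true => exact le_refl _
  | false =>
    have h1 : ¬ (Nat.ble x y = true) := by rw [h]; simp
    have h2 := Nat.not_le_of_not_ble_eq_true h1
    exact (not_le.mp h2).le

lemma h441_mn_left (x y : ℕ) : mnN x y ≤ x := by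
  unfold mnN
  cases h : Nat.ble x y with
  | true => exact le_refl _
  | false =>
    have h1 : ¬ (Nat.ble x y = true) := by rw [h]; simp
    have h2 := Nat.not_le_of_not_ble_eq_true h1
    exact (not_le.mp h2).le

lemma h441_mn_right (x y : ℕ) : mnN x y ≤ y := by
  unfold mnN
  cases h : Nat.ble x y with
  | true => exact Nat.le_of_ble_eq_true h
  | false => exact le_refl _

lemma h441_ad (x y : ℕ) : ((ad x y : ℕ) : ℝ) = |(x : ℝ) - y| := by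
  have h : ad x y = (x - y) + (y - x) := rfl
  rw [h]
  rcases le_total x y with h1 | h1
  · have h2 : (x : ℝ) ≤ y := by exact_mod_cast h1
    rw [Nat.sub_eq_zero_of_le h1, zero_add, Nat.cast_sub h1, abs_of_nonpos (by linarith)]
    ring
  · have h2 : (y : ℝ) ≤ x := by exact_mod_cast h1
    rw [Nat.sub_eq_zero_of_le h1, add_zero, Nat.cast_sub h1, abs_of_nonneg (by linarith)]

lemma h441_absdiv (p m : ℕ) : |((p : ℝ) - m) / 2 ^ 16| ≤ ((p : ℝ) + m) / 2 ^ 16 := by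
  have hp : (0 : ℝ) ≤ p := Nat.cast_nonneg p
  have hm : (0 : ℝ) ≤ m := Nat.cast_nonneg m
  rw [abs_div, abs_of_pos (show (0 : ℝ) < 2 ^ 16 by norm_num)]
  apply div_le_div_of_nonneg_right _ (by norm_num)
  rw [abs_le]
  constructor <;> linarith

lemma h441_left {t R lp lm np nm kap Ap Am e a fa : ℕ} (hE : Ent t) {α : ℝ} (hα0 : 0 < α)
    (hα1 : α < π) (ha : |2 ^ 40 * α - a| ≤ 1)
    (hfa : |2 ^ 40 * F (2 * α) - fa| ≤ 1024) (hfa' : fa ≤ 2 ^ 55)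
    (h : leftOk R np nm kap lp lm Am e a (fX t)
      (Hv fa (ffp t) (ffm t) (ad (Nat.shiftLeft (fX t) 29) a)) = true)
    {x : ℝ} (hx0 : 0 < x) (hx : x ≤ (fX t : ℝ) / 2048) {c : ℝ} (hc : |c| ≤ 1) :
    0 ≤ Psi ((R : ℝ) / 2 ^ 16) α (((lp : ℝ) - lm) / 2 ^ 16) (((np : ℝ) - nm) / 2 ^ 16)
        ((kap : ℝ) / 2 ^ 16) (((Ap : ℝ) - Am) / 2 ^ 16) ((e : ℝ) / 2 ^ 16) x c := by
  obtain ⟨h1, h2⟩ := h441_and h
  obtain ⟨h2, h3⟩ := h441_and h2
  have hv := Hv_spec hE hα0 hα1 ha hfa hfa'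
  have h1' := Nat.le_of_ble_eq_true h1
  have h2' := Nat.le_of_ble_eq_true h2
  have h3' := Nat.le_of_ble_eq_true h3
  generalize Hv fa (ffp t) (ffm t) (ad (Nat.shiftLeft (fX t) 29) a) = H at hv h3'
  generalize fX t = X at *
  simp only [Nat.add_eq, Nat.mul_eq, Nat.succ_eq_add_one, h441_shl] at h2' h3'
  have h2r : (X : ℝ) * 2 ^ 29 + 1 ≤ a := by exact_mod_cast h2'
  have h3r : (R : ℝ) * (X * X) * 2 ^ 31 + (((np : ℝ) + (nm + kap)) * X * 2 ^ 40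
      + (((lp : ℝ) + lm) * 2 ^ 51 + (281474976710656 + 4096 * (Am * (a + 1))))) ≤
      (H : ℝ) + e * 2 ^ 51 := by exact_mod_cast h3'
  have hX1 : (1 : ℝ) ≤ X := by exact_mod_cast h1'
  obtain ⟨ha1, ha2⟩ := abs_le.mp ha
  have hxα : (X : ℝ) / 2048 ≤ α := by
    have : (X : ℝ) * 2 ^ 29 ≤ 2 ^ 40 * α := by linarith
    rw [div_le_iff₀ (by norm_num)]
    linarith
  have hR0 : (0 : ℝ) ≤ R := Nat.cast_nonneg R
  have hk0 : (0 : ℝ) ≤ kap := Nat.cast_nonneg kap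
  have hAm0 : (0 : ℝ) ≤ Am := Nat.cast_nonneg Am
  have hAp0 : (0 : ℝ) ≤ Ap := Nat.cast_nonneg Ap
  have key := psi_left (ρ := (R : ℝ) / 2 ^ 16) (α := α) (lam := ((lp : ℝ) - lm) / 2 ^ 16)
    (nu := ((np : ℝ) - nm) / 2 ^ 16) (kap := (kap : ℝ) / 2 ^ 16) (A := -((Am : ℝ) / 2 ^ 16))
    (e := (e : ℝ) / 2 ^ 16) (c := c) (xa := (X : ℝ) / 2048) (by positivity) hxα hα1
    (by positivity) (by positivity) hc (by
      have hl := h441_absdiv lp lm
      have hn := h441_absdiv np nm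
      have hn' : |((np : ℝ) - nm) / 2 ^ 16| * ((X : ℝ) / 2048) ≤
        ((np : ℝ) + nm) / 2 ^ 16 * ((X : ℝ) / 2048) := mul_le_mul_of_nonneg_right hn (by positivity)
      have hA' : |(-((Am : ℝ) / 2 ^ 16))| = (Am : ℝ) / 2 ^ 16 := by
        rw [abs_neg, abs_of_nonneg (by positivity)]
      rw [hA']
      have hAα : (Am : ℝ) * (2 ^ 40 * α) ≤ Am * (a + 1) :=
        mul_le_mul_of_nonneg_left (by linarith) hAm0
      have hPe : 2 * (F (2 * ((X : ℝ) / 2048)) - F (2 * α)) * (α - (X : ℝ) / 2048) =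
        2 * (F (2 * α) - F (2 * ((X : ℝ) / 2048))) * ((X : ℝ) / 2048 - α) := by ring
      rw [hPe]
      generalize 2 * (F (2 * α) - F (2 * ((X : ℝ) / 2048))) * ((X : ℝ) / 2048 - α) = P at hv ⊢
      generalize |((np : ℝ) - nm) / 2 ^ 16| * ((X : ℝ) / 2048) = Nn at hn' ⊢
      generalize |((lp : ℝ) - lm) / 2 ^ 16| = Ll at hl ⊢
      have e1 : 4 * ((R : ℝ) / 2 ^ 16) * ((X : ℝ) / 2048) ^ 2 = (R : ℝ) * (X * X) * 2 ^ 31 / 2 ^ 67 := by
        ring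
      have e2 : ((np : ℝ) + nm) / 2 ^ 16 * ((X : ℝ) / 2048) + (kap : ℝ) / 2 ^ 16 * ((X : ℝ) / 2048) =
        ((np : ℝ) + (nm + kap)) * X * 2 ^ 40 / 2 ^ 67 := by ring
      have e3 : ((lp : ℝ) + lm) / 2 ^ 16 = ((lp : ℝ) + lm) * 2 ^ 51 / 2 ^ 67 := by ring
      have e4 : 2 * ((Am : ℝ) / 2 ^ 16) * α = 4096 * (Am * (2 ^ 40 * α)) / 2 ^ 67 := by ring
      have e5 : (e : ℝ) / 2 ^ 16 = e * 2 ^ 51 / 2 ^ 67 := by ring
      rw [e1, e4, e5]
      have h46 : (2 : ℝ) ^ 46 ≤ 281474976710656 := by norm_num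
      have hP : ((H : ℝ) - 2 ^ 46) / 2 ^ 67 ≤ P := by
        rw [div_le_iff₀ (by positivity)]
        linarith
      have : (R : ℝ) * (X * X) * 2 ^ 31 / 2 ^ 67 + (((lp : ℝ) + lm) * 2 ^ 51 / 2 ^ 67) +
        (((np : ℝ) + (nm + kap)) * X * 2 ^ 40 / 2 ^ 67) + 4096 * (Am * (2 ^ 40 * α)) / 2 ^ 67 ≤
        ((H : ℝ) - 2 ^ 46) / 2 ^ 67 + e * 2 ^ 51 / 2 ^ 67 := by
        rw [← add_div, ← add_div, ← add_div, ← add_div]
        apply div_le_div_of_nonneg_right _ (by positivity)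
        linarith
      linarith) hx0 hx
  have hd : Psi ((R : ℝ) / 2 ^ 16) α (((lp : ℝ) - lm) / 2 ^ 16) (((np : ℝ) - nm) / 2 ^ 16)
        ((kap : ℝ) / 2 ^ 16) (((Ap : ℝ) - Am) / 2 ^ 16) ((e : ℝ) / 2 ^ 16) x c =
      Psi ((R : ℝ) / 2 ^ 16) α (((lp : ℝ) - lm) / 2 ^ 16) (((np : ℝ) - nm) / 2 ^ 16)
        ((kap : ℝ) / 2 ^ 16) (-((Am : ℝ) / 2 ^ 16)) ((e : ℝ) / 2 ^ 16) x c +
        2 * ((Ap : ℝ) / 2 ^ 16) * (α - x) := by
    unfold Psi
    ring
  rw [hd]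
  have : 0 ≤ 2 * ((Ap : ℝ) / 2 ^ 16) * (α - x) := mul_nonneg (by positivity) (by linarith)
  linarith

lemma h441_pi_hi : π ≤ 6434 / 2048 := by
  have := Real.pi_lt_d4
  norm_num at this ⊢
  linarith

lemma h441_pi_lo : (6433 : ℝ) / 2048 < π := by
  have := Real.pi_gt_d4
  norm_num at this ⊢
  linarith

lemma h441_right {t R lp lm np nm kap Ap Am e a fa : ℕ} (hE : Ent t) {α : ℝ} (hα0 : 0 < α)
    (hα1 : α < π) (ha : |2 ^ 40 * α - a| ≤ 1)
    (hfa : |2 ^ 40 * F (2 * α) - fa| ≤ 1024) (hfa' : fa ≤ 2 ^ 55)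
    (h : rightOk R np nm kap lp lm Ap e a (fX t)
      (Hv fa (ffp t) (ffm t) (ad (Nat.shiftLeft (fX t) 29) a)) = true)
    {x : ℝ} (hx0 : (fX t : ℝ) / 2048 ≤ x) (hx : x < π) {c : ℝ} (hc : |c| ≤ 1) :
    0 ≤ Psi ((R : ℝ) / 2 ^ 16) α (((lp : ℝ) - lm) / 2 ^ 16) (((np : ℝ) - nm) / 2 ^ 16)
        ((kap : ℝ) / 2 ^ 16) (((Ap : ℝ) - Am) / 2 ^ 16) ((e : ℝ) / 2 ^ 16) x c := by
  unfold rightOk at h
  rw [h441_rec, Bool.and_eq_true] at h
  have h23 := h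
  have h2' := Nat.le_of_ble_eq_true h23.1
  have h3' := Nat.le_of_ble_eq_true h23.2
  have hv := Hv_spec hE hα0 hα1 ha hfa hfa'
  have hX1n := hE.X1
  have hX2n := hE.X2
  generalize Hv fa (ffp t) (ffm t) (ad (Nat.shiftLeft (fX t) 29) a) = H at hv h3'
  generalize fX t = X at *
  simp only [Nat.add_eq, Nat.mul_eq, Nat.sub_eq, Nat.succ_eq_add_one, h441_shl] at h2' h3'
  obtain ⟨ha1, ha2⟩ := abs_le.mp ha
  have hpi := h441_pi_hi
  have haN : a ≤ 3454227447809 := by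
    have : (a : ℝ) ≤ 3454227447809 := by
      have : 2 ^ 40 * α ≤ 2 ^ 40 * (6434 / 2048) := by
        apply mul_le_mul_of_nonneg_left _ (by norm_num)
        linarith
      norm_num at this
      linarith
    exact_mod_cast this
  have hX1 : (1 : ℝ) ≤ X := by exact_mod_cast hX1n
  have hX2 : (X : ℝ) ≤ 6433 := by exact_mod_cast hX2n
  have h2r : (a : ℝ) + 1 ≤ X * 2 ^ 29 := by exact_mod_cast h2'
  have h3r : (25736 * (R : ℝ) + 2048 * ((np : ℝ) + (nm + kap))) * (6434 - X) * 2 ^ 29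
      + (((lp : ℝ) + lm) * 2 ^ 51 + (281474976710656 + 4096 * (Ap * (3454227447809 - a)))) ≤
      (H : ℝ) + e * 2 ^ 51 := by
    have h4 : (((25736 * R + 2048 * (np + (nm + kap))) * (6434 - X) * 2 ^ 29
      + ((lp + lm) * 2 ^ 51 + (281474976710656 + 4096 * (Ap * (3454227447809 - a)))) : ℕ) : ℝ) ≤
      ((H + e * 2 ^ 51 : ℕ) : ℝ) := Nat.cast_le.mpr h3'
    rw [Nat.cast_add, Nat.cast_mul, Nat.cast_mul, Nat.cast_sub (by omega : X ≤ 6434), Nat.cast_add _ (281474976710656 + 4096 * (Ap * (3454227447809 - a))),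
      Nat.cast_add 281474976710656, Nat.cast_mul 4096, Nat.cast_mul Ap, Nat.cast_sub haN] at h4
    push_cast at h4
    linarith
  have hxα : α ≤ (X : ℝ) / 2048 := by
    rw [le_div_iff₀ (by norm_num)]
    linarith
  have hR0 : (0 : ℝ) ≤ R := Nat.cast_nonneg R
  have hk0 : (0 : ℝ) ≤ kap := Nat.cast_nonneg kap
  have hnp0 : (0 : ℝ) ≤ np := Nat.cast_nonneg np
  have hnm0 : (0 : ℝ) ≤ nm := Nat.cast_nonneg nm
  have hAm0 : (0 : ℝ) ≤ Am := Nat.cast_nonneg Am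
  have hAp0 : (0 : ℝ) ≤ Ap := Nat.cast_nonneg Ap
  have hxπ : (X : ℝ) / 2048 < π := by
    have := h441_pi_lo
    linarith
  have key := psi_right (ρ := (R : ℝ) / 2 ^ 16) (α := α) (lam := ((lp : ℝ) - lm) / 2 ^ 16)
    (nu := ((np : ℝ) - nm) / 2 ^ 16) (kap := (kap : ℝ) / 2 ^ 16) (A := ((Ap : ℝ) / 2 ^ 16))
    (e := (e : ℝ) / 2 ^ 16) (c := c) (xb := (X : ℝ) / 2048) hα0 hxα hxπ
    (by positivity) (by positivity) hc (by
      have hl := h441_absdiv lp lm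
      have hn := h441_absdiv np nm
      have hA' : |((Ap : ℝ) / 2 ^ 16)| = (Ap : ℝ) / 2 ^ 16 := abs_of_nonneg (by positivity)
      rw [hA']
      have hAα : (Ap : ℝ) * (2 ^ 40 * (π - α)) ≤ Ap * (3454227447809 - a) := by
        apply mul_le_mul_of_nonneg_left _ hAp0
        have : 2 ^ 40 * π ≤ 2 ^ 40 * (6434 / 2048) :=
          mul_le_mul_of_nonneg_left hpi (by norm_num)
        norm_num at this ⊢
        linarith
      have hprod : (4 * ((R : ℝ) / 2 ^ 16) * π + |((np : ℝ) - nm) / 2 ^ 16| + (kap : ℝ) / 2 ^ 16) *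
          (π - (X : ℝ) / 2048) ≤
          (25736 * (R : ℝ) + 2048 * ((np : ℝ) + (nm + kap))) * (6434 - X) * 2 ^ 29 / 2 ^ 67 := by
        have s1 : 4 * ((R : ℝ) / 2 ^ 16) * π ≤ 4 * ((R : ℝ) / 2 ^ 16) * (6434 / 2048) :=
          mul_le_mul_of_nonneg_left hpi (by positivity)
        have s2 : 4 * ((R : ℝ) / 2 ^ 16) * π + |((np : ℝ) - nm) / 2 ^ 16| + (kap : ℝ) / 2 ^ 16 ≤
            (25736 * (R : ℝ) + 2048 * ((np : ℝ) + (nm + kap))) / 2 ^ 27 := by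
          have : (25736 * (R : ℝ) + 2048 * ((np : ℝ) + (nm + kap))) / 2 ^ 27 =
            4 * ((R : ℝ) / 2 ^ 16) * (6434 / 2048) + ((np : ℝ) + nm) / 2 ^ 16 + (kap : ℝ) / 2 ^ 16 := by
            ring
          rw [this]
          linarith
        have s3 : π - (X : ℝ) / 2048 ≤ (6434 - X) / 2048 := by linarith
        calc (4 * ((R : ℝ) / 2 ^ 16) * π + |((np : ℝ) - nm) / 2 ^ 16| + (kap : ℝ) / 2 ^ 16) *
              (π - (X : ℝ) / 2048)
            ≤ ((25736 * (R : ℝ) + 2048 * ((np : ℝ) + (nm + kap))) / 2 ^ 27) * ((6434 - X) / 2048) := by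
              apply mul_le_mul s2 s3 (by linarith) (by positivity)
          _ = _ := by ring
      generalize (4 * ((R : ℝ) / 2 ^ 16) * π + |((np : ℝ) - nm) / 2 ^ 16| + (kap : ℝ) / 2 ^ 16) *
          (π - (X : ℝ) / 2048) = Q at hprod ⊢
      generalize 2 * (F (2 * α) - F (2 * ((X : ℝ) / 2048))) * ((X : ℝ) / 2048 - α) = P at hv ⊢
      generalize |((lp : ℝ) - lm) / 2 ^ 16| = Ll at hl ⊢
      have e3 : ((lp : ℝ) + lm) / 2 ^ 16 = ((lp : ℝ) + lm) * 2 ^ 51 / 2 ^ 67 := by ring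
      have e4 : 2 * ((Ap : ℝ) / 2 ^ 16) * (π - α) = 4096 * (Ap * (2 ^ 40 * (π - α))) / 2 ^ 67 := by
        ring
      have e5 : (e : ℝ) / 2 ^ 16 = e * 2 ^ 51 / 2 ^ 67 := by ring
      rw [e4, e5]
      have h46 : (2 : ℝ) ^ 46 ≤ 281474976710656 := by norm_num
      have hP : ((H : ℝ) - 2 ^ 46) / 2 ^ 67 ≤ P := by
        rw [div_le_iff₀ (by positivity)]
        linarith
      have : (25736 * (R : ℝ) + 2048 * ((np : ℝ) + (nm + kap))) * (6434 - X) * 2 ^ 29 / 2 ^ 67 +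
        (((lp : ℝ) + lm) * 2 ^ 51 / 2 ^ 67) + 4096 * (Ap * (2 ^ 40 * (π - α))) / 2 ^ 67 ≤
        ((H : ℝ) - 2 ^ 46) / 2 ^ 67 + e * 2 ^ 51 / 2 ^ 67 := by
        rw [← add_div, ← add_div, ← add_div]
        apply div_le_div_of_nonneg_right _ (by positivity)
        linarith
      linarith) hx0 hx
  have hd : Psi ((R : ℝ) / 2 ^ 16) α (((lp : ℝ) - lm) / 2 ^ 16) (((np : ℝ) - nm) / 2 ^ 16)
        ((kap : ℝ) / 2 ^ 16) (((Ap : ℝ) - Am) / 2 ^ 16) ((e : ℝ) / 2 ^ 16) x c =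
      Psi ((R : ℝ) / 2 ^ 16) α (((lp : ℝ) - lm) / 2 ^ 16) (((np : ℝ) - nm) / 2 ^ 16)
        ((kap : ℝ) / 2 ^ 16) (((Ap : ℝ) / 2 ^ 16)) ((e : ℝ) / 2 ^ 16) x c +
        2 * ((Am : ℝ) / 2 ^ 16) * (x - α) := by
    unfold Psi
    ring
  rw [hd]
  have : 0 ≤ 2 * ((Am : ℝ) / 2 ^ 16) * (x - α) := mul_nonneg (by positivity) (by linarith)
  linarith

lemma h441_sin_pos {t : ℕ} (hE : Ent t) : 0 < sin ((fX t : ℝ) / 2048) := by
  have h1 : (1 : ℝ) ≤ fX t := by exact_mod_cast hE.X1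
  have h2 : (fX t : ℝ) ≤ 6433 := by exact_mod_cast hE.X2
  apply sin_pos_of_pos_of_lt_pi
  · positivity
  · have := h441_pi_lo
    linarith

lemma h441_dist {X a : ℕ} {α : ℝ} (ha : |2 ^ 40 * α - a| ≤ 1) :
    |(X : ℝ) / 2048 - α| ≤ ((ad (Nat.shiftLeft X 29) a : ℕ) + 1 : ℝ) / 2 ^ 40 := by
  rw [h441_ad, h441_shl, le_div_iff₀ (by positivity)]
  have hcast : (((X * 2 ^ 29 : ℕ)) : ℝ) = (X : ℝ) * 2 ^ 29 := by
    rw [Nat.cast_mul, Nat.cast_pow]
    norm_num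
  rw [hcast]
  have e1 : |(X : ℝ) / 2048 - α| * 2 ^ 40 = |((X : ℝ) * 2 ^ 29 - a) - (2 ^ 40 * α - a)| := by
    rw [← abs_of_pos (show (0 : ℝ) < 2 ^ 40 by norm_num), ← abs_mul,
      abs_of_pos (show (0 : ℝ) < 2 ^ 40 by norm_num)]
    congr 1
    ring
  rw [e1]
  have := abs_sub ((X : ℝ) * 2 ^ 29 - a) (2 ^ 40 * α - a)
  linarith

lemma h441_cell {t t' R lp lm np nm kap Ap Am e a fa : ℕ} (hE : Ent t) (hE' : Ent t')
    (hR : R ≤ 65536)
    (hlp : lp < 2 ^ 32) (hlm : lm < 2 ^ 32) (hnp : np < 2 ^ 32) (hnm : nm < 2 ^ 32)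
    (hkap : kap < 2 ^ 32) (hAp : Ap < 2 ^ 32) (hAm : Am < 2 ^ 32) {α : ℝ} (hα0 : 0 < α)
    (hα1 : α < π) (ha : |2 ^ 40 * α - a| ≤ 1)
    (hfa : |2 ^ 40 * F (2 * α) - fa| ≤ 1024) (hfa' : fa ≤ 2 ^ 55)
    (h : cellOk (Nat.add (Nat.mul 21 R) (Nat.add (Nat.add np nm) (Nat.add (Nat.add lp lm)
        (Nat.mul 2 kap)))) (fX t) (fG3 t) (fG4 t) (ad (Nat.shiftLeft (fX t) 29) a)
      (ptv R lp lm np nm kap Ap Am e a (fX t) (fs t) (fcp t) (fcm t)
        (Hv fa (ffp t) (ffm t) (ad (Nat.shiftLeft (fX t) 29) a)))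
      (fX t') (fG3 t') (fG4 t') (ad (Nat.shiftLeft (fX t') 29) a)
      (ptv R lp lm np nm kap Ap Am e a (fX t') (fs t') (fcp t') (fcm t')
        (Hv fa (ffp t') (ffm t') (ad (Nat.shiftLeft (fX t') 29) a))) = true)
    {x : ℝ} (hx0 : (fX t : ℝ) / 2048 ≤ x) (hx : x ≤ (fX t' : ℝ) / 2048) {c : ℝ} (hc : |c| ≤ 1) :
    0 ≤ Psi ((R : ℝ) / 2 ^ 16) α (((lp : ℝ) - lm) / 2 ^ 16) (((np : ℝ) - nm) / 2 ^ 16)
        ((kap : ℝ) / 2 ^ 16) (((Ap : ℝ) - Am) / 2 ^ 16) ((e : ℝ) / 2 ^ 16) x c := by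
  obtain ⟨h1, h2⟩ := h441_and h
  have h1' := Nat.le_of_ble_eq_true h1
  have h2' := Nat.le_of_ble_eq_true h2
  have hp := ptv_spec (e := e) hE hR hlp hlm hnp hnm hkap hAp hAm hα0 hα1 ha hfa hfa' (c := c)
  have hp' := ptv_spec (e := e) hE' hR hlp hlm hnp hnm hkap hAp hAm hα0 hα1 ha hfa hfa' (c := c)
  have hs := h441_sin_pos hE
  have hs' := h441_sin_pos hE'
  have hG3 := hE.G3
  have hG4 := hE.G4
  have hG3' := hE'.G3
  have hG4' := hE'.G4
  have hX1 := hE.X1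
  have hX2 := hE'.X2
  have hd := h441_dist (X := fX t) ha
  have hd' := h441_dist (X := fX t') ha
  generalize ptv R lp lm np nm kap Ap Am e a (fX t) (fs t) (fcp t) (fcm t)
        (Hv fa (ffp t) (ffm t) (ad (Nat.shiftLeft (fX t) 29) a)) = m at h2' hp
  generalize ptv R lp lm np nm kap Ap Am e a (fX t') (fs t') (fcp t') (fcm t')
        (Hv fa (ffp t') (ffm t') (ad (Nat.shiftLeft (fX t') 29) a)) = m' at h2' hp'
  generalize ad (Nat.shiftLeft (fX t) 29) a = u at h2' hd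
  generalize ad (Nat.shiftLeft (fX t') 29) a = u' at h2' hd'
  generalize fX t = X at *
  generalize fX t' = X' at *
  generalize fG3 t = g3 at *
  generalize fG4 t = g4 at *
  generalize fG3 t' = g3' at *
  generalize fG4 t' = g4' at *
  have hXX : X + 1 ≤ X' := h1'
  simp only [Nat.add_eq, Nat.mul_eq, Nat.sub_eq, Nat.succ_eq_add_one, h441_shl] at h2'
  have hg3a := h441_mx_left g3 g3'
  have hg3b := h441_mx_right g3 g3'
  have hg4a := h441_mx_left g4 g4'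
  have hg4b := h441_mx_right g4 g4'
  have hua := h441_mx_left u u'
  have hub := h441_mx_right u u'
  have hma := h441_mn_left m m'
  have hmb := h441_mn_right m m'
  generalize mxN g3 g3' = M3 at *
  generalize mxN g4 g4' = M4 at *
  generalize mxN u u' = U at *
  generalize mnN m m' = μ at *
  have hg3pos : 0 < g3 := by
    rcases Nat.eq_zero_or_pos g3 with h0 | h0
    · exfalso
      rw [h0] at hG3
      norm_num at hG3
    · exact h0
  obtain ⟨W, hW⟩ : ∃ W, W = X' - X := ⟨_, rfl⟩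
  have hW1 : 1 ≤ W := by omega
  have hXW : (X' : ℝ) = X + W := by
    have : X' = X + W := by omega
    rw [this]
    push_cast
    ring
  rw [← hW] at h2'
  have hμ : 0 < μ := by
    rcases Nat.eq_zero_or_pos μ with h0 | h0
    · exfalso
      rw [h0, Nat.zero_mul] at h2'
      have h5 := Nat.le_zero.mp h2'
      rcases Nat.mul_eq_zero.mp h5 with h6 | h6
      · have h7 := (Nat.add_eq_zero_iff.mp h6).1
        rcases Nat.mul_eq_zero.mp h7 with h8 | h8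
        · omega
        · exact absurd h8 (by norm_num)
      · rcases Nat.mul_eq_zero.mp h6 with h8 | h8 <;> omega
    · exact h0
  have hm := hp (by omega) hc
  have hm' := hp' (by omega) hc
  have hR0 : (0 : ℝ) ≤ R := Nat.cast_nonneg R
  have hR1 : (R : ℝ) ≤ 65536 := by exact_mod_cast hR
  have hk0 : (0 : ℝ) ≤ kap := Nat.cast_nonneg kap
  have hX1r : (1 : ℝ) ≤ X := by exact_mod_cast hX1
  have hX2r : (X' : ℝ) ≤ 6433 := by exact_mod_cast hX2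
  have hXXr : (X : ℝ) + 1 ≤ X' := by exact_mod_cast hXX
  have h2r : ((M3 : ℝ) * 2 ^ 40 + ((M4 : ℝ) * (U + 1) +
        (21 * R + (np + nm + (lp + lm + 2 * kap))) * 2 ^ 44)) * (W * W) ≤ (μ : ℝ) * 2 ^ 18 := by
    exact_mod_cast h2'
  have hl := h441_absdiv lp lm
  have hn := h441_absdiv np nm
  have hMh : ((M3 : ℝ) / 2 ^ 20 + (M4 : ℝ) / 2 ^ 20 * (((U : ℝ) + 1) / 2 ^ 40) +
      21 * ((R : ℝ) / 2 ^ 16) + |((np : ℝ) - nm) / 2 ^ 16| + |((lp : ℝ) - lm) / 2 ^ 16| +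
      2 * ((kap : ℝ) / 2 ^ 16)) * ((X' : ℝ) / 2048 - (X : ℝ) / 2048) ^ 2 / 8 ≤ (μ : ℝ) / 2 ^ 67 := by
    have s1 : ((M3 : ℝ) / 2 ^ 20 + (M4 : ℝ) / 2 ^ 20 * (((U : ℝ) + 1) / 2 ^ 40) +
      21 * ((R : ℝ) / 2 ^ 16) + |((np : ℝ) - nm) / 2 ^ 16| + |((lp : ℝ) - lm) / 2 ^ 16| +
      2 * ((kap : ℝ) / 2 ^ 16)) ≤ ((M3 : ℝ) * 2 ^ 40 + ((M4 : ℝ) * (U + 1) +
        (21 * R + (np + nm + (lp + lm + 2 * kap))) * 2 ^ 44)) / 2 ^ 60 := by
      have : ((M3 : ℝ) * 2 ^ 40 + ((M4 : ℝ) * (U + 1) +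
        (21 * R + (np + nm + (lp + lm + 2 * kap))) * 2 ^ 44)) / 2 ^ 60 =
        (M3 : ℝ) / 2 ^ 20 + (M4 : ℝ) / 2 ^ 20 * (((U : ℝ) + 1) / 2 ^ 40) +
      21 * ((R : ℝ) / 2 ^ 16) + ((np : ℝ) + nm) / 2 ^ 16 + ((lp : ℝ) + lm) / 2 ^ 16 +
      2 * ((kap : ℝ) / 2 ^ 16) := by ring
      rw [this]
      linarith
    have s2 : ((X' : ℝ) / 2048 - (X : ℝ) / 2048) = (W : ℝ) / 2048 := by
      rw [hXW]
      ring
    rw [s2]
    calc ((M3 : ℝ) / 2 ^ 20 + (M4 : ℝ) / 2 ^ 20 * (((U : ℝ) + 1) / 2 ^ 40) +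
      21 * ((R : ℝ) / 2 ^ 16) + |((np : ℝ) - nm) / 2 ^ 16| + |((lp : ℝ) - lm) / 2 ^ 16| +
      2 * ((kap : ℝ) / 2 ^ 16)) * ((W : ℝ) / 2048) ^ 2 / 8
        ≤ (((M3 : ℝ) * 2 ^ 40 + ((M4 : ℝ) * (U + 1) +
        (21 * R + (np + nm + (lp + lm + 2 * kap))) * 2 ^ 44)) / 2 ^ 60) * ((W : ℝ) / 2048) ^ 2 / 8 := by
          apply div_le_div_of_nonneg_right _ (by norm_num)
          exact mul_le_mul_of_nonneg_right s1 (by positivity)
      _ = (((M3 : ℝ) * 2 ^ 40 + ((M4 : ℝ) * (U + 1) +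
        (21 * R + (np + nm + (lp + lm + 2 * kap))) * 2 ^ 44)) * (W * W)) / 2 ^ 85 := by ring
      _ ≤ ((μ : ℝ) * 2 ^ 18) / 2 ^ 85 := div_le_div_of_nonneg_right h2r (by positivity)
      _ = (μ : ℝ) / 2 ^ 67 := by ring
  have hμm : (μ : ℝ) / 2 ^ 67 ≤ (m : ℝ) / 2 ^ 67 :=
    div_le_div_of_nonneg_right (by exact_mod_cast hma) (by positivity)
  have hμm' : (μ : ℝ) / 2 ^ 67 ≤ (m' : ℝ) / 2 ^ 67 :=
    div_le_div_of_nonneg_right (by exact_mod_cast hmb) (by positivity)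
  have c3a : (g3 : ℝ) ≤ M3 := by exact_mod_cast hg3a
  have c3b : (g3' : ℝ) ≤ M3 := by exact_mod_cast hg3b
  have c4a : (g4 : ℝ) ≤ M4 := by exact_mod_cast hg4a
  have c4b : (g4' : ℝ) ≤ M4 := by exact_mod_cast hg4b
  have cua : (u : ℝ) ≤ U := by exact_mod_cast hua
  have cub : (u' : ℝ) ≤ U := by exact_mod_cast hub
  refine psi_cell (x0 := (X : ℝ) / 2048) (x1 := (X' : ℝ) / 2048) (dm := ((U : ℝ) + 1) / 2 ^ 40)
    (G3 := (M3 : ℝ) / 2 ^ 20) (G4 := (M4 : ℝ) / 2 ^ 20) (by positivity) ?_ ?_ (by positivity) ?_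
    (by positivity) hc ?_ ?_ ?_ ?_ ?_ ?_ (hMh.trans (hμm.trans hm)) (hMh.trans (hμm'.trans hm'))
    ⟨hx0, hx⟩
  · linarith
  · have := h441_pi_lo
    linarith
  · rw [div_le_one (by norm_num)]
    norm_num
    exact_mod_cast hR
  · have : (g3 : ℝ) * sin ((X : ℝ) / 2048) ^ 3 ≤ M3 * sin ((X : ℝ) / 2048) ^ 3 :=
      mul_le_mul_of_nonneg_right c3a (by positivity)
    rw [div_mul_eq_mul_div, le_div_iff₀ (by positivity)]
    linarith
  · have : (g3' : ℝ) * sin ((X' : ℝ) / 2048) ^ 3 ≤ M3 * sin ((X' : ℝ) / 2048) ^ 3 :=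
      mul_le_mul_of_nonneg_right c3b (by positivity)
    rw [div_mul_eq_mul_div, le_div_iff₀ (by positivity)]
    linarith
  · have : (g4 : ℝ) * sin ((X : ℝ) / 2048) ^ 4 ≤ M4 * sin ((X : ℝ) / 2048) ^ 4 :=
      mul_le_mul_of_nonneg_right c4a (by positivity)
    rw [div_mul_eq_mul_div, le_div_iff₀ (by positivity)]
    linarith
  · have : (g4' : ℝ) * sin ((X' : ℝ) / 2048) ^ 4 ≤ M4 * sin ((X' : ℝ) / 2048) ^ 4 :=
      mul_le_mul_of_nonneg_right c4b (by positivity)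
    rw [div_mul_eq_mul_div, le_div_iff₀ (by positivity)]
    linarith
  · refine hd.trans ?_
    apply div_le_div_of_nonneg_right _ (by positivity)
    linarith
  · refine hd'.trans ?_
    apply div_le_div_of_nonneg_right _ (by positivity)
    linarith

lemma h441_loop {T : ℕ} (hT : ∀ g, 0 < fX (ent T g) → Ent (ent T g))
    {R lp lm np nm kap Ap Am e a fa : ℕ} (hR : R ≤ 65536)
    (hlp : lp < 2 ^ 32) (hlm : lm < 2 ^ 32) (hnp : np < 2 ^ 32) (hnm : nm < 2 ^ 32)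
    (hkap : kap < 2 ^ 32) (hAp : Ap < 2 ^ 32) (hAm : Am < 2 ^ 32) {α : ℝ} (hα0 : 0 < α)
    (hα1 : α < π) (ha : |2 ^ 40 * α - a| ≤ 1)
    (hfa : |2 ^ 40 * F (2 * α) - fa| ≤ 1024) (hfa' : fa ≤ 2 ^ 55) (fuel : ℕ) :
    ∀ (rest g t : ℕ), Ent t →
      (∀ x : ℝ, 0 < x → x ≤ (fX t : ℝ) / 2048 → ∀ c : ℝ, |c| ≤ 1 →
        0 ≤ Psi ((R : ℝ) / 2 ^ 16) α (((lp : ℝ) - lm) / 2 ^ 16) (((np : ℝ) - nm) / 2 ^ 16)
        ((kap : ℝ) / 2 ^ 16) (((Ap : ℝ) - Am) / 2 ^ 16) ((e : ℝ) / 2 ^ 16) x c) →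
      loop T R e lp lm np nm kap Ap Am a fa
        (Nat.add (Nat.mul 21 R) (Nat.add (Nat.add np nm) (Nat.add (Nat.add lp lm) (Nat.mul 2 kap))))
        fuel rest g (fX t) (fG3 t) (fG4 t) (ad (Nat.shiftLeft (fX t) 29) a)
        (ptv R lp lm np nm kap Ap Am e a (fX t) (fs t) (fcp t) (fcm t)
          (Hv fa (ffp t) (ffm t) (ad (Nat.shiftLeft (fX t) 29) a)))
        (Hv fa (ffp t) (ffm t) (ad (Nat.shiftLeft (fX t) 29) a)) = true →
      ∀ x : ℝ, 0 < x → x < π → ∀ c : ℝ, |c| ≤ 1 →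
        0 ≤ Psi ((R : ℝ) / 2 ^ 16) α (((lp : ℝ) - lm) / 2 ^ 16) (((np : ℝ) - nm) / 2 ^ 16)
        ((kap : ℝ) / 2 ^ 16) (((Ap : ℝ) - Am) / 2 ^ 16) ((e : ℝ) / 2 ^ 16) x c := by
  induction fuel with
  | zero =>
    intro rest g t hE hl h
    exact absurd h (by simp [loop])
  | succ fuel ih =>
    intro rest g t hE hl h x hx0 hx1 c hc
    change @Bool.rec (fun _ => Bool)
      (@Bool.rec (fun _ => Bool) false
        (loop T R e lp lm np nm kap Ap Am a fa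
          (Nat.add (Nat.mul 21 R) (Nat.add (Nat.add np nm) (Nat.add (Nat.add lp lm)
            (Nat.mul 2 kap)))) fuel (Nat.shiftRight rest 7) (Nat.add g (Nat.land rest 127))
          (fX (ent T (Nat.add g (Nat.land rest 127)))) (fG3 (ent T (Nat.add g (Nat.land rest 127))))
          (fG4 (ent T (Nat.add g (Nat.land rest 127))))
          (ad (Nat.shiftLeft (fX (ent T (Nat.add g (Nat.land rest 127)))) 29) a)
          (ptv R lp lm np nm kap Ap Am e a (fX (ent T (Nat.add g (Nat.land rest 127))))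
            (fs (ent T (Nat.add g (Nat.land rest 127)))) (fcp (ent T (Nat.add g (Nat.land rest 127))))
            (fcm (ent T (Nat.add g (Nat.land rest 127))))
            (Hv fa (ffp (ent T (Nat.add g (Nat.land rest 127))))
              (ffm (ent T (Nat.add g (Nat.land rest 127))))
              (ad (Nat.shiftLeft (fX (ent T (Nat.add g (Nat.land rest 127)))) 29) a)))
          (Hv fa (ffp (ent T (Nat.add g (Nat.land rest 127))))
              (ffm (ent T (Nat.add g (Nat.land rest 127))))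
              (ad (Nat.shiftLeft (fX (ent T (Nat.add g (Nat.land rest 127)))) 29) a)))
        (cellOk (Nat.add (Nat.mul 21 R) (Nat.add (Nat.add np nm) (Nat.add (Nat.add lp lm)
            (Nat.mul 2 kap)))) (fX t) (fG3 t) (fG4 t) (ad (Nat.shiftLeft (fX t) 29) a)
          (ptv R lp lm np nm kap Ap Am e a (fX t) (fs t) (fcp t) (fcm t)
            (Hv fa (ffp t) (ffm t) (ad (Nat.shiftLeft (fX t) 29) a)))
          (fX (ent T (Nat.add g (Nat.land rest 127)))) (fG3 (ent T (Nat.add g (Nat.land rest 127))))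
          (fG4 (ent T (Nat.add g (Nat.land rest 127))))
          (ad (Nat.shiftLeft (fX (ent T (Nat.add g (Nat.land rest 127)))) 29) a)
          (ptv R lp lm np nm kap Ap Am e a (fX (ent T (Nat.add g (Nat.land rest 127))))
            (fs (ent T (Nat.add g (Nat.land rest 127)))) (fcp (ent T (Nat.add g (Nat.land rest 127))))
            (fcm (ent T (Nat.add g (Nat.land rest 127))))
            (Hv fa (ffp (ent T (Nat.add g (Nat.land rest 127))))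
              (ffm (ent T (Nat.add g (Nat.land rest 127))))
              (ad (Nat.shiftLeft (fX (ent T (Nat.add g (Nat.land rest 127)))) 29) a)))))
      (rightOk R np nm kap lp lm Ap e a (fX t)
        (Hv fa (ffp t) (ffm t) (ad (Nat.shiftLeft (fX t) 29) a)))
      (Nat.beq (Nat.land rest 127) 0) = true at h
    cases hb : Nat.beq (Nat.land rest 127) 0 with
    | true =>
      rw [hb] at h
      rcases le_total x ((fX t : ℝ) / 2048) with hx | hx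
      · exact hl x hx0 hx c hc
      · exact h441_right hE hα0 hα1 ha hfa hfa' h hx hx1 hc
    | false =>
      rw [hb] at h
      obtain ⟨h1, h2⟩ := h441_and h
      have hE2 : Ent (ent T (Nat.add g (Nat.land rest 127))) := by
        apply hT
        have h3 := h1
        unfold cellOk at h3
        have h4 := Nat.le_of_ble_eq_true (h441_and h3).1
        exact lt_of_lt_of_le (Nat.succ_pos _) h4
      refine ih _ _ _ hE2 ?_ h2 x hx0 hx1 c hc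
      intro y hy0 hy1 d hd
      rcases le_total y ((fX t : ℝ) / 2048) with hy | hy
      · exact hl y hy0 hy d hd
      · exact h441_cell hE hE2 hR hlp hlm hnp hnm hkap hAp hAm hα0 hα1 ha hfa hfa' h1 hy hy1 hd

/-- TARGET -/
theorem certOk_sound {T : ℕ} (hT : ∀ g, 0 < fX (ent T g) → Ent (ent T g)) {R a fa c : ℕ} (hR : R ≤ 65536)
    {α : ℝ} (hα0 : 0 < α) (hα1 : α < π) (ha : |2 ^ 40 * α - a| ≤ 1)
    (hfa : |2 ^ 40 * F (2 * α) - fa| ≤ 1024) (hfa' : fa ≤ 2 ^ 55)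
    (h : certOk T R a fa c = true) :
    ∀ x : ℝ, 0 < x → x < π → ∀ cc : ℝ, |cc| ≤ 1 →
      0 ≤ Psi ((R : ℝ) / 2 ^ 16) α (((clp c : ℝ) - clm c) / 2 ^ 16) (((cnp c : ℝ) - cnm c) / 2 ^ 16)
        ((ckap c : ℝ) / 2 ^ 16) (((cAp c : ℝ) - cAm c) / 2 ^ 16) ((ce c : ℝ) / 2 ^ 16) x cc := by
  have hm : ∀ y : ℕ, Nat.land y M32 < 2 ^ 32 := fun y =>
    Nat.and_lt_two_pow y (by norm_num [M32])
  have hlp : clp c < 2 ^ 32 := hm _
  have hlm : clm c < 2 ^ 32 := hm _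
  have hnp : cnp c < 2 ^ 32 := hm _
  have hnm : cnm c < 2 ^ 32 := hm _
  have hkap : ckap c < 2 ^ 32 := hm _
  have hAp : cAp c < 2 ^ 32 := hm _
  have hAm : cAm c < 2 ^ 32 := hm _
  unfold certOk at h
  generalize ce c = e at *
  generalize clp c = lp at *
  generalize clm c = lm at *
  generalize cnp c = np at *
  generalize cnm c = nm at *
  generalize ckap c = kap at *
  generalize cAp c = Ap at *
  generalize cAm c = Am at *
  generalize Nat.shiftRight c 256 = rest at h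
  unfold certOk' at h
  have hT0 := hT (Nat.land rest 1023)
  generalize ent T (Nat.land rest 1023) = t at *
  generalize Nat.land rest 1023 = g at *
  beta_reduce at h
  rw [h441_rec, Bool.and_eq_true] at h
  obtain ⟨h1, h2⟩ := h
  have hX : 0 < fX t := by
    have h3 := h1
    unfold leftOk at h3
    rw [h441_rec, Bool.and_eq_true] at h3
    exact Nat.le_of_ble_eq_true h3.1
  have hE := hT0 hX
  intro x hx0 hx1 cc hcc
  exact h441_loop hT hR hlp hlm hnp hnm hkap hAp hAm hα0 hα1 ha hfa hfa' 700 _ _ _ hE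
    (fun y hy0 hy1 d hd => h441_left hE hα0 hα1 ha hfa hfa' h1 hy0 hy1 hd) h2 x hx0 hx1 cc hcc


end Pool.Agent.H443CC
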