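import Pool.Agent.H443CC.TayDefs

/-!
# Duality certificates: kernel computable checker
-/

namespace Pool.Agent.H443CC

/-- 64-bit mask -/
def M64 : Nat := 18446744073709551615

/-- 32-bit mask -/
def M32 : Nat := 4294967295

/-- absolute difference -/
def ad (x y : Nat) : Nat := Nat.add (Nat.sub x y) (Nat.sub y x)

/-- lower bound (scale `2^67`) for `min_c Psi`, from the pieces -/
noncomputable def ptm (tot neg P K cm : Nat) : Nat :=
  (@Bool.rec (fun _ => Nat) (Nat.sub tot (Nat.add neg (Nat.add P K))) (@Bool.rec (fun _ => Nat) (Nat.sub tot (Nat.add neg (Nat.add K (Nat.succ (Nat.div (Nat.mul P P) (Nat.mul 8 K)))))) (Nat.sub (Nat.add tot K) (Nat.add neg P)) (Nat.ble (Nat.mul 4 K) P)) (Nat.beq cm 0))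

/-- `|P|` at scale `2^67` -/
def Pv (R lp lm np nm X s cp cm : Nat) : Nat :=
  ad (Nat.add (Nat.mul (Nat.add (Nat.mul 4 (Nat.mul R X)) (Nat.mul 2048 np)) s)
        (Nat.mul 2048 (Nat.add (Nat.mul lp cm) (Nat.mul lm cp))))
     (Nat.mul 2048 (Nat.add (Nat.mul nm s) (Nat.add (Nat.mul lp cp) (Nat.mul lm cm))))

/-- `2 |F(2α) - F(2x)| |x - α|` at scale `2^67` (rounded down) -/
def Hv (fa fp fm u : Nat) : Nat := Nat.shiftRight (Nat.mul (ad (Nat.add fa fm) fp) u) 12

/-- lower bound for `min_c Psi` at a grid point, scale `2^67`, truncated at `0` -/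
noncomputable def ptv (R lp lm np nm kap Ap Am e a X s cp cm H : Nat) : Nat :=
  ptm (Nat.add H (Nat.add (Nat.mul e 2251799813685248) (Nat.mul 4096 (Nat.add (Nat.mul Ap a) (Nat.mul Am (Nat.shiftLeft X 29))))))
    (Nat.add 281474976710656 (Nat.mul 4096 (Nat.add (Nat.mul Ap (Nat.shiftLeft X 29)) (Nat.mul Am a))))
    (Pv R lp lm np nm X s cp cm)
    (Nat.shiftRight (Nat.mul kap (Nat.mul s (Nat.add cp cm))) 29)
    cm

noncomputable def mxN (x y : Nat) : Nat := (@Bool.rec (fun _ => Nat) x y (Nat.ble x y))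
noncomputable def mnN (x y : Nat) : Nat := (@Bool.rec (fun _ => Nat) y x (Nat.ble x y))

/-- cell condition -/
noncomputable def cellOk (Rc X G3 G4 u m X' G3' G4' u' m' : Nat) : Bool :=
  (@Bool.rec (fun _ => Bool) false (Nat.ble (Nat.mul (Nat.add (Nat.shiftLeft (mxN G3 G3') 40) (Nat.add (Nat.mul (mxN G4 G4') (Nat.succ (mxN u u'))) (Nat.shiftLeft Rc 44)))
      (Nat.mul (Nat.sub X' X) (Nat.sub X' X)))
    (Nat.shiftLeft (mnN m m') 18)) (Nat.ble (Nat.succ X) X'))

/-- right zone condition -/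
noncomputable def rightOk (R np nm kap lp lm Ap e a X H : Nat) : Bool :=
  (@Bool.rec (fun _ => Bool) false (Nat.ble (Nat.add (Nat.shiftLeft (Nat.mul (Nat.add (Nat.mul 25736 R) (Nat.mul 2048 (Nat.add np (Nat.add nm kap)))) (Nat.sub 6434 X)) 29)
      (Nat.add (Nat.shiftLeft (Nat.add lp lm) 51) (Nat.add 281474976710656 (Nat.mul 4096 (Nat.mul Ap (Nat.sub 3454227447809 a))))))
    (Nat.add H (Nat.shiftLeft e 51))) (Nat.ble (Nat.succ a) (Nat.shiftLeft X 29)))

/-- left zone condition -/
noncomputable def leftOk (R np nm kap lp lm Am e a X H : Nat) : Bool :=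
  (@Bool.rec (fun _ => Bool) false (@Bool.rec (fun _ => Bool) false (Nat.ble (Nat.add (Nat.shiftLeft (Nat.mul R (Nat.mul X X)) 31)
      (Nat.add (Nat.shiftLeft (Nat.mul (Nat.add np (Nat.add nm kap)) X) 40)
      (Nat.add (Nat.shiftLeft (Nat.add lp lm) 51) (Nat.add 281474976710656 (Nat.mul 4096 (Nat.mul Am (Nat.succ a)))))))
    (Nat.add H (Nat.shiftLeft e 51))) (Nat.ble (Nat.succ (Nat.shiftLeft X 29)) a)) (Nat.ble 1 X))

def fX (t : Nat) : Nat := Nat.land t M64
def fs (t : Nat) : Nat := Nat.land (Nat.shiftRight t 64) M64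
def fcp (t : Nat) : Nat := Nat.land (Nat.shiftRight t 128) M64
def fcm (t : Nat) : Nat := Nat.land (Nat.shiftRight t 192) M64
def ffp (t : Nat) : Nat := Nat.land (Nat.shiftRight t 256) M64
def ffm (t : Nat) : Nat := Nat.land (Nat.shiftRight t 320) M64
def fG3 (t : Nat) : Nat := Nat.land (Nat.shiftRight t 384) M64
def fG4 (t : Nat) : Nat := Nat.land (Nat.shiftRight t 448) M64

/-- entry `g` of the table -/
def ent (T g : Nat) : Nat := Nat.land (Nat.shiftRight T (Nat.mul 512 g)) 13407807929942597099574024998205846127479365820592393377723561443721764030073546976801874298166903427690031858186486050853753882811946569946433649006084095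

/-- the loop over the cells -/
noncomputable def loop (T R e lp lm np nm kap Ap Am a fa Rc : Nat) (fuel : Nat) :
    Nat → Nat → Nat → Nat → Nat → Nat → Nat → Nat → Bool :=
  @Nat.rec (fun _ => Nat → Nat → Nat → Nat → Nat → Nat → Nat → Nat → Bool)
    (fun _ _ _ _ _ _ _ _ => false)
    (fun _ ih rest g X G3 G4 u m H =>
      (@Bool.rec (fun _ => Bool) ((fun g' => (fun t => (fun X' s cp cm G3' G4' => (fun u' =>
          (fun H' => (fun m' =>
            (@Bool.rec (fun _ => Bool) false (ih (Nat.shiftRight rest 7) g' X' G3' G4' u' m' H') (cellOk Rc X G3 G4 u m X' G3' G4' u' m')))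
            (ptv R lp lm np nm kap Ap Am e a X' s cp cm H'))
            (Hv fa (ffp t) (ffm t) u'))
            (ad (Nat.shiftLeft X' 29) a))
            (fX t) (fs t) (fcp t) (fcm t) (fG3 t) (fG4 t))
            (ent T g'))
          (Nat.add g (Nat.land rest 127))) (rightOk R np nm kap lp lm Ap e a X H) (Nat.beq (Nat.land rest 127) 0)))
    fuel

/-- the certificate check with decoded parameters -/
noncomputable def certOk' (T R a fa e lp lm np nm kap Ap Am rest : Nat) : Bool :=
  (fun g t => (fun X s cp cm => (fun u => (fun H => (fun m =>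
      (@Bool.rec (fun _ => Bool) false (loop T R e lp lm np nm kap Ap Am a fa
          (Nat.add (Nat.mul 21 R) (Nat.add (Nat.add np nm) (Nat.add (Nat.add lp lm) (Nat.mul 2 kap)))) 700
          (Nat.shiftRight rest 10) g X (fG3 t) (fG4 t) u m H) (leftOk R np nm kap lp lm Am e a X H)))
      (ptv R lp lm np nm kap Ap Am e a X s cp cm H))
      (Hv fa (ffp t) (ffm t) u))
      (ad (Nat.shiftLeft X 29) a))
      (fX t) (fs t) (fcp t) (fcm t))
    (Nat.land rest 1023) (ent T (Nat.land rest 1023))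

/-- fields of a certificate -/
def ce (c : Nat) : Nat := Nat.land c M32
def clp (c : Nat) : Nat := Nat.land (Nat.shiftRight c 32) M32
def clm (c : Nat) : Nat := Nat.land (Nat.shiftRight c 64) M32
def cnp (c : Nat) : Nat := Nat.land (Nat.shiftRight c 96) M32
def cnm (c : Nat) : Nat := Nat.land (Nat.shiftRight c 128) M32
def ckap (c : Nat) : Nat := Nat.land (Nat.shiftRight c 160) M32
def cAp (c : Nat) : Nat := Nat.land (Nat.shiftRight c 192) M32
def cAm (c : Nat) : Nat := Nat.land (Nat.shiftRight c 224) M32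

/-- check one certificate -/
noncomputable def certOk (T R a fa c : Nat) : Bool :=
  certOk' T R a fa (ce c) (clp c) (clm c) (cnp c) (cnm c) (ckap c) (cAp c) (cAm c) (Nat.shiftRight c 256)

/-- level data: `l = a' + 2^64 fa`, `a' ≈ 2^50 α`, `fa ≈ 2^40 F(2α)` -/
def lvB (l : Nat) : Nat := Nat.land l M64
def lvA (l : Nat) : Nat := Nat.shiftRight (Nat.add (lvB l) 512) 10
def lvF (l : Nat) : Nat := Nat.shiftRight l 64

/-- check of the level data for `α = π k / N` -/
noncomputable def alphaOk (N k l : Nat) : Bool :=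
  (@Bool.rec (fun _ => Bool) false (@Bool.rec (fun _ => Bool) false (@Bool.rec (fun _ => Bool) false (Nat.ble (Nat.mul (Nat.pow 2 98) (Nat.add (cP 50 (lvB l)) 2))
      (Nat.add (Nat.mul (Nat.pow 2 98) (cM 50 (lvB l))) (Nat.mul (Nat.add (lvF l) 1024) (Nat.pow (sI 50 (lvB l)) 2)))) (Nat.ble (Nat.add (Nat.mul (Nat.sub (lvF l) 1024) (Nat.pow (Nat.add (sI 50 (Nat.succ (lvB l))) 2) 2)) (Nat.mul (Nat.pow 2 98) (Nat.add (cM 50 (Nat.succ (lvB l))) 2)))
      (Nat.add (Nat.mul (Nat.pow 2 98) (cP 50 (Nat.succ (lvB l)))) (Nat.mul (Nat.sub 1024 (lvF l)) (Nat.pow (sI 50 (Nat.succ (lvB l))) 2))))) (Nat.ble (Nat.mul 314159265358979323847 (Nat.mul (Nat.pow 2 50) k)) (Nat.mul (Nat.succ (lvB l)) (Nat.mul (Nat.pow 10 20) N)))) (Nat.ble (Nat.mul (lvB l) (Nat.mul (Nat.pow 10 20) N)) (Nat.mul 314159265358979323846 (Nat.mul (Nat.pow 2 50) k))))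

/-- all levels `k, k+1, …` -/
noncomputable def levelsOk (N : Nat) (lv : List Nat) : Nat → Bool :=
  @List.rec Nat (fun _ => Nat → Bool) (fun _ => true)
    (fun l _ ih k => (@Bool.rec (fun _ => Bool) false (ih (Nat.succ k)) (alphaOk N k l))) lv

/-- all certificates of one node -/
noncomputable def nodeOk (T R : Nat) (lv : List Nat) : List Nat → Bool :=
  @List.rec Nat (fun _ => List Nat → Bool) (fun cs => @List.rec Nat (fun _ => Bool) true (fun _ _ _ => false) cs)
    (fun l _ ih cs => @List.rec Nat (fun _ => Bool) false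
      (fun c cs' _ => (@Bool.rec (fun _ => Bool) false (ih cs') (certOk T R (lvA l) (lvF l) c))) cs) lv

/-- weighted sum of the 32-bit field at bit `sh`; weight `1` if `2k = N`, else `2` -/
noncomputable def wsum (sh N : Nat) (cs : List Nat) : Nat → Nat :=
  @List.rec Nat (fun _ => Nat → Nat) (fun _ => 0)
    (fun c _ ih k => Nat.add (Nat.mul ((@Bool.rec (fun _ => Nat) 2 1 (Nat.beq (Nat.mul 2 k) N))) (Nat.land (Nat.shiftRight c sh) M32)) (ih (Nat.succ k))) cs

/-- the value `B` of a node (scale `2^32`, truncated) -/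
noncomputable def nodeB (N R : Nat) (cs : List Nat) : Nat :=
  Nat.sub (Nat.mul (wsum 32 N cs 1) R) (Nat.add (Nat.mul (wsum 64 N cs 1) R) (Nat.mul 65536 (wsum 0 N cs 1)))

/-- condition for interpolation between two nodes -/
noncomputable def pairOk (N R1 : Nat) (cs1 : List Nat) (R2 : Nat) (cs2 : List Nat) : Bool :=
  (@Bool.rec (fun _ => Bool) false (@Bool.rec (fun _ => Bool) false (@Bool.rec (fun _ => Bool) false ((fun D => Nat.ble (Nat.succ (Nat.mul D D)) (Nat.mul 4 (Nat.mul (nodeB N R1 cs1) (nodeB N R2 cs2))))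
      (Nat.sub (Nat.mul (Nat.add (wsum 32 N cs2 1) (wsum 64 N cs1 1)) (Nat.sub R2 R1))
        (Nat.add (nodeB N R1 cs1) (Nat.add (nodeB N R2 cs2) (Nat.mul (Nat.add (wsum 64 N cs2 1) (wsum 32 N cs1 1)) (Nat.sub R2 R1)))))) (Nat.ble 1 (nodeB N R2 cs2))) (Nat.ble 1 (nodeB N R1 cs1))) (Nat.ble (Nat.succ R1) R2))

/-- check all nodes after the first one, chained -/
noncomputable def chainOk (T N : Nat) (lv : List Nat) (nodes : List (Nat × List Nat)) : Nat → List Nat → Bool :=
  @List.rec (Nat × List Nat) (fun _ => Nat → List Nat → Bool) (fun _ _ => true)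
    (fun n _ ih R cs => (@Bool.rec (fun _ => Bool) false (@Bool.rec (fun _ => Bool) false (ih n.1 n.2) (nodeOk T n.1 lv n.2)) (pairOk N R cs n.1 n.2))) nodes

/-- the complete check for one `N` -/
noncomputable def eng2Ok (T N : Nat) (lv : List Nat) (R0 : Nat) (cs0 : List Nat) (nodes : List (Nat × List Nat)) : Bool :=
  (@Bool.rec (fun _ => Bool) false (@Bool.rec (fun _ => Bool) false (@Bool.rec (fun _ => Bool) false (chainOk T N lv nodes R0 cs0) (nodeOk T R0 lv cs0)) (levelsOk N lv 1)) (Nat.beq (List.length lv) (Nat.div N 2)))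

end Pool.Agent.H443CC
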