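import Pool.Agent.H443CC.Eng2Defs
import Pool.Agent.H443CC.Circle

/-!
# Table entries of the duality engine
-/

open Real

namespace Pool.Agent.H443CC

/-- meaning of a table entry -/
structure Ent (t : ℕ) : Prop where
  X1 : 1 ≤ fX t
  X2 : fX t ≤ 6433
  s : |2 ^ 40 * sin ((fX t : ℝ) / 2048) - fs t| ≤ 1
  c : |2 ^ 40 * cos ((fX t : ℝ) / 2048) - ((fcp t : ℝ) - fcm t)| ≤ 1
  cz : fcp t = 0 ∨ fcm t = 0
  F : |2 ^ 40 * F ((fX t : ℝ) / 1024) - ((ffp t : ℝ) - ffm t)| ≤ 1024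
  fp : ffp t ≤ 2 ^ 55
  fm : ffm t ≤ 2 ^ 55
  G3 : 2 * 2 ^ 20 ≤ (fG3 t : ℝ) * sin ((fX t : ℝ) / 2048) ^ 3
  G4 : 3 * 2 ^ 20 ≤ (fG4 t : ℝ) * sin ((fX t : ℝ) / 2048) ^ 4

/-- check of one table entry (kernel computable) -/
noncomputable def entOk (t : Nat) : Bool :=
  (@Bool.rec (fun _ => Bool) false (@Bool.rec (fun _ => Bool) false (@Bool.rec (fun _ => Bool) false (@Bool.rec (fun _ => Bool) false (@Bool.rec (fun _ => Bool) false (@Bool.rec (fun _ => Bool) false (@Bool.rec (fun _ => Bool) false (@Bool.rec (fun _ => Bool) false (@Bool.rec (fun _ => Bool) false (@Bool.rec (fun _ => Bool) false (@Bool.rec (fun _ => Bool) false (@Bool.rec (fun _ => Bool) false (Nat.ble (Nat.mul 3 (Nat.pow 2 180)) (Nat.mul (fG4 t) (Nat.pow (Nat.sub (fs t) 1) 4))) (Nat.ble (Nat.pow 2 141) (Nat.mul (fG3 t) (Nat.pow (Nat.sub (fs t) 1) 3)))) (Nat.ble (ffm t) (Nat.pow 2 55))) (Nat.ble (ffp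 t) (Nat.pow 2 55))) (Nat.ble (Nat.add (Nat.mul (Nat.pow 2 98) (Nat.add (cP 11 (fX t)) 2)) (Nat.mul (Nat.sub (ffm t) (Nat.add (ffp t) 1024)) (Nat.pow (Nat.add (sI 11 (fX t)) 2) 2)))
      (Nat.add (Nat.mul (Nat.pow 2 98) (cM 11 (fX t))) (Nat.mul (Nat.sub (Nat.add (ffp t) 1024) (ffm t)) (Nat.pow (sI 11 (fX t)) 2))))) (Nat.ble (Nat.add (Nat.mul (Nat.sub (ffp t) (Nat.add (ffm t) 1024)) (Nat.pow (Nat.add (sI 11 (fX t)) 2) 2)) (Nat.mul (Nat.pow 2 98) (Nat.add (cM 11 (fX t)) 2)))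
      (Nat.add (Nat.mul (Nat.pow 2 98) (cP 11 (fX t))) (Nat.mul (Nat.sub (Nat.add (ffm t) 1024) (ffp t)) (Nat.pow (sI 11 (fX t)) 2))))) (Nat.beq (Nat.mul (fcp t) (fcm t)) 0)) (Nat.ble (Nat.add (Nat.mul 1048576 (fcm t)) (cP 11 (fX t))) (Nat.add (Nat.mul 1048576 (fcp t)) (Nat.add (cM 11 (fX t)) 1048574)))) (Nat.ble (Nat.add (Nat.mul 1048576 (fcp t)) (cM 11 (fX t))) (Nat.add (Nat.mul 1048576 (fcm t)) (Nat.add (cP 11 (fX t)) 1048574)))) (Nat.ble (Nat.add (sI 11 (fX t)) 2) (Nat.add (Nat.mul 1048576 (fs t)) 1048576))) (Nat.ble (Nat.mul 1048576 (fs t)) (Nat.add (sI 11 (fX t)) 1048576))) (Nat.ble (fX t) 6433)) (Nat.ble 1 (fX t)))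

/-- check of the entries `0, …, n-1` and of the size of the table -/
noncomputable def entsOk (T n : Nat) : Bool :=
  @Nat.rec (fun _ => Bool) true (fun g ih => (@Bool.rec (fun _ => Bool) false ih (entOk (ent T g)))) n

noncomputable def tab2Ok (T n : Nat) : Bool :=
  (@Bool.rec (fun _ => Bool) false (entsOk T n) (Nat.beq (Nat.shiftRight T (Nat.mul 512 n)) 0))

end Pool.Agent.H443CC
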