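import Mathlib

/-!
# Fixed-point Taylor evaluation of `sin` and `cos` (kernel computable)
-/

namespace Pool.Agent.H443CC

/-- denominators of the Horner scheme: `dC p k j = ∏ 4^p (2i+1)(2i+2)` -/
noncomputable def dC (p k : Nat) : Nat → Nat :=
  @Nat.rec (fun _ => Nat → Nat) (fun _ => 1)
    (fun _ ih j => Nat.mul (Nat.mul (Nat.pow 4 p) (Nat.mul (Nat.add (Nat.mul 2 j) 1) (Nat.add (Nat.mul 2 j) 2))) (ih (Nat.succ j))) k

/-- numerators: `nC p Y k j / dC p k j = hC k j (Y / 4^p)` -/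
noncomputable def nC (p Y k : Nat) : Nat → Nat :=
  @Nat.rec (fun _ => Nat → Nat) (fun _ => 0)
    (fun k ih j => Nat.sub (dC p (Nat.succ k) j) (Nat.mul Y (ih (Nat.succ j)))) k

noncomputable def dS (p k : Nat) : Nat → Nat :=
  @Nat.rec (fun _ => Nat → Nat) (fun _ => 1)
    (fun _ ih j => Nat.mul (Nat.mul (Nat.pow 4 p) (Nat.mul (Nat.add (Nat.mul 2 j) 2) (Nat.add (Nat.mul 2 j) 3))) (ih (Nat.succ j))) k

noncomputable def nS (p Y k : Nat) : Nat → Nat :=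
  @Nat.rec (fun _ => Nat → Nat) (fun _ => 0)
    (fun k ih j => Nat.sub (dS p (Nat.succ k) j) (Nat.mul Y (ih (Nat.succ j)))) k

/-- `⌊2^60 · S_16(X/2^p)⌋` -/
noncomputable def sI (p X : Nat) : Nat :=
  Nat.div (Nat.mul (Nat.pow 2 60) (Nat.mul X (Nat.sub (dS p 16 0) (Nat.mul (Nat.mul X X) (nS p (Nat.mul X X) 15 1)))))
    (Nat.mul (Nat.pow 2 p) (dS p 16 0))

noncomputable def cP (p X : Nat) : Nat :=
  Nat.div (Nat.mul (Nat.pow 2 60) (Nat.sub (dC p 16 0) (Nat.mul (Nat.mul X X) (nC p (Nat.mul X X) 15 1)))) (dC p 16 0)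

noncomputable def cM (p X : Nat) : Nat :=
  Nat.div (Nat.mul (Nat.pow 2 60) (Nat.sub (Nat.mul (Nat.mul X X) (nC p (Nat.mul X X) 15 1)) (dC p 16 0))) (dC p 16 0)

end Pool.Agent.H443CC
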