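import Pool.Agent.H443CC.Taylor
import Pool.Agent.H443CC.TayDefs

/-!
# Correctness of the fixed-point Taylor evaluation
-/

open Real

namespace Pool.Agent.H443CC

theorem z_hC_bd : ∀ (k j : ℕ) (y : ℝ), 1 ≤ j → 0 ≤ y → y ≤ 12 → 0 ≤ hC k j y ∧ hC k j y ≤ 1
  | 0, j, y, _, _, _ => by simp [hC]
  | k + 1, j, y, hj, h0, h12 => by
    obtain ⟨ih0, ih1⟩ := z_hC_bd k (j + 1) y (by omega) h0 h12
    have hj' : (1 : ℝ) ≤ j := by exact_mod_cast hj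
    have hden : (12 : ℝ) ≤ (2 * j + 1) * (2 * j + 2) := by nlinarith
    have hc0 : 0 ≤ y / ((2 * (j : ℝ) + 1) * (2 * j + 2)) := div_nonneg h0 (by linarith)
    have hc1 : y / ((2 * (j : ℝ) + 1) * (2 * j + 2)) ≤ 1 := by
      rw [div_le_one (by linarith)]
      linarith
    have h1 : 0 ≤ y / ((2 * (j : ℝ) + 1) * (2 * j + 2)) * hC k (j + 1) y := mul_nonneg hc0 ih0
    have h2 : y / ((2 * (j : ℝ) + 1) * (2 * j + 2)) * hC k (j + 1) y ≤ 1 := mul_le_one₀ hc1 ih0 ih1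
    constructor
    · show 0 ≤ 1 - y / ((2 * (j : ℝ) + 1) * (2 * j + 2)) * hC k (j + 1) y
      linarith
    · show 1 - y / ((2 * (j : ℝ) + 1) * (2 * j + 2)) * hC k (j + 1) y ≤ 1
      linarith

theorem z_hS_bd : ∀ (k j : ℕ) (y : ℝ), 1 ≤ j → 0 ≤ y → y ≤ 12 → 0 ≤ hS k j y ∧ hS k j y ≤ 1
  | 0, j, y, _, _, _ => by simp [hS]
  | k + 1, j, y, hj, h0, h12 => by
    obtain ⟨ih0, ih1⟩ := z_hS_bd k (j + 1) y (by omega) h0 h12
    have hj' : (1 : ℝ) ≤ j := by exact_mod_cast hj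
    have hden : (12 : ℝ) ≤ (2 * j + 2) * (2 * j + 3) := by nlinarith
    have hc0 : 0 ≤ y / ((2 * (j : ℝ) + 2) * (2 * j + 3)) := div_nonneg h0 (by linarith)
    have hc1 : y / ((2 * (j : ℝ) + 2) * (2 * j + 3)) ≤ 1 := by
      rw [div_le_one (by linarith)]
      linarith
    have h1 : 0 ≤ y / ((2 * (j : ℝ) + 2) * (2 * j + 3)) * hS k (j + 1) y := mul_nonneg hc0 ih0
    have h2 : y / ((2 * (j : ℝ) + 2) * (2 * j + 3)) * hS k (j + 1) y ≤ 1 := mul_le_one₀ hc1 ih0 ih1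
    constructor
    · show 0 ≤ 1 - y / ((2 * (j : ℝ) + 2) * (2 * j + 3)) * hS k (j + 1) y
      linarith
    · show 1 - y / ((2 * (j : ℝ) + 2) * (2 * j + 3)) * hS k (j + 1) y ≤ 1
      linarith

theorem z_dC_succ (p k j : ℕ) : dC p (k + 1) j = (4 ^ p * ((2 * j + 1) * (2 * j + 2))) * dC p k (j + 1) := rfl
theorem z_dS_succ (p k j : ℕ) : dS p (k + 1) j = (4 ^ p * ((2 * j + 2) * (2 * j + 3))) * dS p k (j + 1) := rfl
theorem z_nC_succ (p Y k j : ℕ) : nC p Y (k + 1) j = dC p (k + 1) j - Y * nC p Y k (j + 1) := rfl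
theorem z_nS_succ (p Y k j : ℕ) : nS p Y (k + 1) j = dS p (k + 1) j - Y * nS p Y k (j + 1) := rfl

theorem z_dC_pos (p : ℕ) : ∀ k j : ℕ, 0 < dC p k j
  | 0, _ => Nat.one_pos
  | k + 1, j => by
    rw [z_dC_succ]
    have := z_dC_pos p k (j + 1)
    positivity

theorem z_dS_pos (p : ℕ) : ∀ k j : ℕ, 0 < dS p k j
  | 0, _ => Nat.one_pos
  | k + 1, j => by
    rw [z_dS_succ]
    have := z_dS_pos p k (j + 1)
    positivity

theorem z_nC_val (p Y : ℕ) (hY : Y ≤ 12 * 4 ^ p) : ∀ (k j : ℕ), 1 ≤ j →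
    (nC p Y k j : ℝ) = hC k j ((Y : ℝ) / 4 ^ p) * dC p k j
  | 0, j, _ => by
    show ((0 : ℕ) : ℝ) = 0 * _
    simp
  | k + 1, j, hj => by
    have ih := z_nC_val p Y hY k (j + 1) (by omega)
    have hYr : (Y : ℝ) ≤ 12 * 4 ^ p := by exact_mod_cast hY
    have h4 : (0 : ℝ) < 4 ^ p := by positivity
    have hy0 : 0 ≤ (Y : ℝ) / 4 ^ p := by positivity
    have hy12 : (Y : ℝ) / 4 ^ p ≤ 12 := by
      rw [div_le_iff₀ h4]
      exact hYr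
    obtain ⟨b0, b1⟩ := z_hC_bd k (j + 1) _ (by omega) hy0 hy12
    have hj' : (1 : ℝ) ≤ j := by exact_mod_cast hj
    have hden : (12 : ℝ) ≤ (2 * j + 1) * (2 * j + 2) := by nlinarith
    have hd : (0 : ℝ) < dC p k (j + 1) := by exact_mod_cast z_dC_pos p k (j + 1)
    have hle : (Y : ℝ) * nC p Y k (j + 1) ≤ dC p (k + 1) j := by
      rw [ih, z_dC_succ]
      push_cast
      have e1 : hC k (j + 1) ((Y : ℝ) / 4 ^ p) * dC p k (j + 1) ≤ 1 * dC p k (j + 1) :=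
        mul_le_mul_of_nonneg_right b1 hd.le
      calc (Y : ℝ) * (hC k (j + 1) ((Y : ℝ) / 4 ^ p) * dC p k (j + 1))
          ≤ (Y : ℝ) * (1 * dC p k (j + 1)) := mul_le_mul_of_nonneg_left e1 (Nat.cast_nonneg _)
        _ = (Y : ℝ) * dC p k (j + 1) := by ring
        _ ≤ (12 * 4 ^ p) * dC p k (j + 1) := mul_le_mul_of_nonneg_right hYr hd.le
        _ ≤ (4 ^ p * ((2 * j + 1) * (2 * j + 2))) * dC p k (j + 1) := by
          apply mul_le_mul_of_nonneg_right _ hd.le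
          have := mul_le_mul_of_nonneg_left hden h4.le
          linarith
    have hleN : Y * nC p Y k (j + 1) ≤ dC p (k + 1) j := by exact_mod_cast hle
    rw [z_nC_succ, Nat.cast_sub hleN, Nat.cast_mul, ih, z_dC_succ]
    push_cast
    show _ = (1 - (Y : ℝ) / 4 ^ p / ((2 * (j : ℝ) + 1) * (2 * j + 2)) * hC k (j + 1) ((Y : ℝ) / 4 ^ p)) * _
    have hne : (2 * (j : ℝ) + 1) * (2 * j + 2) ≠ 0 := by linarith
    have hne1 : (2 * (j : ℝ) + 1) ≠ 0 := by positivity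
    have hne2 : (2 * (j : ℝ) + 2) ≠ 0 := by positivity
    field_simp

theorem z_nS_val (p Y : ℕ) (hY : Y ≤ 12 * 4 ^ p) : ∀ (k j : ℕ), 1 ≤ j →
    (nS p Y k j : ℝ) = hS k j ((Y : ℝ) / 4 ^ p) * dS p k j
  | 0, j, _ => by
    show ((0 : ℕ) : ℝ) = 0 * _
    simp
  | k + 1, j, hj => by
    have ih := z_nS_val p Y hY k (j + 1) (by omega)
    have hYr : (Y : ℝ) ≤ 12 * 4 ^ p := by exact_mod_cast hY
    have h4 : (0 : ℝ) < 4 ^ p := by positivity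
    have hy0 : 0 ≤ (Y : ℝ) / 4 ^ p := by positivity
    have hy12 : (Y : ℝ) / 4 ^ p ≤ 12 := by
      rw [div_le_iff₀ h4]
      exact hYr
    obtain ⟨b0, b1⟩ := z_hS_bd k (j + 1) _ (by omega) hy0 hy12
    have hj' : (1 : ℝ) ≤ j := by exact_mod_cast hj
    have hden : (12 : ℝ) ≤ (2 * j + 2) * (2 * j + 3) := by nlinarith
    have hd : (0 : ℝ) < dS p k (j + 1) := by exact_mod_cast z_dS_pos p k (j + 1)
    have hle : (Y : ℝ) * nS p Y k (j + 1) ≤ dS p (k + 1) j := by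
      rw [ih, z_dS_succ]
      push_cast
      have e1 : hS k (j + 1) ((Y : ℝ) / 4 ^ p) * dS p k (j + 1) ≤ 1 * dS p k (j + 1) :=
        mul_le_mul_of_nonneg_right b1 hd.le
      calc (Y : ℝ) * (hS k (j + 1) ((Y : ℝ) / 4 ^ p) * dS p k (j + 1))
          ≤ (Y : ℝ) * (1 * dS p k (j + 1)) := mul_le_mul_of_nonneg_left e1 (Nat.cast_nonneg _)
        _ = (Y : ℝ) * dS p k (j + 1) := by ring
        _ ≤ (12 * 4 ^ p) * dS p k (j + 1) := mul_le_mul_of_nonneg_right hYr hd.le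
        _ ≤ (4 ^ p * ((2 * j + 2) * (2 * j + 3))) * dS p k (j + 1) := by
          apply mul_le_mul_of_nonneg_right _ hd.le
          have := mul_le_mul_of_nonneg_left hden h4.le
          linarith
    have hleN : Y * nS p Y k (j + 1) ≤ dS p (k + 1) j := by exact_mod_cast hle
    rw [z_nS_succ, Nat.cast_sub hleN, Nat.cast_mul, ih, z_dS_succ]
    push_cast
    show _ = (1 - (Y : ℝ) / 4 ^ p / ((2 * (j : ℝ) + 2) * (2 * j + 3)) * hS k (j + 1) ((Y : ℝ) / 4 ^ p)) * _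
    have hne1 : (2 * (j : ℝ) + 2) ≠ 0 := by positivity
    have hne2 : (2 * (j : ℝ) + 3) ≠ 0 := by positivity
    field_simp

theorem z_floor (a b : ℕ) : ((a / b : ℕ) : ℝ) ≤ (a : ℝ) / b ∧ (a : ℝ) / b ≤ ((a / b : ℕ) : ℝ) + 1 := by
  rw [← Nat.floor_div_eq_div (K := ℝ) a b]
  exact ⟨Nat.floor_le (by positivity), (Nat.lt_floor_add_one _).le⟩

theorem z_x2 (p X : ℕ) : ((X : ℝ) / 2 ^ p) ^ 2 = ((X * X : ℕ) : ℝ) / 4 ^ p := by
  rw [div_pow, ← pow_mul, mul_comm p 2, pow_mul]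
  push_cast
  norm_num
  ring

theorem z_Y12 (p X : ℕ) (h : X * 2048 ≤ 6434 * 2 ^ p) : X * X ≤ 12 * 4 ^ p ∧
    (X : ℝ) / 2 ^ p ≤ 63 / 20 := by
  have hr : (X : ℝ) * 2048 ≤ 6434 * 2 ^ p := by exact_mod_cast h
  have h2 : (0 : ℝ) < 2 ^ p := by positivity
  have hx : (X : ℝ) / 2 ^ p ≤ 63 / 20 := by
    rw [div_le_iff₀ h2]
    nlinarith
  have hx0 : 0 ≤ (X : ℝ) / 2 ^ p := by positivity
  refine ⟨?_, hx⟩
  have h1 := z_x2 p X
  have h4 : (0 : ℝ) < 4 ^ p := by positivity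
  have h5 : ((X * X : ℕ) : ℝ) / 4 ^ p ≤ 12 := by
    rw [← h1]
    nlinarith
  rw [div_le_iff₀ h4] at h5
  exact_mod_cast h5

theorem z_tiny (x : ℝ) (h0 : 0 ≤ x) (h1 : x ≤ 63 / 20) :
    2 ^ 60 * (x ^ (2 * 16) / (2 * 16).factorial) ≤ 1 ∧
    2 ^ 60 * (x ^ (2 * 16 + 1) / (2 * 16 + 1).factorial) ≤ 1 := by
  have e1 : x ^ (2 * 16) ≤ (63 / 20) ^ (2 * 16) := pow_le_pow_left₀ h0 h1 _
  have e2 : x ^ (2 * 16 + 1) ≤ (63 / 20) ^ (2 * 16 + 1) := pow_le_pow_left₀ h0 h1 _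
  constructor
  · have h : (2 : ℝ) ^ 60 * ((63 / 20) ^ (2 * 16) / (2 * 16).factorial) ≤ 1 := by
      norm_num [Nat.factorial]
    refine le_trans ?_ h
    apply mul_le_mul_of_nonneg_left _ (by positivity)
    exact div_le_div_of_nonneg_right e1 (by positivity)
  · have h : (2 : ℝ) ^ 60 * ((63 / 20) ^ (2 * 16 + 1) / (2 * 16 + 1).factorial) ≤ 1 := by
      norm_num [Nat.factorial]
    refine le_trans ?_ h
    apply mul_le_mul_of_nonneg_left _ (by positivity)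
    exact div_le_div_of_nonneg_right e2 (by positivity)

theorem z_cos (x : ℝ) (h0 : 0 ≤ x) (h1 : x ≤ 63 / 20) :
    2 ^ 60 * Ctay 16 x ≤ 2 ^ 60 * cos x ∧ 2 ^ 60 * cos x ≤ 2 ^ 60 * Ctay 16 x + 1 := by
  have a := (tay_sign 16 (by norm_num)).1 x h0
  have b := (tay_sign 17 (by norm_num)).1 x h0
  have c : Ctay 17 x = Ctay 16 x + (-1) ^ 16 * x ^ (2 * 16) / (2 * 16).factorial := by
    unfold Ctay
    rw [Finset.sum_range_succ]
  rw [c] at b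
  have d := (z_tiny x h0 h1).1
  have e16 : (-1 : ℝ) ^ 16 = 1 := by norm_num
  have e17 : (-1 : ℝ) ^ 17 = -1 := by norm_num
  rw [e16] at a b
  rw [e17] at b
  rw [one_mul] at a b
  constructor <;> linarith

theorem z_sin (x : ℝ) (h0 : 0 ≤ x) (h1 : x ≤ 63 / 20) :
    2 ^ 60 * Stay 16 x ≤ 2 ^ 60 * sin x ∧ 2 ^ 60 * sin x ≤ 2 ^ 60 * Stay 16 x + 1 := by
  have a := (tay_sign 16 (by norm_num)).2 x h0
  have b := (tay_sign 17 (by norm_num)).2 x h0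
  have c : Stay 17 x = Stay 16 x + (-1) ^ 16 * x ^ (2 * 16 + 1) / (2 * 16 + 1).factorial := by
    unfold Stay
    rw [Finset.sum_range_succ]
  rw [c] at b
  have d := (z_tiny x h0 h1).2
  have e16 : (-1 : ℝ) ^ 16 = 1 := by norm_num
  have e17 : (-1 : ℝ) ^ 17 = -1 := by norm_num
  rw [e16] at a b
  rw [e17] at b
  rw [one_mul] at a b
  constructor <;> linarith

theorem z_alg1 (A X D Q P : ℝ) (hP : P ≠ 0) (hD : D ≠ 0) :
    (A * (X * (D - Q))) / (P * D) = A * (X / P * ((D - Q) / D)) := by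
  field_simp

theorem z_alg2 (A D Q : ℝ) : A * (Q - D) / D = -(A * ((D - Q) / D)) := by
  ring

theorem z_alg3 (A D Q : ℝ) : A * (D - Q) / D = A * ((D - Q) / D) := by
  ring

/-- TARGET -/
theorem sI_spec (p X : ℕ) (h : X * 2048 ≤ 6433 * 2 ^ p) :
    (sI p X : ℝ) ≤ 2 ^ 60 * sin ((X : ℝ) / 2 ^ p) ∧ 2 ^ 60 * sin ((X : ℝ) / 2 ^ p) ≤ sI p X + 2 := by
  obtain ⟨hY, hx1⟩ := z_Y12 p X (by nlinarith [Nat.pos_of_ne_zero (pow_ne_zero p (two_ne_zero : (2:ℕ) ≠ 0))])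
  have hx0 : 0 ≤ (X : ℝ) / 2 ^ p := by positivity
  have h2 : (0 : ℝ) < 2 ^ p := by positivity
  have h4 : (0 : ℝ) < 4 ^ p := by positivity
  obtain ⟨s1, s2⟩ := z_sin _ hx0 hx1
  have hpi : (X : ℝ) / 2 ^ p ≤ π := by
    have hr : (X : ℝ) * 2048 ≤ 6433 * 2 ^ p := by exact_mod_cast h
    have h3 : (X : ℝ) / 2 ^ p ≤ 3.1415 := by
      rw [div_le_iff₀ h2]
      nlinarith
    exact h3.trans Real.pi_gt_d4.le
  have hsin := Real.sin_nonneg_of_nonneg_of_le_pi hx0 hpi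
  have hval := z_nS_val p (X * X) hY 15 1 le_rfl
  have hD : (0 : ℝ) < dS p 16 0 := by exact_mod_cast z_dS_pos p 16 0
  have hD2 : (dS p 16 0 : ℝ) = 4 ^ p * 6 * dS p 15 1 := by
    rw [z_dS_succ p 15 0]
    push_cast
    ring
  have hd15 : (0 : ℝ) < dS p 15 1 := by exact_mod_cast z_dS_pos p 15 1
  have hStay : Stay 16 ((X : ℝ) / 2 ^ p) = (X : ℝ) / 2 ^ p *
      (((dS p 16 0 : ℝ) - ((X * X : ℕ) : ℝ) * nS p (X * X) 15 1) / dS p 16 0) := by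
    rw [Stay_horner, z_x2, hval, hD2]
    congr 1
    show 1 - ((X * X : ℕ) : ℝ) / 4 ^ p / ((2 * ((0 : ℕ) : ℝ) + 2) * (2 * ((0 : ℕ) : ℝ) + 3)) *
      hS 15 (0 + 1) (((X * X : ℕ) : ℝ) / 4 ^ p) = _
    rw [Nat.cast_zero]
    simp only [Nat.zero_add]
    field_simp
    ring
  have hsI : sI p X = (2 ^ 60 * (X * (dS p 16 0 - (X * X) * nS p (X * X) 15 1))) / (2 ^ p * dS p 16 0) := rfl
  rcases le_total ((X * X) * nS p (X * X) 15 1) (dS p 16 0) with hc | hc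
  · obtain ⟨f1, f2⟩ := z_floor (2 ^ 60 * (X * (dS p 16 0 - (X * X) * nS p (X * X) 15 1))) (2 ^ p * dS p 16 0)
    rw [← hsI] at f1 f2
    have heq : ((2 ^ 60 * (X * (dS p 16 0 - (X * X) * nS p (X * X) 15 1)) : ℕ) : ℝ) /
        ((2 ^ p * dS p 16 0 : ℕ) : ℝ) = 2 ^ 60 * Stay 16 ((X : ℝ) / 2 ^ p) := by
      rw [hStay, Nat.cast_mul, Nat.cast_mul X, Nat.cast_sub hc, Nat.cast_mul (X * X), Nat.cast_mul (2 ^ p)]
      rw [Nat.cast_pow, Nat.cast_pow, Nat.cast_ofNat]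
      exact z_alg1 _ _ _ _ _ h2.ne' hD.ne'
    rw [heq] at f1 f2
    constructor <;> linarith
  · have hz : dS p 16 0 - (X * X) * nS p (X * X) 15 1 = 0 := Nat.sub_eq_zero_of_le hc
    rw [hz, Nat.mul_zero, Nat.mul_zero, Nat.zero_div] at hsI
    rw [hsI, Nat.cast_zero]
    have hcr : (dS p 16 0 : ℝ) ≤ ((X * X : ℕ) : ℝ) * nS p (X * X) 15 1 := by exact_mod_cast hc
    have hneg : Stay 16 ((X : ℝ) / 2 ^ p) ≤ 0 := by
      rw [hStay]
      apply mul_nonpos_of_nonneg_of_nonpos hx0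
      apply div_nonpos_of_nonpos_of_nonneg _ hD.le
      linarith
    constructor
    · positivity
    · linarith

theorem z_cdata (p X : ℕ) (h : X * 2048 ≤ 6434 * 2 ^ p) :
    Ctay 16 ((X : ℝ) / 2 ^ p) =
      ((dC p 16 0 : ℝ) - ((X * X : ℕ) : ℝ) * nC p (X * X) 15 1) / dC p 16 0 := by
  obtain ⟨hY, hx1⟩ := z_Y12 p X h
  have h4 : (0 : ℝ) < 4 ^ p := by positivity
  have hval := z_nC_val p (X * X) hY 15 1 le_rfl
  have hD2 : (dC p 16 0 : ℝ) = 4 ^ p * 2 * dC p 15 1 := by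
    rw [z_dC_succ p 15 0]
    push_cast
    ring
  have hd15 : (0 : ℝ) < dC p 15 1 := by exact_mod_cast z_dC_pos p 15 1
  rw [Ctay_horner, z_x2, hval, hD2]
  show 1 - ((X * X : ℕ) : ℝ) / 4 ^ p / ((2 * ((0 : ℕ) : ℝ) + 1) * (2 * ((0 : ℕ) : ℝ) + 2)) *
    hC 15 (0 + 1) (((X * X : ℕ) : ℝ) / 4 ^ p) = _
  rw [Nat.cast_zero]
  simp only [Nat.zero_add]
  field_simp
  ring

/-- TARGET -/
theorem cPM_spec (p X : ℕ) (h : X * 2048 ≤ 6434 * 2 ^ p) :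
    |2 ^ 60 * cos ((X : ℝ) / 2 ^ p) - ((cP p X : ℝ) - cM p X)| ≤ 2 := by
  obtain ⟨hY, hx1⟩ := z_Y12 p X h
  have hx0 : 0 ≤ (X : ℝ) / 2 ^ p := by positivity
  obtain ⟨s1, s2⟩ := z_cos _ hx0 hx1
  have hC16 := z_cdata p X h
  have hD : (0 : ℝ) < dC p 16 0 := by exact_mod_cast z_dC_pos p 16 0
  have hcP : cP p X = (2 ^ 60 * (dC p 16 0 - (X * X) * nC p (X * X) 15 1)) / dC p 16 0 := rfl
  have hcM : cM p X = (2 ^ 60 * ((X * X) * nC p (X * X) 15 1 - dC p 16 0)) / dC p 16 0 := rfl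
  rcases le_total ((X * X) * nC p (X * X) 15 1) (dC p 16 0) with hc | hc
  · have hz : (X * X) * nC p (X * X) 15 1 - dC p 16 0 = 0 := Nat.sub_eq_zero_of_le hc
    rw [hz, Nat.mul_zero, Nat.zero_div] at hcM
    obtain ⟨f1, f2⟩ := z_floor (2 ^ 60 * (dC p 16 0 - (X * X) * nC p (X * X) 15 1)) (dC p 16 0)
    rw [← hcP] at f1 f2
    have heq : ((2 ^ 60 * (dC p 16 0 - (X * X) * nC p (X * X) 15 1) : ℕ) : ℝ) /
        ((dC p 16 0 : ℕ) : ℝ) = 2 ^ 60 * Ctay 16 ((X : ℝ) / 2 ^ p) := by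
      rw [hC16, Nat.cast_mul, Nat.cast_sub hc, Nat.cast_mul (X * X), Nat.cast_pow, Nat.cast_ofNat]
      exact z_alg3 _ _ _
    rw [heq] at f1 f2
    rw [hcM, Nat.cast_zero, sub_zero, abs_le]
    constructor <;> linarith
  · have hz : dC p 16 0 - (X * X) * nC p (X * X) 15 1 = 0 := Nat.sub_eq_zero_of_le hc
    rw [hz, Nat.mul_zero, Nat.zero_div] at hcP
    obtain ⟨f1, f2⟩ := z_floor (2 ^ 60 * ((X * X) * nC p (X * X) 15 1 - dC p 16 0)) (dC p 16 0)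
    rw [← hcM] at f1 f2
    have heq : ((2 ^ 60 * ((X * X) * nC p (X * X) 15 1 - dC p 16 0) : ℕ) : ℝ) /
        ((dC p 16 0 : ℕ) : ℝ) = -(2 ^ 60 * Ctay 16 ((X : ℝ) / 2 ^ p)) := by
      rw [hC16, Nat.cast_mul, Nat.cast_sub hc, Nat.cast_mul (X * X), Nat.cast_pow, Nat.cast_ofNat]
      exact z_alg2 _ _ _
    rw [heq] at f1 f2
    rw [hcP, Nat.cast_zero, zero_sub, abs_le]
    constructor <;> linarith

/-- TARGET -/
theorem cPM_zero (p X : ℕ) : cP p X = 0 ∨ cM p X = 0 := by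
  have hcP : cP p X = (2 ^ 60 * (dC p 16 0 - (X * X) * nC p (X * X) 15 1)) / dC p 16 0 := rfl
  have hcM : cM p X = (2 ^ 60 * ((X * X) * nC p (X * X) 15 1 - dC p 16 0)) / dC p 16 0 := rfl
  rcases le_total ((X * X) * nC p (X * X) 15 1) (dC p 16 0) with hc | hc
  · right
    have hz : (X * X) * nC p (X * X) 15 1 - dC p 16 0 = 0 := Nat.sub_eq_zero_of_le hc
    rw [hz, Nat.mul_zero, Nat.zero_div] at hcM
    exact hcM
  · left
    have hz : dC p 16 0 - (X * X) * nC p (X * X) 15 1 = 0 := Nat.sub_eq_zero_of_le hc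
    rw [hz, Nat.mul_zero, Nat.zero_div] at hcP
    exact hcP

end Pool.Agent.H443CC
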