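import Pool.Agent.H443CC.Eng2Ent
import Pool.Agent.H443CC.TaySpec

/-!
# Soundness of the table and level checks of the duality engine
-/

open Real

namespace Pool.Agent.H443CC

theorem cnd_and {b x : Bool} (h : @Bool.rec (fun _ => Bool) false x b = true) : b = true ∧ x = true := by
  cases b
  · exact absurd h (by simp)
  · exact ⟨rfl, h⟩

theorem cnd_iff {b x : Bool} : (@Bool.rec (fun _ => Bool) false x b = true) ↔ (b = true ∧ x = true) := by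
  constructor
  · exact cnd_and
  · rintro ⟨rfl, h⟩; exact h

theorem core_F {sn cs S Cp Cm fp fm : ℝ} {P1 P2 Q1 Q2 : ℝ} (hsn : 0 < sn) (hS0 : 0 ≤ S)
    (hs1 : S ≤ 2 ^ 60 * sn) (hs2 : 2 ^ 60 * sn ≤ S + 2)
    (hC : |2 ^ 60 * cs - (Cp - Cm)| ≤ 2) (hP1 : 0 ≤ P1) (hP2 : 0 ≤ P2) (hQ1 : 0 ≤ Q1) (hQ2 : 0 ≤ Q2)
    (hP : P1 - P2 = fp - fm - 1024) (hQ : Q1 - Q2 = fp - fm + 1024)
    (h1 : P1 * (S + 2) ^ 2 + 2 ^ 98 * (Cm + 2) ≤ 2 ^ 98 * Cp + P2 * S ^ 2)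
    (h2 : 2 ^ 98 * (Cp + 2) + Q2 * (S + 2) ^ 2 ≤ 2 ^ 98 * Cm + Q1 * S ^ 2) :
    |2 ^ 40 * (cs / (4 * sn ^ 2)) - (fp - fm)| ≤ 1024 := by
  obtain ⟨c1, c2⟩ := abs_le.1 hC
  have q1 : S ^ 2 ≤ (2 ^ 60 * sn) ^ 2 := pow_le_pow_left₀ hS0 hs1 2
  have q2 : (2 ^ 60 * sn) ^ 2 ≤ (S + 2) ^ 2 := pow_le_pow_left₀ (by positivity) hs2 2
  have a1 : P1 * (2 ^ 60 * sn) ^ 2 ≤ P1 * (S + 2) ^ 2 := mul_le_mul_of_nonneg_left q2 hP1
  have a2 : P2 * S ^ 2 ≤ P2 * (2 ^ 60 * sn) ^ 2 := mul_le_mul_of_nonneg_left q1 hP2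
  have a3 : Q2 * (2 ^ 60 * sn) ^ 2 ≤ Q2 * (S + 2) ^ 2 := mul_le_mul_of_nonneg_left q2 hQ2
  have a4 : Q1 * S ^ 2 ≤ Q1 * (2 ^ 60 * sn) ^ 2 := mul_le_mul_of_nonneg_left q1 hQ1
  have b1 : (fp - fm - 1024) * (2 ^ 60 * sn) ^ 2 ≤ 2 ^ 98 * (2 ^ 60 * cs) := by
    rw [← hP, sub_mul]; linarith
  have b2 : 2 ^ 98 * (2 ^ 60 * cs) ≤ (fp - fm + 1024) * (2 ^ 60 * sn) ^ 2 := by
    rw [← hQ, sub_mul]; linarith
  have e : 2 ^ 40 * (cs / (4 * sn ^ 2)) = (2 ^ 38 * cs) / sn ^ 2 := by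
    field_simp; ring
  have hs2 : 0 < sn ^ 2 := by positivity
  rw [abs_le, e]
  constructor
  · have : fp - fm - 1024 ≤ 2 ^ 38 * cs / sn ^ 2 := by
      rw [le_div_iff₀ hs2]; nlinarith
    linarith
  · have : 2 ^ 38 * cs / sn ^ 2 ≤ fp - fm + 1024 := by
      rw [div_le_iff₀ hs2]; nlinarith
    linarith

/-- soundness of the check of one entry -/
theorem entOk_sound {t : ℕ} (h : entOk t = true) : Ent t := by
  unfold entOk at h
  simp only [cnd_iff, Nat.ble_eq] at h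
  obtain ⟨g1, g2, g3, g4, g5, g6, g7, g8, g9, g10, g11, g12, g13⟩ := h
  replace g7 := Nat.eq_of_beq_eq_true g7
  simp only [Nat.add_eq, Nat.mul_eq, Nat.sub_eq, Nat.pow_eq] at g3 g4 g5 g6 g7 g8 g9 g10 g11 g12 g13
  have p11 : (2 : ℕ) ^ 11 = 2048 := by norm_num
  have s1 := sI_spec 11 (fX t) (by rw [p11]; exact Nat.mul_le_mul_right 2048 g2)
  have s2 := cPM_spec 11 (fX t) (by rw [p11]; exact Nat.mul_le_mul_right 2048 (g2.trans (by norm_num)))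
  have e11 : (fX t : ℝ) / 2 ^ 11 = (fX t : ℝ) / 2048 := by norm_num
  rw [e11] at s1 s2
  have hX1 : (1 : ℝ) ≤ fX t := by exact_mod_cast g1
  have hX2 : (fX t : ℝ) ≤ 6433 := by exact_mod_cast g2
  have hsn : 0 < sin ((fX t : ℝ) / 2048) := by
    apply sin_pos_of_pos_of_lt_pi
    · positivity
    · have := Real.pi_gt_d4
      rw [div_lt_iff₀ (by norm_num)]; linarith
  have eF : F ((fX t : ℝ) / 1024) = cos ((fX t : ℝ) / 2048) / (4 * sin ((fX t : ℝ) / 2048) ^ 2) := by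
    unfold F
    have : (fX t : ℝ) / 1024 / 2 = (fX t : ℝ) / 2048 := by ring
    rw [this]
  obtain ⟨sn, esn⟩ : ∃ y, y = sin ((fX t : ℝ) / 2048) := ⟨_, rfl⟩
  obtain ⟨cs, ecs⟩ : ∃ y, y = cos ((fX t : ℝ) / 2048) := ⟨_, rfl⟩
  rw [← esn] at s1 hsn eF
  rw [← ecs] at s2 eF
  obtain ⟨s1a, s1b⟩ := s1
  obtain ⟨c1, c2⟩ := abs_le.1 s2
  have r3 : (1048576 : ℝ) * fs t ≤ sI 11 (fX t) + 1048576 := by exact_mod_cast g3
  have r4 : (sI 11 (fX t) : ℝ) + 2 ≤ 1048576 * fs t + 1048576 := by exact_mod_cast g4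
  have r5 : (1048576 : ℝ) * fcp t + cM 11 (fX t) ≤ 1048576 * fcm t + (cP 11 (fX t) + 1048574) := by exact_mod_cast g5
  have r6 : (1048576 : ℝ) * fcm t + cP 11 (fX t) ≤ 1048576 * fcp t + (cM 11 (fX t) + 1048574) := by exact_mod_cast g6
  have r8 : ((ffp t - (ffm t + 1024) : ℕ) : ℝ) * ((sI 11 (fX t) : ℝ) + 2) ^ 2 + 2 ^ 98 * ((cM 11 (fX t) : ℝ) + 2) ≤
      2 ^ 98 * cP 11 (fX t) + (((ffm t + 1024) - ffp t : ℕ) : ℝ) * (sI 11 (fX t) : ℝ) ^ 2 := by exact_mod_cast g8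
  have r9 : 2 ^ 98 * ((cP 11 (fX t) : ℝ) + 2) + ((ffm t - (ffp t + 1024) : ℕ) : ℝ) * ((sI 11 (fX t) : ℝ) + 2) ^ 2 ≤
      2 ^ 98 * cM 11 (fX t) + (((ffp t + 1024) - ffm t : ℕ) : ℝ) * (sI 11 (fX t) : ℝ) ^ 2 := by exact_mod_cast g9
  have r12 : (2 : ℝ) ^ 141 ≤ fG3 t * ((fs t - 1 : ℕ) : ℝ) ^ 3 := by exact_mod_cast g12
  have r13 : 3 * (2 : ℝ) ^ 180 ≤ fG4 t * ((fs t - 1 : ℕ) : ℝ) ^ 4 := by exact_mod_cast g13
  have hsub : ∀ a b : ℕ, ((a - b : ℕ) : ℝ) - ((b - a : ℕ) : ℝ) = (a : ℝ) - b := by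
    intro a b
    rcases le_total a b with hab | hab
    · rw [Nat.sub_eq_zero_of_le hab, Nat.cast_sub hab]; simp
    · rw [Nat.sub_eq_zero_of_le hab, Nat.cast_sub hab]; simp
  have lowS : ((fs t - 1 : ℕ) : ℝ) ≤ 2 ^ 40 * sn := by
    rcases Nat.eq_zero_or_pos (fs t) with h0 | h0
    · rw [h0]; simp; positivity
    · rw [Nat.cast_sub h0]; push_cast; norm_num at s1a ⊢; linarith
  refine ⟨g1, g2, ?_, ?_, ?_, ?_, g10, g11, ?_, ?_⟩
  · rw [← esn, abs_le]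
    norm_num at s1a s1b ⊢
    constructor <;> linarith
  · rw [← ecs, abs_le]
    norm_num at c1 c2 ⊢
    constructor <;> linarith
  · exact mul_eq_zero.1 g7
  · rw [eF]
    refine core_F (S := sI 11 (fX t)) (Cp := cP 11 (fX t)) (Cm := cM 11 (fX t))
      hsn (Nat.cast_nonneg _) s1a s1b s2 (Nat.cast_nonneg _) (Nat.cast_nonneg _)
      (Nat.cast_nonneg _) (Nat.cast_nonneg _) ?_ ?_ r8 r9
    · rw [hsub]; push_cast; ring
    · rw [hsub]; push_cast; ring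
  · rw [← esn]
    have h3 : ((fs t - 1 : ℕ) : ℝ) ^ 3 ≤ (2 ^ 40 * sn) ^ 3 := pow_le_pow_left₀ (Nat.cast_nonneg _) lowS 3
    have h4 := mul_le_mul_of_nonneg_left h3 (Nat.cast_nonneg (α := ℝ) (fG3 t))
    have h5 := r12.trans h4
    rw [mul_pow, ← mul_assoc, mul_comm ((fG3 t : ℝ)), mul_assoc] at h5
    norm_num at h5 ⊢
    linarith
  · rw [← esn]
    have h3 : ((fs t - 1 : ℕ) : ℝ) ^ 4 ≤ (2 ^ 40 * sn) ^ 4 := pow_le_pow_left₀ (Nat.cast_nonneg _) lowS 4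
    have h4 := mul_le_mul_of_nonneg_left h3 (Nat.cast_nonneg (α := ℝ) (fG4 t))
    have h5 := r13.trans h4
    rw [mul_pow, ← mul_assoc, mul_comm ((fG4 t : ℝ)), mul_assoc] at h5
    norm_num at h5 ⊢
    linarith

theorem entsOk_spec (T : ℕ) : ∀ n, entsOk T n = true → ∀ g < n, entOk (ent T g) = true := by
  intro n
  induction n with
  | zero => intro _ g hg; omega
  | succ n ih =>
    intro h g hg
    have h' : @Bool.rec (fun _ => Bool) false (entsOk T n) (entOk (ent T n)) = true := h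
    obtain ⟨h1, h2⟩ := cnd_and h'
    rcases Nat.lt_succ_iff_lt_or_eq.1 hg with hlt | rfl
    · exact ih h2 g hlt
    · exact h1

/-- soundness of the table check -/
theorem tab2Ok_sound {T n : ℕ} (h : tab2Ok T n = true) : ∀ g, 0 < fX (ent T g) → Ent (ent T g) := by
  unfold tab2Ok at h
  obtain ⟨h1, h2⟩ := cnd_and h
  intro g hg
  by_cases hgn : g < n
  · exact entOk_sound (entsOk_spec T n h2 g hgn)
  · exfalso
    have h3 : T >>> (512 * n) = 0 := Nat.eq_of_beq_eq_true h1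
    have h4 : T >>> (512 * g) = 0 := by
      have : 512 * g = 512 * n + 512 * (g - n) := by omega
      rw [this, Nat.shiftRight_add, h3]; simp
    have h5 : ent T g = 0 := by
      have : ent T g = (T >>> (512 * g)) &&& 13407807929942597099574024998205846127479365820592393377723561443721764030073546976801874298166903427690031858186486050853753882811946569946433649006084095 := rfl
      rw [this, h4, Nat.zero_and]
    have h6 : fX (ent T g) = 0 := by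
      have : fX (ent T g) = (ent T g) &&& M64 := rfl
      rw [this, h5, Nat.zero_and]
    omega

theorem core_lo {sn cs S Cp Cm P1 P2 : ℝ} (hsn : 0 < sn) (hS0 : 0 ≤ S)
    (hs1 : S ≤ 2 ^ 60 * sn) (hs2 : 2 ^ 60 * sn ≤ S + 2)
    (hC : |2 ^ 60 * cs - (Cp - Cm)| ≤ 2) (hP1 : 0 ≤ P1) (hP2 : 0 ≤ P2)
    (h1 : P1 * (S + 2) ^ 2 + 2 ^ 98 * (Cm + 2) ≤ 2 ^ 98 * Cp + P2 * S ^ 2) :
    P1 - P2 ≤ 2 ^ 40 * (cs / (4 * sn ^ 2)) := by
  obtain ⟨c1, c2⟩ := abs_le.1 hC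
  have q1 : S ^ 2 ≤ (2 ^ 60 * sn) ^ 2 := pow_le_pow_left₀ hS0 hs1 2
  have q2 : (2 ^ 60 * sn) ^ 2 ≤ (S + 2) ^ 2 := pow_le_pow_left₀ (by positivity) hs2 2
  have a1 : P1 * (2 ^ 60 * sn) ^ 2 ≤ P1 * (S + 2) ^ 2 := mul_le_mul_of_nonneg_left q2 hP1
  have a2 : P2 * S ^ 2 ≤ P2 * (2 ^ 60 * sn) ^ 2 := mul_le_mul_of_nonneg_left q1 hP2
  have b1 : (P1 - P2) * (2 ^ 60 * sn) ^ 2 ≤ 2 ^ 98 * (2 ^ 60 * cs) := by
    rw [sub_mul]; linarith
  have e : 2 ^ 40 * (cs / (4 * sn ^ 2)) = (2 ^ 38 * cs) / sn ^ 2 := by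
    field_simp; ring
  have hs2 : 0 < sn ^ 2 := by positivity
  rw [e, le_div_iff₀ hs2]
  nlinarith

theorem core_hi {sn cs S Cp Cm Q1 : ℝ} (hsn : 0 < sn) (hS0 : 0 ≤ S)
    (hs1 : S ≤ 2 ^ 60 * sn)
    (hC : |2 ^ 60 * cs - (Cp - Cm)| ≤ 2) (hQ1 : 0 ≤ Q1)
    (h2 : 2 ^ 98 * (Cp + 2) ≤ 2 ^ 98 * Cm + Q1 * S ^ 2) :
    2 ^ 40 * (cs / (4 * sn ^ 2)) ≤ Q1 := by
  obtain ⟨c1, c2⟩ := abs_le.1 hC
  have q1 : S ^ 2 ≤ (2 ^ 60 * sn) ^ 2 := pow_le_pow_left₀ hS0 hs1 2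
  have a4 : Q1 * S ^ 2 ≤ Q1 * (2 ^ 60 * sn) ^ 2 := mul_le_mul_of_nonneg_left q1 hQ1
  have b2 : 2 ^ 98 * (2 ^ 60 * cs) ≤ Q1 * (2 ^ 60 * sn) ^ 2 := by linarith
  have e : 2 ^ 40 * (cs / (4 * sn ^ 2)) = (2 ^ 38 * cs) / sn ^ 2 := by
    field_simp; ring
  have hs2 : 0 < sn ^ 2 := by positivity
  rw [e, div_le_iff₀ hs2]
  nlinarith

theorem lvA_bd (l : ℕ) : lvA l * 1024 ≤ lvB l + 512 ∧ lvB l + 512 ≤ lvA l * 1024 + 1023 := by
  have : lvA l = (lvB l + 512) / 1024 := by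
    show (lvB l + 512) >>> 10 = _
    rw [Nat.shiftRight_eq_div_pow]
  omega

/-- soundness of the level check -/
theorem alphaOk_sound {N k l : ℕ} (hN : 2 ≤ N) (hk : 1 ≤ k) (hk2 : 2 * k ≤ N) (h : alphaOk N k l = true) :
    |2 ^ 40 * (π * k / N) - lvA l| ≤ 1 ∧ |2 ^ 40 * F (2 * (π * k / N)) - lvF l| ≤ 1024 := by
  unfold alphaOk at h
  simp only [cnd_iff, Nat.ble_eq] at h
  obtain ⟨g1, g2, g3, g4⟩ := h
  have hsc : Nat.succ (lvB l) = lvB l + 1 := rfl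
  rw [hsc] at g2 g3
  simp only [Nat.add_eq, Nat.mul_eq, Nat.sub_eq, Nat.pow_eq] at g1 g2 g3 g4
  obtain ⟨A1, A2⟩ := lvA_bd l
  generalize lvA l = A at A1 A2 ⊢
  generalize lvB l = b at g1 g2 g3 g4 A1 A2
  generalize lvF l = f at g3 g4 ⊢
  have hN0 : (0 : ℝ) < N := by exact_mod_cast (by omega : 0 < N)
  have hk0 : (1 : ℝ) ≤ k := by exact_mod_cast hk
  have hk2' : 2 * (k : ℝ) ≤ N := by exact_mod_cast hk2
  obtain ⟨α, hα⟩ : ∃ α : ℝ, α = π * k / N := ⟨_, rfl⟩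
  rw [← hα]
  have e1 : α * N = π * k := by rw [hα]; field_simp
  have π1 := Real.pi_gt_d20
  have π2 := Real.pi_lt_d20
  have r1 : (b : ℝ) * (10 ^ 20 * N) ≤ 314159265358979323846 * (2 ^ 50 * k) := by exact_mod_cast g1
  have r2 : (314159265358979323847 : ℝ) * (2 ^ 50 * k) ≤ (b + 1) * (10 ^ 20 * N) := by exact_mod_cast g2
  have r3 : ((f - 1024 : ℕ) : ℝ) * ((sI 50 (b + 1) : ℝ) + 2) ^ 2 + 2 ^ 98 * ((cM 50 (b + 1) : ℝ) + 2) ≤
      2 ^ 98 * cP 50 (b + 1) + ((1024 - f : ℕ) : ℝ) * (sI 50 (b + 1) : ℝ) ^ 2 := by exact_mod_cast g3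
  have r4 : 2 ^ 98 * ((cP 50 b : ℝ) + 2) ≤ 2 ^ 98 * cM 50 b + ((f + 1024 : ℕ) : ℝ) * (sI 50 b : ℝ) ^ 2 := by exact_mod_cast g4
  clear g1 g2 g3 g4
  have hb1 : (b : ℝ) ≤ 2 ^ 50 * α := by
    have : (b : ℝ) * N ≤ (2 ^ 50 * α) * N := by
      rw [mul_assoc, e1]
      have h1 : 3.14159265358979323846 * (k : ℝ) ≤ π * k := by
        apply mul_le_mul_of_nonneg_right π1.le; linarith
      norm_num at r1 h1 ⊢
      linarith
    exact le_of_mul_le_mul_right this hN0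
  have hb2 : 2 ^ 50 * α ≤ (b : ℝ) + 1 := by
    have : (2 ^ 50 * α) * N ≤ ((b : ℝ) + 1) * N := by
      rw [mul_assoc, e1]
      have h1 : π * k ≤ 3.14159265358979323847 * (k : ℝ) := by
        apply mul_le_mul_of_nonneg_right π2.le; linarith
      norm_num at r2 h1 ⊢
      linarith
    exact le_of_mul_le_mul_right this hN0
  have hα0 : 0 < α := by rw [hα]; positivity
  have hα2 : α ≤ π / 2 := by
    have : α * N ≤ π / 2 * N := by
      rw [e1]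
      have := mul_le_mul_of_nonneg_left hk2' Real.pi_pos.le
      linarith
    exact le_of_mul_le_mul_right this hN0
  have hbN : (b : ℝ) ≤ 2 ^ 50 * (3.1416 / 2) := by
    have := Real.pi_lt_d4
    refine hb1.trans ?_
    apply mul_le_mul_of_nonneg_left _ (by norm_num)
    linarith
  have hbT : (b + 1) * 2048 ≤ 6433 * 2 ^ 50 := by
    have : ((b : ℝ) + 1) * 2048 ≤ 6433 * 2 ^ 50 := by
      norm_num at hbN ⊢
      linarith
    exact_mod_cast this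
  have A1' : (A : ℝ) * 1024 ≤ b + 512 := by exact_mod_cast A1
  have A2' : (b : ℝ) + 512 ≤ A * 1024 + 1023 := by exact_mod_cast A2
  refine ⟨?_, ?_⟩
  · rw [abs_le]
    norm_num at hb1 hb2 ⊢
    constructor <;> linarith
  · -- lower side
    have s1 := sI_spec 50 (b + 1) hbT
    have c1 := cPM_spec 50 (b + 1) (hbT.trans (Nat.mul_le_mul_right _ (by norm_num)))
    have hb0' : b * 2048 ≤ 6433 * 2 ^ 50 := le_trans (Nat.mul_le_mul_right 2048 (Nat.le_succ b)) hbT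
    have s2 := sI_spec 50 b hb0'
    have c2 := cPM_spec 50 b (hb0'.trans (Nat.mul_le_mul_right _ (by norm_num)))
    have x1 : ((b + 1 : ℕ) : ℝ) / 2 ^ 50 < π := by
      have := Real.pi_gt_d4
      rw [div_lt_iff₀ (by norm_num)]
      push_cast
      norm_num at hbN ⊢
      linarith
    have x1p : 0 < ((b + 1 : ℕ) : ℝ) / 2 ^ 50 := by positivity
    have hs1 : 0 < sin (((b + 1 : ℕ) : ℝ) / 2 ^ 50) := sin_pos_of_pos_of_lt_pi x1p x1
    have hb : 0 < b := by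
      rcases Nat.eq_zero_or_pos b with h0 | h0
      · exfalso
        subst h0
        have hs0 : (sI 50 0 : ℝ) ≤ 0 := by
          simpa only [Nat.cast_zero, zero_div, Real.sin_zero, mul_zero] using s2.1
        have hs00 : (sI 50 0 : ℝ) = 0 := le_antisymm hs0 (Nat.cast_nonneg _)
        rw [hs00] at r4
        have hc := (abs_le.1 c2).2
        simp only [Nat.cast_zero, zero_div, Real.cos_zero] at hc
        norm_num at r4 hc
        linarith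
      · exact h0
    have x2p : 0 < (b : ℝ) / 2 ^ 50 := by positivity
    have x2 : (b : ℝ) / 2 ^ 50 < π := lt_of_le_of_lt (by push_cast; gcongr; linarith) x1
    have hs2 : 0 < sin ((b : ℝ) / 2 ^ 50) := sin_pos_of_pos_of_lt_pi x2p x2
    have lo := core_lo hs1 (Nat.cast_nonneg _) s1.1 s1.2 c1 (Nat.cast_nonneg _) (Nat.cast_nonneg _) r3
    have hi := core_hi hs2 (Nat.cast_nonneg _) s2.1 c2 (Nat.cast_nonneg _) r4
    have hsub : ∀ a b : ℕ, ((a - b : ℕ) : ℝ) - ((b - a : ℕ) : ℝ) = (a : ℝ) - b := by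
      intro a b
      rcases le_total a b with hab | hab
      · rw [Nat.sub_eq_zero_of_le hab, Nat.cast_sub hab]; simp
      · rw [Nat.sub_eq_zero_of_le hab, Nat.cast_sub hab]; simp
    rw [hsub] at lo
    have F1 : F (2 * (((b + 1 : ℕ) : ℝ) / 2 ^ 50)) = cos (((b + 1 : ℕ) : ℝ) / 2 ^ 50) / (4 * sin (((b + 1 : ℕ) : ℝ) / 2 ^ 50) ^ 2) := by
      unfold F
      rw [mul_div_cancel_left₀ _ (two_ne_zero)]
    have F2 : F (2 * ((b : ℝ) / 2 ^ 50)) = cos ((b : ℝ) / 2 ^ 50) / (4 * sin ((b : ℝ) / 2 ^ 50) ^ 2) := by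
      unfold F
      rw [mul_div_cancel_left₀ _ (two_ne_zero)]
    rw [← F1] at lo
    rw [← F2] at hi
    have m1 : F (2 * (((b + 1 : ℕ) : ℝ) / 2 ^ 50)) ≤ F (2 * α) := by
      apply F_strictAnti.antitoneOn
      · exact ⟨by linarith, by linarith [Real.pi_pos]⟩
      · exact ⟨by linarith, by linarith⟩
      · have : α ≤ ((b + 1 : ℕ) : ℝ) / 2 ^ 50 := by
          rw [le_div_iff₀ (by norm_num)]; push_cast; linarith
        linarith
    have m2 : F (2 * α) ≤ F (2 * ((b : ℝ) / 2 ^ 50)) := by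
      apply F_strictAnti.antitoneOn
      · exact ⟨by linarith, by linarith⟩
      · exact ⟨by linarith, by linarith [Real.pi_pos]⟩
      · have : (b : ℝ) / 2 ^ 50 ≤ α := by
          rw [div_le_iff₀ (by norm_num)]; linarith
        linarith
    rw [abs_le]
    push_cast at lo hi m1 m2
    constructor
    · have := mul_le_mul_of_nonneg_left m1 (by norm_num : (0 : ℝ) ≤ 2 ^ 40)
      linarith
    · have := mul_le_mul_of_nonneg_left m2 (by norm_num : (0 : ℝ) ≤ 2 ^ 40)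
      linarith

end Pool.Agent.H443CC
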