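import Pool.Agent.H443CC.Eng2B
import Pool.Agent.H443CC.Eng2T

/-!
# Interpolation between the nodes of the duality engine
-/

open Real

namespace Pool.Agent.H443CC

/-- TARGET 1: size of `F(2α)` -/
theorem lvF_le {N k l : ℕ} (hN : 2 ≤ N) (hN2 : N ≤ 200) (hk : 1 ≤ k) (hk2 : 2 * k ≤ N) (h : alphaOk N k l = true) :
    lvF l ≤ 2 ^ 55 := by
  have hs := (alphaOk_sound hN hk hk2 h).2
  have hN0 : (0 : ℝ) < N := by
    have : 0 < N := by omega
    exact_mod_cast this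
  have hk0 : (1 : ℝ) ≤ k := by exact_mod_cast hk
  have hNr : (N : ℝ) ≤ 200 := by exact_mod_cast hN2
  have hk2r : 2 * (k : ℝ) ≤ N := by exact_mod_cast hk2
  set α : ℝ := π * k / N with hα
  have hpi := Real.pi_pos
  have hα0 : 0 < α := by positivity
  have hα1 : α ≤ π / 2 := by
    rw [hα, div_le_div_iff₀ hN0 (by norm_num)]
    nlinarith
  have h1 := Real.mul_le_sin hα0.le hα1
  have h2 : (1 : ℝ) / 100 ≤ sin α := by
    have : 2 / π * α = 2 * k / N := by
      rw [hα]; field_simp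
    rw [this] at h1
    refine le_trans ?_ h1
    rw [div_le_div_iff₀ (by norm_num) hN0]
    nlinarith
  have h3 : F (2 * α) ≤ 2500 := by
    unfold F
    have e1 : 2 * α / 2 = α := by ring
    rw [e1, div_le_iff₀ (by positivity)]
    have := Real.cos_le_one α
    nlinarith
  have h4 : (lvF l : ℝ) ≤ 2 ^ 55 := by
    have h5 := (abs_le.mp hs).1
    have e : (2 : ℝ) ^ 55 = 36028797018963968 := by norm_num
    have e2 : (2 : ℝ) ^ 40 = 1099511627776 := by norm_num
    rw [e]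
    rw [e2] at h5
    linarith
  exact_mod_cast h4



def fld (sh c : Nat) : Nat := Nat.land (Nat.shiftRight c sh) M32

lemma cndB {b x : Bool} (h : (@Bool.rec (fun _ => Bool) false x b) = true) : b = true ∧ x = true := by
  cases b
  · exact absurd h (by simp)
  · exact ⟨rfl, h⟩

noncomputable def levelsG (P : Nat → Nat → Bool) (lv : List Nat) : Nat → Bool :=
  @List.rec Nat (fun _ => Nat → Bool) (fun _ => true)
    (fun l _ ih k => (@Bool.rec (fun _ => Bool) false (ih (Nat.succ k)) (P k l))) lv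

lemma levelsG_get (P : ℕ → ℕ → Bool) : ∀ (lv : List ℕ) (k : ℕ), levelsG P lv k = true →
    ∀ i < lv.length, P (k + i) (lv.getD i 0) = true := by
  intro lv
  induction lv with
  | nil => intro k _ i hi; simp at hi
  | cons l lv ih =>
    intro k h i hi
    have h' : (@Bool.rec (fun _ => Bool) false (levelsG P lv (Nat.succ k)) (P k l)) = true := h
    obtain ⟨h1, h2⟩ := cndB h'
    cases i with
    | zero => simpa using h1
    | succ i =>
      have := ih (Nat.succ k) h2 i (by simpa using hi)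
      have e : Nat.succ k + i = k + (i + 1) := by omega
      rw [e] at this
      simpa using this

lemma levels_get {N : ℕ} (lv : List ℕ) (k : ℕ) (h : levelsOk N lv k = true) :
    ∀ i < lv.length, alphaOk N (k + i) (lv.getD i 0) = true := by
  have e : levelsOk N lv = levelsG (alphaOk N) lv := rfl
  rw [e] at h
  exact levelsG_get _ lv k h

noncomputable def nodeG (C : Nat → Nat → Nat → Bool) (A F : Nat → Nat) (lv : List Nat) : List Nat → Bool :=
  @List.rec Nat (fun _ => List Nat → Bool) (fun cs => @List.rec Nat (fun _ => Bool) true (fun _ _ _ => false) cs)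
    (fun l _ ih cs => @List.rec Nat (fun _ => Bool) false
      (fun c cs' _ => (@Bool.rec (fun _ => Bool) false (ih cs') (C (A l) (F l) c))) cs) lv

lemma nodeG_get (C : ℕ → ℕ → ℕ → Bool) (A F : ℕ → ℕ) : ∀ (lv cs : List ℕ), nodeG C A F lv cs = true →
    cs.length = lv.length ∧ ∀ i < lv.length, C (A (lv.getD i 0)) (F (lv.getD i 0)) (cs.getD i 0) = true := by
  intro lv
  induction lv with
  | nil =>
    intro cs h
    cases cs with
    | nil => simp
    | cons c cs => exact absurd h (by simp [nodeG])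
  | cons l lv ih =>
    intro cs h
    cases cs with
    | nil => exact absurd h (by simp [nodeG])
    | cons c cs =>
      have h' : (@Bool.rec (fun _ => Bool) false (nodeG C A F lv cs) (C (A l) (F l) c)) = true := h
      obtain ⟨h1, h2⟩ := cndB h'
      obtain ⟨h3, h4⟩ := ih cs h2
      refine ⟨by simp [h3], ?_⟩
      intro i hi
      cases i with
      | zero => simpa using h1
      | succ i =>
        have := h4 i (by simpa using hi)
        simpa using this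

lemma node_get {T R : ℕ} (lv cs : List ℕ) (h : nodeOk T R lv cs = true) :
    cs.length = lv.length ∧ ∀ i < lv.length, certOk T R (lvA (lv.getD i 0)) (lvF (lv.getD i 0)) (cs.getD i 0) = true := by
  have e : nodeOk T R lv = nodeG (certOk T R) lvA lvF lv := rfl
  rw [e] at h
  exact nodeG_get _ _ _ lv cs h

noncomputable def chainG (P : Nat → List Nat → Nat → List Nat → Bool) (Q : Nat → List Nat → List Nat → Bool)
    (lv : List Nat) (nodes : List (Nat × List Nat)) : Nat → List Nat → Bool :=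
  @List.rec (Nat × List Nat) (fun _ => Nat → List Nat → Bool) (fun _ _ => true)
    (fun n _ ih R cs => (@Bool.rec (fun _ => Bool) false (@Bool.rec (fun _ => Bool) false (ih n.1 n.2) (Q n.1 lv n.2)) (P R cs n.1 n.2))) nodes

lemma chainG_cons (P : ℕ → List ℕ → ℕ → List ℕ → Bool) (Q : ℕ → List ℕ → List ℕ → Bool) (lv : List ℕ)
    (n : ℕ × List ℕ) (ns : List (ℕ × List ℕ)) (R : ℕ) (cs : List ℕ) (h : chainG P Q lv (n :: ns) R cs = true) :
    P R cs n.1 n.2 = true ∧ Q n.1 lv n.2 = true ∧ chainG P Q lv ns n.1 n.2 = true := by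
  have h' : (@Bool.rec (fun _ => Bool) false (@Bool.rec (fun _ => Bool) false (chainG P Q lv ns n.1 n.2) (Q n.1 lv n.2))
    (P R cs n.1 n.2)) = true := h
  obtain ⟨h1, h2⟩ := cndB h'
  obtain ⟨h3, h4⟩ := cndB h2
  exact ⟨h1, h3, h4⟩

/-- weight -/
def wt (N k : ℕ) : ℕ := if 2 * k = N then 1 else 2

lemma wsum_eq {sh N : ℕ} : ∀ (cs : List ℕ) (k : ℕ),
    wsum sh N cs k = ∑ i ∈ Finset.range cs.length, wt N (k + i) * fld sh (cs.getD i 0) := by
  intro cs
  induction cs with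
  | nil => intro k; simp [wsum]
  | cons c cs ih =>
    intro k
    have e : wsum sh N (c :: cs) k = Nat.add (Nat.mul (@Bool.rec (fun _ => Nat) 2 1 (Nat.beq (Nat.mul 2 k) N)) (fld sh c)) (wsum sh N cs (Nat.succ k)) := rfl
    rw [e, ih]
    have e2 : (@Bool.rec (fun _ => Nat) 2 1 (Nat.beq (Nat.mul 2 k) N)) = wt N k := by
      unfold wt
      by_cases hk : 2 * k = N
      · have : Nat.beq (Nat.mul 2 k) N = true := by
          rw [show Nat.mul 2 k = N from hk]; exact Nat.beq_refl N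
        rw [this, if_pos hk]
      · have : Nat.beq (Nat.mul 2 k) N = false := by
          rw [Bool.eq_false_iff]
          intro h
          exact hk (Nat.eq_of_beq_eq_true h)
        rw [this, if_neg hk]
    rw [e2]
    simp only [Nat.add_eq, Nat.mul_eq, List.length_cons]
    rw [Finset.sum_range_succ']
    simp only [List.getD_cons_succ, List.getD_cons_zero, Nat.add_zero]
    rw [add_comm]
    congr 1
    apply Finset.sum_congr rfl
    intro i _
    have : Nat.succ k + i = k + (i + 1) := by omega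
    rw [this]


lemma sum_wt (N : ℕ) (B : ℕ → ℝ) (hN : 3 ≤ N) :
    2 * ∑ k ∈ Finset.Icc 1 ((N - 1) / 2), B k + (if N % 2 = 0 then B (N / 2) else 0) =
      ∑ i ∈ Finset.range (N / 2), (wt N (1 + i) : ℝ) * B (1 + i) := by
  have hI : ∀ M : ℕ, ∑ k ∈ Finset.Icc 1 M, B k = ∑ i ∈ Finset.range M, B (1 + i) := by
    intro M
    have : Finset.Icc 1 M = Finset.Ico 1 (M + 1) := by
      ext x; rw [Finset.mem_Icc, Finset.mem_Ico]; omega
    rw [this, Finset.sum_Ico_eq_sum_range]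
    simp
  rw [hI]
  rcases Nat.even_or_odd' N with ⟨m, hm | hm⟩
  · obtain ⟨m', rfl⟩ : ∃ m', m = m' + 1 := ⟨m - 1, by omega⟩
    have e1 : (N - 1) / 2 = m' := by omega
    have e2 : N / 2 = m' + 1 := by omega
    have e3 : N % 2 = 0 := by omega
    rw [e1, e2, if_pos e3, Finset.sum_range_succ, Finset.mul_sum]
    congr 1
    · apply Finset.sum_congr rfl
      intro i hi
      rw [Finset.mem_range] at hi
      have : wt N (1 + i) = 2 := by
        unfold wt; rw [if_neg]; omega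
      rw [this]; norm_num
    · have : wt N (1 + m') = 1 := by
        unfold wt; rw [if_pos]; omega
      rw [this, add_comm m' 1]; norm_num
  · have e1 : (N - 1) / 2 = m := by omega
    have e2 : N / 2 = m := by omega
    have e3 : ¬ N % 2 = 0 := by omega
    rw [e1, e2, if_neg e3, Finset.mul_sum, add_zero]
    apply Finset.sum_congr rfl
    intro i hi
    have : wt N (1 + i) = 2 := by
      unfold wt; rw [if_neg]; omega
    rw [this]; norm_num

lemma quad_pos {a b d t : ℝ} (ha : 1 ≤ a) (hb : 1 ≤ b) (hd : d * d < 4 * (a * b)) (t0 : 0 ≤ t) (t1 : t ≤ 1) :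
    0 < (1 - t) ^ 2 * a + t ^ 2 * b - t * (1 - t) * d := by
  by_contra hX
  push Not at hX
  have h1 : a * ((1 - t) ^ 2 * a + t ^ 2 * b - t * (1 - t) * d) ≤ 0 := by
    apply mul_nonpos_of_nonneg_of_nonpos (by linarith) hX
  have h2 : a * ((1 - t) ^ 2 * a + t ^ 2 * b - t * (1 - t) * d) =
      ((1 - t) * a - t * d / 2) ^ 2 + t ^ 2 * (a * b - d * d / 4) := by ring
  rw [h2] at h1
  have h3 : 0 < a * b - d * d / 4 := by linarith
  have h4 : 0 ≤ ((1 - t) * a - t * d / 2) ^ 2 := sq_nonneg _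
  have h5 : t ^ 2 * (a * b - d * d / 4) = 0 := by
    have : 0 ≤ t ^ 2 * (a * b - d * d / 4) := by positivity
    linarith
  have h6 : t = 0 := by
    rcases mul_eq_zero.mp h5 with h | h
    · exact pow_eq_zero_iff (by norm_num) |>.mp h
    · linarith
  subst h6
  nlinarith

noncomputable def lamq (cs : List ℕ) (k : ℕ) : ℝ := ((clp (cs.getD (k - 1) 0) : ℝ) - clm (cs.getD (k - 1) 0)) / 2 ^ 16
noncomputable def ekq (cs : List ℕ) (k : ℕ) : ℝ := (ce (cs.getD (k - 1) 0) : ℝ) / 2 ^ 16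

lemma sum_lamq {N : ℕ} {cs : List ℕ} (hl : cs.length = N / 2) :
    ∑ i ∈ Finset.range (N / 2), (wt N (1 + i) : ℝ) * lamq cs (1 + i) =
      ((wsum 32 N cs 1 : ℝ) - wsum 64 N cs 1) / 2 ^ 16 := by
  rw [wsum_eq, wsum_eq, hl]
  push_cast
  rw [← Finset.sum_sub_distrib, Finset.sum_div]
  apply Finset.sum_congr rfl
  intro i _
  have e : 1 + i - 1 = i := by omega
  have e1 : clp (cs.getD i 0) = fld 32 (cs.getD i 0) := rfl
  have e2 : clm (cs.getD i 0) = fld 64 (cs.getD i 0) := rfl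
  unfold lamq
  rw [e, e1, e2]
  ring

lemma sum_ekq {N : ℕ} {cs : List ℕ} (hl : cs.length = N / 2) :
    ∑ i ∈ Finset.range (N / 2), (wt N (1 + i) : ℝ) * ekq cs (1 + i) =
      (wsum 0 N cs 1 : ℝ) / 2 ^ 16 := by
  rw [wsum_eq, hl]
  push_cast
  rw [Finset.sum_div]
  apply Finset.sum_congr rfl
  intro i _
  have e : 1 + i - 1 = i := by omega
  have e1 : ce (cs.getD i 0) = fld 0 (cs.getD i 0) := rfl
  unfold ekq
  rw [e, e1]
  ring

/-- validity of a node -/
def Vld (N R : ℕ) (cs : List ℕ) : Prop :=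
  ∀ k, 1 ≤ k → 2 * k ≤ N → ∃ nu kap A : ℝ, ∀ x : ℝ, 0 < x → x < π → ∀ c : ℝ, |c| ≤ 1 →
    0 ≤ Psi ((R : ℝ) / 2 ^ 16) (π * k / N) (lamq cs k) nu kap A (ekq cs k) x c

lemma nodeB_cast {N R : ℕ} {cs : List ℕ} (h : 1 ≤ nodeB N R cs) :
    (nodeB N R cs : ℝ) = (wsum 32 N cs 1 : ℝ) * R - wsum 64 N cs 1 * R - 65536 * wsum 0 N cs 1 := by
  have e : nodeB N R cs = wsum 32 N cs 1 * R - (wsum 64 N cs 1 * R + 65536 * wsum 0 N cs 1) := rfl
  rw [e] at h ⊢
  rw [Nat.cast_sub (by omega)]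
  push_cast
  ring

lemma pair_unfold {N R1 R2 : ℕ} {cs1 cs2 : List ℕ} (h : pairOk N R1 cs1 R2 cs2 = true) :
    R1 < R2 ∧ 1 ≤ nodeB N R1 cs1 ∧ 1 ≤ nodeB N R2 cs2 ∧ ∃ D : ℕ, D * D < 4 * (nodeB N R1 cs1 * nodeB N R2 cs2) ∧
      (wsum 32 N cs2 1 + wsum 64 N cs1 1) * (R2 - R1) ≤
        D + (nodeB N R1 cs1 + (nodeB N R2 cs2 + (wsum 64 N cs2 1 + wsum 32 N cs1 1) * (R2 - R1))) := by
  unfold pairOk at h
  obtain ⟨h1, h⟩ := cndB h
  obtain ⟨h2, h⟩ := cndB h
  obtain ⟨h3, h⟩ := cndB h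
  refine ⟨Nat.le_of_ble_eq_true h1, Nat.le_of_ble_eq_true h2, Nat.le_of_ble_eq_true h3,
    (wsum 32 N cs2 1 + wsum 64 N cs1 1) * (R2 - R1) -
      (nodeB N R1 cs1 + (nodeB N R2 cs2 + (wsum 64 N cs2 1 + wsum 32 N cs1 1) * (R2 - R1))), ?_, ?_⟩
  · exact Nat.le_of_ble_eq_true h
  · omega

lemma pair_step {N : ℕ} (hN : 3 ≤ N) {cs1 cs2 : List ℕ} {Ra Rb : ℕ} (hl1 : cs1.length = N / 2)
    (hl2 : cs2.length = N / 2) (hV1 : Vld N Ra cs1) (hV2 : Vld N Rb cs2)
    (hpair : pairOk N Ra cs1 Rb cs2 = true)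
    {θ : ℕ → ℝ} (hmono : StrictMono θ) (hper : ∀ i, θ (i + N) = θ i + 2 * π) {r : ℝ}
    (hsin : ∑ i ∈ Finset.range N, sin (θ i) = 0) (hcos : ∑ i ∈ Finset.range N, cos (θ i) = r)
    (heq : ∀ i, ∑ k ∈ Finset.Ico 1 N, F (dd θ i k) = -r * sin (θ i))
    (h0 : (Ra : ℝ) / 2 ^ 16 ≤ r / N) (h1 : r / N ≤ (Rb : ℝ) / 2 ^ 16) : False := by
  obtain ⟨hab, hA, hB, D, hD, hD2⟩ := pair_unfold hpair
  have cA := nodeB_cast hA
  have cB := nodeB_cast hB
  set nA := nodeB N Ra cs1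
  set nB := nodeB N Rb cs2
  set a32 := wsum 32 N cs1 1
  set a64 := wsum 64 N cs1 1
  set a0 := wsum 0 N cs1 1
  set b32 := wsum 32 N cs2 1
  set b64 := wsum 64 N cs2 1
  set b0 := wsum 0 N cs2 1
  have habr : (Ra : ℝ) < Rb := by exact_mod_cast hab
  have hDr : (D : ℝ) * D < 4 * (nA * nB) := by exact_mod_cast hD
  have hD2r : ((b32 : ℝ) + a64) * (Rb - Ra) ≤ D + (nA + (nB + (b64 + a32) * (Rb - Ra))) := by
    have : (((b32 + a64) * (Rb - Ra) : ℕ) : ℝ) ≤ ((D + (nA + (nB + (b64 + a32) * (Rb - Ra))) : ℕ) : ℝ) := by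
      exact_mod_cast hD2
    push_cast [Nat.cast_sub hab.le] at this
    exact this
  have hAr : (1 : ℝ) ≤ nA := by exact_mod_cast hA
  have hBr : (1 : ℝ) ≤ nB := by exact_mod_cast hB
  set ρ := r / N with hρ
  obtain ⟨t, t0, t1, ht⟩ : ∃ t : ℝ, 0 ≤ t ∧ t ≤ 1 ∧ ρ * 2 ^ 16 = (1 - t) * Ra + t * Rb := by
    refine ⟨(ρ * 2 ^ 16 - Ra) / (Rb - Ra), ?_, ?_, ?_⟩
    · apply div_nonneg
      · rw [div_le_iff₀ (by norm_num)] at h0; linarith
      · linarith
    · rw [div_le_one (by linarith)]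
      rw [le_div_iff₀ (by norm_num)] at h1; linarith
    · have : (Rb : ℝ) - Ra ≠ 0 := by linarith
      field_simp
      ring
  have key : ∀ k, 1 ≤ k → 2 * k ≤ N →
      N * (((1 - t) * lamq cs1 k + t * lamq cs2 k) * ρ - ((1 - t) * ekq cs1 k + t * ekq cs2 k)) ≤ TT N θ r k := by
    intro k hk hk2
    obtain ⟨nu1, kap1, A1, H1⟩ := hV1 k hk hk2
    obtain ⟨nu2, kap2, A2, H2⟩ := hV2 k hk hk2
    refine TT_lower hmono hper hcos (k := k) (by rw [Finset.mem_Ico]; omega)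
      (nu := (1 - t) * nu1 + t * nu2) (kap := (1 - t) * kap1 + t * kap2) (A := (1 - t) * A1 + t * A2) ?_
    intro x hx hx2 c hc
    have e : Psi (r / N) (π * k / N) ((1 - t) * lamq cs1 k + t * lamq cs2 k) ((1 - t) * nu1 + t * nu2)
        ((1 - t) * kap1 + t * kap2) ((1 - t) * A1 + t * A2) ((1 - t) * ekq cs1 k + t * ekq cs2 k) x c =
        (1 - t) * Psi ((Ra : ℝ) / 2 ^ 16) (π * k / N) (lamq cs1 k) nu1 kap1 A1 (ekq cs1 k) x c +
        t * Psi ((Rb : ℝ) / 2 ^ 16) (π * k / N) (lamq cs2 k) nu2 kap2 A2 (ekq cs2 k) x c := by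
      have hr : r / N = ((1 - t) * Ra + t * Rb) / 2 ^ 16 := by
        rw [← hρ, ← ht]; norm_num
      unfold Psi
      rw [hr]
      ring
    rw [e]
    have p1 := H1 x hx hx2 c hc
    have p2 := H2 x hx hx2 c hc
    have : 0 ≤ 1 - t := by linarith
    positivity
  have hc := TT_contra (by omega) hper hsin heq
    (fun k => ((1 - t) * lamq cs1 k + t * lamq cs2 k) * ρ - ((1 - t) * ekq cs1 k + t * ekq cs2 k)) key
  rw [sum_wt N _ hN] at hc
  have e : ∑ i ∈ Finset.range (N / 2), (wt N (1 + i) : ℝ) *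
      (((1 - t) * lamq cs1 (1 + i) + t * lamq cs2 (1 + i)) * ρ - ((1 - t) * ekq cs1 (1 + i) + t * ekq cs2 (1 + i))) =
      (1 - t) * ρ * ∑ i ∈ Finset.range (N / 2), (wt N (1 + i) : ℝ) * lamq cs1 (1 + i) +
      t * ρ * ∑ i ∈ Finset.range (N / 2), (wt N (1 + i) : ℝ) * lamq cs2 (1 + i) -
      (1 - t) * ∑ i ∈ Finset.range (N / 2), (wt N (1 + i) : ℝ) * ekq cs1 (1 + i) -
      t * ∑ i ∈ Finset.range (N / 2), (wt N (1 + i) : ℝ) * ekq cs2 (1 + i) := by
    simp only [Finset.mul_sum]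
    rw [← Finset.sum_add_distrib, ← Finset.sum_sub_distrib, ← Finset.sum_sub_distrib]
    apply Finset.sum_congr rfl
    intro i _
    ring
  rw [e, sum_lamq hl1, sum_lamq hl2, sum_ekq hl1, sum_ekq hl2] at hc
  have hq := quad_pos hAr hBr hDr t0 t1
  have hm : 2 ^ 32 * ((1 - t) * ρ * (((a32 : ℝ) - a64) / 2 ^ 16) + t * ρ * (((b32 : ℝ) - b64) / 2 ^ 16) -
      (1 - t) * ((a0 : ℝ) / 2 ^ 16) - t * ((b0 : ℝ) / 2 ^ 16)) =
      (1 - t) * (ρ * 2 ^ 16) * (a32 - a64) + t * (ρ * 2 ^ 16) * (b32 - b64) - (1 - t) * (65536 * a0) - t * (65536 * b0) := by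
    ring
  have hle : (1 - t) * (ρ * 2 ^ 16) * (a32 - a64) + t * (ρ * 2 ^ 16) * (b32 - b64) - (1 - t) * (65536 * a0) -
      t * (65536 * b0) ≤ 0 := by
    rw [← hm]
    exact mul_nonpos_of_nonneg_of_nonpos (by norm_num) hc
  rw [ht] at hle
  have hid : (1 - t) * ((1 - t) * Ra + t * Rb) * ((a32 : ℝ) - a64) + t * ((1 - t) * Ra + t * Rb) * (b32 - b64) -
      (1 - t) * (65536 * a0) - t * (65536 * b0) =
      ((1 - t) ^ 2 * nA + t ^ 2 * nB - t * (1 - t) * D) + t * (1 - t) *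
        (D + (nA + (nB + (b64 + a32) * (Rb - Ra))) - ((b32 : ℝ) + a64) * (Rb - Ra)) := by
    rw [cA, cB]
    ring
  rw [hid] at hle
  have : 0 ≤ t * (1 - t) * (D + (nA + (nB + (b64 + a32) * (Rb - Ra))) - ((b32 : ℝ) + a64) * (Rb - Ra)) := by
    apply mul_nonneg
    · exact mul_nonneg t0 (by linarith)
    · linarith
  linarith

lemma node_vld {T : ℕ} (hT : ∀ g, 0 < fX (ent T g) → Ent (ent T g)) {N : ℕ} (hN : 3 ≤ N) (hN2 : N ≤ 200)
    {lv : List ℕ} (hlen : lv.length = N / 2) (hlev : levelsOk N lv 1 = true) {R : ℕ} (hR : R ≤ 65536)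
    {cs : List ℕ} (h : nodeOk T R lv cs = true) : cs.length = N / 2 ∧ Vld N R cs := by
  obtain ⟨h1, h2⟩ := node_get lv cs h
  refine ⟨by rw [h1, hlen], ?_⟩
  intro k hk hk2
  have hkl : k - 1 < lv.length := by omega
  have ha := levels_get lv 1 hlev (k - 1) hkl
  have e : 1 + (k - 1) = k := by omega
  rw [e] at ha
  have hs := alphaOk_sound (by omega) hk hk2 ha
  have hF := lvF_le (by omega) hN2 hk hk2 ha
  have hc := h2 (k - 1) hkl
  have hN0 : (0 : ℝ) < N := by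
    have : 0 < N := by omega
    exact_mod_cast this
  have hk0 : (1 : ℝ) ≤ k := by exact_mod_cast hk
  have hk2r : 2 * (k : ℝ) ≤ N := by exact_mod_cast hk2
  have hpi := Real.pi_pos
  have hα0 : 0 < π * k / N := by positivity
  have hα1 : π * k / N < π := by
    rw [div_lt_iff₀ hN0]
    nlinarith
  have := certOk_sound hT hR hα0 hα1 hs.1 hs.2 hF hc
  exact ⟨_, _, _, this⟩

lemma chain_contra {T : ℕ} (hT : ∀ g, 0 < fX (ent T g) → Ent (ent T g)) {N : ℕ} (hN : 3 ≤ N) (hN2 : N ≤ 200)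
    {lv : List ℕ} (hlen : lv.length = N / 2) (hlev : levelsOk N lv 1 = true)
    {θ : ℕ → ℝ} (hmono : StrictMono θ) (hper : ∀ i, θ (i + N) = θ i + 2 * π) {r : ℝ}
    (hsin : ∑ i ∈ Finset.range N, sin (θ i) = 0) (hcos : ∑ i ∈ Finset.range N, cos (θ i) = r)
    (heq : ∀ i, ∑ k ∈ Finset.Ico 1 N, F (dd θ i k) = -r * sin (θ i)) {R1 : ℕ}
    (h1 : r / N ≤ (R1 : ℝ) / 2 ^ 16) : ∀ (nodes : List (ℕ × List ℕ)) (R0 : ℕ) (cs0 : List ℕ),
    nodeOk T R0 lv cs0 = true → chainG (pairOk N) (nodeOk T) lv nodes R0 cs0 = true →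
    (nodes.map Prod.fst).getLast? = some R1 → (∀ n ∈ nodes, n.1 ≤ 65536) →
    (R0 : ℝ) / 2 ^ 16 ≤ r / N → False := by
  intro nodes
  induction nodes with
  | nil => intro R0 cs0 _ _ h; simp at h
  | cons n ns ih =>
    intro R0 cs0 hn hch hlast hall h0
    obtain ⟨hp, hq, hch'⟩ := chainG_cons _ _ _ _ _ _ _ hch
    have hnR : n.1 ≤ 65536 := hall n (by simp)
    have hlt := (pair_unfold hp).1
    by_cases hle : r / N ≤ (n.1 : ℝ) / 2 ^ 16
    · obtain ⟨l1, v1⟩ := node_vld hT hN hN2 hlen hlev (by omega) hn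
      obtain ⟨l2, v2⟩ := node_vld hT hN hN2 hlen hlev hnR hq
      exact pair_step hN l1 l2 v1 v2 hp hmono hper hsin hcos heq h0 hle
    · push Not at hle
      cases ns with
      | nil =>
        simp at hlast
        rw [← hlast] at h1
        linarith
      | cons m ms =>
        refine ih n.1 n.2 hq hch' ?_ ?_ hle.le
        · simpa using hlast
        · intro a ha
          exact hall a (by simp at ha ⊢; right; exact ha)

/-- TARGET 2: the chain of nodes gives a contradiction for `r / N` between the first and the last node -/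
theorem eng2_sound {T : ℕ} (hT : ∀ g, 0 < fX (ent T g) → Ent (ent T g)) {N : ℕ} (hN : 3 ≤ N) (hN2 : N ≤ 200)
    {lv : List ℕ} {R0 : ℕ} {cs0 : List ℕ} {nodes : List (ℕ × List ℕ)}
    (h : eng2Ok T N lv R0 cs0 nodes = true)
    {R1 : ℕ} (hlast : (nodes.map Prod.fst).getLast? = some R1) (hR1 : ∀ n ∈ nodes, n.1 ≤ 65536)
    {θ : ℕ → ℝ} (hmono : StrictMono θ) (hper : ∀ i, θ (i + N) = θ i + 2 * π) {r : ℝ}
    (hsin : ∑ i ∈ Finset.range N, sin (θ i) = 0) (hcos : ∑ i ∈ Finset.range N, cos (θ i) = r)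
    (heq : ∀ i, ∑ k ∈ Finset.Ico 1 N, F (dd θ i k) = -r * sin (θ i))
    (h0 : (R0 : ℝ) / 2 ^ 16 ≤ r / N) (h1 : r / N ≤ (R1 : ℝ) / 2 ^ 16) : False := by
  unfold eng2Ok at h
  obtain ⟨g1, h⟩ := cndB h
  obtain ⟨g2, h⟩ := cndB h
  obtain ⟨g3, g4⟩ := cndB h
  have hlen : lv.length = N / 2 := Nat.eq_of_beq_eq_true g1
  have e : chainOk T N lv nodes = chainG (pairOk N) (nodeOk T) lv nodes := rfl
  rw [e] at g4
  exact chain_contra hT hN hN2 hlen g2 hmono hper hsin hcos heq h1 nodes R0 cs0 g3 g4 hlast hR1 h0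

end Pool.Agent.H443CC

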