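import Pool.Agent.H443CC.Eng2T
import Pool.Agent.H443CC.Tab2Data

namespace Pool.Agent.H443CC

set_option maxRecDepth 1000000 in
theorem tab2k : tab2Ok T2 615 = true := by decide +kernel

set_option maxRecDepth 1000000 in
theorem tab3k : tab2Ok T3 864 = true := by decide +kernel

theorem T2_ok : ∀ g, 0 < fX (ent T2 g) → Ent (ent T2 g) := tab2Ok_sound tab2k

theorem T3_ok : ∀ g, 0 < fX (ent T3 g) → Ent (ent T3 g) := tab2Ok_sound tab3k

end Pool.Agent.H443CC
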