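import Pool.Agent.H443CC.LPRange
import Pool.Agent.H443CC.Tab2Ok
import Pool.Agent.H443CC.E2D0
import Pool.Agent.H443CC.E2D1
import Pool.Agent.H443CC.E2D2
import Pool.Agent.H443CC.E2D3
import Pool.Agent.H443CC.E2D4
import Pool.Agent.H443CC.E2D5
import Pool.Agent.H443CC.E2D6
import Pool.Agent.H443CC.E2D7
import Pool.Agent.H443CC.E2D8
import Pool.Agent.H443CC.E2D9

/-!
# The duality engine applied to `9 ≤ N ≤ 84`
-/

open Real

namespace Pool.Agent.H443CC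

lemma lp9 {θ : ℕ → ℝ} (hmono : StrictMono θ) (hper : ∀ i, θ (i + 9) = θ i + 2 * π) {r : ℝ} (hr : 0 < r)
    (hsin : ∑ i ∈ Finset.range 9, sin (θ i) = 0) (hcos : ∑ i ∈ Finset.range 9, cos (θ i) = r)
    (heq : ∀ i, ∑ k ∈ Finset.Ico 1 9, F (dd θ i k) = -r * sin (θ i))
    (h1 : r / (9 : ℕ) ≤ ((6500 : ℕ) : ℝ) / 2 ^ 16) : False :=
  lp_range T3_ok (by norm_num) (by norm_num) chk9 rfl (by decide) (Q := 11339) (by decide) hmono hper hr hsin hcos heq h1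

lemma lp10 {θ : ℕ → ℝ} (hmono : StrictMono θ) (hper : ∀ i, θ (i + 10) = θ i + 2 * π) {r : ℝ} (hr : 0 < r)
    (hsin : ∑ i ∈ Finset.range 10, sin (θ i) = 0) (hcos : ∑ i ∈ Finset.range 10, cos (θ i) = r)
    (heq : ∀ i, ∑ k ∈ Finset.Ico 1 10, F (dd θ i k) = -r * sin (θ i))
    (h1 : r / (10 : ℕ) ≤ ((9437 : ℕ) : ℝ) / 2 ^ 16) : False :=
  lp_range T3_ok (by norm_num) (by norm_num) chk10 rfl (by decide) (Q := 11181) (by decide) hmono hper hr hsin hcos heq h1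

lemma lp11 {θ : ℕ → ℝ} (hmono : StrictMono θ) (hper : ∀ i, θ (i + 11) = θ i + 2 * π) {r : ℝ} (hr : 0 < r)
    (hsin : ∑ i ∈ Finset.range 11, sin (θ i) = 0) (hcos : ∑ i ∈ Finset.range 11, cos (θ i) = r)
    (heq : ∀ i, ∑ k ∈ Finset.Ico 1 11, F (dd θ i k) = -r * sin (θ i))
    (h1 : r / (11 : ℕ) ≤ ((14000 : ℕ) : ℝ) / 2 ^ 16) : False :=
  lp_range T3_ok (by norm_num) (by norm_num) chk11 rfl (by decide) (Q := 11056) (by decide) hmono hper hr hsin hcos heq h1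

lemma lp12 {θ : ℕ → ℝ} (hmono : StrictMono θ) (hper : ∀ i, θ (i + 12) = θ i + 2 * π) {r : ℝ} (hr : 0 < r)
    (hsin : ∑ i ∈ Finset.range 12, sin (θ i) = 0) (hcos : ∑ i ∈ Finset.range 12, cos (θ i) = r)
    (heq : ∀ i, ∑ k ∈ Finset.Ico 1 12, F (dd θ i k) = -r * sin (θ i))
    (h1 : r / (12 : ℕ) ≤ ((20000 : ℕ) : ℝ) / 2 ^ 16) : False :=
  lp_range T3_ok (by norm_num) (by norm_num) chk12 rfl (by decide) (Q := 10955) (by decide) hmono hper hr hsin hcos heq h1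

lemma lp13 {θ : ℕ → ℝ} (hmono : StrictMono θ) (hper : ∀ i, θ (i + 13) = θ i + 2 * π) {r : ℝ} (hr : 0 < r)
    (hsin : ∑ i ∈ Finset.range 13, sin (θ i) = 0) (hcos : ∑ i ∈ Finset.range 13, cos (θ i) = r)
    (heq : ∀ i, ∑ k ∈ Finset.Ico 1 13, F (dd θ i k) = -r * sin (θ i))
    (h1 : r / (13 : ℕ) ≤ ((65536 : ℕ) : ℝ) / 2 ^ 16) : False :=
  lp_range T2_ok (by norm_num) (by norm_num) chk13 rfl (by decide) (Q := 10872) (by decide) hmono hper hr hsin hcos heq h1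

lemma lp14 {θ : ℕ → ℝ} (hmono : StrictMono θ) (hper : ∀ i, θ (i + 14) = θ i + 2 * π) {r : ℝ} (hr : 0 < r)
    (hsin : ∑ i ∈ Finset.range 14, sin (θ i) = 0) (hcos : ∑ i ∈ Finset.range 14, cos (θ i) = r)
    (heq : ∀ i, ∑ k ∈ Finset.Ico 1 14, F (dd θ i k) = -r * sin (θ i))
    (h1 : r / (14 : ℕ) ≤ ((65536 : ℕ) : ℝ) / 2 ^ 16) : False :=
  lp_range T2_ok (by norm_num) (by norm_num) chk14 rfl (by decide) (Q := 10802) (by decide) hmono hper hr hsin hcos heq h1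

lemma lp15 {θ : ℕ → ℝ} (hmono : StrictMono θ) (hper : ∀ i, θ (i + 15) = θ i + 2 * π) {r : ℝ} (hr : 0 < r)
    (hsin : ∑ i ∈ Finset.range 15, sin (θ i) = 0) (hcos : ∑ i ∈ Finset.range 15, cos (θ i) = r)
    (heq : ∀ i, ∑ k ∈ Finset.Ico 1 15, F (dd θ i k) = -r * sin (θ i))
    (h1 : r / (15 : ℕ) ≤ ((65536 : ℕ) : ℝ) / 2 ^ 16) : False :=
  lp_range T2_ok (by norm_num) (by norm_num) chk15 rfl (by decide) (Q := 10742) (by decide) hmono hper hr hsin hcos heq h1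

lemma lp16 {θ : ℕ → ℝ} (hmono : StrictMono θ) (hper : ∀ i, θ (i + 16) = θ i + 2 * π) {r : ℝ} (hr : 0 < r)
    (hsin : ∑ i ∈ Finset.range 16, sin (θ i) = 0) (hcos : ∑ i ∈ Finset.range 16, cos (θ i) = r)
    (heq : ∀ i, ∑ k ∈ Finset.Ico 1 16, F (dd θ i k) = -r * sin (θ i))
    (h1 : r / (16 : ℕ) ≤ ((65536 : ℕ) : ℝ) / 2 ^ 16) : False :=
  lp_range T2_ok (by norm_num) (by norm_num) chk16 rfl (by decide) (Q := 10691) (by decide) hmono hper hr hsin hcos heq h1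

lemma lp17 {θ : ℕ → ℝ} (hmono : StrictMono θ) (hper : ∀ i, θ (i + 17) = θ i + 2 * π) {r : ℝ} (hr : 0 < r)
    (hsin : ∑ i ∈ Finset.range 17, sin (θ i) = 0) (hcos : ∑ i ∈ Finset.range 17, cos (θ i) = r)
    (heq : ∀ i, ∑ k ∈ Finset.Ico 1 17, F (dd θ i k) = -r * sin (θ i))
    (h1 : r / (17 : ℕ) ≤ ((65536 : ℕ) : ℝ) / 2 ^ 16) : False :=
  lp_range T2_ok (by norm_num) (by norm_num) chk17 rfl (by decide) (Q := 10646) (by decide) hmono hper hr hsin hcos heq h1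

lemma lp18 {θ : ℕ → ℝ} (hmono : StrictMono θ) (hper : ∀ i, θ (i + 18) = θ i + 2 * π) {r : ℝ} (hr : 0 < r)
    (hsin : ∑ i ∈ Finset.range 18, sin (θ i) = 0) (hcos : ∑ i ∈ Finset.range 18, cos (θ i) = r)
    (heq : ∀ i, ∑ k ∈ Finset.Ico 1 18, F (dd θ i k) = -r * sin (θ i))
    (h1 : r / (18 : ℕ) ≤ ((65536 : ℕ) : ℝ) / 2 ^ 16) : False :=
  lp_range T2_ok (by norm_num) (by norm_num) chk18 rfl (by decide) (Q := 10607) (by decide) hmono hper hr hsin hcos heq h1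

lemma lp19 {θ : ℕ → ℝ} (hmono : StrictMono θ) (hper : ∀ i, θ (i + 19) = θ i + 2 * π) {r : ℝ} (hr : 0 < r)
    (hsin : ∑ i ∈ Finset.range 19, sin (θ i) = 0) (hcos : ∑ i ∈ Finset.range 19, cos (θ i) = r)
    (heq : ∀ i, ∑ k ∈ Finset.Ico 1 19, F (dd θ i k) = -r * sin (θ i))
    (h1 : r / (19 : ℕ) ≤ ((65536 : ℕ) : ℝ) / 2 ^ 16) : False :=
  lp_range T2_ok (by norm_num) (by norm_num) chk19 rfl (by decide) (Q := 10572) (by decide) hmono hper hr hsin hcos heq h1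

lemma lp20 {θ : ℕ → ℝ} (hmono : StrictMono θ) (hper : ∀ i, θ (i + 20) = θ i + 2 * π) {r : ℝ} (hr : 0 < r)
    (hsin : ∑ i ∈ Finset.range 20, sin (θ i) = 0) (hcos : ∑ i ∈ Finset.range 20, cos (θ i) = r)
    (heq : ∀ i, ∑ k ∈ Finset.Ico 1 20, F (dd θ i k) = -r * sin (θ i))
    (h1 : r / (20 : ℕ) ≤ ((65536 : ℕ) : ℝ) / 2 ^ 16) : False :=
  lp_range T2_ok (by norm_num) (by norm_num) chk20 rfl (by decide) (Q := 10541) (by decide) hmono hper hr hsin hcos heq h1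

lemma lp21 {θ : ℕ → ℝ} (hmono : StrictMono θ) (hper : ∀ i, θ (i + 21) = θ i + 2 * π) {r : ℝ} (hr : 0 < r)
    (hsin : ∑ i ∈ Finset.range 21, sin (θ i) = 0) (hcos : ∑ i ∈ Finset.range 21, cos (θ i) = r)
    (heq : ∀ i, ∑ k ∈ Finset.Ico 1 21, F (dd θ i k) = -r * sin (θ i))
    (h1 : r / (21 : ℕ) ≤ ((65536 : ℕ) : ℝ) / 2 ^ 16) : False :=
  lp_range T2_ok (by norm_num) (by norm_num) chk21 rfl (by decide) (Q := 10514) (by decide) hmono hper hr hsin hcos heq h1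

lemma lp22 {θ : ℕ → ℝ} (hmono : StrictMono θ) (hper : ∀ i, θ (i + 22) = θ i + 2 * π) {r : ℝ} (hr : 0 < r)
    (hsin : ∑ i ∈ Finset.range 22, sin (θ i) = 0) (hcos : ∑ i ∈ Finset.range 22, cos (θ i) = r)
    (heq : ∀ i, ∑ k ∈ Finset.Ico 1 22, F (dd θ i k) = -r * sin (θ i))
    (h1 : r / (22 : ℕ) ≤ ((65536 : ℕ) : ℝ) / 2 ^ 16) : False :=
  lp_range T2_ok (by norm_num) (by norm_num) chk22 rfl (by decide) (Q := 10489) (by decide) hmono hper hr hsin hcos heq h1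

lemma lp23 {θ : ℕ → ℝ} (hmono : StrictMono θ) (hper : ∀ i, θ (i + 23) = θ i + 2 * π) {r : ℝ} (hr : 0 < r)
    (hsin : ∑ i ∈ Finset.range 23, sin (θ i) = 0) (hcos : ∑ i ∈ Finset.range 23, cos (θ i) = r)
    (heq : ∀ i, ∑ k ∈ Finset.Ico 1 23, F (dd θ i k) = -r * sin (θ i))
    (h1 : r / (23 : ℕ) ≤ ((65536 : ℕ) : ℝ) / 2 ^ 16) : False :=
  lp_range T2_ok (by norm_num) (by norm_num) chk23 rfl (by decide) (Q := 10466) (by decide) hmono hper hr hsin hcos heq h1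

lemma lp24 {θ : ℕ → ℝ} (hmono : StrictMono θ) (hper : ∀ i, θ (i + 24) = θ i + 2 * π) {r : ℝ} (hr : 0 < r)
    (hsin : ∑ i ∈ Finset.range 24, sin (θ i) = 0) (hcos : ∑ i ∈ Finset.range 24, cos (θ i) = r)
    (heq : ∀ i, ∑ k ∈ Finset.Ico 1 24, F (dd θ i k) = -r * sin (θ i))
    (h1 : r / (24 : ℕ) ≤ ((65536 : ℕ) : ℝ) / 2 ^ 16) : False :=
  lp_range T2_ok (by norm_num) (by norm_num) chk24 rfl (by decide) (Q := 10445) (by decide) hmono hper hr hsin hcos heq h1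

lemma lp25 {θ : ℕ → ℝ} (hmono : StrictMono θ) (hper : ∀ i, θ (i + 25) = θ i + 2 * π) {r : ℝ} (hr : 0 < r)
    (hsin : ∑ i ∈ Finset.range 25, sin (θ i) = 0) (hcos : ∑ i ∈ Finset.range 25, cos (θ i) = r)
    (heq : ∀ i, ∑ k ∈ Finset.Ico 1 25, F (dd θ i k) = -r * sin (θ i))
    (h1 : r / (25 : ℕ) ≤ ((65536 : ℕ) : ℝ) / 2 ^ 16) : False :=
  lp_range T2_ok (by norm_num) (by norm_num) chk25 rfl (by decide) (Q := 10426) (by decide) hmono hper hr hsin hcos heq h1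

lemma lp26 {θ : ℕ → ℝ} (hmono : StrictMono θ) (hper : ∀ i, θ (i + 26) = θ i + 2 * π) {r : ℝ} (hr : 0 < r)
    (hsin : ∑ i ∈ Finset.range 26, sin (θ i) = 0) (hcos : ∑ i ∈ Finset.range 26, cos (θ i) = r)
    (heq : ∀ i, ∑ k ∈ Finset.Ico 1 26, F (dd θ i k) = -r * sin (θ i))
    (h1 : r / (26 : ℕ) ≤ ((65536 : ℕ) : ℝ) / 2 ^ 16) : False :=
  lp_range T2_ok (by norm_num) (by norm_num) chk26 rfl (by decide) (Q := 10409) (by decide) hmono hper hr hsin hcos heq h1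

lemma lp27 {θ : ℕ → ℝ} (hmono : StrictMono θ) (hper : ∀ i, θ (i + 27) = θ i + 2 * π) {r : ℝ} (hr : 0 < r)
    (hsin : ∑ i ∈ Finset.range 27, sin (θ i) = 0) (hcos : ∑ i ∈ Finset.range 27, cos (θ i) = r)
    (heq : ∀ i, ∑ k ∈ Finset.Ico 1 27, F (dd θ i k) = -r * sin (θ i))
    (h1 : r / (27 : ℕ) ≤ ((65536 : ℕ) : ℝ) / 2 ^ 16) : False :=
  lp_range T2_ok (by norm_num) (by norm_num) chk27 rfl (by decide) (Q := 10393) (by decide) hmono hper hr hsin hcos heq h1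

lemma lp28 {θ : ℕ → ℝ} (hmono : StrictMono θ) (hper : ∀ i, θ (i + 28) = θ i + 2 * π) {r : ℝ} (hr : 0 < r)
    (hsin : ∑ i ∈ Finset.range 28, sin (θ i) = 0) (hcos : ∑ i ∈ Finset.range 28, cos (θ i) = r)
    (heq : ∀ i, ∑ k ∈ Finset.Ico 1 28, F (dd θ i k) = -r * sin (θ i))
    (h1 : r / (28 : ℕ) ≤ ((65536 : ℕ) : ℝ) / 2 ^ 16) : False :=
  lp_range T2_ok (by norm_num) (by norm_num) chk28 rfl (by decide) (Q := 10378) (by decide) hmono hper hr hsin hcos heq h1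

lemma lp29 {θ : ℕ → ℝ} (hmono : StrictMono θ) (hper : ∀ i, θ (i + 29) = θ i + 2 * π) {r : ℝ} (hr : 0 < r)
    (hsin : ∑ i ∈ Finset.range 29, sin (θ i) = 0) (hcos : ∑ i ∈ Finset.range 29, cos (θ i) = r)
    (heq : ∀ i, ∑ k ∈ Finset.Ico 1 29, F (dd θ i k) = -r * sin (θ i))
    (h1 : r / (29 : ℕ) ≤ ((65536 : ℕ) : ℝ) / 2 ^ 16) : False :=
  lp_range T2_ok (by norm_num) (by norm_num) chk29 rfl (by decide) (Q := 10364) (by decide) hmono hper hr hsin hcos heq h1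

lemma lp30 {θ : ℕ → ℝ} (hmono : StrictMono θ) (hper : ∀ i, θ (i + 30) = θ i + 2 * π) {r : ℝ} (hr : 0 < r)
    (hsin : ∑ i ∈ Finset.range 30, sin (θ i) = 0) (hcos : ∑ i ∈ Finset.range 30, cos (θ i) = r)
    (heq : ∀ i, ∑ k ∈ Finset.Ico 1 30, F (dd θ i k) = -r * sin (θ i))
    (h1 : r / (30 : ℕ) ≤ ((65536 : ℕ) : ℝ) / 2 ^ 16) : False :=
  lp_range T2_ok (by norm_num) (by norm_num) chk30 rfl (by decide) (Q := 10351) (by decide) hmono hper hr hsin hcos heq h1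

lemma lp31 {θ : ℕ → ℝ} (hmono : StrictMono θ) (hper : ∀ i, θ (i + 31) = θ i + 2 * π) {r : ℝ} (hr : 0 < r)
    (hsin : ∑ i ∈ Finset.range 31, sin (θ i) = 0) (hcos : ∑ i ∈ Finset.range 31, cos (θ i) = r)
    (heq : ∀ i, ∑ k ∈ Finset.Ico 1 31, F (dd θ i k) = -r * sin (θ i))
    (h1 : r / (31 : ℕ) ≤ ((65536 : ℕ) : ℝ) / 2 ^ 16) : False :=
  lp_range T2_ok (by norm_num) (by norm_num) chk31 rfl (by decide) (Q := 10340) (by decide) hmono hper hr hsin hcos heq h1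

lemma lp32 {θ : ℕ → ℝ} (hmono : StrictMono θ) (hper : ∀ i, θ (i + 32) = θ i + 2 * π) {r : ℝ} (hr : 0 < r)
    (hsin : ∑ i ∈ Finset.range 32, sin (θ i) = 0) (hcos : ∑ i ∈ Finset.range 32, cos (θ i) = r)
    (heq : ∀ i, ∑ k ∈ Finset.Ico 1 32, F (dd θ i k) = -r * sin (θ i))
    (h1 : r / (32 : ℕ) ≤ ((65536 : ℕ) : ℝ) / 2 ^ 16) : False :=
  lp_range T2_ok (by norm_num) (by norm_num) chk32 rfl (by decide) (Q := 10328) (by decide) hmono hper hr hsin hcos heq h1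

lemma lp33 {θ : ℕ → ℝ} (hmono : StrictMono θ) (hper : ∀ i, θ (i + 33) = θ i + 2 * π) {r : ℝ} (hr : 0 < r)
    (hsin : ∑ i ∈ Finset.range 33, sin (θ i) = 0) (hcos : ∑ i ∈ Finset.range 33, cos (θ i) = r)
    (heq : ∀ i, ∑ k ∈ Finset.Ico 1 33, F (dd θ i k) = -r * sin (θ i))
    (h1 : r / (33 : ℕ) ≤ ((65536 : ℕ) : ℝ) / 2 ^ 16) : False :=
  lp_range T2_ok (by norm_num) (by norm_num) chk33 rfl (by decide) (Q := 10318) (by decide) hmono hper hr hsin hcos heq h1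

lemma lp34 {θ : ℕ → ℝ} (hmono : StrictMono θ) (hper : ∀ i, θ (i + 34) = θ i + 2 * π) {r : ℝ} (hr : 0 < r)
    (hsin : ∑ i ∈ Finset.range 34, sin (θ i) = 0) (hcos : ∑ i ∈ Finset.range 34, cos (θ i) = r)
    (heq : ∀ i, ∑ k ∈ Finset.Ico 1 34, F (dd θ i k) = -r * sin (θ i))
    (h1 : r / (34 : ℕ) ≤ ((65536 : ℕ) : ℝ) / 2 ^ 16) : False :=
  lp_range T2_ok (by norm_num) (by norm_num) chk34 rfl (by decide) (Q := 10308) (by decide) hmono hper hr hsin hcos heq h1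

lemma lp35 {θ : ℕ → ℝ} (hmono : StrictMono θ) (hper : ∀ i, θ (i + 35) = θ i + 2 * π) {r : ℝ} (hr : 0 < r)
    (hsin : ∑ i ∈ Finset.range 35, sin (θ i) = 0) (hcos : ∑ i ∈ Finset.range 35, cos (θ i) = r)
    (heq : ∀ i, ∑ k ∈ Finset.Ico 1 35, F (dd θ i k) = -r * sin (θ i))
    (h1 : r / (35 : ℕ) ≤ ((65536 : ℕ) : ℝ) / 2 ^ 16) : False :=
  lp_range T2_ok (by norm_num) (by norm_num) chk35 rfl (by decide) (Q := 10299) (by decide) hmono hper hr hsin hcos heq h1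

lemma lp36 {θ : ℕ → ℝ} (hmono : StrictMono θ) (hper : ∀ i, θ (i + 36) = θ i + 2 * π) {r : ℝ} (hr : 0 < r)
    (hsin : ∑ i ∈ Finset.range 36, sin (θ i) = 0) (hcos : ∑ i ∈ Finset.range 36, cos (θ i) = r)
    (heq : ∀ i, ∑ k ∈ Finset.Ico 1 36, F (dd θ i k) = -r * sin (θ i))
    (h1 : r / (36 : ℕ) ≤ ((65536 : ℕ) : ℝ) / 2 ^ 16) : False :=
  lp_range T2_ok (by norm_num) (by norm_num) chk36 rfl (by decide) (Q := 10290) (by decide) hmono hper hr hsin hcos heq h1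

lemma lp37 {θ : ℕ → ℝ} (hmono : StrictMono θ) (hper : ∀ i, θ (i + 37) = θ i + 2 * π) {r : ℝ} (hr : 0 < r)
    (hsin : ∑ i ∈ Finset.range 37, sin (θ i) = 0) (hcos : ∑ i ∈ Finset.range 37, cos (θ i) = r)
    (heq : ∀ i, ∑ k ∈ Finset.Ico 1 37, F (dd θ i k) = -r * sin (θ i))
    (h1 : r / (37 : ℕ) ≤ ((65536 : ℕ) : ℝ) / 2 ^ 16) : False :=
  lp_range T2_ok (by norm_num) (by norm_num) chk37 rfl (by decide) (Q := 10282) (by decide) hmono hper hr hsin hcos heq h1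

lemma lp38 {θ : ℕ → ℝ} (hmono : StrictMono θ) (hper : ∀ i, θ (i + 38) = θ i + 2 * π) {r : ℝ} (hr : 0 < r)
    (hsin : ∑ i ∈ Finset.range 38, sin (θ i) = 0) (hcos : ∑ i ∈ Finset.range 38, cos (θ i) = r)
    (heq : ∀ i, ∑ k ∈ Finset.Ico 1 38, F (dd θ i k) = -r * sin (θ i))
    (h1 : r / (38 : ℕ) ≤ ((65536 : ℕ) : ℝ) / 2 ^ 16) : False :=
  lp_range T2_ok (by norm_num) (by norm_num) chk38 rfl (by decide) (Q := 10275) (by decide) hmono hper hr hsin hcos heq h1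

lemma lp39 {θ : ℕ → ℝ} (hmono : StrictMono θ) (hper : ∀ i, θ (i + 39) = θ i + 2 * π) {r : ℝ} (hr : 0 < r)
    (hsin : ∑ i ∈ Finset.range 39, sin (θ i) = 0) (hcos : ∑ i ∈ Finset.range 39, cos (θ i) = r)
    (heq : ∀ i, ∑ k ∈ Finset.Ico 1 39, F (dd θ i k) = -r * sin (θ i))
    (h1 : r / (39 : ℕ) ≤ ((65536 : ℕ) : ℝ) / 2 ^ 16) : False :=
  lp_range T2_ok (by norm_num) (by norm_num) chk39 rfl (by decide) (Q := 10267) (by decide) hmono hper hr hsin hcos heq h1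

lemma lp40 {θ : ℕ → ℝ} (hmono : StrictMono θ) (hper : ∀ i, θ (i + 40) = θ i + 2 * π) {r : ℝ} (hr : 0 < r)
    (hsin : ∑ i ∈ Finset.range 40, sin (θ i) = 0) (hcos : ∑ i ∈ Finset.range 40, cos (θ i) = r)
    (heq : ∀ i, ∑ k ∈ Finset.Ico 1 40, F (dd θ i k) = -r * sin (θ i))
    (h1 : r / (40 : ℕ) ≤ ((65536 : ℕ) : ℝ) / 2 ^ 16) : False :=
  lp_range T2_ok (by norm_num) (by norm_num) chk40 rfl (by decide) (Q := 10260) (by decide) hmono hper hr hsin hcos heq h1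

lemma lp41 {θ : ℕ → ℝ} (hmono : StrictMono θ) (hper : ∀ i, θ (i + 41) = θ i + 2 * π) {r : ℝ} (hr : 0 < r)
    (hsin : ∑ i ∈ Finset.range 41, sin (θ i) = 0) (hcos : ∑ i ∈ Finset.range 41, cos (θ i) = r)
    (heq : ∀ i, ∑ k ∈ Finset.Ico 1 41, F (dd θ i k) = -r * sin (θ i))
    (h1 : r / (41 : ℕ) ≤ ((65536 : ℕ) : ℝ) / 2 ^ 16) : False :=
  lp_range T2_ok (by norm_num) (by norm_num) chk41 rfl (by decide) (Q := 10254) (by decide) hmono hper hr hsin hcos heq h1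

lemma lp42 {θ : ℕ → ℝ} (hmono : StrictMono θ) (hper : ∀ i, θ (i + 42) = θ i + 2 * π) {r : ℝ} (hr : 0 < r)
    (hsin : ∑ i ∈ Finset.range 42, sin (θ i) = 0) (hcos : ∑ i ∈ Finset.range 42, cos (θ i) = r)
    (heq : ∀ i, ∑ k ∈ Finset.Ico 1 42, F (dd θ i k) = -r * sin (θ i))
    (h1 : r / (42 : ℕ) ≤ ((65536 : ℕ) : ℝ) / 2 ^ 16) : False :=
  lp_range T2_ok (by norm_num) (by norm_num) chk42 rfl (by decide) (Q := 10247) (by decide) hmono hper hr hsin hcos heq h1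

lemma lp43 {θ : ℕ → ℝ} (hmono : StrictMono θ) (hper : ∀ i, θ (i + 43) = θ i + 2 * π) {r : ℝ} (hr : 0 < r)
    (hsin : ∑ i ∈ Finset.range 43, sin (θ i) = 0) (hcos : ∑ i ∈ Finset.range 43, cos (θ i) = r)
    (heq : ∀ i, ∑ k ∈ Finset.Ico 1 43, F (dd θ i k) = -r * sin (θ i))
    (h1 : r / (43 : ℕ) ≤ ((65536 : ℕ) : ℝ) / 2 ^ 16) : False :=
  lp_range T2_ok (by norm_num) (by norm_num) chk43 rfl (by decide) (Q := 10241) (by decide) hmono hper hr hsin hcos heq h1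

lemma lp44 {θ : ℕ → ℝ} (hmono : StrictMono θ) (hper : ∀ i, θ (i + 44) = θ i + 2 * π) {r : ℝ} (hr : 0 < r)
    (hsin : ∑ i ∈ Finset.range 44, sin (θ i) = 0) (hcos : ∑ i ∈ Finset.range 44, cos (θ i) = r)
    (heq : ∀ i, ∑ k ∈ Finset.Ico 1 44, F (dd θ i k) = -r * sin (θ i))
    (h1 : r / (44 : ℕ) ≤ ((65536 : ℕ) : ℝ) / 2 ^ 16) : False :=
  lp_range T2_ok (by norm_num) (by norm_num) chk44 rfl (by decide) (Q := 10236) (by decide) hmono hper hr hsin hcos heq h1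

lemma lp45 {θ : ℕ → ℝ} (hmono : StrictMono θ) (hper : ∀ i, θ (i + 45) = θ i + 2 * π) {r : ℝ} (hr : 0 < r)
    (hsin : ∑ i ∈ Finset.range 45, sin (θ i) = 0) (hcos : ∑ i ∈ Finset.range 45, cos (θ i) = r)
    (heq : ∀ i, ∑ k ∈ Finset.Ico 1 45, F (dd θ i k) = -r * sin (θ i))
    (h1 : r / (45 : ℕ) ≤ ((65536 : ℕ) : ℝ) / 2 ^ 16) : False :=
  lp_range T2_ok (by norm_num) (by norm_num) chk45 rfl (by decide) (Q := 10230) (by decide) hmono hper hr hsin hcos heq h1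

lemma lp46 {θ : ℕ → ℝ} (hmono : StrictMono θ) (hper : ∀ i, θ (i + 46) = θ i + 2 * π) {r : ℝ} (hr : 0 < r)
    (hsin : ∑ i ∈ Finset.range 46, sin (θ i) = 0) (hcos : ∑ i ∈ Finset.range 46, cos (θ i) = r)
    (heq : ∀ i, ∑ k ∈ Finset.Ico 1 46, F (dd θ i k) = -r * sin (θ i))
    (h1 : r / (46 : ℕ) ≤ ((65536 : ℕ) : ℝ) / 2 ^ 16) : False :=
  lp_range T2_ok (by norm_num) (by norm_num) chk46 rfl (by decide) (Q := 10225) (by decide) hmono hper hr hsin hcos heq h1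

lemma lp47 {θ : ℕ → ℝ} (hmono : StrictMono θ) (hper : ∀ i, θ (i + 47) = θ i + 2 * π) {r : ℝ} (hr : 0 < r)
    (hsin : ∑ i ∈ Finset.range 47, sin (θ i) = 0) (hcos : ∑ i ∈ Finset.range 47, cos (θ i) = r)
    (heq : ∀ i, ∑ k ∈ Finset.Ico 1 47, F (dd θ i k) = -r * sin (θ i))
    (h1 : r / (47 : ℕ) ≤ ((65536 : ℕ) : ℝ) / 2 ^ 16) : False :=
  lp_range T2_ok (by norm_num) (by norm_num) chk47 rfl (by decide) (Q := 10220) (by decide) hmono hper hr hsin hcos heq h1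

lemma lp48 {θ : ℕ → ℝ} (hmono : StrictMono θ) (hper : ∀ i, θ (i + 48) = θ i + 2 * π) {r : ℝ} (hr : 0 < r)
    (hsin : ∑ i ∈ Finset.range 48, sin (θ i) = 0) (hcos : ∑ i ∈ Finset.range 48, cos (θ i) = r)
    (heq : ∀ i, ∑ k ∈ Finset.Ico 1 48, F (dd θ i k) = -r * sin (θ i))
    (h1 : r / (48 : ℕ) ≤ ((65536 : ℕ) : ℝ) / 2 ^ 16) : False :=
  lp_range T2_ok (by norm_num) (by norm_num) chk48 rfl (by decide) (Q := 10216) (by decide) hmono hper hr hsin hcos heq h1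

lemma lp49 {θ : ℕ → ℝ} (hmono : StrictMono θ) (hper : ∀ i, θ (i + 49) = θ i + 2 * π) {r : ℝ} (hr : 0 < r)
    (hsin : ∑ i ∈ Finset.range 49, sin (θ i) = 0) (hcos : ∑ i ∈ Finset.range 49, cos (θ i) = r)
    (heq : ∀ i, ∑ k ∈ Finset.Ico 1 49, F (dd θ i k) = -r * sin (θ i))
    (h1 : r / (49 : ℕ) ≤ ((65536 : ℕ) : ℝ) / 2 ^ 16) : False :=
  lp_range T2_ok (by norm_num) (by norm_num) chk49 rfl (by decide) (Q := 10211) (by decide) hmono hper hr hsin hcos heq h1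

lemma lp50 {θ : ℕ → ℝ} (hmono : StrictMono θ) (hper : ∀ i, θ (i + 50) = θ i + 2 * π) {r : ℝ} (hr : 0 < r)
    (hsin : ∑ i ∈ Finset.range 50, sin (θ i) = 0) (hcos : ∑ i ∈ Finset.range 50, cos (θ i) = r)
    (heq : ∀ i, ∑ k ∈ Finset.Ico 1 50, F (dd θ i k) = -r * sin (θ i))
    (h1 : r / (50 : ℕ) ≤ ((65536 : ℕ) : ℝ) / 2 ^ 16) : False :=
  lp_range T2_ok (by norm_num) (by norm_num) chk50 rfl (by decide) (Q := 10207) (by decide) hmono hper hr hsin hcos heq h1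

lemma lp51 {θ : ℕ → ℝ} (hmono : StrictMono θ) (hper : ∀ i, θ (i + 51) = θ i + 2 * π) {r : ℝ} (hr : 0 < r)
    (hsin : ∑ i ∈ Finset.range 51, sin (θ i) = 0) (hcos : ∑ i ∈ Finset.range 51, cos (θ i) = r)
    (heq : ∀ i, ∑ k ∈ Finset.Ico 1 51, F (dd θ i k) = -r * sin (θ i))
    (h1 : r / (51 : ℕ) ≤ ((65536 : ℕ) : ℝ) / 2 ^ 16) : False :=
  lp_range T2_ok (by norm_num) (by norm_num) chk51 rfl (by decide) (Q := 10203) (by decide) hmono hper hr hsin hcos heq h1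

lemma lp52 {θ : ℕ → ℝ} (hmono : StrictMono θ) (hper : ∀ i, θ (i + 52) = θ i + 2 * π) {r : ℝ} (hr : 0 < r)
    (hsin : ∑ i ∈ Finset.range 52, sin (θ i) = 0) (hcos : ∑ i ∈ Finset.range 52, cos (θ i) = r)
    (heq : ∀ i, ∑ k ∈ Finset.Ico 1 52, F (dd θ i k) = -r * sin (θ i))
    (h1 : r / (52 : ℕ) ≤ ((65536 : ℕ) : ℝ) / 2 ^ 16) : False :=
  lp_range T2_ok (by norm_num) (by norm_num) chk52 rfl (by decide) (Q := 10199) (by decide) hmono hper hr hsin hcos heq h1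

lemma lp53 {θ : ℕ → ℝ} (hmono : StrictMono θ) (hper : ∀ i, θ (i + 53) = θ i + 2 * π) {r : ℝ} (hr : 0 < r)
    (hsin : ∑ i ∈ Finset.range 53, sin (θ i) = 0) (hcos : ∑ i ∈ Finset.range 53, cos (θ i) = r)
    (heq : ∀ i, ∑ k ∈ Finset.Ico 1 53, F (dd θ i k) = -r * sin (θ i))
    (h1 : r / (53 : ℕ) ≤ ((65536 : ℕ) : ℝ) / 2 ^ 16) : False :=
  lp_range T2_ok (by norm_num) (by norm_num) chk53 rfl (by decide) (Q := 10195) (by decide) hmono hper hr hsin hcos heq h1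

lemma lp54 {θ : ℕ → ℝ} (hmono : StrictMono θ) (hper : ∀ i, θ (i + 54) = θ i + 2 * π) {r : ℝ} (hr : 0 < r)
    (hsin : ∑ i ∈ Finset.range 54, sin (θ i) = 0) (hcos : ∑ i ∈ Finset.range 54, cos (θ i) = r)
    (heq : ∀ i, ∑ k ∈ Finset.Ico 1 54, F (dd θ i k) = -r * sin (θ i))
    (h1 : r / (54 : ℕ) ≤ ((65536 : ℕ) : ℝ) / 2 ^ 16) : False :=
  lp_range T2_ok (by norm_num) (by norm_num) chk54 rfl (by decide) (Q := 10191) (by decide) hmono hper hr hsin hcos heq h1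

lemma lp55 {θ : ℕ → ℝ} (hmono : StrictMono θ) (hper : ∀ i, θ (i + 55) = θ i + 2 * π) {r : ℝ} (hr : 0 < r)
    (hsin : ∑ i ∈ Finset.range 55, sin (θ i) = 0) (hcos : ∑ i ∈ Finset.range 55, cos (θ i) = r)
    (heq : ∀ i, ∑ k ∈ Finset.Ico 1 55, F (dd θ i k) = -r * sin (θ i))
    (h1 : r / (55 : ℕ) ≤ ((65536 : ℕ) : ℝ) / 2 ^ 16) : False :=
  lp_range T2_ok (by norm_num) (by norm_num) chk55 rfl (by decide) (Q := 10187) (by decide) hmono hper hr hsin hcos heq h1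

lemma lp56 {θ : ℕ → ℝ} (hmono : StrictMono θ) (hper : ∀ i, θ (i + 56) = θ i + 2 * π) {r : ℝ} (hr : 0 < r)
    (hsin : ∑ i ∈ Finset.range 56, sin (θ i) = 0) (hcos : ∑ i ∈ Finset.range 56, cos (θ i) = r)
    (heq : ∀ i, ∑ k ∈ Finset.Ico 1 56, F (dd θ i k) = -r * sin (θ i))
    (h1 : r / (56 : ℕ) ≤ ((65536 : ℕ) : ℝ) / 2 ^ 16) : False :=
  lp_range T2_ok (by norm_num) (by norm_num) chk56 rfl (by decide) (Q := 10184) (by decide) hmono hper hr hsin hcos heq h1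

lemma lp57 {θ : ℕ → ℝ} (hmono : StrictMono θ) (hper : ∀ i, θ (i + 57) = θ i + 2 * π) {r : ℝ} (hr : 0 < r)
    (hsin : ∑ i ∈ Finset.range 57, sin (θ i) = 0) (hcos : ∑ i ∈ Finset.range 57, cos (θ i) = r)
    (heq : ∀ i, ∑ k ∈ Finset.Ico 1 57, F (dd θ i k) = -r * sin (θ i))
    (h1 : r / (57 : ℕ) ≤ ((65536 : ℕ) : ℝ) / 2 ^ 16) : False :=
  lp_range T2_ok (by norm_num) (by norm_num) chk57 rfl (by decide) (Q := 10181) (by decide) hmono hper hr hsin hcos heq h1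

lemma lp58 {θ : ℕ → ℝ} (hmono : StrictMono θ) (hper : ∀ i, θ (i + 58) = θ i + 2 * π) {r : ℝ} (hr : 0 < r)
    (hsin : ∑ i ∈ Finset.range 58, sin (θ i) = 0) (hcos : ∑ i ∈ Finset.range 58, cos (θ i) = r)
    (heq : ∀ i, ∑ k ∈ Finset.Ico 1 58, F (dd θ i k) = -r * sin (θ i))
    (h1 : r / (58 : ℕ) ≤ ((65536 : ℕ) : ℝ) / 2 ^ 16) : False :=
  lp_range T2_ok (by norm_num) (by norm_num) chk58 rfl (by decide) (Q := 10178) (by decide) hmono hper hr hsin hcos heq h1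

lemma lp59 {θ : ℕ → ℝ} (hmono : StrictMono θ) (hper : ∀ i, θ (i + 59) = θ i + 2 * π) {r : ℝ} (hr : 0 < r)
    (hsin : ∑ i ∈ Finset.range 59, sin (θ i) = 0) (hcos : ∑ i ∈ Finset.range 59, cos (θ i) = r)
    (heq : ∀ i, ∑ k ∈ Finset.Ico 1 59, F (dd θ i k) = -r * sin (θ i))
    (h1 : r / (59 : ℕ) ≤ ((65536 : ℕ) : ℝ) / 2 ^ 16) : False :=
  lp_range T2_ok (by norm_num) (by norm_num) chk59 rfl (by decide) (Q := 10174) (by decide) hmono hper hr hsin hcos heq h1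

lemma lp60 {θ : ℕ → ℝ} (hmono : StrictMono θ) (hper : ∀ i, θ (i + 60) = θ i + 2 * π) {r : ℝ} (hr : 0 < r)
    (hsin : ∑ i ∈ Finset.range 60, sin (θ i) = 0) (hcos : ∑ i ∈ Finset.range 60, cos (θ i) = r)
    (heq : ∀ i, ∑ k ∈ Finset.Ico 1 60, F (dd θ i k) = -r * sin (θ i))
    (h1 : r / (60 : ℕ) ≤ ((65536 : ℕ) : ℝ) / 2 ^ 16) : False :=
  lp_range T2_ok (by norm_num) (by norm_num) chk60 rfl (by decide) (Q := 10171) (by decide) hmono hper hr hsin hcos heq h1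

lemma lp61 {θ : ℕ → ℝ} (hmono : StrictMono θ) (hper : ∀ i, θ (i + 61) = θ i + 2 * π) {r : ℝ} (hr : 0 < r)
    (hsin : ∑ i ∈ Finset.range 61, sin (θ i) = 0) (hcos : ∑ i ∈ Finset.range 61, cos (θ i) = r)
    (heq : ∀ i, ∑ k ∈ Finset.Ico 1 61, F (dd θ i k) = -r * sin (θ i))
    (h1 : r / (61 : ℕ) ≤ ((65536 : ℕ) : ℝ) / 2 ^ 16) : False :=
  lp_range T2_ok (by norm_num) (by norm_num) chk61 rfl (by decide) (Q := 10169) (by decide) hmono hper hr hsin hcos heq h1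

lemma lp62 {θ : ℕ → ℝ} (hmono : StrictMono θ) (hper : ∀ i, θ (i + 62) = θ i + 2 * π) {r : ℝ} (hr : 0 < r)
    (hsin : ∑ i ∈ Finset.range 62, sin (θ i) = 0) (hcos : ∑ i ∈ Finset.range 62, cos (θ i) = r)
    (heq : ∀ i, ∑ k ∈ Finset.Ico 1 62, F (dd θ i k) = -r * sin (θ i))
    (h1 : r / (62 : ℕ) ≤ ((65536 : ℕ) : ℝ) / 2 ^ 16) : False :=
  lp_range T2_ok (by norm_num) (by norm_num) chk62 rfl (by decide) (Q := 10166) (by decide) hmono hper hr hsin hcos heq h1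

lemma lp63 {θ : ℕ → ℝ} (hmono : StrictMono θ) (hper : ∀ i, θ (i + 63) = θ i + 2 * π) {r : ℝ} (hr : 0 < r)
    (hsin : ∑ i ∈ Finset.range 63, sin (θ i) = 0) (hcos : ∑ i ∈ Finset.range 63, cos (θ i) = r)
    (heq : ∀ i, ∑ k ∈ Finset.Ico 1 63, F (dd θ i k) = -r * sin (θ i))
    (h1 : r / (63 : ℕ) ≤ ((65536 : ℕ) : ℝ) / 2 ^ 16) : False :=
  lp_range T2_ok (by norm_num) (by norm_num) chk63 rfl (by decide) (Q := 10163) (by decide) hmono hper hr hsin hcos heq h1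

lemma lp64 {θ : ℕ → ℝ} (hmono : StrictMono θ) (hper : ∀ i, θ (i + 64) = θ i + 2 * π) {r : ℝ} (hr : 0 < r)
    (hsin : ∑ i ∈ Finset.range 64, sin (θ i) = 0) (hcos : ∑ i ∈ Finset.range 64, cos (θ i) = r)
    (heq : ∀ i, ∑ k ∈ Finset.Ico 1 64, F (dd θ i k) = -r * sin (θ i))
    (h1 : r / (64 : ℕ) ≤ ((65536 : ℕ) : ℝ) / 2 ^ 16) : False :=
  lp_range T2_ok (by norm_num) (by norm_num) chk64 rfl (by decide) (Q := 10161) (by decide) hmono hper hr hsin hcos heq h1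

lemma lp65 {θ : ℕ → ℝ} (hmono : StrictMono θ) (hper : ∀ i, θ (i + 65) = θ i + 2 * π) {r : ℝ} (hr : 0 < r)
    (hsin : ∑ i ∈ Finset.range 65, sin (θ i) = 0) (hcos : ∑ i ∈ Finset.range 65, cos (θ i) = r)
    (heq : ∀ i, ∑ k ∈ Finset.Ico 1 65, F (dd θ i k) = -r * sin (θ i))
    (h1 : r / (65 : ℕ) ≤ ((65536 : ℕ) : ℝ) / 2 ^ 16) : False :=
  lp_range T2_ok (by norm_num) (by norm_num) chk65 rfl (by decide) (Q := 10158) (by decide) hmono hper hr hsin hcos heq h1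

lemma lp66 {θ : ℕ → ℝ} (hmono : StrictMono θ) (hper : ∀ i, θ (i + 66) = θ i + 2 * π) {r : ℝ} (hr : 0 < r)
    (hsin : ∑ i ∈ Finset.range 66, sin (θ i) = 0) (hcos : ∑ i ∈ Finset.range 66, cos (θ i) = r)
    (heq : ∀ i, ∑ k ∈ Finset.Ico 1 66, F (dd θ i k) = -r * sin (θ i))
    (h1 : r / (66 : ℕ) ≤ ((65536 : ℕ) : ℝ) / 2 ^ 16) : False :=
  lp_range T2_ok (by norm_num) (by norm_num) chk66 rfl (by decide) (Q := 10156) (by decide) hmono hper hr hsin hcos heq h1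

lemma lp67 {θ : ℕ → ℝ} (hmono : StrictMono θ) (hper : ∀ i, θ (i + 67) = θ i + 2 * π) {r : ℝ} (hr : 0 < r)
    (hsin : ∑ i ∈ Finset.range 67, sin (θ i) = 0) (hcos : ∑ i ∈ Finset.range 67, cos (θ i) = r)
    (heq : ∀ i, ∑ k ∈ Finset.Ico 1 67, F (dd θ i k) = -r * sin (θ i))
    (h1 : r / (67 : ℕ) ≤ ((65536 : ℕ) : ℝ) / 2 ^ 16) : False :=
  lp_range T2_ok (by norm_num) (by norm_num) chk67 rfl (by decide) (Q := 10153) (by decide) hmono hper hr hsin hcos heq h1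

lemma lp68 {θ : ℕ → ℝ} (hmono : StrictMono θ) (hper : ∀ i, θ (i + 68) = θ i + 2 * π) {r : ℝ} (hr : 0 < r)
    (hsin : ∑ i ∈ Finset.range 68, sin (θ i) = 0) (hcos : ∑ i ∈ Finset.range 68, cos (θ i) = r)
    (heq : ∀ i, ∑ k ∈ Finset.Ico 1 68, F (dd θ i k) = -r * sin (θ i))
    (h1 : r / (68 : ℕ) ≤ ((65536 : ℕ) : ℝ) / 2 ^ 16) : False :=
  lp_range T2_ok (by norm_num) (by norm_num) chk68 rfl (by decide) (Q := 10151) (by decide) hmono hper hr hsin hcos heq h1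

lemma lp69 {θ : ℕ → ℝ} (hmono : StrictMono θ) (hper : ∀ i, θ (i + 69) = θ i + 2 * π) {r : ℝ} (hr : 0 < r)
    (hsin : ∑ i ∈ Finset.range 69, sin (θ i) = 0) (hcos : ∑ i ∈ Finset.range 69, cos (θ i) = r)
    (heq : ∀ i, ∑ k ∈ Finset.Ico 1 69, F (dd θ i k) = -r * sin (θ i))
    (h1 : r / (69 : ℕ) ≤ ((65536 : ℕ) : ℝ) / 2 ^ 16) : False :=
  lp_range T2_ok (by norm_num) (by norm_num) chk69 rfl (by decide) (Q := 10149) (by decide) hmono hper hr hsin hcos heq h1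

lemma lp70 {θ : ℕ → ℝ} (hmono : StrictMono θ) (hper : ∀ i, θ (i + 70) = θ i + 2 * π) {r : ℝ} (hr : 0 < r)
    (hsin : ∑ i ∈ Finset.range 70, sin (θ i) = 0) (hcos : ∑ i ∈ Finset.range 70, cos (θ i) = r)
    (heq : ∀ i, ∑ k ∈ Finset.Ico 1 70, F (dd θ i k) = -r * sin (θ i))
    (h1 : r / (70 : ℕ) ≤ ((65536 : ℕ) : ℝ) / 2 ^ 16) : False :=
  lp_range T2_ok (by norm_num) (by norm_num) chk70 rfl (by decide) (Q := 10146) (by decide) hmono hper hr hsin hcos heq h1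

lemma lp71 {θ : ℕ → ℝ} (hmono : StrictMono θ) (hper : ∀ i, θ (i + 71) = θ i + 2 * π) {r : ℝ} (hr : 0 < r)
    (hsin : ∑ i ∈ Finset.range 71, sin (θ i) = 0) (hcos : ∑ i ∈ Finset.range 71, cos (θ i) = r)
    (heq : ∀ i, ∑ k ∈ Finset.Ico 1 71, F (dd θ i k) = -r * sin (θ i))
    (h1 : r / (71 : ℕ) ≤ ((65536 : ℕ) : ℝ) / 2 ^ 16) : False :=
  lp_range T2_ok (by norm_num) (by norm_num) chk71 rfl (by decide) (Q := 10144) (by decide) hmono hper hr hsin hcos heq h1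

lemma lp72 {θ : ℕ → ℝ} (hmono : StrictMono θ) (hper : ∀ i, θ (i + 72) = θ i + 2 * π) {r : ℝ} (hr : 0 < r)
    (hsin : ∑ i ∈ Finset.range 72, sin (θ i) = 0) (hcos : ∑ i ∈ Finset.range 72, cos (θ i) = r)
    (heq : ∀ i, ∑ k ∈ Finset.Ico 1 72, F (dd θ i k) = -r * sin (θ i))
    (h1 : r / (72 : ℕ) ≤ ((65536 : ℕ) : ℝ) / 2 ^ 16) : False :=
  lp_range T2_ok (by norm_num) (by norm_num) chk72 rfl (by decide) (Q := 10142) (by decide) hmono hper hr hsin hcos heq h1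

lemma lp73 {θ : ℕ → ℝ} (hmono : StrictMono θ) (hper : ∀ i, θ (i + 73) = θ i + 2 * π) {r : ℝ} (hr : 0 < r)
    (hsin : ∑ i ∈ Finset.range 73, sin (θ i) = 0) (hcos : ∑ i ∈ Finset.range 73, cos (θ i) = r)
    (heq : ∀ i, ∑ k ∈ Finset.Ico 1 73, F (dd θ i k) = -r * sin (θ i))
    (h1 : r / (73 : ℕ) ≤ ((65536 : ℕ) : ℝ) / 2 ^ 16) : False :=
  lp_range T2_ok (by norm_num) (by norm_num) chk73 rfl (by decide) (Q := 10140) (by decide) hmono hper hr hsin hcos heq h1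

lemma lp74 {θ : ℕ → ℝ} (hmono : StrictMono θ) (hper : ∀ i, θ (i + 74) = θ i + 2 * π) {r : ℝ} (hr : 0 < r)
    (hsin : ∑ i ∈ Finset.range 74, sin (θ i) = 0) (hcos : ∑ i ∈ Finset.range 74, cos (θ i) = r)
    (heq : ∀ i, ∑ k ∈ Finset.Ico 1 74, F (dd θ i k) = -r * sin (θ i))
    (h1 : r / (74 : ℕ) ≤ ((65536 : ℕ) : ℝ) / 2 ^ 16) : False :=
  lp_range T2_ok (by norm_num) (by norm_num) chk74 rfl (by decide) (Q := 10138) (by decide) hmono hper hr hsin hcos heq h1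

lemma lp75 {θ : ℕ → ℝ} (hmono : StrictMono θ) (hper : ∀ i, θ (i + 75) = θ i + 2 * π) {r : ℝ} (hr : 0 < r)
    (hsin : ∑ i ∈ Finset.range 75, sin (θ i) = 0) (hcos : ∑ i ∈ Finset.range 75, cos (θ i) = r)
    (heq : ∀ i, ∑ k ∈ Finset.Ico 1 75, F (dd θ i k) = -r * sin (θ i))
    (h1 : r / (75 : ℕ) ≤ ((65536 : ℕ) : ℝ) / 2 ^ 16) : False :=
  lp_range T2_ok (by norm_num) (by norm_num) chk75 rfl (by decide) (Q := 10137) (by decide) hmono hper hr hsin hcos heq h1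

lemma lp76 {θ : ℕ → ℝ} (hmono : StrictMono θ) (hper : ∀ i, θ (i + 76) = θ i + 2 * π) {r : ℝ} (hr : 0 < r)
    (hsin : ∑ i ∈ Finset.range 76, sin (θ i) = 0) (hcos : ∑ i ∈ Finset.range 76, cos (θ i) = r)
    (heq : ∀ i, ∑ k ∈ Finset.Ico 1 76, F (dd θ i k) = -r * sin (θ i))
    (h1 : r / (76 : ℕ) ≤ ((65536 : ℕ) : ℝ) / 2 ^ 16) : False :=
  lp_range T2_ok (by norm_num) (by norm_num) chk76 rfl (by decide) (Q := 10135) (by decide) hmono hper hr hsin hcos heq h1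

lemma lp77 {θ : ℕ → ℝ} (hmono : StrictMono θ) (hper : ∀ i, θ (i + 77) = θ i + 2 * π) {r : ℝ} (hr : 0 < r)
    (hsin : ∑ i ∈ Finset.range 77, sin (θ i) = 0) (hcos : ∑ i ∈ Finset.range 77, cos (θ i) = r)
    (heq : ∀ i, ∑ k ∈ Finset.Ico 1 77, F (dd θ i k) = -r * sin (θ i))
    (h1 : r / (77 : ℕ) ≤ ((65536 : ℕ) : ℝ) / 2 ^ 16) : False :=
  lp_range T2_ok (by norm_num) (by norm_num) chk77 rfl (by decide) (Q := 10133) (by decide) hmono hper hr hsin hcos heq h1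

lemma lp78 {θ : ℕ → ℝ} (hmono : StrictMono θ) (hper : ∀ i, θ (i + 78) = θ i + 2 * π) {r : ℝ} (hr : 0 < r)
    (hsin : ∑ i ∈ Finset.range 78, sin (θ i) = 0) (hcos : ∑ i ∈ Finset.range 78, cos (θ i) = r)
    (heq : ∀ i, ∑ k ∈ Finset.Ico 1 78, F (dd θ i k) = -r * sin (θ i))
    (h1 : r / (78 : ℕ) ≤ ((65536 : ℕ) : ℝ) / 2 ^ 16) : False :=
  lp_range T2_ok (by norm_num) (by norm_num) chk78 rfl (by decide) (Q := 10131) (by decide) hmono hper hr hsin hcos heq h1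

lemma lp79 {θ : ℕ → ℝ} (hmono : StrictMono θ) (hper : ∀ i, θ (i + 79) = θ i + 2 * π) {r : ℝ} (hr : 0 < r)
    (hsin : ∑ i ∈ Finset.range 79, sin (θ i) = 0) (hcos : ∑ i ∈ Finset.range 79, cos (θ i) = r)
    (heq : ∀ i, ∑ k ∈ Finset.Ico 1 79, F (dd θ i k) = -r * sin (θ i))
    (h1 : r / (79 : ℕ) ≤ ((65536 : ℕ) : ℝ) / 2 ^ 16) : False :=
  lp_range T2_ok (by norm_num) (by norm_num) chk79 rfl (by decide) (Q := 10130) (by decide) hmono hper hr hsin hcos heq h1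

lemma lp80 {θ : ℕ → ℝ} (hmono : StrictMono θ) (hper : ∀ i, θ (i + 80) = θ i + 2 * π) {r : ℝ} (hr : 0 < r)
    (hsin : ∑ i ∈ Finset.range 80, sin (θ i) = 0) (hcos : ∑ i ∈ Finset.range 80, cos (θ i) = r)
    (heq : ∀ i, ∑ k ∈ Finset.Ico 1 80, F (dd θ i k) = -r * sin (θ i))
    (h1 : r / (80 : ℕ) ≤ ((65536 : ℕ) : ℝ) / 2 ^ 16) : False :=
  lp_range T2_ok (by norm_num) (by norm_num) chk80 rfl (by decide) (Q := 10128) (by decide) hmono hper hr hsin hcos heq h1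

lemma lp81 {θ : ℕ → ℝ} (hmono : StrictMono θ) (hper : ∀ i, θ (i + 81) = θ i + 2 * π) {r : ℝ} (hr : 0 < r)
    (hsin : ∑ i ∈ Finset.range 81, sin (θ i) = 0) (hcos : ∑ i ∈ Finset.range 81, cos (θ i) = r)
    (heq : ∀ i, ∑ k ∈ Finset.Ico 1 81, F (dd θ i k) = -r * sin (θ i))
    (h1 : r / (81 : ℕ) ≤ ((65536 : ℕ) : ℝ) / 2 ^ 16) : False :=
  lp_range T2_ok (by norm_num) (by norm_num) chk81 rfl (by decide) (Q := 10126) (by decide) hmono hper hr hsin hcos heq h1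

lemma lp82 {θ : ℕ → ℝ} (hmono : StrictMono θ) (hper : ∀ i, θ (i + 82) = θ i + 2 * π) {r : ℝ} (hr : 0 < r)
    (hsin : ∑ i ∈ Finset.range 82, sin (θ i) = 0) (hcos : ∑ i ∈ Finset.range 82, cos (θ i) = r)
    (heq : ∀ i, ∑ k ∈ Finset.Ico 1 82, F (dd θ i k) = -r * sin (θ i))
    (h1 : r / (82 : ℕ) ≤ ((65536 : ℕ) : ℝ) / 2 ^ 16) : False :=
  lp_range T2_ok (by norm_num) (by norm_num) chk82 rfl (by decide) (Q := 10125) (by decide) hmono hper hr hsin hcos heq h1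

lemma lp83 {θ : ℕ → ℝ} (hmono : StrictMono θ) (hper : ∀ i, θ (i + 83) = θ i + 2 * π) {r : ℝ} (hr : 0 < r)
    (hsin : ∑ i ∈ Finset.range 83, sin (θ i) = 0) (hcos : ∑ i ∈ Finset.range 83, cos (θ i) = r)
    (heq : ∀ i, ∑ k ∈ Finset.Ico 1 83, F (dd θ i k) = -r * sin (θ i))
    (h1 : r / (83 : ℕ) ≤ ((65536 : ℕ) : ℝ) / 2 ^ 16) : False :=
  lp_range T2_ok (by norm_num) (by norm_num) chk83 rfl (by decide) (Q := 10123) (by decide) hmono hper hr hsin hcos heq h1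

lemma lp84 {θ : ℕ → ℝ} (hmono : StrictMono θ) (hper : ∀ i, θ (i + 84) = θ i + 2 * π) {r : ℝ} (hr : 0 < r)
    (hsin : ∑ i ∈ Finset.range 84, sin (θ i) = 0) (hcos : ∑ i ∈ Finset.range 84, cos (θ i) = r)
    (heq : ∀ i, ∑ k ∈ Finset.Ico 1 84, F (dd θ i k) = -r * sin (θ i))
    (h1 : r / (84 : ℕ) ≤ ((65536 : ℕ) : ℝ) / 2 ^ 16) : False :=
  lp_range T2_ok (by norm_num) (by norm_num) chk84 rfl (by decide) (Q := 10122) (by decide) hmono hper hr hsin hcos heq h1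

/-- no nonzero resultant for `13 ≤ N ≤ 84` -/
theorem no_r_13_84 {N : ℕ} (h13 : 13 ≤ N) (h84 : N ≤ 84) {θ : ℕ → ℝ} (hmono : StrictMono θ)
    (hper : ∀ i, θ (i + N) = θ i + 2 * π) {r : ℝ} (hr : 0 < r)
    (hsin : ∑ i ∈ Finset.range N, sin (θ i) = 0) (hcos : ∑ i ∈ Finset.range N, cos (θ i) = r)
    (heq : ∀ i, ∑ k ∈ Finset.Ico 1 N, F (dd θ i k) = -r * sin (θ i)) : False := by
  have hN0 : (0 : ℝ) < N := by exact_mod_cast (by omega : 0 < N)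
  have hle : r / N ≤ ((65536 : ℕ) : ℝ) / 2 ^ 16 := by
    have := r_le (N := N) (by omega) hcos
    rw [div_le_iff₀ hN0]
    norm_num
    exact this
  interval_cases N
  · exact lp13 hmono hper hr hsin hcos heq hle
  · exact lp14 hmono hper hr hsin hcos heq hle
  · exact lp15 hmono hper hr hsin hcos heq hle
  · exact lp16 hmono hper hr hsin hcos heq hle
  · exact lp17 hmono hper hr hsin hcos heq hle
  · exact lp18 hmono hper hr hsin hcos heq hle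
  · exact lp19 hmono hper hr hsin hcos heq hle
  · exact lp20 hmono hper hr hsin hcos heq hle
  · exact lp21 hmono hper hr hsin hcos heq hle
  · exact lp22 hmono hper hr hsin hcos heq hle
  · exact lp23 hmono hper hr hsin hcos heq hle
  · exact lp24 hmono hper hr hsin hcos heq hle
  · exact lp25 hmono hper hr hsin hcos heq hle
  · exact lp26 hmono hper hr hsin hcos heq hle
  · exact lp27 hmono hper hr hsin hcos heq hle
  · exact lp28 hmono hper hr hsin hcos heq hle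
  · exact lp29 hmono hper hr hsin hcos heq hle
  · exact lp30 hmono hper hr hsin hcos heq hle
  · exact lp31 hmono hper hr hsin hcos heq hle
  · exact lp32 hmono hper hr hsin hcos heq hle
  · exact lp33 hmono hper hr hsin hcos heq hle
  · exact lp34 hmono hper hr hsin hcos heq hle
  · exact lp35 hmono hper hr hsin hcos heq hle
  · exact lp36 hmono hper hr hsin hcos heq hle
  · exact lp37 hmono hper hr hsin hcos heq hle
  · exact lp38 hmono hper hr hsin hcos heq hle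
  · exact lp39 hmono hper hr hsin hcos heq hle
  · exact lp40 hmono hper hr hsin hcos heq hle
  · exact lp41 hmono hper hr hsin hcos heq hle
  · exact lp42 hmono hper hr hsin hcos heq hle
  · exact lp43 hmono hper hr hsin hcos heq hle
  · exact lp44 hmono hper hr hsin hcos heq hle
  · exact lp45 hmono hper hr hsin hcos heq hle
  · exact lp46 hmono hper hr hsin hcos heq hle
  · exact lp47 hmono hper hr hsin hcos heq hle
  · exact lp48 hmono hper hr hsin hcos heq hle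
  · exact lp49 hmono hper hr hsin hcos heq hle
  · exact lp50 hmono hper hr hsin hcos heq hle
  · exact lp51 hmono hper hr hsin hcos heq hle
  · exact lp52 hmono hper hr hsin hcos heq hle
  · exact lp53 hmono hper hr hsin hcos heq hle
  · exact lp54 hmono hper hr hsin hcos heq hle
  · exact lp55 hmono hper hr hsin hcos heq hle
  · exact lp56 hmono hper hr hsin hcos heq hle
  · exact lp57 hmono hper hr hsin hcos heq hle
  · exact lp58 hmono hper hr hsin hcos heq hle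
  · exact lp59 hmono hper hr hsin hcos heq hle
  · exact lp60 hmono hper hr hsin hcos heq hle
  · exact lp61 hmono hper hr hsin hcos heq hle
  · exact lp62 hmono hper hr hsin hcos heq hle
  · exact lp63 hmono hper hr hsin hcos heq hle
  · exact lp64 hmono hper hr hsin hcos heq hle
  · exact lp65 hmono hper hr hsin hcos heq hle
  · exact lp66 hmono hper hr hsin hcos heq hle
  · exact lp67 hmono hper hr hsin hcos heq hle
  · exact lp68 hmono hper hr hsin hcos heq hle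
  · exact lp69 hmono hper hr hsin hcos heq hle
  · exact lp70 hmono hper hr hsin hcos heq hle
  · exact lp71 hmono hper hr hsin hcos heq hle
  · exact lp72 hmono hper hr hsin hcos heq hle
  · exact lp73 hmono hper hr hsin hcos heq hle
  · exact lp74 hmono hper hr hsin hcos heq hle
  · exact lp75 hmono hper hr hsin hcos heq hle
  · exact lp76 hmono hper hr hsin hcos heq hle
  · exact lp77 hmono hper hr hsin hcos heq hle
  · exact lp78 hmono hper hr hsin hcos heq hle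
  · exact lp79 hmono hper hr hsin hcos heq hle
  · exact lp80 hmono hper hr hsin hcos heq hle
  · exact lp81 hmono hper hr hsin hcos heq hle
  · exact lp82 hmono hper hr hsin hcos heq hle
  · exact lp83 hmono hper hr hsin hcos heq hle
  · exact lp84 hmono hper hr hsin hcos heq hle

end Pool.Agent.H443CC
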