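import Pool.Agent.H443CC.SmallR
import Pool.Agent.H443CC.Eng2N

/-!
# The range of the resultant excluded by the duality engine
-/

open Real

namespace Pool.Agent.H443CC

/-- `∑_{k ≤ n} ⌊10^12 / k⌋` -/
def hz : ℕ → ℕ
  | 0 => 0
  | n + 1 => 10 ^ 12 / (n + 1) + hz n

lemma hz_le (n : ℕ) : (hz n : ℝ) ≤ 10 ^ 12 * ((harmonic n : ℚ) : ℝ) := by
  induction n with
  | zero => simp [hz]
  | succ n ih =>
    have h1 : ((10 ^ 12 / (n + 1) : ℕ) : ℝ) ≤ 10 ^ 12 / ((n : ℝ) + 1) := by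
      refine (Nat.cast_div_le).trans (le_of_eq ?_)
      push_cast
      norm_num
    rw [harmonic_succ]
    simp only [hz]
    push_cast at h1 ⊢
    have e : (10 : ℝ) ^ 12 * (((harmonic n : ℚ) : ℝ) + ((n : ℝ) + 1)⁻¹)
        = 10 ^ 12 * ((harmonic n : ℚ) : ℝ) + 10 ^ 12 / ((n : ℝ) + 1) := by
      rw [mul_add, div_eq_mul_inv]
    rw [e]
    push_cast at *
    linarith

/-- numerical check of the lower bound for the resultant -/
def r0ok (N R0 Q : ℕ) : Bool :=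
  (N * 10 ^ 8 ≤ Q * Q * (N - 2) : Bool) &&
  (R0 * (20000 + 2 * Q) * 10 ^ 14 + 59215 * 65536 * 10 ^ 13 ≤ hz ((N - 1) / 2) * 318309 * 65536 : Bool)

lemma r_lower {N : ℕ} {θ : ℕ → ℝ} (hN : 3 ≤ N) (hmono : StrictMono θ) (hper : ∀ i, θ (i + N) = θ i + 2 * π) {r : ℝ}
    (hr : 0 < r) (hsin : ∑ i ∈ Finset.range N, sin (θ i) = 0)
    (hcos : ∑ i ∈ Finset.range N, cos (θ i) = r)
    (heq : ∀ i, ∑ k ∈ Finset.Ico 1 N, F (dd θ i k) = -r * sin (θ i))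
    {R0 Q : ℕ} (h : r0ok N R0 Q = true) : (R0 : ℝ) / 2 ^ 16 ≤ r / N := by
  have hN' : (3 : ℝ) ≤ N := by exact_mod_cast hN
  have hN0 : (0 : ℝ) < N := by linarith
  have h1 := small_r hN hmono hper hr hsin hcos heq
  have h2 := lam_lower (N := N) (by omega)
  have h3 := hz_le ((N - 1) / 2)
  simp only [r0ok, Bool.and_eq_true, decide_eq_true_eq] at h
  obtain ⟨hQ, hH⟩ := h
  set H : ℝ := ((harmonic ((N - 1) / 2) : ℚ) : ℝ) with hHdef
  set q : ℝ := (Q : ℝ) / 10 ^ 4 with hq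
  have hq0 : 0 ≤ q := by positivity
  -- square root bound
  have hs : √((N : ℝ) / (N - 2)) ≤ q := by
    rw [Real.sqrt_le_left hq0, div_le_iff₀ (by linarith)]
    have : ((N * 10 ^ 8 : ℕ) : ℝ) ≤ ((Q * Q * (N - 2) : ℕ) : ℝ) := by exact_mod_cast hQ
    rw [Nat.cast_mul, Nat.cast_mul, Nat.cast_mul, Nat.cast_sub (by omega)] at this
    push_cast at this
    rw [hq]
    have e : ((Q : ℝ) / 10 ^ 4) ^ 2 * ((N : ℝ) - 2) = (Q : ℝ) * Q * (N - 2) / 10 ^ 8 := by ring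
    rw [e, le_div_iff₀ (by norm_num)]
    linarith
  have h4 : ((R0 * (20000 + 2 * Q) * 10 ^ 14 + 59215 * 65536 * 10 ^ 13 : ℕ) : ℝ)
      ≤ ((hz ((N - 1) / 2) * 318309 * 65536 : ℕ) : ℝ) := by exact_mod_cast hH
  push_cast at h4
  -- bounds on π
  have hp1 := Real.pi_gt_d4
  have hp2 := Real.pi_lt_d4
  have hH0 : 0 ≤ H := by
    have : (0 : ℝ) ≤ (hz ((N - 1) / 2) : ℝ) := Nat.cast_nonneg _
    nlinarith
  have h5 : H * 0.318309 ≤ H / π := by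
    rw [le_div_iff₀ Real.pi_pos]
    nlinarith
  have h6 : (0.03875 : ℝ) ≤ π ^ 3 / 800 := by
    have : (3.1415 : ℝ) ^ 3 ≤ π ^ 3 := pow_le_pow_left₀ (by norm_num) hp1.le 3
    norm_num at this ⊢
    linarith
  have h7 : π / 24 ≤ 0.1309 := by linarith
  have h8 : H * 0.318309 - 0.1309 + 0.03875 ≤ H / π - π / 24 + π ^ 3 / 800 := by linarith
  have h9 : N * (H * 0.318309 - 0.1309 + 0.03875) - N / 2 < r * (2 + 2 * q) := by
    have a1 := mul_le_mul_of_nonneg_left h8 hN0.le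
    have a2 : r * (2 + 2 * √((N : ℝ) / (N - 2))) ≤ r * (2 + 2 * q) := by
      apply mul_le_mul_of_nonneg_left _ hr.le
      linarith
    linarith
  -- conclusion
  by_contra hcon
  push Not at hcon
  rw [div_lt_iff₀ hN0] at hcon
  have h10 : (R0 : ℝ) / 2 ^ 16 * (2 + 2 * q) ≤ H * 0.318309 - 0.1309 + 0.03875 - 1 / 2 := by
    have b1 : (hz ((N - 1) / 2) : ℝ) * 318309 * 65536 ≤ 10 ^ 12 * H * 318309 * 65536 := by nlinarith
    have b2 := h4.trans b1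
    have e : (R0 : ℝ) / 2 ^ 16 * (2 + 2 * q) * (65536 * 10 ^ 18) = R0 * (20000 + 2 * Q) * 10 ^ 14 := by
      rw [hq]; ring
    have b3 : (R0 : ℝ) / 2 ^ 16 * (2 + 2 * q) * (65536 * 10 ^ 18)
        ≤ (H * 0.318309 - 0.1309 + 0.03875 - 1 / 2) * (65536 * 10 ^ 18) := by
      rw [e]; nlinarith
    exact le_of_mul_le_mul_right b3 (by norm_num)
  have h11 : r * (2 + 2 * q) ≤ (R0 : ℝ) / 2 ^ 16 * N * (2 + 2 * q) :=
    mul_le_mul_of_nonneg_right hcon.le (by positivity)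
  have h12 : (R0 : ℝ) / 2 ^ 16 * N * (2 + 2 * q) = N * ((R0 : ℝ) / 2 ^ 16 * (2 + 2 * q)) := by ring
  have h13 := mul_le_mul_of_nonneg_left h10 hN0.le
  linarith

/-- no solution with `0 < r ≤ N R1 / 2^16` -/
lemma lp_range {T : ℕ} (hT : ∀ g, 0 < fX (ent T g) → Ent (ent T g)) {N : ℕ} (hN : 3 ≤ N) (hN2 : N ≤ 200)
    {lv : List ℕ} {R0 : ℕ} {cs0 : List ℕ} {nodes : List (ℕ × List ℕ)}
    (h : eng2Ok T N lv R0 cs0 nodes = true)
    {R1 : ℕ} (hlast : (nodes.map Prod.fst).getLast? = some R1)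
    (hR1 : nodes.all (fun n => Nat.ble n.1 65536) = true) {Q : ℕ} (hr0 : r0ok N R0 Q = true)
    {θ : ℕ → ℝ} (hmono : StrictMono θ) (hper : ∀ i, θ (i + N) = θ i + 2 * π) {r : ℝ} (hr : 0 < r)
    (hsin : ∑ i ∈ Finset.range N, sin (θ i) = 0) (hcos : ∑ i ∈ Finset.range N, cos (θ i) = r)
    (heq : ∀ i, ∑ k ∈ Finset.Ico 1 N, F (dd θ i k) = -r * sin (θ i))
    (h1 : r / N ≤ (R1 : ℝ) / 2 ^ 16) : False :=
  eng2_sound hT hN hN2 h hlast (fun n hn => Nat.le_of_ble_eq_true (List.all_eq_true.1 hR1 n hn)) hmono hper hsin hcos heq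
    (r_lower hN hmono hper hr hsin hcos heq hr0) h1

lemma r_le {N : ℕ} {θ : ℕ → ℝ} (hN : 1 ≤ N) {r : ℝ} (hcos : ∑ i ∈ Finset.range N, cos (θ i) = r) :
    r ≤ N := by
  rw [← hcos]
  calc ∑ i ∈ Finset.range N, cos (θ i) ≤ ∑ i ∈ Finset.range N, (1 : ℝ) :=
        Finset.sum_le_sum fun i _ => Real.cos_le_one _
    _ = N := by simp

end Pool.Agent.H443CC
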