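import Pool.Agent.H443CC.Circle2

/-!
# A lower bound for the resultant
-/

open Real

namespace Pool.Agent.H443CC

variable {N : ℕ} {θ : ℕ → ℝ}

/-- `X < 2 r` -/
lemma X_lt (hN : 2 ≤ N) (hmono : StrictMono θ) (hper : ∀ i, θ (i + N) = θ i + 2 * π) {r : ℝ}
    (hr : 0 < r) (hsin : ∑ i ∈ Finset.range N, sin (θ i) = 0)
    (hcos : ∑ i ∈ Finset.range N, cos (θ i) = r)
    (heq : ∀ i, ∑ k ∈ Finset.Ico 1 N, F (dd θ i k) = -r * sin (θ i)) :
    -∑ i ∈ Finset.range N, ph N θ i * sin (θ i) < 2 * r := by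
  have hN0 : (0 : ℝ) < N := by exact_mod_cast (by omega : 0 < N)
  have h1 := X_sum (by omega) hper hsin
  have h2 : ∑ k ∈ Finset.Ico 1 N, -∑ i ∈ Finset.range N, dd θ i k * pp θ i k
      ≤ ∑ k ∈ Finset.Ico 1 N, 2 * r :=
    Finset.sum_le_sum fun k hk => Xk_le hmono hper hr hcos heq hk
  rw [h1, Finset.sum_const, Nat.card_Ico, nsmul_eq_mul, Nat.cast_sub (by omega)] at h2
  push_cast at h2
  by_contra hcon
  push Not at hcon
  have := mul_le_mul_of_nonneg_left hcon hN0.le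
  nlinarith

lemma aa_ge {α x A : ℝ} (hx0 : 0 < x) (hx1 : x < π) (hα0 : 0 < α) (hα1 : α ≤ π / 2)
    (hA : A = (F (2 * α) - F (2 * x)) * (2 * x - 2 * α)) :
    sin (x - α) ^ 2 ≤ 2 * sin α ^ 2 * A := by
  have hsx : 0 < sin x := sin_pos_of_pos_of_lt_pi hx0 hx1
  have hsα : 0 < sin α := sin_pos_of_pos_of_lt_pi hα0 (by linarith [pi_pos])
  have h1 := two_angle hx0 hx1 hα0 hα1
  rw [F_sub hsα.ne' hsx.ne'] at hA
  have h2 : 2 * sin α ^ 2 * A * sin x ^ 2 = (x - α) * (cos α - cos x) * (1 + cos α * cos x) := by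
    rw [hA]
    field_simp
    ring
  have h3 : sin x ^ 2 ≤ sin x := by nlinarith [sin_le_one x]
  have h4 : sin (x - α) ^ 2 * sin x ^ 2 ≤ 2 * sin α ^ 2 * A * sin x ^ 2 := by
    rw [h2]
    refine le_trans ?_ h1
    have := sq_nonneg (sin (x - α))
    nlinarith
  exact le_of_mul_le_mul_right h4 (by positivity)

lemma level_C2_half (hmono : StrictMono θ) (hper : ∀ i, θ (i + N) = θ i + 2 * π)
    {k : ℕ} (hk : k ∈ Finset.Ico 1 N) (hk2 : 2 * k ≤ N) :
    (∑ i ∈ Finset.range N, cos (2 * θ i)) ^ 2 * cos (π * k / N) ^ 2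
      ≤ 2 * N * ∑ i ∈ Finset.range N, aa N θ i k := by
  have hk' := Finset.mem_Ico.1 hk
  have hN : (0 : ℝ) < N := by
    have : 0 < N := by omega
    exact_mod_cast this
  have hkr : (1 : ℝ) ≤ k := by exact_mod_cast hk'.1
  have hk2r : 2 * (k : ℝ) ≤ N := by exact_mod_cast hk2
  set α : ℝ := π * k / N with hα
  have hα0 : 0 < α := by rw [hα]; have := pi_pos; positivity
  have hα1 : α ≤ π / 2 := by
    rw [hα, div_le_div_iff₀ hN (by norm_num)]
    nlinarith [pi_pos]
  have hsα : 0 < sin α := sin_pos_of_pos_of_lt_pi hα0 (by linarith [pi_pos])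
  have h2α : 2 * π * k / N = 2 * α := by rw [hα]; ring
  set C2 := ∑ i ∈ Finset.range N, cos (2 * θ i) with hC2
  have hsum1 : ∑ i ∈ Finset.range N, cos (θ i + θ (i + k)) * cos (dd θ i k) = C2 := by
    have h1 : ∀ i ∈ Finset.range N, cos (θ i + θ (i + k)) * cos (dd θ i k) =
        (cos (2 * θ (i + k)) + cos (2 * θ i)) / 2 := by
      intro i _
      unfold dd
      have e1 : 2 * θ (i + k) = (θ i + θ (i + k)) + (θ (i + k) - θ i) := by ring
      have e2 : 2 * θ i = (θ i + θ (i + k)) - (θ (i + k) - θ i) := by ring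
      have g1 := cos_add (θ i + θ (i + k)) (θ (i + k) - θ i)
      have g2 := cos_sub (θ i + θ (i + k)) (θ (i + k) - θ i)
      rw [← e1] at g1
      rw [← e2] at g2
      rw [g1, g2]; ring
    rw [Finset.sum_congr rfl h1, ← Finset.sum_div, Finset.sum_add_distrib,
      sum_shift (fun i => cos (2 * θ i)) (fun i => by
        rw [hper i, mul_add]
        have : 2 * θ i + 2 * (2 * π) = 2 * θ i + (2 : ℕ) * (2 * π) := by push_cast; ring
        rw [this, cos_add_nat_mul_two_pi]) k]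
    rw [hC2]; ring
  have hsum2 : ∑ i ∈ Finset.range N, cos (θ i + θ (i + k)) * sin (dd θ i k) = 0 := by
    have h1 : ∀ i ∈ Finset.range N, cos (θ i + θ (i + k)) * sin (dd θ i k) =
        (sin (2 * θ (i + k)) - sin (2 * θ i)) / 2 := by
      intro i _
      unfold dd
      have e1 : 2 * θ (i + k) = (θ i + θ (i + k)) + (θ (i + k) - θ i) := by ring
      have e2 : 2 * θ i = (θ i + θ (i + k)) - (θ (i + k) - θ i) := by ring
      have g1 := sin_add (θ i + θ (i + k)) (θ (i + k) - θ i)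
      have g2 := sin_sub (θ i + θ (i + k)) (θ (i + k) - θ i)
      rw [← e1] at g1
      rw [← e2] at g2
      rw [g1, g2]; ring
    rw [Finset.sum_congr rfl h1, ← Finset.sum_div, Finset.sum_sub_distrib,
      sum_shift (fun i => sin (2 * θ i)) (fun i => by
        rw [hper i, mul_add]
        have : 2 * θ i + 2 * (2 * π) = 2 * θ i + (2 : ℕ) * (2 * π) := by push_cast; ring
        rw [this, sin_add_nat_mul_two_pi]) k]
    simp
  have hmain : C2 * sin (2 * α) =
      ∑ i ∈ Finset.range N, cos (θ i + θ (i + k)) * sin (2 * α - dd θ i k) := by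
    have h1 : ∀ i ∈ Finset.range N, cos (θ i + θ (i + k)) * sin (2 * α - dd θ i k) =
        sin (2 * α) * (cos (θ i + θ (i + k)) * cos (dd θ i k)) -
        cos (2 * α) * (cos (θ i + θ (i + k)) * sin (dd θ i k)) := by
      intro i _
      rw [sin_sub]; ring
    rw [Finset.sum_congr rfl h1, Finset.sum_sub_distrib, ← Finset.mul_sum, ← Finset.mul_sum,
      hsum1, hsum2]
    ring
  have habs : |C2 * sin (2 * α)| ≤ ∑ i ∈ Finset.range N, 2 * |sin (dd θ i k / 2 - α)| := by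
    rw [hmain]
    refine (Finset.abs_sum_le_sum_abs _ _).trans (Finset.sum_le_sum fun i _ => ?_)
    rw [abs_mul]
    have e1 : sin (2 * α - dd θ i k) = - (2 * sin (dd θ i k / 2 - α) * cos (dd θ i k / 2 - α)) := by
      rw [← sin_two_mul, ← sin_neg]; congr 1; ring
    rw [e1, abs_neg, abs_mul, abs_mul, abs_two]
    have c1 := abs_cos_le_one (θ i + θ (i + k))
    have c2 := abs_cos_le_one (dd θ i k / 2 - α)
    have c3 := abs_nonneg (sin (dd θ i k / 2 - α))
    calc |cos (θ i + θ (i + k))| * (2 * |sin (dd θ i k / 2 - α)| * |cos (dd θ i k / 2 - α)|)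
        ≤ 1 * (2 * |sin (dd θ i k / 2 - α)| * 1) := by gcongr
      _ = _ := by ring
  have habs2 : |C2| * cos α * sin α ≤ ∑ i ∈ Finset.range N, |sin (dd θ i k / 2 - α)| := by
    rw [← Finset.mul_sum, abs_mul, sin_two_mul, abs_mul, abs_mul, abs_two, abs_of_pos hsα,
      abs_of_nonneg (cos_nonneg_of_neg_pi_div_two_le_of_le (by linarith [pi_pos]) hα1)] at habs
    linarith
  have hcs : (∑ i ∈ Finset.range N, |sin (dd θ i k / 2 - α)|) ^ 2 ≤
      N * ∑ i ∈ Finset.range N, sin (dd θ i k / 2 - α) ^ 2 := by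
    have := sq_sum_le_card_mul_sum_sq (s := Finset.range N)
      (f := fun i => |sin (dd θ i k / 2 - α)|)
    simpa [sq_abs] using this
  have hpt : ∀ i ∈ Finset.range N, sin (dd θ i k / 2 - α) ^ 2 ≤ 2 * sin α ^ 2 * aa N θ i k := by
    intro i _
    have hd := dd_mem hmono hper hk i
    apply aa_ge (by linarith [hd.1]) (by linarith [hd.2]) hα0 hα1
    unfold aa
    rw [h2α]
    have : 2 * (dd θ i k / 2) = dd θ i k := by ring
    rw [this]
  have h5 : (|C2| * cos α * sin α) ^ 2 ≤ N * ∑ i ∈ Finset.range N, 2 * sin α ^ 2 * aa N θ i k := by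
    have h6 : (|C2| * cos α * sin α) ^ 2 ≤ (∑ i ∈ Finset.range N, |sin (dd θ i k / 2 - α)|) ^ 2 := by
      apply pow_le_pow_left₀ _ habs2
      have := cos_nonneg_of_neg_pi_div_two_le_of_le (x := α) (by linarith [pi_pos]) hα1
      positivity
    refine h6.trans (hcs.trans ?_)
    have := Finset.sum_le_sum hpt
    exact mul_le_mul_of_nonneg_left this hN.le
  rw [← Finset.mul_sum] at h5
  have h7 : C2 ^ 2 * cos α ^ 2 * sin α ^ 2 ≤
      (2 * N * ∑ i ∈ Finset.range N, aa N θ i k) * sin α ^ 2 := by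
    have e : (|C2| * cos α * sin α) ^ 2 = C2 ^ 2 * cos α ^ 2 * sin α ^ 2 := by
      rw [mul_pow, mul_pow, sq_abs]
    rw [e] at h5
    linarith
  exact le_of_mul_le_mul_right h7 (by positivity)

/-- TARGET 1 (all `k` with `1 ≤ k < N`) -/
lemma level_C2 (hmono : StrictMono θ) (hper : ∀ i, θ (i + N) = θ i + 2 * π)
    {k : ℕ} (hk : k ∈ Finset.Ico 1 N) :
    (∑ i ∈ Finset.range N, cos (2 * θ i)) ^ 2 * cos (π * k / N) ^ 2
      ≤ 2 * N * ∑ i ∈ Finset.range N, aa N θ i k := by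
  have hk' := Finset.mem_Ico.1 hk
  rcases le_total (2 * k) N with h | h
  · exact level_C2_half hmono hper hk h
  · have hk2 : N - k ∈ Finset.Ico 1 N := Finset.mem_Ico.2 (by omega)
    have h1 := level_C2_half hmono hper hk2 (by omega)
    rw [level_symm (by omega) hper hk] at h1
    have hN : (N : ℝ) ≠ 0 := by
      have : N ≠ 0 := by omega
      exact_mod_cast this
    have e : π * ((N - k : ℕ) : ℝ) / N = π - π * k / N := by
      rw [Nat.cast_sub hk'.2.le]
      field_simp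
    rw [e, cos_pi_sub, neg_sq] at h1
    exact h1

/-- TARGET 2 -/
lemma sum_cos_sq (hN : 3 ≤ N) : ∑ k ∈ Finset.Ico 1 N, cos (π * k / N) ^ 2 = (N : ℝ) / 2 - 1 := by
  have hN0 : N ≠ 0 := by omega
  have hN0' : (N : ℝ) ≠ 0 := by exact_mod_cast hN0
  have h1 := (Complex.isPrimitiveRoot_exp N hN0).geom_sum_eq_zero (by omega)
  have h2 : ∑ k ∈ Finset.range N, cos (2 * π * k / N) = 0 := by
    have h3 := congrArg Complex.re h1
    rw [Complex.re_sum, Complex.zero_re] at h3
    rw [← h3]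
    apply Finset.sum_congr rfl
    intro k _
    rw [← Complex.exp_nat_mul]
    have : (k : ℂ) * (2 * π * Complex.I / N) = ((2 * π * k / N : ℝ) : ℂ) * Complex.I := by
      push_cast; ring
    rw [this, Complex.exp_ofReal_mul_I_re]
  have h4 : ∑ k ∈ Finset.range N, cos (π * k / N) ^ 2 = (N : ℝ) / 2 := by
    have h5 : ∀ k ∈ Finset.range N, cos (π * k / N) ^ 2 = 1 / 2 + cos (2 * π * k / N) / 2 := by
      intro k _
      rw [cos_sq]
      congr 3
      ring
    have h6 : ∑ k ∈ Finset.range N, cos (2 * π * k / N) / 2 = 0 := by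
      rw [← Finset.sum_div, h2, zero_div]
    rw [Finset.sum_congr rfl h5, Finset.sum_add_distrib, h6]
    simp
    ring
  have h6 : ∑ k ∈ Finset.range N, cos (π * k / N) ^ 2 =
      cos (π * (0 : ℕ) / N) ^ 2 + ∑ k ∈ Finset.Ico 1 N, cos (π * k / N) ^ 2 := by
    rw [Finset.range_eq_Ico, Finset.sum_eq_sum_Ico_succ_bot (by omega)]
  rw [h4] at h6
  simp at h6
  linarith

/-- TARGET 3 -/
lemma small_r (hN : 3 ≤ N) (hmono : StrictMono θ) (hper : ∀ i, θ (i + N) = θ i + 2 * π) {r : ℝ}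
    (hr : 0 < r) (hsin : ∑ i ∈ Finset.range N, sin (θ i) = 0)
    (hcos : ∑ i ∈ Finset.range N, cos (θ i) = r)
    (heq : ∀ i, ∑ k ∈ Finset.Ico 1 N, F (dd θ i k) = -r * sin (θ i)) :
    (∑ k ∈ Finset.Ico 1 N, ell (π * k / N)) - N / 2 < r * (2 + 2 * √(N / (N - 2))) := by
  have hNr : (3 : ℝ) ≤ N := by exact_mod_cast hN
  have hS := S_lt (by omega) hmono hper hr hsin hcos heq
  have hX := X_lt (by omega) hmono hper hr hsin hcos heq
  have hL := lam_sum_le (by omega) hmono hper hr hcos heq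
  set C2 := ∑ i ∈ Finset.range N, cos (2 * θ i) with hC2
  have h1 : ∑ k ∈ Finset.Ico 1 N, C2 ^ 2 * cos (π * k / N) ^ 2 ≤
      ∑ k ∈ Finset.Ico 1 N, 2 * N * ∑ i ∈ Finset.range N, aa N θ i k :=
    Finset.sum_le_sum fun k hk => level_C2 hmono hper hk
  rw [← Finset.mul_sum, ← Finset.mul_sum, sum_cos_sq hN] at h1
  have h2 : C2 ^ 2 * (N - 2) < 16 * r ^ 2 * N := by nlinarith
  have hN2 : (0 : ℝ) < N - 2 := by linarith
  have h3 : C2 ^ 2 < (4 * r * √(N / (N - 2))) ^ 2 := by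
    rw [mul_pow, Real.sq_sqrt (by positivity), mul_pow, mul_div_assoc', lt_div_iff₀ hN2]
    linarith
  have h4 : -(4 * r * √(N / (N - 2))) < C2 := by
    have := abs_lt_of_sq_lt_sq h3 (by positivity)
    exact (abs_lt.1 this).1
  have h5 : ∑ i ∈ Finset.range N, sin (θ i) ^ 2 = N / 2 - C2 / 2 := by
    have h6 : ∀ i ∈ Finset.range N, sin (θ i) ^ 2 = 1 / 2 - cos (2 * θ i) / 2 := by
      intro i _
      rw [sin_sq_eq_half_sub]
    have h7 : ∑ i ∈ Finset.range N, cos (2 * θ i) / 2 = C2 / 2 := by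
      rw [← Finset.sum_div]
    rw [Finset.sum_congr rfl h6, Finset.sum_sub_distrib, h7]
    simp
    ring
  rw [Finset.sum_sub_distrib, h5] at hL
  linarith

end Pool.Agent.H443CC
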