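import Pool.Agent.H443CC.Circle
import Pool.Agent.H443CC.Eng1Defs

/-!
# Solutions as increasing lists
-/

open Real

namespace Pool.Agent.H443CC

/-- real position -/
noncomputable def pos (p : ℕ) : ℝ := (p : ℝ) / 1024 - 4

/-- properties of the tables -/
structure Tab (T SN CH : ℕ) : Prop where
  lo : ∀ m : ℕ, 1 ≤ m → m ≤ 6430 → ∀ d : ℝ, 0 < d → d ≤ (m : ℝ) / 1024 → ((lk32 T (m - 1) : ℝ) - 2 ^ 31) ≤ 2 ^ 14 * F d
  up : ∀ m : ℕ, 4 ≤ m → ∀ d : ℝ, (m : ℝ) / 1024 ≤ d → d < 2 * π → 2 ^ 14 * F d ≤ (lk32 T (m - 1) : ℝ) + 1 - 2 ^ 31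
  sn : ∀ p : ℕ, ((lk16 SN p : ℝ) - 2 ^ 14) ≤ 2 ^ 14 * sin (pos p)
  ch : ∀ p : ℕ, p ≤ 8192 → 2 ^ 14 * cos (pos p) ≤ (lk16 CH p : ℝ) - 2 ^ 14

/-- solutions of the pinned system, as increasing lists -/
structure Sol (r : ℝ) (xs : List ℝ) : Prop where
  sorted : xs.Pairwise (· < ·)
  range : ∀ x ∈ xs, -π ≤ x ∧ x ≤ π
  width : xs.Pairwise (fun x z => z - x < 2 * π)
  eqs : ∀ a x b, xs = a ++ x :: b →
    (b.map (fun z => F (z - x))).sum - (a.map (fun z => F (x - z))).sum + r * sin x = 0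
  cos : (xs.map Real.cos).sum = r

/-- reflection -/
noncomputable def refl (xs : List ℝ) : List ℝ := (xs.map (fun x => -x)).reverse

/-- `U` is a sorted list of upper bounds of `xs` -/
structure Bnd (xs : List ℝ) (U : List ℕ) : Prop where
  le : List.Forall₂ (fun x u => x ≤ pos u) xs U
  sorted : U.Pairwise (· ≤ ·)
  top : ∀ u ∈ U, u ≤ 7313

end Pool.Agent.H443CC
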