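import Pool.Agent.H443CC.Eng1Defs
import Pool.Agent.H443CC.TayDefs

/-!
# Checks of the tables of the sweep engine
-/

namespace Pool.Agent.H443CC

/-- absolute difference -/
def ad2 (x y : Nat) : Nat := Nat.add (Nat.sub x y) (Nat.sub y x)

/-- check `f a, …, f (a + n - 1)` -/
noncomputable def allR (f : Nat → Bool) (a n : Nat) : Bool :=
  @Nat.rec (fun _ => Bool) true (fun k ih => (@Bool.rec (fun _ => Bool) false ih (f (Nat.add a k)))) n

/-- entry for `F (m / 1024)` -/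
noncomputable def fOk (T m : Nat) : Bool :=
  (fun t S CP CM => (@Bool.rec (fun _ => Bool) false (Nat.ble (Nat.add (Nat.mul (Nat.pow 2 72) (Nat.add CP 2)) (Nat.mul (Nat.sub 2147483648 (Nat.succ t)) (Nat.pow (Nat.add S 2) 2)))
      (Nat.add (Nat.mul (Nat.pow 2 72) CM) (Nat.mul (Nat.sub (Nat.succ t) 2147483648) (Nat.pow S 2)))) (Nat.ble (Nat.add (Nat.mul (Nat.sub t 2147483648) (Nat.pow (Nat.add S 2) 2)) (Nat.mul (Nat.pow 2 72) (Nat.add CM 2)))
      (Nat.add (Nat.mul (Nat.pow 2 72) CP) (Nat.mul (Nat.sub 2147483648 t) (Nat.pow S 2))))))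
    (lk32 T (Nat.sub m 1)) (sI 11 m) (cP 11 m) (cM 11 m)

noncomputable def snOk (SN p : Nat) : Bool :=
  (@Bool.rec (fun _ => Bool) (Nat.ble (Nat.add (sI 11 (Nat.mul 2 (Nat.sub 4096 p))) 2) (Nat.mul (Nat.sub 16384 (lk16 SN p)) (Nat.pow 2 46))) (Nat.ble (Nat.mul (Nat.sub (lk16 SN p) 16384) (Nat.pow 2 46)) (sI 11 (Nat.mul 2 (Nat.sub p 4096)))) (Nat.ble 4096 p))

noncomputable def chOk (CH p : Nat) : Bool :=
  (@Bool.rec (fun _ => Bool) (Nat.ble (Nat.add (cP 11 (Nat.mul 2 (ad2 p 4096))) (Nat.add 2 (Nat.pow 2 60)))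
      (Nat.add (cM 11 (Nat.mul 2 (ad2 p 4096))) (Nat.mul (lk16 CH p) (Nat.pow 2 46)))) true (Nat.ble 32768 (lk16 CH p)))

/-- check of the force table -/
noncomputable def tabF (T : Nat) : Bool :=
  (@Bool.rec (fun _ => Bool) false (@Bool.rec (fun _ => Bool) false (@Bool.rec (fun _ => Bool) false (@Bool.rec (fun _ => Bool) false (@Bool.rec (fun _ => Bool) false (@Bool.rec (fun _ => Bool) false (allR (fOk T) 4 6427) (Nat.ble (lk32 T 6429) (lk32 T 6432))) (Nat.ble (lk32 T 6429) (lk32 T 6431))) (Nat.ble (lk32 T 6429) (lk32 T 6430))) (Nat.ble (lk32 T 2) (lk32 T 3))) (Nat.ble (lk32 T 1) (lk32 T 3))) (Nat.ble (lk32 T 0) (lk32 T 3)))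

/-- check of the sine table -/
noncomputable def tabS (SN : Nat) : Bool :=
  (@Bool.rec (fun _ => Bool) false (@Bool.rec (fun _ => Bool) false (@Bool.rec (fun _ => Bool) false (@Bool.rec (fun _ => Bool) false (Nat.beq (Nat.shiftRight SN 117024) 0) (Nat.ble (lk16 SN 7313) 16383)) (allR (snOk SN) 880 6433)) (Nat.ble (lk16 SN 879) 16384)) (allR (fun p => Nat.beq (lk16 SN p) 0) 0 879))

/-- check of the cosine table -/
noncomputable def tabC (CH : Nat) : Bool :=
  (@Bool.rec (fun _ => Bool) false (@Bool.rec (fun _ => Bool) false (allR (fun p => Nat.ble 32768 (lk16 CH p)) 7314 879) (allR (chOk CH) 879 6435)) (allR (fun p => Nat.ble 32768 (lk16 CH p)) 0 879))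

end Pool.Agent.H443CC
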