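import Pool.Agent.H443CC.SolDefs
import Pool.Agent.H443CC.Tab1Defs
import Pool.Agent.H443CC.TaySpec

/-!
# Soundness of the table checks of the sweep engine
-/

open Real

namespace Pool.Agent.H443CC

theorem ts_sub (x y : ℕ) : Nat.sub x y = x - y := by cases y <;> rfl
theorem ts_add (x y : ℕ) : Nat.add x y = x + y := by cases y <;> rfl
theorem ts_mul (x y : ℕ) : Nat.mul x y = x * y := by cases y <;> rfl
theorem ts_pow (x y : ℕ) : Nat.pow x y = x ^ y := by cases y <;> rfl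
theorem ts_succ (x : ℕ) : Nat.succ x = x + 1 := by cases x <;> rfl

theorem ts_cnd_and {b x : Bool} (h : @Bool.rec (fun _ => Bool) false x b = true) :
    b = true ∧ x = true := by
  cases b
  · exact absurd h Bool.false_ne_true
  · exact ⟨rfl, h⟩

theorem ts_cnd_or {b x y : Bool} (h : @Bool.rec (fun _ => Bool) y x b = true) :
    (b = true ∧ x = true) ∨ (b = false ∧ y = true) := by
  cases b
  · exact Or.inr ⟨rfl, h⟩
  · exact Or.inl ⟨rfl, h⟩

theorem ts_allR (f : Nat → Bool) (a n : Nat) (h : allR f a n = true) :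
    ∀ k, a ≤ k → k < a + n → f k = true := by
  induction n with
  | zero =>
    intro k h1 h2
    omega
  | succ n ih =>
    have h' : @Bool.rec (fun _ => Bool) false (allR f a n) (f (Nat.add a n)) = true := h
    obtain ⟨h3, h4⟩ := ts_cnd_and h'
    intro k h1 h2
    by_cases hk : k = a + n
    · rw [hk]
      exact h3
    · exact ih h4 k h1 (by omega)

theorem ts_arith (t S CP CM : ℕ)
    (h1 : (t - 2147483648) * (S + 2) ^ 2 + 2 ^ 72 * (CM + 2) ≤
      2 ^ 72 * CP + (2147483648 - t) * S ^ 2)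
    (h2 : 2 ^ 72 * (CP + 2) + (2147483648 - (t + 1)) * (S + 2) ^ 2 ≤
      2 ^ 72 * CM + ((t + 1) - 2147483648) * S ^ 2)
    (s c : ℝ) (hs1 : (S : ℝ) ≤ s) (hs2 : s ≤ S + 2) (hc : |c - ((CP : ℝ) - CM)| ≤ 2) :
    ((t : ℝ) - 2147483648) * s ^ 2 ≤ 2 ^ 72 * c ∧
      2 ^ 72 * c ≤ ((t : ℝ) + 1 - 2147483648) * s ^ 2 := by
  have hS : (0 : ℝ) ≤ S := Nat.cast_nonneg S
  have hs0 : 0 ≤ s := hS.trans hs1
  have hsq1 : (S : ℝ) ^ 2 ≤ s ^ 2 := pow_le_pow_left₀ hS hs1 2
  have hsq2 : s ^ 2 ≤ ((S : ℝ) + 2) ^ 2 := pow_le_pow_left₀ hs0 hs2 2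
  obtain ⟨hc1, hc2⟩ := abs_le.1 hc
  constructor
  · rcases le_total 2147483648 t with h | h
    · obtain ⟨u, rfl⟩ := Nat.exists_eq_add_of_le h
      have e1 : 2147483648 + u - 2147483648 = u := by omega
      have e2 : 2147483648 - (2147483648 + u) = 0 := by omega
      rw [e1, e2, zero_mul, add_zero] at h1
      have h1' : (u : ℝ) * ((S : ℝ) + 2) ^ 2 + 2 ^ 72 * ((CM : ℝ) + 2) ≤ 2 ^ 72 * CP := by
        exact_mod_cast h1
      push_cast
      have hu : (0 : ℝ) ≤ u := Nat.cast_nonneg u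
      have h3 : (u : ℝ) * s ^ 2 ≤ u * ((S : ℝ) + 2) ^ 2 := mul_le_mul_of_nonneg_left hsq2 hu
      have h4 : (2 : ℝ) ^ 72 * ((CP : ℝ) - CM - 2) ≤ 2 ^ 72 * c :=
        mul_le_mul_of_nonneg_left (by linarith) (by positivity)
      have e3 : (2147483648 : ℝ) + u - 2147483648 = u := by ring
      rw [e3]
      linarith
    · obtain ⟨u, hu⟩ := Nat.exists_eq_add_of_le h
      have e1 : t - 2147483648 = 0 := by omega
      have e2 : 2147483648 - t = u := by omega
      rw [e1, e2, zero_mul, zero_add] at h1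
      have h1' : 2 ^ 72 * ((CM : ℝ) + 2) ≤ 2 ^ 72 * CP + (u : ℝ) * (S : ℝ) ^ 2 := by
        exact_mod_cast h1
      have hu' : (0 : ℝ) ≤ u := Nat.cast_nonneg u
      have hur : (2147483648 : ℝ) = t + u := by exact_mod_cast hu
      have h3 : (u : ℝ) * (S : ℝ) ^ 2 ≤ u * s ^ 2 := mul_le_mul_of_nonneg_left hsq1 hu'
      have h4 : (2 : ℝ) ^ 72 * ((CP : ℝ) - CM - 2) ≤ 2 ^ 72 * c :=
        mul_le_mul_of_nonneg_left (by linarith) (by positivity)
      have e3 : (t : ℝ) - 2147483648 = -u := by linarith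
      rw [e3]
      linarith
  · rcases le_total 2147483648 (t + 1) with h | h
    · obtain ⟨u, hu⟩ := Nat.exists_eq_add_of_le h
      have e1 : t + 1 - 2147483648 = u := by omega
      have e2 : 2147483648 - (t + 1) = 0 := by omega
      rw [e1, e2, zero_mul, add_zero] at h2
      have h2' : 2 ^ 72 * ((CP : ℝ) + 2) ≤ 2 ^ 72 * CM + (u : ℝ) * (S : ℝ) ^ 2 := by
        exact_mod_cast h2
      have hu' : (0 : ℝ) ≤ u := Nat.cast_nonneg u
      have hur : (t : ℝ) + 1 = 2147483648 + u := by exact_mod_cast hu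
      have h3 : (u : ℝ) * (S : ℝ) ^ 2 ≤ u * s ^ 2 := mul_le_mul_of_nonneg_left hsq1 hu'
      have h4 : 2 ^ 72 * c ≤ (2 : ℝ) ^ 72 * ((CP : ℝ) - CM + 2) :=
        mul_le_mul_of_nonneg_left (by linarith) (by positivity)
      have e3 : (t : ℝ) + 1 - 2147483648 = u := by linarith
      rw [e3]
      linarith
    · obtain ⟨u, hu⟩ := Nat.exists_eq_add_of_le h
      have e1 : t + 1 - 2147483648 = 0 := by omega
      have e2 : 2147483648 - (t + 1) = u := by omega
      rw [e1, e2, zero_mul, add_zero] at h2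
      have h2' : 2 ^ 72 * ((CP : ℝ) + 2) + (u : ℝ) * ((S : ℝ) + 2) ^ 2 ≤ 2 ^ 72 * CM := by
        exact_mod_cast h2
      have hu' : (0 : ℝ) ≤ u := Nat.cast_nonneg u
      have hur : (2147483648 : ℝ) = t + 1 + u := by exact_mod_cast hu
      have h3 : (u : ℝ) * s ^ 2 ≤ u * ((S : ℝ) + 2) ^ 2 := mul_le_mul_of_nonneg_left hsq2 hu'
      have h4 : 2 ^ 72 * c ≤ (2 : ℝ) ^ 72 * ((CP : ℝ) - CM + 2) :=
        mul_le_mul_of_nonneg_left (by linarith) (by positivity)
      have e3 : (t : ℝ) + 1 - 2147483648 = -u := by linarith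
      rw [e3]
      linarith

/-- generic form of `fOk` -/
noncomputable def ts_fG (bl : @& Nat → @& Nat → Bool) (ad mu sb pw : @& Nat → @& Nat → Nat)
    (lk sI' cP' cM' : Nat → Nat → Nat) :
    Nat → Nat → Bool := fun T m =>
  (fun t S CP CM => (@Bool.rec (fun _ => Bool) false (bl (ad (mu (pw 2 72) (ad CP 2)) (mu (sb 2147483648 (Nat.succ t)) (pw (ad S 2) 2)))
      (ad (mu (pw 2 72) CM) (mu (sb (Nat.succ t) 2147483648) (pw S 2)))) (bl (ad (mu (sb t 2147483648) (pw (ad S 2) 2)) (mu (pw 2 72) (ad CM 2)))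
      (ad (mu (pw 2 72) CP) (mu (sb 2147483648 t) (pw S 2))))))
    (lk T (sb m 1)) (sI' 11 m) (cP' 11 m) (cM' 11 m)

theorem ts_fOk_eq : fOk = ts_fG Nat.ble Nat.add Nat.mul Nat.sub Nat.pow lk32 sI cP cM := rfl

theorem ts_fG_spec (bl : @& Nat → @& Nat → Bool) (ad mu sb pw : @& Nat → @& Nat → Nat)
    (lk sI' cP' cM' : Nat → Nat → Nat) (T m : Nat)
    (h : ts_fG bl ad mu sb pw lk sI' cP' cM' T m = true) :
    bl (ad (mu (sb (lk T (sb m 1)) 2147483648) (pw (ad (sI' 11 m) 2) 2))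
        (mu (pw 2 72) (ad (cM' 11 m) 2)))
      (ad (mu (pw 2 72) (cP' 11 m)) (mu (sb 2147483648 (lk T (sb m 1))) (pw (sI' 11 m) 2))) =
        true ∧
    bl (ad (mu (pw 2 72) (ad (cP' 11 m) 2))
        (mu (sb 2147483648 (Nat.succ (lk T (sb m 1)))) (pw (ad (sI' 11 m) 2) 2)))
      (ad (mu (pw 2 72) (cM' 11 m))
        (mu (sb (Nat.succ (lk T (sb m 1))) 2147483648) (pw (sI' 11 m) 2))) = true := by
  unfold ts_fG at h
  beta_reduce at h
  exact ts_cnd_and h

theorem ts_fOk_nat {T m : ℕ} (h : fOk T m = true) :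
    (lk32 T (m - 1) - 2147483648) * (sI 11 m + 2) ^ 2 + 2 ^ 72 * (cM 11 m + 2) ≤
      2 ^ 72 * cP 11 m + (2147483648 - lk32 T (m - 1)) * sI 11 m ^ 2 ∧
    2 ^ 72 * (cP 11 m + 2) + (2147483648 - (lk32 T (m - 1) + 1)) * (sI 11 m + 2) ^ 2 ≤
      2 ^ 72 * cM 11 m + ((lk32 T (m - 1) + 1) - 2147483648) * sI 11 m ^ 2 := by
  rw [ts_fOk_eq] at h
  obtain ⟨h1, h2⟩ := ts_fG_spec Nat.ble Nat.add Nat.mul Nat.sub Nat.pow lk32 sI cP cM T m h
  have h1' := Nat.le_of_ble_eq_true h1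
  have h2' := Nat.le_of_ble_eq_true h2
  clear h h1 h2
  rw [ts_sub m 1] at h1' h2'
  generalize hK : (2147483648 : ℕ) = K at *
  generalize hZ : (72 : ℕ) = Z at *
  generalize lk32 T (m - 1) = t at *
  generalize sI 11 m = S at *
  generalize cP 11 m = CP at *
  generalize cM 11 m = CM at *
  simp only [ts_add, ts_mul, ts_sub, ts_pow, ts_succ] at h1' h2'
  exact ⟨h1', h2'⟩

/-- generic form of `tabS` -/
noncomputable def ts_sG (lk : Nat → Nat → Nat) (sh : @& Nat → @& Nat → Nat)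
    (bl be : @& Nat → @& Nat → Bool)
    (al : (Nat → Bool) → Nat → Nat → Bool)
    (ok : Nat → Nat → Bool) : Nat → Bool := fun SN =>
  (@Bool.rec (fun _ => Bool) false (@Bool.rec (fun _ => Bool) false (@Bool.rec (fun _ => Bool) false (@Bool.rec (fun _ => Bool) false (be (sh SN 117024) 0) (bl (lk SN 7313) 16383)) (al (ok SN) 880 6433)) (bl (lk SN 879) 16384)) (al (fun p => be (lk SN p) 0) 0 879))

theorem ts_tabS_eq : tabS = ts_sG lk16 Nat.shiftRight Nat.ble Nat.beq allR snOk := by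
  delta tabS ts_sG
  rfl

theorem ts_sG_spec (lk : Nat → Nat → Nat) (sh : @& Nat → @& Nat → Nat)
    (bl be : @& Nat → @& Nat → Bool)
    (al : (Nat → Bool) → Nat → Nat → Bool)
    (ok : Nat → Nat → Bool) (SN : Nat) (h : ts_sG lk sh bl be al ok SN = true) :
    al (fun p => be (lk SN p) 0) 0 879 = true ∧ bl (lk SN 879) 16384 = true ∧
    al (ok SN) 880 6433 = true ∧ bl (lk SN 7313) 16383 = true ∧ be (sh SN 117024) 0 = true := by
  unfold ts_sG at h
  obtain ⟨a1, h⟩ := ts_cnd_and h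
  obtain ⟨a2, h⟩ := ts_cnd_and h
  obtain ⟨a3, h⟩ := ts_cnd_and h
  obtain ⟨a4, h⟩ := ts_cnd_and h
  exact ⟨a1, a2, a3, a4, h⟩

theorem ts_tabS_nat {SN : ℕ} (h : tabS SN = true) :
    allR (fun p => Nat.beq (lk16 SN p) 0) 0 879 = true ∧ lk16 SN 879 ≤ 16384 ∧
    allR (snOk SN) 880 6433 = true ∧ lk16 SN 7313 ≤ 16383 ∧ Nat.shiftRight SN 117024 = 0 := by
  rw [ts_tabS_eq] at h
  obtain ⟨a1, a2, a3, a4, a5⟩ := ts_sG_spec lk16 Nat.shiftRight Nat.ble Nat.beq allR snOk SN h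
  exact ⟨a1, Nat.le_of_ble_eq_true a2, a3, Nat.le_of_ble_eq_true a4, Nat.eq_of_beq_eq_true a5⟩

theorem ts_F {T m : ℕ} (h : fOk T m = true) (hm4 : 4 ≤ m) (hm : m ≤ 6430) :
    ((lk32 T (m - 1) : ℝ) - 2 ^ 31) ≤ 2 ^ 14 * F ((m : ℝ) / 1024) ∧
      2 ^ 14 * F ((m : ℝ) / 1024) ≤ (lk32 T (m - 1) : ℝ) + 1 - 2 ^ 31 := by
  obtain ⟨h1, h2⟩ := ts_fOk_nat h
  obtain ⟨s1, s2⟩ := sI_spec 11 m (by norm_num; omega)
  have hc := cPM_spec 11 m (by norm_num; omega)
  obtain ⟨r1, r2⟩ := ts_arith _ _ _ _ h1 h2 _ _ s1 s2 hc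
  have hx : (m : ℝ) / 1024 / 2 = (m : ℝ) / 2 ^ 11 := by
    norm_num
    ring
  have hm0 : (4 : ℝ) ≤ m := by exact_mod_cast hm4
  have hm1 : (m : ℝ) ≤ 6430 := by exact_mod_cast hm
  have hsin : 0 < sin ((m : ℝ) / 2 ^ 11) := by
    apply sin_pos_of_pos_of_lt_pi
    · positivity
    · have := Real.pi_gt_d6
      have h3 : (m : ℝ) / 2 ^ 11 ≤ 6430 / 2 ^ 11 := by
        apply div_le_div_of_nonneg_right hm1
        positivity
      have h4 : (6430 : ℝ) / 2 ^ 11 < 3.141592 := by norm_num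
      linarith
  have hF : 2 ^ 14 * F ((m : ℝ) / 1024) =
      (2 ^ 72 * (2 ^ 60 * cos ((m : ℝ) / 2 ^ 11))) / (2 ^ 60 * sin ((m : ℝ) / 2 ^ 11)) ^ 2 := by
    unfold F
    rw [hx]
    have := hsin.ne'
    field_simp
    norm_num
    ring
  rw [hF]
  have hpos : 0 < (2 ^ 60 * sin ((m : ℝ) / 2 ^ 11)) ^ 2 := by positivity
  constructor
  · rw [le_div_iff₀ hpos]
    have e : ((lk32 T (m - 1) : ℝ) - 2 ^ 31) = ((lk32 T (m - 1) : ℝ) - 2147483648) := by norm_num
    rw [e]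
    exact r1
  · rw [div_le_iff₀ hpos]
    have e : ((lk32 T (m - 1) : ℝ) + 1 - 2 ^ 31) = ((lk32 T (m - 1) : ℝ) + 1 - 2147483648) := by
      norm_num
    rw [e]
    exact r2

theorem ts_lo {T : ℕ} (h : tabF T = true) (m : ℕ) (hm1 : 1 ≤ m) (hm : m ≤ 6430) (d : ℝ)
    (hd0 : 0 < d) (hd : d ≤ (m : ℝ) / 1024) :
    ((lk32 T (m - 1) : ℝ) - 2 ^ 31) ≤ 2 ^ 14 * F d := by
  unfold tabF at h
  obtain ⟨a1, h⟩ := ts_cnd_and h
  obtain ⟨a2, h⟩ := ts_cnd_and h
  obtain ⟨a3, h⟩ := ts_cnd_and h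
  obtain ⟨a4, h⟩ := ts_cnd_and h
  obtain ⟨a5, h⟩ := ts_cnd_and h
  obtain ⟨a6, h⟩ := ts_cnd_and h
  have hall := ts_allR _ _ _ h
  have hπ := Real.pi_gt_d6
  have hmR : (m : ℝ) ≤ 6430 := by exact_mod_cast hm
  by_cases hm4 : 4 ≤ m
  · have h1 := (ts_F (hall m hm4 (by omega)) hm4 hm).1
    have hm0 : (4 : ℝ) ≤ m := by exact_mod_cast hm4
    have h2 : F ((m : ℝ) / 1024) ≤ F d := by
      apply F_strictAnti.antitoneOn _ _ hd
      · exact ⟨hd0, by linarith⟩
      · exact ⟨by positivity, by linarith⟩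
    have h3 : (2 : ℝ) ^ 14 * F ((m : ℝ) / 1024) ≤ 2 ^ 14 * F d :=
      mul_le_mul_of_nonneg_left h2 (by positivity)
    linarith
  · have h1 := (ts_F (hall 4 le_rfl (by omega)) le_rfl (by omega)).1
    have hm3 : (m : ℝ) ≤ 4 := by
      have : m ≤ 4 := by omega
      exact_mod_cast this
    have h2 : F (((4 : ℕ) : ℝ) / 1024) ≤ F d := by
      apply F_strictAnti.antitoneOn _ _ _
      · exact ⟨hd0, by linarith⟩
      · constructor
        · norm_num
        · push_cast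
          linarith
      · push_cast
        linarith
    have h3 : (2 : ℝ) ^ 14 * F (((4 : ℕ) : ℝ) / 1024) ≤ 2 ^ 14 * F d :=
      mul_le_mul_of_nonneg_left h2 (by positivity)
    have h4 : (lk32 T (m - 1) : ℝ) ≤ (lk32 T (4 - 1) : ℝ) := by
      have h5 : lk32 T (m - 1) ≤ lk32 T (4 - 1) := by
        have h6 : m = 1 ∨ m = 2 ∨ m = 3 := by omega
        rcases h6 with rfl | rfl | rfl
        · exact Nat.le_of_ble_eq_true a1
        · exact Nat.le_of_ble_eq_true a2
        · exact Nat.le_of_ble_eq_true a3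
      exact_mod_cast h5
    linarith

theorem ts_up {T : ℕ} (h : tabF T = true) (m : ℕ) (hm4 : 4 ≤ m) (d : ℝ)
    (hd : (m : ℝ) / 1024 ≤ d) (hd2 : d < 2 * π) :
    2 ^ 14 * F d ≤ (lk32 T (m - 1) : ℝ) + 1 - 2 ^ 31 := by
  unfold tabF at h
  obtain ⟨a1, h⟩ := ts_cnd_and h
  obtain ⟨a2, h⟩ := ts_cnd_and h
  obtain ⟨a3, h⟩ := ts_cnd_and h
  obtain ⟨a4, h⟩ := ts_cnd_and h
  obtain ⟨a5, h⟩ := ts_cnd_and h
  obtain ⟨a6, h⟩ := ts_cnd_and h
  have hall := ts_allR _ _ _ h
  have hπ := Real.pi_gt_d6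
  have hπ2 := Real.pi_lt_d4
  have hm0 : (4 : ℝ) ≤ m := by exact_mod_cast hm4
  have hm33 : m ≤ 6433 := by
    by_contra hlt
    push Not at hlt
    have h1 : (6434 : ℝ) ≤ m := by exact_mod_cast hlt
    have h2 : (6434 : ℝ) / 1024 ≤ (m : ℝ) / 1024 := by
      apply div_le_div_of_nonneg_right h1
      positivity
    norm_num at h2
    linarith
  by_cases hm : m ≤ 6430
  · have hmR : (m : ℝ) ≤ 6430 := by exact_mod_cast hm
    have h1 := (ts_F (hall m hm4 (by omega)) hm4 hm).2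
    have h2 : F d ≤ F ((m : ℝ) / 1024) := by
      apply F_strictAnti.antitoneOn _ _ hd
      · exact ⟨by positivity, by linarith⟩
      · refine ⟨lt_of_lt_of_le (by positivity) hd, hd2⟩
    have h3 : (2 : ℝ) ^ 14 * F d ≤ 2 ^ 14 * F ((m : ℝ) / 1024) :=
      mul_le_mul_of_nonneg_left h2 (by positivity)
    linarith
  · have h1 := (ts_F (hall 6430 (by omega) (by omega)) (by omega) le_rfl).2
    have hm31 : (6431 : ℝ) ≤ m := by
      have : 6431 ≤ m := by omega
      exact_mod_cast this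
    have h2 : F d ≤ F (((6430 : ℕ) : ℝ) / 1024) := by
      apply F_strictAnti.antitoneOn _ _ _
      · constructor
        · norm_num
        · push_cast
          linarith
      · exact ⟨lt_of_lt_of_le (by positivity) hd, hd2⟩
      · push_cast
        linarith
    have h3 : (2 : ℝ) ^ 14 * F d ≤ 2 ^ 14 * F (((6430 : ℕ) : ℝ) / 1024) :=
      mul_le_mul_of_nonneg_left h2 (by positivity)
    have h4 : (lk32 T (6430 - 1) : ℝ) ≤ (lk32 T (m - 1) : ℝ) := by
      have h5 : lk32 T (6430 - 1) ≤ lk32 T (m - 1) := by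
        have h6 : m = 6431 ∨ m = 6432 ∨ m = 6433 := by omega
        rcases h6 with rfl | rfl | rfl
        · exact Nat.le_of_ble_eq_true a4
        · exact Nat.le_of_ble_eq_true a5
        · exact Nat.le_of_ble_eq_true a6
      exact_mod_cast h5
    linarith

theorem ts_snOk {SN p : ℕ} (h : snOk SN p = true) (hp1 : 880 ≤ p) (hp2 : p ≤ 7312) :
    ((lk16 SN p : ℝ) - 2 ^ 14) ≤ 2 ^ 14 * sin (pos p) := by
  unfold snOk at h
  rcases ts_cnd_or h with ⟨hb, h'⟩ | ⟨hb, h'⟩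
  · have hb' : 4096 ≤ p := Nat.le_of_ble_eq_true hb
    obtain ⟨X, hX⟩ : ∃ X : ℕ, X = 2 * (p - 4096) := ⟨_, rfl⟩
    have hX6 : X * 2048 ≤ 6433 * 2 ^ 11 := by
      clear h h'
      norm_num
      omega
    have hX' : X + 8192 = 2 * p := by
      clear h h'
      omega
    have hpos : pos p = (X : ℝ) / 2 ^ 11 := by
      have hXR : (X : ℝ) + 8192 = 2 * p := by exact_mod_cast hX'
      unfold pos
      norm_num
      linarith
    have h'' := Nat.le_of_ble_eq_true h'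
    simp only [ts_add, ts_mul, ts_sub, ts_pow, ts_succ] at h''
    rw [← hX] at h''
    obtain ⟨s1, -⟩ := sI_spec 11 X hX6
    clear h h' hb hb' hX hX6 hX'
    rw [hpos]
    generalize sI 11 X = S at *
    generalize lk16 SN p = t at *
    have h3 : (t - 16384) * 2 ^ 46 ≤ S := h''
    have hS : (0 : ℝ) ≤ S := Nat.cast_nonneg S
    rcases le_total 16384 t with ht | ht
    · obtain ⟨u, rfl⟩ := Nat.exists_eq_add_of_le ht
      have e1 : 16384 + u - 16384 = u := by omega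
      rw [e1] at h3
      have h3' : (u : ℝ) * 2 ^ 46 ≤ S := by exact_mod_cast h3
      push_cast
      clear h3 h''
      linarith
    · have ht' : (t : ℝ) ≤ 16384 := by exact_mod_cast ht
      clear h3 h''
      linarith
  · have hb' : p < 4096 := by
      by_contra hle
      push Not at hle
      have := Nat.ble_eq_true_of_le hle
      rw [hb] at this
      exact absurd this Bool.false_ne_true
    obtain ⟨X, hX⟩ : ∃ X : ℕ, X = 2 * (4096 - p) := ⟨_, rfl⟩
    have hX6 : X * 2048 ≤ 6433 * 2 ^ 11 := by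
      clear h h'
      norm_num
      omega
    have hX' : X + 2 * p = 8192 := by
      clear h h'
      omega
    have hpos : pos p = -((X : ℝ) / 2 ^ 11) := by
      have hXR : (X : ℝ) + 2 * p = 8192 := by exact_mod_cast hX'
      unfold pos
      norm_num
      linarith
    have h'' := Nat.le_of_ble_eq_true h'
    simp only [ts_add, ts_mul, ts_sub, ts_pow, ts_succ] at h''
    rw [← hX] at h''
    obtain ⟨-, s2⟩ := sI_spec 11 X hX6
    clear h h' hb hb' hX hX6 hX'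
    rw [hpos, sin_neg]
    generalize sI 11 X = S at *
    generalize lk16 SN p = t at *
    have h3 : S + 2 ≤ (16384 - t) * 2 ^ 46 := h''
    have ht : t ≤ 16384 := by
      by_contra hlt
      push Not at hlt
      have : 16384 - t = 0 := by omega
      rw [this] at h3
      omega
    obtain ⟨u, hu⟩ := Nat.exists_eq_add_of_le ht
    have e1 : 16384 - t = u := by omega
    rw [e1] at h3
    have h3' : (S : ℝ) + 2 ≤ u * 2 ^ 46 := by exact_mod_cast h3
    have hur : (16384 : ℝ) = t + u := by exact_mod_cast hu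
    clear h3 h''
    linarith

theorem ts_neg_one (x : ℝ) : (-(2 : ℝ) ^ 14) ≤ 2 ^ 14 * sin x := by
  have := neg_one_le_sin x
  nlinarith

theorem ts_shift {SN p Z : ℕ} (h : Nat.shiftRight SN Z = 0) (hZ : Z ≤ 16 * p) :
    Nat.shiftRight SN (Nat.mul 16 p) = 0 := by
  have h8 : SN >>> (16 * p) = 0 := by
    have h7 : SN >>> Z = 0 := h
    rw [Nat.shiftRight_eq_div_pow] at h7 ⊢
    rw [Nat.div_eq_zero_iff] at h7 ⊢
    rcases h7 with h7 | h7
    · exact absurd h7 (by positivity)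
    · right
      exact lt_of_lt_of_le h7 (Nat.pow_le_pow_right (by norm_num) hZ)
  exact h8

theorem ts_sn {SN : ℕ} (h : tabS SN = true) (p : ℕ) :
    ((lk16 SN p : ℝ) - 2 ^ 14) ≤ 2 ^ 14 * sin (pos p) := by
  obtain ⟨a1, b2, a3, b4, b5⟩ := ts_tabS_nat h
  have b1 := ts_allR (fun p => Nat.beq (lk16 SN p) 0) 0 879 a1
  have b3 := ts_allR (snOk SN) 880 6433 a3
  clear a1 a3 h
  have hπ := Real.pi_gt_d6
  have hπ2 := Real.pi_lt_d4
  by_cases h1 : p < 879
  · have h2 : lk16 SN p = 0 := Nat.eq_of_beq_eq_true (b1 p (Nat.zero_le _) (by omega))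
    rw [h2]
    have := ts_neg_one (pos p)
    push_cast
    linarith
  by_cases h2 : p = 879
  · subst h2
    have h3 : (lk16 SN 879 : ℝ) ≤ 16384 := by exact_mod_cast b2
    have h4 : 0 ≤ sin (pos 879) := by
      have e : pos 879 = -(3217 / 1024) := by
        unfold pos
        norm_num
      rw [e, sin_neg]
      have h5 : 0 ≤ sin (3217 / 1024 - π) := by
        apply sin_nonneg_of_nonneg_of_le_pi
        · norm_num
          linarith
        · linarith
      rw [sin_sub_pi] at h5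
      exact h5
    nlinarith
  by_cases h3 : p ≤ 7312
  · exact ts_snOk (b3 p (by omega) (by omega)) (by omega) h3
  by_cases h4 : p = 7313
  · subst h4
    have h5 : (lk16 SN 7313 : ℝ) ≤ 16383 := by exact_mod_cast b4
    have e : pos 7313 = 3217 / 1024 := by
      unfold pos
      norm_num
    rw [e]
    have h6 : sin (3217 / 1024 - π) ≤ 3217 / 1024 - π := by
      apply sin_le
      norm_num
      linarith
    rw [sin_sub_pi] at h6
    have h7 : (2 : ℝ) ^ 14 * (3217 / 1024 - π) ≤ 1 := by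
      norm_num
      linarith
    nlinarith
  · have h5 : lk16 SN p = 0 := by
      unfold lk16
      have h6 : Nat.shiftRight SN (Nat.mul 16 p) = 0 := by
        exact ts_shift b5 (by clear b1 b2 b3 b4 b5; omega)
      rw [h6]
      exact Nat.zero_and _
    rw [h5]
    have := ts_neg_one (pos p)
    push_cast
    linarith

theorem ts_cos_one {t : ℕ} (h : 32768 ≤ t) (x : ℝ) : 2 ^ 14 * cos x ≤ (t : ℝ) - 2 ^ 14 := by
  have h1 : (32768 : ℝ) ≤ t := by exact_mod_cast h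
  have h2 := cos_le_one x
  nlinarith

theorem ts_chOk {CH p : ℕ} (h : chOk CH p = true) (hp1 : 879 ≤ p) (hp2 : p ≤ 7313) :
    2 ^ 14 * cos (pos p) ≤ (lk16 CH p : ℝ) - 2 ^ 14 := by
  unfold chOk at h
  rcases ts_cnd_or h with ⟨hb, -⟩ | ⟨-, h'⟩
  · exact ts_cos_one (Nat.le_of_ble_eq_true hb) _
  · obtain ⟨X, hX⟩ : ∃ X : ℕ, X = 2 * ((p - 4096) + (4096 - p)) := ⟨_, rfl⟩
    have hX6 : X * 2048 ≤ 6434 * 2 ^ 11 := by
      clear h h'
      norm_num
      omega
    have hcos : cos (pos p) = cos ((X : ℝ) / 2 ^ 11) := by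
      clear h h'
      rcases le_total 4096 p with hp | hp
      · have hX' : X + 8192 = 2 * p := by omega
        have hXR : (X : ℝ) + 8192 = 2 * p := by exact_mod_cast hX'
        congr 1
        unfold pos
        norm_num
        linarith
      · have hX' : X + 2 * p = 8192 := by omega
        have hXR : (X : ℝ) + 2 * p = 8192 := by exact_mod_cast hX'
        rw [← cos_neg]
        congr 1
        unfold pos
        norm_num
        linarith
    rw [hcos]
    have h'' := Nat.le_of_ble_eq_true h'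
    unfold ad2 at h''
    simp only [ts_add, ts_mul, ts_sub, ts_pow, ts_succ] at h''
    rw [← hX] at h''
    have s := cPM_spec 11 X hX6
    clear h h' hX hX6
    generalize cP 11 X = CP at *
    generalize cM 11 X = CM at *
    generalize lk16 CH p = t at *
    have h3 : CP + (2 + 2 ^ 60) ≤ CM + t * 2 ^ 46 := h''
    have h3' : (CP : ℝ) + (2 + 2 ^ 60) ≤ CM + t * 2 ^ 46 := by exact_mod_cast h3
    obtain ⟨-, s2⟩ := abs_le.1 s
    nlinarith

theorem ts_ch {CH : ℕ} (h : tabC CH = true) (p : ℕ) (hp : p ≤ 8192) :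
    2 ^ 14 * cos (pos p) ≤ (lk16 CH p : ℝ) - 2 ^ 14 := by
  unfold tabC at h
  obtain ⟨a1, h⟩ := ts_cnd_and h
  obtain ⟨a2, h⟩ := ts_cnd_and h
  have b1 := ts_allR (fun p => Nat.ble 32768 (lk16 CH p)) 0 879 a1
  have b2 := ts_allR (chOk CH) 879 6435 a2
  have b3 := ts_allR (fun p => Nat.ble 32768 (lk16 CH p)) 7314 879 h
  by_cases h1 : p < 879
  · exact ts_cos_one (Nat.le_of_ble_eq_true (b1 p (Nat.zero_le _) (by omega))) _
  by_cases h2 : p ≤ 7313
  · exact ts_chOk (b2 p (by omega) (by omega)) (by omega) h2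
  · exact ts_cos_one (Nat.le_of_ble_eq_true (b3 p (by omega) (by omega))) _

/-- TARGET -/
theorem tab_sound {T SN CH : ℕ} (h1 : tabF T = true) (h2 : tabS SN = true) (h3 : tabC CH = true) : Tab T SN CH :=
  ⟨ts_lo h1, ts_up h1, ts_sn h2, ts_ch h3⟩

end Pool.Agent.H443CC
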