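import Mathlib

open Real

namespace Pool.Agent.H443CC

/-- Taylor partial sums of `cos` -/
noncomputable def Ctay (n : ℕ) (x : ℝ) : ℝ := ∑ i ∈ Finset.range n, (-1) ^ i * x ^ (2 * i) / (2 * i).factorial

/-- Taylor partial sums of `sin` -/
noncomputable def Stay (n : ℕ) (x : ℝ) : ℝ := ∑ i ∈ Finset.range n, (-1) ^ i * x ^ (2 * i + 1) / (2 * i + 1).factorial

theorem aux833_nonneg (f f' : ℝ → ℝ) (hd : ∀ x, HasDerivAt f (f' x) x) (h0 : f 0 = 0)
    (hf' : ∀ x, 0 ≤ x → 0 ≤ f' x) (x : ℝ) (hx : 0 ≤ x) : 0 ≤ f x := by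
  have hm : MonotoneOn f (Set.Ici 0) := by
    refine monotoneOn_of_deriv_nonneg (convex_Ici 0) ?_ ?_ ?_
    · exact fun y _ => (hd y).continuousAt.continuousWithinAt
    · exact fun y _ => (hd y).differentiableAt.differentiableWithinAt
    · intro y hy
      rw [interior_Ici] at hy
      rw [(hd y).deriv]
      exact hf' y (le_of_lt hy)
  have := hm (Set.mem_Ici.2 le_rfl) (Set.mem_Ici.2 hx) hx
  rwa [h0] at this

theorem aux833_dS (n : ℕ) (x : ℝ) : HasDerivAt (Stay n) (Ctay n x) x := by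
  unfold Stay Ctay
  refine HasDerivAt.fun_sum (fun i _ => ?_)
  have h1 := ((hasDerivAt_pow (2 * i + 1) x).const_mul ((-1 : ℝ) ^ i)).div_const
    (((2 * i + 1).factorial : ℕ) : ℝ)
  refine h1.congr_deriv ?_
  have h2 : (((2 * i).factorial : ℕ) : ℝ) ≠ 0 := by positivity
  rw [Nat.factorial_succ]
  push_cast
  have h3 : (2 * (i : ℝ) + 1) ≠ 0 := by positivity

  field_simp

theorem aux833_dC (n : ℕ) (x : ℝ) : HasDerivAt (Ctay (n + 1)) (-Stay n x) x := by
  have h0 : Ctay (n + 1) = fun x => (∑ i ∈ Finset.range n,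
      (-1) ^ (i + 1) * x ^ (2 * (i + 1)) / ((2 * (i + 1)).factorial : ℝ)) + 1 := by
    funext x
    unfold Ctay
    rw [Finset.sum_range_succ']
    simp
  rw [h0]
  have h1 : HasDerivAt (fun x : ℝ => (∑ i ∈ Finset.range n,
      (-1) ^ (i + 1) * x ^ (2 * (i + 1)) / ((2 * (i + 1)).factorial : ℝ)))
      (∑ i ∈ Finset.range n, -((-1) ^ i * x ^ (2 * i + 1) / ((2 * i + 1).factorial : ℝ))) x := by
    refine HasDerivAt.fun_sum (fun i _ => ?_)
    have h1 := ((hasDerivAt_pow (2 * (i + 1)) x).const_mul ((-1 : ℝ) ^ (i + 1))).div_const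
      (((2 * (i + 1)).factorial : ℕ) : ℝ)
    refine h1.congr_deriv ?_
    have h2 : (((2 * i + 1).factorial : ℕ) : ℝ) ≠ 0 := by positivity
    have h4 : 2 * (i + 1) = (2 * i + 1) + 1 := by ring
    rw [h4, Nat.factorial_succ]
    push_cast

    have h3 : (2 * (i : ℝ) + 1 + 1) ≠ 0 := by positivity
    field_simp
    ring
  refine (h1.add_const 1).congr_deriv ?_
  unfold Stay
  rw [Finset.sum_neg_distrib]

/-- TARGET: alternating Taylor bounds, all `x ≥ 0`, all `n ≥ 1` -/
theorem tay_sign (n : ℕ) (hn : 1 ≤ n) :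
    (∀ x : ℝ, 0 ≤ x → 0 ≤ (-1) ^ n * (cos x - Ctay n x)) ∧
    (∀ x : ℝ, 0 ≤ x → 0 ≤ (-1) ^ n * (sin x - Stay n x)) := by
  induction n, hn using Nat.le_induction with
  | base =>
    constructor
    · intro x _
      have : Ctay 1 x = 1 := by simp [Ctay]
      rw [this]
      have := cos_le_one x
      linarith
    · intro x hx
      have : Stay 1 x = x := by simp [Stay]
      rw [this]
      have := sin_le hx
      linarith
  | succ n hn ih =>
    have hc : ∀ x : ℝ, 0 ≤ x → 0 ≤ (-1) ^ (n + 1) * (cos x - Ctay (n + 1) x) := by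
      refine aux833_nonneg (fun x => (-1) ^ (n + 1) * (cos x - Ctay (n + 1) x))
        (fun x => (-1) ^ n * (sin x - Stay n x)) (fun x => ?_) ?_ ih.2
      · refine (((hasDerivAt_cos x).sub (aux833_dC n x)).const_mul ((-1 : ℝ) ^ (n + 1))).congr_deriv ?_
        rw [pow_succ]
        ring
      · have : Ctay (n + 1) 0 = 1 := by
          unfold Ctay
          rw [Finset.sum_range_succ']
          simp
        simp only [cos_zero, this, sub_self, mul_zero]
    refine ⟨hc, ?_⟩
    refine aux833_nonneg (fun x => (-1) ^ (n + 1) * (sin x - Stay (n + 1) x))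
      (fun x => (-1) ^ (n + 1) * (cos x - Ctay (n + 1) x)) (fun x => ?_) ?_ hc
    · exact ((hasDerivAt_sin x).sub (aux833_dS (n + 1) x)).const_mul ((-1 : ℝ) ^ (n + 1))
    · have : Stay (n + 1) 0 = 0 := by
        unfold Stay
        simp
      simp only [sin_zero, this, sub_self, mul_zero]

/-- Horner evaluation: `hC m x2 = 1 - x2/(2·... )`: the nested form of `Ctay`.
`hC k j x2 = 1 - x2/((2j+1)(2j+2)) * hC (k-1) (j+1) x2`. -/
noncomputable def hC : ℕ → ℕ → ℝ → ℝ
  | 0, _, _ => 0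
  | k + 1, j, y => 1 - y / ((2 * j + 1) * (2 * j + 2)) * hC k (j + 1) y

noncomputable def hS : ℕ → ℕ → ℝ → ℝ
  | 0, _, _ => 0
  | k + 1, j, y => 1 - y / ((2 * j + 2) * (2 * j + 3)) * hS k (j + 1) y

theorem aux833_hC (k j : ℕ) (y : ℝ) : hC k j y =
    ∑ i ∈ Finset.range k, (-1) ^ i * y ^ i * (2 * j).factorial / (2 * j + 2 * i).factorial := by
  induction k generalizing j with
  | zero => simp [hC]
  | succ k ih =>
    rw [hC, ih, Finset.sum_range_succ', Finset.mul_sum]
    have h0 : (-1 : ℝ) ^ 0 * y ^ 0 * (2 * j).factorial / (2 * j + 2 * 0).factorial = 1 := by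
      have : (((2 * j).factorial : ℕ) : ℝ) ≠ 0 := by positivity
      simp [this]
    rw [h0]
    have h1 : ∀ i ∈ Finset.range k, (-1 : ℝ) ^ (i + 1) * y ^ (i + 1) * (2 * j).factorial /
        (2 * j + 2 * (i + 1)).factorial = -(y / ((2 * j + 1) * (2 * j + 2)) *
        ((-1) ^ i * y ^ i * (2 * (j + 1)).factorial / (2 * (j + 1) + 2 * i).factorial)) := by
      intro i _
      have e1 : 2 * j + 2 * (i + 1) = 2 * (j + 1) + 2 * i := by ring
      have e2 : (2 * (j + 1)).factorial = (2 * j + 1 + 1) * ((2 * j + 1) * (2 * j).factorial) := by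
        rw [show 2 * (j + 1) = (2 * j + 1) + 1 by ring, Nat.factorial_succ, Nat.factorial_succ]
      rw [e1, e2]
      have h3 : (((2 * (j + 1) + 2 * i).factorial : ℕ) : ℝ) ≠ 0 := by positivity
      push_cast
      have h4 : (2 * (j : ℝ) + 1) ≠ 0 := by positivity
      have h5 : (2 * (j : ℝ) + 2) ≠ 0 := by positivity
      field_simp
      ring
    rw [Finset.sum_congr rfl h1, Finset.sum_neg_distrib]
    ring

theorem aux833_hS (k j : ℕ) (y : ℝ) : hS k j y =
    ∑ i ∈ Finset.range k, (-1) ^ i * y ^ i * (2 * j + 1).factorial /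
      (2 * j + 1 + 2 * i).factorial := by
  induction k generalizing j with
  | zero => simp [hS]
  | succ k ih =>
    rw [hS, ih, Finset.sum_range_succ', Finset.mul_sum]
    have h0 : (-1 : ℝ) ^ 0 * y ^ 0 * (2 * j + 1).factorial / (2 * j + 1 + 2 * 0).factorial = 1 := by
      have : (((2 * j + 1).factorial : ℕ) : ℝ) ≠ 0 := by positivity
      simp [this]
    rw [h0]
    have h1 : ∀ i ∈ Finset.range k, (-1 : ℝ) ^ (i + 1) * y ^ (i + 1) * (2 * j + 1).factorial /
        (2 * j + 1 + 2 * (i + 1)).factorial = -(y / ((2 * j + 2) * (2 * j + 3)) *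
        ((-1) ^ i * y ^ i * (2 * (j + 1) + 1).factorial / (2 * (j + 1) + 1 + 2 * i).factorial)) := by
      intro i _
      have e1 : 2 * j + 1 + 2 * (i + 1) = 2 * (j + 1) + 1 + 2 * i := by ring
      have e2 : (2 * (j + 1) + 1).factorial
          = (2 * j + 2 + 1) * ((2 * j + 1 + 1) * (2 * j + 1).factorial) := by
        rw [show 2 * (j + 1) + 1 = (2 * j + 2) + 1 by ring, Nat.factorial_succ,
          show 2 * j + 2 = (2 * j + 1) + 1 by ring, Nat.factorial_succ]
      rw [e1, e2]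
      have h3 : (((2 * (j + 1) + 1 + 2 * i).factorial : ℕ) : ℝ) ≠ 0 := by positivity
      push_cast
      have h4 : (2 * (j : ℝ) + 3) ≠ 0 := by positivity
      have h5 : (2 * (j : ℝ) + 2) ≠ 0 := by positivity
      field_simp
      ring
    rw [Finset.sum_congr rfl h1, Finset.sum_neg_distrib]
    ring

/-- TARGET -/
theorem Ctay_horner (n : ℕ) (x : ℝ) : Ctay n x = hC n 0 (x ^ 2) := by
  rw [aux833_hC, Ctay]
  refine Finset.sum_congr rfl (fun i _ => ?_)
  simp [pow_mul]

/-- TARGET -/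
theorem Stay_horner (n : ℕ) (x : ℝ) : Stay n x = x * hS n 0 (x ^ 2) := by
  rw [aux833_hS, Stay, Finset.mul_sum]
  refine Finset.sum_congr rfl (fun i _ => ?_)
  have h1 : 2 * 0 + 1 + 2 * i = 2 * i + 1 := by ring
  rw [h1, pow_succ, pow_mul]
  simp
  ring

end Pool.Agent.H443CC
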