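import Pool.Agent.H443CC.Eng1B

/-!
# From quasi-periodic sequences to lists of angles in a window
-/

open Real

namespace Pool.Agent.H443CC

theorem aux833_sum (f : ℕ → ℝ) (n : ℕ) :
    ∑ k ∈ Finset.range n, f k = ((List.range n).map f).sum := by
  induction n with
  | zero => simp
  | succ n ih =>
    rw [Finset.sum_range_succ, List.range_succ, List.map_append, List.sum_append, ih]
    simp

/-- the window of angles -/
theorem aux833_eqs {N m : ℕ} {θ t : ℕ → ℝ} {c : ℤ}
    (ht : ∀ i, t i = θ (i + m) - (c : ℝ) * (2 * π))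
    (hper : ∀ i, θ (i + N) = θ i + 2 * π)
    {r : ℝ} (heq : ∀ i, ∑ k ∈ Finset.Ico 1 N, F (dd θ i k) = -r * sin (θ i))
    (a : List ℝ) (x : ℝ) (b : List ℝ) (h : (List.range N).map t = a ++ x :: b) :
    (b.map (fun z => F (z - x))).sum - (a.map (fun z => F (x - z))).sum + r * sin x = 0 := by
  obtain ⟨i, hi⟩ : ∃ i, i = a.length := ⟨_, rfl⟩
  have hlen : N = i + (b.length + 1) := by
    have := congrArg List.length h
    simp only [List.length_map, List.length_range, List.length_append, List.length_cons] at this
    rw [hi]; exact this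
  have hget : ∀ k (hk : k < N), (a ++ x :: b)[k]? = some (t k) := by
    intro k hk
    rw [← h]
    simp [hk]
  have hx : x = t i := by
    have h1 := hget i (by omega)
    rw [List.getElem?_append_right (by omega)] at h1
    rw [← hi, Nat.sub_self] at h1
    simpa using h1
  have ha : a = (List.range i).map t := by
    apply List.ext_getElem?
    intro k
    by_cases hk : k < i
    · have h1 := hget k (by omega)
      rw [List.getElem?_append_left (by omega)] at h1
      rw [h1]
      simp [hk]
    · rw [List.getElem?_eq_none (by omega), List.getElem?_eq_none]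
      rw [List.length_map, List.length_range]; omega
  have hb : b = (List.range (N - i - 1)).map (fun j => t (i + (1 + j))) := by
    apply List.ext_getElem?
    intro k
    by_cases hk : k < b.length
    · have h1 := hget (i + (1 + k)) (by omega)
      rw [List.getElem?_append_right (by omega)] at h1
      have h2 : i + (1 + k) - a.length = k + 1 := by omega
      rw [h2, List.getElem?_cons_succ] at h1
      rw [h1]
      have h3 : k < N - i - 1 := by omega
      simp [h3]
    · rw [List.getElem?_eq_none (by omega), List.getElem?_eq_none]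
      rw [List.length_map, List.length_range]; omega
  have h0 := heq (i + m)
  have hsin : sin (θ (i + m)) = sin (t i) := by
    rw [ht i, Real.sin_sub_int_mul_two_pi]
  have hdd : ∀ k, dd θ (i + m) k = t (i + k) - t i := by
    intro k
    unfold dd
    rw [ht, ht]
    have : i + m + k = i + k + m := by omega
    rw [this]; ring
  have htper : ∀ j, t (j + N) = t j + 2 * π := by
    intro j
    rw [ht, ht]
    have : j + N + m = j + m + N := by omega
    rw [this, hper]; ring
  rw [hsin] at h0
  simp only [hdd] at h0
  rw [← Finset.sum_Ico_consecutive _ (show 1 ≤ N - i by omega) (show N - i ≤ N by omega)] at h0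
  rw [Finset.sum_Ico_eq_sum_range, Finset.sum_Ico_eq_sum_range] at h0
  have h2 : ∑ k ∈ Finset.range (N - (N - i)), F (t (i + (N - i + k)) - t i) =
      - ∑ k ∈ Finset.range i, F (t i - t k) := by
    have e : N - (N - i) = i := by omega
    rw [e, ← Finset.sum_neg_distrib]
    refine Finset.sum_congr rfl (fun k hk => ?_)
    have e2 : i + (N - i + k) = k + N := by omega
    rw [e2, htper, ← F_reflect]
    congr 1; ring
  rw [h2] at h0
  have hbs : (b.map (fun z => F (z - x))).sum =
      ∑ k ∈ Finset.range (N - i - 1), F (t (i + (1 + k)) - t i) := by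
    rw [hb, hx, List.map_map, aux833_sum]
    rfl
  have has : (a.map (fun z => F (x - z))).sum = ∑ k ∈ Finset.range i, F (t i - t k) := by
    rw [ha, hx, List.map_map, aux833_sum]
    rfl
  rw [hbs, has, hx]
  linarith

/-- TARGET -/
theorem exists_sol {N : ℕ} {θ : ℕ → ℝ} (hN : 2 ≤ N) (hmono : StrictMono θ) (hper : ∀ i, θ (i + N) = θ i + 2 * π)
    {r : ℝ} (hcos : ∑ i ∈ Finset.range N, cos (θ i) = r)
    (heq : ∀ i, ∑ k ∈ Finset.Ico 1 N, F (dd θ i k) = -r * sin (θ i)) :
    ∃ xs : List ℝ, xs.length = N ∧ Sol r xs ∧ ∀ (s : ℝ), xs.getLast? = some s → ∀ x ∈ xs, |x| ≤ s := by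
  have hpi : 0 < 2 * π := by positivity
  obtain ⟨M, hM⟩ : ∃ M : ℕ, θ 0 < 2 * π * M + π := by
    obtain ⟨M, hM⟩ := exists_nat_gt (θ 0 / (2 * π))
    refine ⟨M, ?_⟩
    rw [div_lt_iff₀ hpi] at hM
    have : 0 < π := Real.pi_pos
    linarith
  have hq : ∀ q : ℕ, θ (q * N) = θ 0 + 2 * π * q := by
    intro q
    induction q with
    | zero => simp
    | succ q ih =>
      rw [Nat.succ_mul, hper, ih]; push_cast; ring
  have hex : ∃ m : ℕ, 2 * π * M + π ≤ θ m := by
    obtain ⟨q, hq2⟩ := exists_nat_gt ((2 * π * M + π - θ 0) / (2 * π))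
    refine ⟨q * N, ?_⟩
    rw [hq]
    rw [div_lt_iff₀ hpi] at hq2
    linarith
  obtain ⟨m, hm1, hm2⟩ : ∃ m : ℕ, 2 * π * M + π ≤ θ m ∧ ∀ k < m, θ k < 2 * π * M + π := by
    classical
    refine ⟨Nat.find hex, Nat.find_spec hex, fun k hk => ?_⟩
    exact not_le.1 (Nat.find_min hex hk)
  have hm0 : m ≠ 0 := by
    intro h
    rw [h] at hm1
    linarith
  obtain ⟨t, ht⟩ : ∃ t : ℕ → ℝ, ∀ i, t i = θ (i + m) - (((M : ℤ) + 1 : ℤ) : ℝ) * (2 * π) :=
    ⟨_, fun i => rfl⟩
  have htmono : StrictMono t := by
    intro i j hij
    rw [ht, ht]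
    have := hmono (show i + m < j + m by omega)
    linarith
  have htper : ∀ j, t (j + N) = t j + 2 * π := by
    intro j
    rw [ht, ht]
    have : j + N + m = j + m + N := by omega
    rw [this, hper]; ring
  have htlow : ∀ i, -π ≤ t i := by
    intro i
    have h1 : θ m ≤ θ (i + m) := hmono.monotone (by omega)
    rw [ht]
    push_cast
    linarith
  have hthigh : ∀ i < N, t i < π := by
    intro i hi
    have h1 : θ (i + m) ≤ θ (m - 1 + N) := hmono.monotone (by omega)
    rw [hper] at h1
    have h2 := hm2 (m - 1) (by omega)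
    rw [ht]
    push_cast
    linarith
  obtain ⟨xs0, hxs0⟩ : ∃ xs0 : List ℝ, xs0 = (List.range N).map t := ⟨_, rfl⟩
  have hlen0 : xs0.length = N := by rw [hxs0, List.length_map, List.length_range]
  have hmem : ∀ x ∈ xs0, ∃ i < N, x = t i := by
    intro x hx
    rw [hxs0, List.mem_map] at hx
    obtain ⟨i, hi, hix⟩ := hx
    exact ⟨i, List.mem_range.1 hi, hix.symm⟩
  have hSol : Sol r xs0 := by
    refine ⟨?_, ?_, ?_, ?_, ?_⟩
    · rw [hxs0]
      exact List.Pairwise.map t (fun a b h => htmono h) List.pairwise_lt_range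
    · intro x hx
      obtain ⟨i, hi, rfl⟩ := hmem x hx
      exact ⟨htlow i, (hthigh i hi).le⟩
    · rw [hxs0, List.pairwise_iff_getElem]
      intro i j hi hj hij
      rw [List.getElem_map, List.getElem_map, List.getElem_range, List.getElem_range]
      rw [List.length_map, List.length_range] at hi hj
      have h1 : t j < t (i + N) := htmono (by omega)
      rw [htper] at h1
      linarith
    · intro a x b h
      rw [hxs0] at h
      exact aux833_eqs ht hper heq a x b h
    · rw [hxs0, List.map_map, ← hcos]
      have h1 := sum_shift (N := N) (fun i => cos (θ i)) (fun i => by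
        simp only [hper]
        exact Real.cos_add_two_pi _) m
      rw [← h1, aux833_sum]
      congr 1
      refine List.map_congr_left (fun i _ => ?_)
      simp only [Function.comp]
      rw [ht i, Real.cos_sub_int_mul_two_pi]
  by_cases hcase : -(t 0) ≤ t (N - 1)
  · refine ⟨xs0, hlen0, hSol, ?_⟩
    intro s hs x hx
    have hs2 : s = t (N - 1) := by
      rw [hxs0, List.getLast?_map, List.getLast?_range, if_neg (by omega)] at hs
      simpa using hs.symm
    obtain ⟨i, hi, rfl⟩ := hmem x hx
    have h1 : t 0 ≤ t i := htmono.monotone (by omega)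
    have h2 : t i ≤ t (N - 1) := htmono.monotone (by omega)
    rw [hs2, abs_le]
    exact ⟨by linarith, h2⟩
  · refine ⟨refl xs0, ?_, hSol.reflect, ?_⟩
    · unfold refl
      rw [List.length_reverse, List.length_map, hlen0]
    · intro s hs x hx
      have hs2 : s = -(t 0) := by
        unfold refl at hs
        rw [List.getLast?_reverse, List.head?_map, hxs0, List.head?_map, List.head?_range,
          if_neg (by omega)] at hs
        simpa using hs.symm
      unfold refl at hx
      rw [List.mem_reverse, List.mem_map] at hx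
      obtain ⟨y, hy, rfl⟩ := hx
      obtain ⟨i, hi, rfl⟩ := hmem y hy
      have h1 : t 0 ≤ t i := htmono.monotone (by omega)
      have h2 : t i ≤ t (N - 1) := htmono.monotone (by omega)
      rw [hs2, abs_le]
      exact ⟨by linarith, by linarith⟩

end Pool.Agent.H443CC
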